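import Pool.Agent.Work.MP_b25393_ag.HF.StmtsA

/-!
# MP_b25393_ag, block HF, item A1: integral representatives
-/

set_option autoImplicit false

open scoped LinearAlgebra.Projectivization Pointwise Matrix RealInnerProductSpace ENNReal
open MeasureTheory Filter Topology Matrix

namespace Pool.Agent.Work.MP_b25393_ag.HF

open Pool.Agent.Work.MP_b25393_ag

namespace IA1

theorem four (n : Fin 3 → ℤ) (h : Prm n) : toQ n ≠ 0 := by
  intro h0
  have h1 : ∀ i, (0 : ℤ) ∣ n i := by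
    intro i
    have h3 : (n i : ℚ) = 0 := congrFun h0 i
    have h4 : n i = 0 := by exact_mod_cast h3
    rw [h4]
  exact not_isUnit_zero (h 0 h1)

theorem cop (a : ℚ) : IsCoprime (a.den : ℤ) a.num := by
  rw [Int.isCoprime_iff_gcd_eq_one, Int.gcd_comm]
  exact a.reduced

theorem two (n n' : Fin 3 → ℤ) (hn : Prm n) (hn' : Prm n') (h : toQ n ≠ 0) (h' : toQ n' ≠ 0) :
    Projectivization.mk ℚ (toQ n) h = Projectivization.mk ℚ (toQ n') h' ↔
      n = n' ∨ n = -n' := by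
  rw [Projectivization.mk_eq_mk_iff']
  constructor
  · rintro ⟨a, ha⟩
    have h1 : ∀ i, (a.den : ℤ) * n i = a.num * n' i := by
      intro i
      have h2 : a * (n' i : ℚ) = (n i : ℚ) := congrFun ha i
      have h3 : (a.den : ℚ) * (n i : ℚ) = (a.num : ℚ) * (n' i : ℚ) := by
        rw [← h2, ← mul_assoc, mul_comm (a.den : ℚ) a, Rat.mul_den_eq_num]
      exact_mod_cast h3
    have ht : IsUnit (a.den : ℤ) :=
      hn' _ fun i => (cop a).dvd_of_dvd_mul_left ⟨n i, (h1 i).symm⟩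
    have hs : IsUnit a.num := hn _ fun i => (cop a).symm.dvd_of_dvd_mul_left ⟨n' i, h1 i⟩
    have ht1 : (a.den : ℤ) = 1 := by
      rcases Int.isUnit_iff.1 ht with h2 | h2
      · exact h2
      · have h3 : (0 : ℤ) ≤ (a.den : ℤ) := Int.natCast_nonneg _
        omega
    rcases Int.isUnit_iff.1 hs with h2 | h2
    · left
      funext i
      have h3 := h1 i
      rw [ht1, h2, one_mul, one_mul] at h3
      exact h3
    · right
      funext i
      have h3 := h1 i
      rw [ht1, h2, one_mul, neg_one_mul] at h3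
      exact h3
  · rintro (h1 | h1)
    · exact ⟨1, by rw [one_smul, h1]⟩
    · refine ⟨-1, ?_⟩
      funext i
      rw [h1]
      show (-1 : ℚ) * (n' i : ℚ) = (((-n') i : ℤ) : ℚ)
      rw [Pi.neg_apply]
      push_cast
      ring

theorem one (p : Str.PP ℚ) :
    ∃ n : Fin 3 → ℤ, Prm n ∧ ∃ h : toQ n ≠ 0, p = Projectivization.mk ℚ (toQ n) h := by
  obtain ⟨w, hw⟩ : ∃ w : Fin 3 → ℚ, w = p.rep := ⟨_, rfl⟩
  obtain ⟨D, hD⟩ : ∃ D : ℕ, D = ∏ i, (w i).den := ⟨_, rfl⟩
  have hD0 : (D : ℚ) ≠ 0 := by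
    rw [hD]
    exact_mod_cast Finset.prod_ne_zero_iff.2 fun i _ => (w i).den_ne_zero
  have h1 : ∀ i, ∃ z : ℤ, (z : ℚ) = D * w i := by
    intro i
    obtain ⟨q, hq⟩ : (w i).den ∣ D := by
      rw [hD]
      exact Finset.dvd_prod_of_mem (fun i => (w i).den) (Finset.mem_univ i)
    refine ⟨(w i).num * q, ?_⟩
    have h2 : w i * ((w i).den : ℚ) = (w i).num := Rat.mul_den_eq_num (w i)
    rw [hq]
    push_cast
    rw [← h2]
    ring
  choose z hz using h1
  obtain ⟨n, hn, hg⟩ := Finset.extract_gcd z (Finset.univ_nonempty (α := Fin 3))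
  have hP : Prm n := by
    intro d hd
    have h2 : d ∣ Finset.univ.gcd n := Finset.dvd_gcd fun i _ => hd i
    rw [hg] at h2
    exact isUnit_of_dvd_one h2
  refine ⟨n, hP, four n hP, ?_⟩
  rw [← p.mk_rep, Projectivization.mk_eq_mk_iff']
  refine ⟨(Finset.univ.gcd z : ℤ) / (D : ℚ), ?_⟩
  rw [← hw]
  funext i
  show ((Finset.univ.gcd z : ℤ) : ℚ) / (D : ℚ) * (n i : ℚ) = w i
  have h2 : ((Finset.univ.gcd z : ℤ) : ℚ) * (n i : ℚ) = D * w i := by
    rw [← hz i, hn i (Finset.mem_univ i)]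
    push_cast
    ring
  rw [div_mul_eq_mul_div, h2, mul_comm, mul_div_assoc, div_self hD0, mul_one]

theorem three (n v : Fin 3 → ℤ) (h : toQ n ≠ 0) (h' : toQ v ≠ 0) :
    Str.inc (Projectivization.mk ℚ (toQ n) h) (Projectivization.mk ℚ (toQ v) h') ↔
      n ⬝ᵥ v = 0 := by
  rw [Str.inc_mk_mk]
  have h1 : ∑ i, toQ n i * toQ v i = ((n ⬝ᵥ v : ℤ) : ℚ) := by
    unfold dotProduct toQ
    push_cast
    rfl
  rw [h1, Int.cast_eq_zero]

end IA1

theorem pr_A1 : St_A1 :=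
  ⟨IA1.one, fun n n' hn hn' h h' => IA1.two n n' hn hn' h h', IA1.three, IA1.four⟩

end Pool.Agent.Work.MP_b25393_ag.HF
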