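import Pool.Agent.Work.MP_b25393_ag.HF.StmtsA

/-!
# MP_b25393_ag, block HF, item A2: lines through a point
-/

set_option autoImplicit false

open scoped LinearAlgebra.Projectivization Pointwise Matrix RealInnerProductSpace ENNReal
open MeasureTheory Filter Topology Matrix

namespace Pool.Agent.Work.MP_b25393_ag.HF

open Pool.Agent.Work.MP_b25393_ag

namespace IA2

/-- the line with coefficient vector `v` -/
noncomputable def ln (v : Fin 3 → ℤ) : Str.PP ℚ :=
  open Classical in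
  if h : toQ v ≠ 0 then Projectivization.mk ℚ (toQ v) h
  else Projectivization.mk ℚ (fun _ => (1 : ℚ)) (fun h => one_ne_zero (congrFun h 0))

lemma ln_eq (v : Fin 3 → ℤ) (h : toQ v ≠ 0) : ln v = Projectivization.mk ℚ (toQ v) h := by
  unfold ln
  rw [dif_pos h]

lemma toR_neg (v : Fin 3 → ℤ) : toR (-v) = -toR v := by
  funext i
  simp [toR]

lemma Prm_neg {v : Fin 3 → ℤ} (h : Prm v) : Prm (-v) := by
  intro d hd
  refine h d fun i => ?_
  have := hd i
  rw [Pi.neg_apply, dvd_neg] at this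
  exact this

lemma ne_neg {v : Fin 3 → ℤ} (h : toQ v ≠ 0) : v ≠ -v := by
  intro e
  apply h
  funext i
  have h1 := congrFun e i
  rw [Pi.neg_apply] at h1
  have h2 : v i = 0 := by omega
  simp [toQ, h2]

lemma two_to_one (hA1 : St_A1) (T : Set (Fin 3 → ℤ)) (hT : T.Finite) (hP : ∀ v ∈ T, Prm v)
    (hneg : ∀ v ∈ T, -v ∈ T) (B : Finset (Str.PP ℚ))
    (hB : ∀ L, L ∈ B ↔ ∃ v ∈ T, ∃ h : toQ v ≠ 0, L = Projectivization.mk ℚ (toQ v) h) :
    2 * B.card = T.ncard := by
  classical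
  obtain ⟨-, h2, -, h4⟩ := hA1
  rw [Set.ncard_eq_toFinset_card T hT]
  have hmaps : ∀ v ∈ hT.toFinset, ln v ∈ B := by
    intro v hv
    rw [Set.Finite.mem_toFinset] at hv
    rw [hB]
    exact ⟨v, hv, h4 v (hP v hv), ln_eq v _⟩
  have key := Finset.card_eq_sum_card_fiberwise (f := ln) (s := hT.toFinset) (t := B)
    (fun v hv => hmaps v (Finset.mem_coe.1 hv))
  rw [key]
  have hf : ∀ L ∈ B, (hT.toFinset.filter (fun a => ln a = L)).card = 2 := by
    intro L hL
    obtain ⟨v, hv, hv0, rfl⟩ := (hB L).1 hL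
    have e : hT.toFinset.filter (fun a => ln a = Projectivization.mk ℚ (toQ v) hv0) =
        {v, -v} := by
      ext a
      rw [Finset.mem_filter, Set.Finite.mem_toFinset, Finset.mem_insert, Finset.mem_singleton]
      constructor
      · rintro ⟨ha, hav⟩
        have ha0 := h4 a (hP a ha)
        rw [ln_eq a ha0, h2 a v (hP a ha) (hP v hv) ha0 hv0] at hav
        exact hav
      · intro h
        have ha : a ∈ T := by
          rcases h with h | h
          · rw [h]; exact hv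
          · rw [h]; exact hneg v hv
        refine ⟨ha, ?_⟩
        have ha0 := h4 a (hP a ha)
        rw [ln_eq a ha0, h2 a v (hP a ha) (hP v hv) ha0 hv0]
        exact h
    rw [e, Finset.card_pair (ne_neg hv0)]
  rw [Finset.sum_congr rfl hf, Finset.sum_const, smul_eq_mul, mul_comm]

end IA2

theorem pr_A2 (hA1 : St_A1) : St_A2 := by
  intro C hC hfin A hA
  have h3 := hA1.2.2.1
  have hneg : ∀ v : Fin 3 → ℤ, toR v ∈ C → toR (-v) ∈ C := by
    intro v hv
    rw [IA2.toR_neg]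
    exact hC _ hv
  refine ⟨?_, ?_⟩
  · refine IA2.two_to_one hA1 (S1 C) hfin (fun v hv => hv.1)
      (fun v hv => ⟨IA2.Prm_neg hv.1, hneg v hv.2⟩) A ?_
    intro L
    rw [hA]
    constructor
    · rintro ⟨v, hv, hvC, h, rfl⟩
      exact ⟨v, ⟨hv, hvC⟩, h, rfl⟩
    · rintro ⟨v, ⟨hv, hvC⟩, h, rfl⟩
      exact ⟨v, hv, hvC, h, rfl⟩
  · intro n hn h
    have hsub : S1n C n ⊆ S1 C := fun v hv => ⟨hv.1, hv.2.1⟩
    unfold Str.mult
    refine IA2.two_to_one hA1 (S1n C n) (hfin.subset hsub) (fun v hv => hv.1) ?_ _ ?_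
    · intro v hv
      refine ⟨IA2.Prm_neg hv.1, hneg v hv.2.1, ?_⟩
      rw [dotProduct_neg, hv.2.2, neg_zero]
    · intro L
      refine (@Finset.mem_filter _ _ (_) _ _).trans ?_
      rw [hA]
      constructor
      · rintro ⟨⟨v, hv, hvC, hv0, rfl⟩, hi⟩
        rw [h3 n v h hv0] at hi
        exact ⟨v, ⟨hv, hvC, hi⟩, hv0, rfl⟩
      · rintro ⟨v, ⟨hv, hvC, hi⟩, hv0, rfl⟩
        refine ⟨⟨v, hv, hvC, hv0, rfl⟩, ?_⟩
        rw [h3 n v h hv0]
        exact hi

end Pool.Agent.Work.MP_b25393_ag.HF
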