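import Pool.Agent.Work.MP_b25393_ag.HF.StmtsA

/-!
# MP_b25393_ag, block HF, item A4: the arrangements are nondegenerate
-/

set_option autoImplicit false

open scoped LinearAlgebra.Projectivization Pointwise Matrix RealInnerProductSpace ENNReal
open MeasureTheory Filter Topology Matrix

namespace Pool.Agent.Work.MP_b25393_ag.HF

open Pool.Agent.Work.MP_b25393_ag

namespace IA4

/-- A symmetric convex body contains a ball around the origin. -/
lemma ball_subset {K : Set (Fin 3 → ℝ)} (hK : Body K) :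
    ∃ r : ℝ, 0 < r ∧ ∀ y : Fin 3 → ℝ, ‖y‖ < r → y ∈ K := by
  obtain ⟨x, hx⟩ := hK.inte
  obtain ⟨r, hr, hball⟩ := Metric.isOpen_iff.1 isOpen_interior x hx
  refine ⟨r, hr, fun y hy => ?_⟩
  have h1 : x + y ∈ K := by
    apply interior_subset
    apply hball
    rw [Metric.mem_ball, dist_eq_norm]
    simpa using hy
  have h2 : x - y ∈ K := by
    apply interior_subset
    apply hball
    rw [Metric.mem_ball, dist_eq_norm]
    simpa using hy
  have h3 : -(x - y) ∈ K := hK.symm _ h2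
  have h4 : (1 / 2 : ℝ) • (x + y) + (1 / 2 : ℝ) • (-(x - y)) ∈ K :=
    hK.conv h1 h3 (by norm_num) (by norm_num) (by norm_num)
  have h5 : (1 / 2 : ℝ) • (x + y) + (1 / 2 : ℝ) • (-(x - y)) = y := by
    funext i
    simp only [Pi.add_apply, Pi.smul_apply, Pi.neg_apply, Pi.sub_apply, smul_eq_mul]
    ring
  rwa [h5] at h4

open scoped Classical in
lemma mem_off {F : Type*} [Field F] (A : Finset (Str.PP F)) (P L : Str.PP F) :
    L ∈ Str.off A P ↔ L ∈ A ∧ ¬ Str.inc P L := by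
  unfold Str.off
  exact Finset.mem_filter

/-- The six vectors. -/
def w : Fin 6 → Fin 3 → ℤ := ![![1, 0, 0], ![0, 1, 0], ![0, 0, 1], ![1, 1, 0], ![1, 0, 1], ![0, 1, 1]]

lemma w_inj : ∀ k k' : Fin 6, w k = w k' ∨ w k = -w k' → k = k' := by decide

lemma w_abs : ∀ (k : Fin 6) (i : Fin 3), |w k i| ≤ 1 := by decide

lemma w_one : ∀ k : Fin 6, ∃ i : Fin 3, w k i = 1 := by decide

lemma w_prm (k : Fin 6) : Prm (w k) := by
  intro d hd
  obtain ⟨i, hi⟩ := w_one k
  have h := hd i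
  rw [hi] at h
  exact isUnit_of_dvd_one h

lemma w_mem {K : Set (Fin 3 → ℝ)} {r : ℝ} (hr : ∀ y : Fin 3 → ℝ, ‖y‖ < r → y ∈ K)
    {R : ℝ} (hR : 0 < R) (hRr : 1 < r * R) (k : Fin 6) : toR (w k) ∈ R • K := by
  refine ⟨R⁻¹ • toR (w k), hr _ ?_, ?_⟩
  · have h1 : ‖toR (w k)‖ ≤ 1 := by
      rw [pi_norm_le_iff_of_nonneg (by norm_num)]
      intro i
      unfold toR
      rw [Real.norm_eq_abs, ← Int.cast_abs]
      exact_mod_cast w_abs k i
    rw [norm_smul, norm_inv, Real.norm_of_nonneg hR.le]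
    calc R⁻¹ * ‖toR (w k)‖ ≤ R⁻¹ * 1 := mul_le_mul_of_nonneg_left h1 (by positivity)
      _ < r := by
          rw [mul_one, inv_lt_iff_one_lt_mul₀ hR]
          exact hRr
  · show R • (R⁻¹ • toR (w k)) = toR (w k)
    rw [smul_smul, mul_inv_cancel₀ hR.ne', one_smul]

/-- A nonzero vector is orthogonal to at most four of the six vectors. -/
lemma two_off (n : Fin 3 → ℤ) (hn : n ≠ 0) :
    ∃ k k' : Fin 6, k ≠ k' ∧ n ⬝ᵥ w k ≠ 0 ∧ n ⬝ᵥ w k' ≠ 0 := by
  have e0 : n ⬝ᵥ w 0 = n 0 := by simp [w, dotProduct, Fin.sum_univ_three]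
  have e1 : n ⬝ᵥ w 1 = n 1 := by simp [w, dotProduct, Fin.sum_univ_three]
  have e2 : n ⬝ᵥ w 2 = n 2 := by simp [w, dotProduct, Fin.sum_univ_three]
  have e3 : n ⬝ᵥ w 3 = n 0 + n 1 := by simp [w, dotProduct, Fin.sum_univ_three]
  have e4 : n ⬝ᵥ w 4 = n 0 + n 2 := by simp [w, dotProduct, Fin.sum_univ_three]
  have e5 : n ⬝ᵥ w 5 = n 1 + n 2 := by simp [w, dotProduct, Fin.sum_univ_three]
  have hne : ¬ (n 0 = 0 ∧ n 1 = 0 ∧ n 2 = 0) := by
    rintro ⟨h0, h1, h2⟩
    apply hn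
    funext i
    fin_cases i
    · exact h0
    · exact h1
    · exact h2
  by_cases h0 : n 0 = 0
  · by_cases h1 : n 1 = 0
    · have h2 : n 2 ≠ 0 := fun h2 => hne ⟨h0, h1, h2⟩
      exact ⟨2, 4, by decide, by rw [e2]; exact h2, by rw [e4, h0, zero_add]; exact h2⟩
    · by_cases h2 : n 2 = 0
      · exact ⟨1, 3, by decide, by rw [e1]; exact h1, by rw [e3, h0, zero_add]; exact h1⟩
      · exact ⟨1, 2, by decide, by rw [e1]; exact h1, by rw [e2]; exact h2⟩
  · by_cases h1 : n 1 = 0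
    · exact ⟨0, 3, by decide, by rw [e0]; exact h0, by rw [e3, h1, add_zero]; exact h0⟩
    · exact ⟨0, 1, by decide, by rw [e0]; exact h0, by rw [e1]; exact h1⟩

end IA4

theorem pr_A4 (hA1 : St_A1) : St_A4 := by
  classical
  obtain ⟨ha, hb, hc, hd⟩ := hA1
  intro K hK
  obtain ⟨r, hr, hball⟩ := IA4.ball_subset hK
  filter_upwards [eventually_gt_atTop (0 : ℝ), eventually_gt_atTop (1 / r)] with R hR hRr
  intro A hA
  have hRr' : 1 < r * R := by
    rwa [div_lt_iff₀ hr, mul_comm] at hRr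
  have hne : ∀ k, toQ (IA4.w k) ≠ 0 := fun k => hd _ (IA4.w_prm k)
  let L : Fin 6 → Str.PP ℚ := fun k => Projectivization.mk ℚ (toQ (IA4.w k)) (hne k)
  have hLA : ∀ k, L k ∈ A := fun k =>
    (hA _).2 ⟨IA4.w k, IA4.w_prm k, IA4.w_mem hball hR hRr' k, hne k, rfl⟩
  have hLinj : Function.Injective L := by
    intro k k' h
    exact IA4.w_inj k k' ((hb _ _ (IA4.w_prm k) (IA4.w_prm k') (hne k) (hne k')).1 h)
  refine ⟨?_, fun p => ?_⟩
  · have h1 : (Finset.univ.image L).card ≤ A.card := by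
      refine Finset.card_le_card ?_
      intro x hx
      obtain ⟨k, -, rfl⟩ := Finset.mem_image.1 hx
      exact hLA k
    rw [Finset.card_image_of_injective _ hLinj, Finset.card_univ, Fintype.card_fin] at h1
    omega
  · obtain ⟨n, hn, hn0, rfl⟩ := ha p
    have hnz : n ≠ 0 := by
      rintro rfl
      apply hn0
      funext i
      simp [toQ]
    obtain ⟨k, k', hkk, h1, h2⟩ := IA4.two_off n hnz
    rw [← Str.card_off A (Projectivization.mk ℚ (toQ n) hn0)]
    refine Nat.add_le_add_left ?_ _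
    have hsub : ({L k, L k'} : Finset (Str.PP ℚ)) ⊆ Str.off A (Projectivization.mk ℚ (toQ n) hn0) := by
      intro x hx
      rw [Finset.mem_insert, Finset.mem_singleton] at hx
      rw [IA4.mem_off]
      rcases hx with rfl | rfl
      · exact ⟨hLA k, fun h => h1 ((hc _ _ hn0 (hne k)).1 h)⟩
      · exact ⟨hLA k', fun h => h2 ((hc _ _ hn0 (hne k')).1 h)⟩
    have h3 := Finset.card_le_card hsub
    rwa [Finset.card_pair (fun h => hkk (hLinj h))] at h3

end Pool.Agent.Work.MP_b25393_ag.HF
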