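import Pool.Agent.Work.MP_b25393_ag.HF.StmtsA

/-!
# MP_b25393_ag, block HF, item A5: algebra of the slope
-/

set_option autoImplicit false

open scoped LinearAlgebra.Projectivization Pointwise Matrix RealInnerProductSpace ENNReal
open MeasureTheory Filter Topology Matrix

namespace Pool.Agent.Work.MP_b25393_ag.HF

open Pool.Agent.Work.MP_b25393_ag

namespace IA5

/-- the slope in terms of the three counting functions -/
theorem slope_eq' (A : Finset (Str.PP ℚ)) (P Q : ℕ)
    (h : 16 * Str.f1 A = P + 24 * Str.f0 A ∧ 12 * Str.f1 A = Q + 24 * Str.f0 A) :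
    Str.slope A = (9 - 5 * (A.card : ℝ) + (3 * (P : ℝ) - Q) / 12) /
      (3 - 2 * (A.card : ℝ) + (3 * (P : ℝ) - 2 * Q) / 24) := by
  have h1 : (16 : ℝ) * Str.f1 A = P + 24 * Str.f0 A := by exact_mod_cast h.1
  have h2 : (12 : ℝ) * Str.f1 A = Q + 24 * Str.f0 A := by exact_mod_cast h.2
  unfold Str.slope
  congr 1
  · linarith
  · linarith

theorem tends_pow : Tendsto (fun R : ℝ => (R ^ 6)⁻¹) atTop (𝓝 0) :=
  (tendsto_pow_atTop (by norm_num)).inv_tendsto_atTop

end IA5

theorem pr_A5 : St_A5 := by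
  intro A P Q p q hp hq h hP hQ hA
  have hnum : Tendsto (fun R : ℝ => (9 - 5 * ((A R).card : ℝ) + (3 * (P R : ℝ) - Q R) / 12) / R ^ 6)
      atTop (𝓝 ((3 * p - p * q) / 12)) := by
    have h1 := ((IA5.tends_pow.const_mul 9).sub (hA.const_mul 5)).add
      (((hP.const_mul 3).sub hQ).div_const 12)
    have h2 : (9 * (0 : ℝ) - 5 * 0) + (3 * p - p * q) / 12 = (3 * p - p * q) / 12 := by ring
    rw [h2] at h1
    refine h1.congr fun R => ?_
    ring
  have hden : Tendsto (fun R : ℝ =>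
      (3 - 2 * ((A R).card : ℝ) + (3 * (P R : ℝ) - 2 * Q R) / 24) / R ^ 6)
      atTop (𝓝 ((3 * p - 2 * (p * q)) / 24)) := by
    have h1 := ((IA5.tends_pow.const_mul 3).sub (hA.const_mul 2)).add
      (((hP.const_mul 3).sub (hQ.const_mul 2)).div_const 24)
    have h2 : (3 * (0 : ℝ) - 2 * 0) + (3 * p - 2 * (p * q)) / 24 = (3 * p - 2 * (p * q)) / 24 := by
      ring
    rw [h2] at h1
    refine h1.congr fun R => ?_
    ring
  have hne : (3 * p - 2 * (p * q)) / 24 ≠ 0 := by
    have h3 : 0 < p * (3 - 2 * q) := mul_pos hp (by linarith)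
    have h4 : 0 < (3 * p - 2 * (p * q)) / 24 := by
      have : 3 * p - 2 * (p * q) = p * (3 - 2 * q) := by ring
      rw [this]
      linarith
    exact h4.ne'
  have hlim := hnum.div hden hne
  have h5 : (3 * p - p * q) / 12 / ((3 * p - 2 * (p * q)) / 24) = (6 - 2 * q) / (3 - 2 * q) := by
    have h6 : 3 - 2 * q ≠ 0 := by
      have : (0 : ℝ) < 3 - 2 * q := by linarith
      exact this.ne'
    have h7 : p ≠ 0 := hp.ne'
    have h8 : 3 * p - 2 * (p * q) = p * (3 - 2 * q) := by ring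
    have h9 : 3 * p - p * q = p * (3 - q) := by ring
    rw [h8, h9]
    field_simp
    ring
  rw [h5] at hlim
  refine hlim.congr' ?_
  filter_upwards [eventually_gt_atTop (0 : ℝ)] with R hR
  have h10 : R ^ 6 ≠ 0 := (pow_pos hR 6).ne'
  rw [IA5.slope_eq' (A R) (P R) (Q R) (h R)]
  exact div_div_div_cancel_right₀ h10 _ _

end Pool.Agent.Work.MP_b25393_ag.HF
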