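import Pool.Agent.Work.MP_b25393_ag.HF.StmtsR

set_option autoImplicit false

open scoped LinearAlgebra.Projectivization Pointwise Matrix RealInnerProductSpace ENNReal
open MeasureTheory Filter Topology Matrix TopologicalSpace

namespace Pool.Agent.Work.MP_b25393_ag.HF

open Pool.Agent.Work.MP_b25393_ag

namespace IB1

/-- the area of a disc -/
lemma disc (c : ℝ) : volume {y : Fin 2 → ℝ | y 0 ^ 2 + y 1 ^ 2 ≤ c} =
    ENNReal.ofReal (Real.pi * c) := by
  rcases lt_or_ge c 0 with h | h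
  · have e : {y : Fin 2 → ℝ | y 0 ^ 2 + y 1 ^ 2 ≤ c} = ∅ := by
      ext y
      simp only [Set.mem_setOf_eq, Set.mem_empty_iff_false, iff_false, not_le]
      nlinarith [sq_nonneg (y 0), sq_nonneg (y 1)]
    rw [e, measure_empty, ENNReal.ofReal_of_nonpos]
    nlinarith [Real.pi_pos]
  · have hm : MeasurableSet (Metric.closedBall (0 : EuclideanSpace ℝ (Fin 2)) (√c)) :=
      Metric.isClosed_closedBall.measurableSet
    have h1 := (PiLp.volume_preserving_toLp (Fin 2)).measure_preimage hm.nullMeasurableSet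
    have e : {y : Fin 2 → ℝ | y 0 ^ 2 + y 1 ^ 2 ≤ c} =
        (WithLp.toLp 2) ⁻¹' (Metric.closedBall (0 : EuclideanSpace ℝ (Fin 2)) (√c)) := by
      ext y
      simp only [Set.mem_setOf_eq, Set.mem_preimage, Metric.mem_closedBall, dist_zero_right]
      rw [EuclideanSpace.norm_eq, Real.sqrt_le_sqrt_iff h]
      simp [Fin.sum_univ_two]
    rw [e, h1, EuclideanSpace.volume_closedBall_fin_two, ← ENNReal.ofReal_pow (Real.sqrt_nonneg c),
      Real.sq_sqrt h, ← ENNReal.ofReal_mul h, mul_comm]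

/-- the integral of the areas of the sections -/
lemma key (d : ℝ) (h0 : 0 ≤ d) (h2 : d ≤ 2) :
    ∫⁻ t : ℝ, ENNReal.ofReal (Real.pi * (1 - max (t ^ 2) ((t - d) ^ 2))) =
      ENNReal.ofReal (4 * Real.pi / 3 * (1 - 3 * d / 4 + d ^ 3 / 16)) := by
  set f : ℝ → ℝ := fun t => Real.pi * (1 - max (t ^ 2) ((t - d) ^ 2)) with hf
  have hcont : Continuous f := by
    rw [hf]; fun_prop
  have h1 : ∫⁻ t : ℝ, ENNReal.ofReal (f t) = ∫⁻ t in Set.Ioc (d - 1) 1, ENNReal.ofReal (f t) := by
    rw [← lintegral_indicator measurableSet_Ioc]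
    refine lintegral_congr fun t => ?_
    by_cases ht : t ∈ Set.Ioc (d - 1) 1
    · rw [Set.indicator_of_mem ht]
    · rw [Set.indicator_of_notMem ht]
      refine ENNReal.ofReal_of_nonpos ?_
      rw [Set.mem_Ioc, not_and_or, not_lt, not_le] at ht
      have hm : 1 ≤ max (t ^ 2) ((t - d) ^ 2) := by
        rcases ht with ht | ht
        · exact le_max_of_le_right (by nlinarith)
        · exact le_max_of_le_left (by nlinarith)
      simp only [hf]
      nlinarith [Real.pi_pos]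
  rw [h1]
  have hint : IntegrableOn f (Set.Ioc (d - 1) 1) := by
    exact (hcont.integrableOn_Icc (a := d - 1) (b := 1)).mono_set Set.Ioc_subset_Icc_self
  rw [← ofReal_integral_eq_lintegral_ofReal hint]
  · congr 1
    rw [← intervalIntegral.integral_of_le (by linarith : d - 1 ≤ 1)]
    rw [← intervalIntegral.integral_add_adjacent_intervals
      (hcont.intervalIntegrable (d - 1) (d / 2)) (hcont.intervalIntegrable (d / 2) 1)]
    have e1 : ∫ t in (d - 1)..(d / 2), f t = ∫ t in (d - 1)..(d / 2), Real.pi * (1 - (t - d) ^ 2) := by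
      refine intervalIntegral.integral_congr fun t ht => ?_
      rw [Set.uIcc_of_le (by linarith : d - 1 ≤ d / 2)] at ht
      simp only [hf]
      rw [max_eq_right (by nlinarith [ht.2])]
    have e2 : ∫ t in (d / 2)..1, f t = ∫ t in (d / 2)..1, Real.pi * (1 - t ^ 2) := by
      refine intervalIntegral.integral_congr fun t ht => ?_
      rw [Set.uIcc_of_le (by linarith : d / 2 ≤ 1)] at ht
      simp only [hf]
      rw [max_eq_left (by nlinarith [ht.1])]
    have e3 : ∫ t in (d - 1)..(d / 2), Real.pi * (1 - (t - d) ^ 2) =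
        Real.pi * (d / 2 - (d / 2 - d) ^ 3 / 3) - Real.pi * ((d - 1) - ((d - 1) - d) ^ 3 / 3) := by
      refine intervalIntegral.integral_eq_sub_of_hasDerivAt
        (f := fun t => Real.pi * (t - (t - d) ^ 3 / 3)) (fun t _ => ?_) ?_
      · have h := (((hasDerivAt_id t).sub ((((hasDerivAt_id t).sub_const d).pow 3).div_const 3)).const_mul
          Real.pi)
        refine h.congr_deriv ?_
        simp only [id]
        norm_num
      · exact Continuous.intervalIntegrable (by fun_prop) _ _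
    have e4 : ∫ t in (d / 2)..1, Real.pi * (1 - t ^ 2) =
        Real.pi * (1 - 1 ^ 3 / 3) - Real.pi * (d / 2 - (d / 2) ^ 3 / 3) := by
      refine intervalIntegral.integral_eq_sub_of_hasDerivAt
        (f := fun t => Real.pi * (t - t ^ 3 / 3)) (fun t _ => ?_) ?_
      · have h := (((hasDerivAt_id t).sub (((hasDerivAt_id t).pow 3).div_const 3)).const_mul
          Real.pi)
        refine h.congr_deriv ?_
        simp only [id]
        norm_num
      · exact Continuous.intervalIntegrable (by fun_prop) _ _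
    rw [e1, e2, e3, e4]
    ring
  · refine (ae_restrict_iff' measurableSet_Ioc).2 (Eventually.of_forall fun t ht => ?_)
    have hm : max (t ^ 2) ((t - d) ^ 2) ≤ 1 := by
      refine max_le ?_ ?_
      · nlinarith [ht.1, ht.2]
      · nlinarith [ht.1, ht.2]
    simp only [hf, Pi.zero_apply]
    exact mul_nonneg Real.pi_pos.le (by linarith)

/-- the lens in coordinates -/
def lens (d : ℝ) : Set F3 :=
  {z | z.1 0 ^ 2 + z.1 1 ^ 2 + z.2 ^ 2 ≤ 1 ∧ z.1 0 ^ 2 + z.1 1 ^ 2 + (z.2 - d) ^ 2 ≤ 1}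

lemma lens_closed (d : ℝ) : IsClosed (lens d) := by
  have h1 : Continuous fun z : F3 => z.1 0 ^ 2 + z.1 1 ^ 2 + z.2 ^ 2 := by fun_prop
  have h2 : Continuous fun z : F3 => z.1 0 ^ 2 + z.1 1 ^ 2 + (z.2 - d) ^ 2 := by fun_prop
  exact (isClosed_le h1 continuous_const).inter (isClosed_le h2 continuous_const)

lemma lens_vol (d : ℝ) (h0 : 0 ≤ d) (h2 : d ≤ 2) : volume (lens d) =
    ENNReal.ofReal (4 * Real.pi / 3 * (1 - 3 * d / 4 + d ^ 3 / 16)) := by
  rw [← key d h0 h2, Measure.volume_eq_prod, Measure.prod_apply_symm (lens_closed d).measurableSet]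
  refine lintegral_congr fun t => ?_
  rw [← disc]
  congr 1
  ext y
  simp only [lens, Set.mem_preimage, Set.mem_setOf_eq]
  constructor
  · rintro ⟨ha, hb⟩
    rcases max_cases (t ^ 2) ((t - d) ^ 2) with ⟨hc, _⟩ | ⟨hc, _⟩ <;> rw [hc] <;> linarith
  · intro h
    have h3 := le_max_left (t ^ 2) ((t - d) ^ 2)
    have h4 := le_max_right (t ^ 2) ((t - d) ^ 2)
    exact ⟨by linarith, by linarith⟩

lemma dir (w : E3) : ∃ e : E3, ‖e‖ = 1 ∧ w = ‖w‖ • e := by
  by_cases h : w = 0
  · refine ⟨EuclideanSpace.single 0 1, by simp, ?_⟩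
    rw [h, norm_zero, zero_smul]
  · have h' : ‖w‖ ≠ 0 := norm_ne_zero_iff.2 h
    refine ⟨‖w‖⁻¹ • w, ?_, ?_⟩
    · rw [norm_smul, norm_inv, norm_norm, inv_mul_cancel₀ h']
    · rw [smul_smul, mul_inv_cancel₀ h', one_smul]

end IB1

open IB1 in
theorem pr_B1 (hE2 : St_E2) : St_B1 := by
  intro w hw
  obtain ⟨e, he, hwe⟩ := dir w
  obtain ⟨Ψ, hΨ⟩ := hE2 e he
  have hΨw : Ψ w = (0, ‖w‖) := by
    rw [hwe, map_smul, hΨ.at_e, ← hwe]
    ext i
    · simp
    · simp
  have hset : {u : E3 | ‖u‖ ≤ 1 ∧ ‖w - u‖ ≤ 1} = Ψ ⁻¹' (lens ‖w‖) := by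
    ext u
    have h1 := hΨ.nrm u
    have h2 := hΨ.nrm (w - u)
    rw [map_sub, hΨw] at h2
    simp only [Prod.fst_sub, Prod.snd_sub, Pi.sub_apply, Pi.zero_apply, zero_sub, neg_sq] at h2
    simp only [lens, Set.mem_setOf_eq, Set.mem_preimage]
    have h3 : ‖u‖ ≤ 1 ↔ ‖u‖ ^ 2 ≤ 1 := by
      constructor
      · intro h; nlinarith [norm_nonneg u]
      · intro h; nlinarith [norm_nonneg u]
    have h4 : ‖w - u‖ ≤ 1 ↔ ‖w - u‖ ^ 2 ≤ 1 := by
      constructor
      · intro h; nlinarith [norm_nonneg (w - u)]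
      · intro h; nlinarith [norm_nonneg (w - u)]
    rw [h3, h4, h1, h2]
    have h5 : (‖w‖ - (Ψ u).2) ^ 2 = ((Ψ u).2 - ‖w‖) ^ 2 := by ring
    rw [h5]
  rw [hset, hΨ.mp.measure_preimage (lens_closed _).measurableSet.nullMeasurableSet]
  exact lens_vol ‖w‖ (norm_nonneg w) hw

end Pool.Agent.Work.MP_b25393_ag.HF
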