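import Pool.Agent.Work.MP_b25393_ag.HF.StmtsR

/-!
# MP_b25393_ag, block HF, item B2 (helper6): `tri` of the unit ball
-/

set_option autoImplicit false

open scoped LinearAlgebra.Projectivization Pointwise Matrix RealInnerProductSpace ENNReal
open MeasureTheory Filter Topology Matrix TopologicalSpace

namespace Pool.Agent.Work.MP_b25393_ag.HF

open Pool.Agent.Work.MP_b25393_ag

namespace IB2

/-- the volume of a lens -/
noncomputable def ph (s : ℝ) : ℝ := 4 * Real.pi / 3 * (1 - 3 * s / 4 + s ^ 3 / 16)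

theorem ph_nonneg (s : ℝ) (h0 : 0 ≤ s) (h1 : s ≤ 1) : 0 ≤ ph s := by
  unfold ph
  have h2 : 0 ≤ s ^ 3 := pow_nonneg h0 3
  have h3 : 0 ≤ 1 - 3 * s / 4 + s ^ 3 / 16 := by linarith
  positivity

theorem ph_cont : Continuous ph := by
  unfold ph
  fun_prop

/-- the radial function -/
noncomputable def ff (s : ℝ) : ℝ := (Set.Iic (1 : ℝ)).indicator ph s

theorem ff_nonneg (s : ℝ) (h0 : 0 ≤ s) : 0 ≤ ff s := by
  unfold ff
  by_cases h : s ∈ Set.Iic (1 : ℝ)
  · rw [Set.indicator_of_mem h]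
    exact ph_nonneg s h0 h
  · rw [Set.indicator_of_notMem h]

/-- the sheared set -/
def SS : Set (E3 × E3) := {z | ‖z.1‖ ≤ 1 ∧ ‖z.2 - z.1‖ ≤ 1 ∧ ‖z.2‖ ≤ 1}

theorem meas : MeasurableSet SS := by
  have h1 : IsClosed {z : E3 × E3 | ‖z.1‖ ≤ 1} := isClosed_le (by fun_prop) (by fun_prop)
  have h2 : IsClosed {z : E3 × E3 | ‖z.2 - z.1‖ ≤ 1} := isClosed_le (by fun_prop) (by fun_prop)
  have h3 : IsClosed {z : E3 × E3 | ‖z.2‖ ≤ 1} := isClosed_le (by fun_prop) (by fun_prop)
  exact (h1.inter (h2.inter h3)).measurableSet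

theorem step1 : volume (tri (Metric.closedBall (0 : E3) 1)) = volume SS := by
  have h := measurePreserving_prod_add (volume : Measure E3) (volume : Measure E3)
  have h2 : tri (Metric.closedBall (0 : E3) 1) =
      (fun z : E3 × E3 => (z.1, z.1 + z.2)) ⁻¹' SS := by
    ext z
    simp only [tri, SS, Set.mem_ofPred_eq, Set.mem_preimage, Metric.mem_closedBall,
      dist_zero_right, add_sub_cancel_left]
  rw [h2]
  exact h.measure_preimage meas.nullMeasurableSet

theorem step2 (hB1 : St_B1) : volume SS = ∫⁻ w : E3, ENNReal.ofReal (ff ‖w‖) := by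
  rw [Measure.volume_eq_prod, Measure.prod_apply_symm meas]
  refine lintegral_congr fun w => ?_
  by_cases hw : ‖w‖ ≤ 1
  · have h1 : (fun x : E3 => (x, w)) ⁻¹' SS = {u : E3 | ‖u‖ ≤ 1 ∧ ‖w - u‖ ≤ 1} := by
      ext u
      simp only [SS, Set.mem_preimage, Set.mem_ofPred_eq, hw, and_true]
    rw [h1, hB1 w (by linarith)]
    unfold ff
    rw [Set.indicator_of_mem (show ‖w‖ ∈ Set.Iic (1 : ℝ) from hw)]
    rfl
  · have h1 : (fun x : E3 => (x, w)) ⁻¹' SS = ∅ := by
      ext u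
      simp only [SS, Set.mem_preimage, Set.mem_ofPred_eq, hw, and_false, Set.mem_empty_iff_false]
    rw [h1, measure_empty]
    unfold ff
    rw [Set.indicator_of_notMem (show ‖w‖ ∉ Set.Iic (1 : ℝ) from hw), ENNReal.ofReal_zero]

theorem integ : Integrable (fun w : E3 => ff ‖w‖) := by
  have h1 : (fun w : E3 => ff ‖w‖) =
      (Metric.closedBall (0 : E3) 1).indicator (fun w => ph ‖w‖) := by
    funext w
    unfold ff
    by_cases hw : ‖w‖ ≤ 1
    · rw [Set.indicator_of_mem (show ‖w‖ ∈ Set.Iic (1 : ℝ) from hw),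
        Set.indicator_of_mem (by simpa using hw)]
    · rw [Set.indicator_of_notMem (show ‖w‖ ∉ Set.Iic (1 : ℝ) from hw),
        Set.indicator_of_notMem (by simpa using hw)]
  rw [h1, integrable_indicator_iff measurableSet_closedBall]
  exact ((ph_cont.comp continuous_norm).continuousOn).integrableOn_compact
    (isCompact_closedBall (0 : E3) 1)

theorem int1 : ∫ y in (0 : ℝ)..1, y ^ 2 * ph y = 4 * Real.pi / 3 * (5 / 32) := by
  have h : ∀ y ∈ Set.uIcc (0 : ℝ) 1, HasDerivAt (fun y : ℝ => 4 * Real.pi / 3 *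
      (y ^ 3 / 3 - 3 * y ^ 4 / 16 + y ^ 6 / 96)) (y ^ 2 * ph y) y := by
    intro y _
    have h1 : HasDerivAt (fun y : ℝ => 4 * Real.pi / 3 *
        (y ^ 3 / 3 - 3 * y ^ 4 / 16 + y ^ 6 / 96))
        (4 * Real.pi / 3 * ((3 : ℕ) * y ^ (3 - 1) / 3 - 3 * ((4 : ℕ) * y ^ (4 - 1)) / 16 +
          (6 : ℕ) * y ^ (6 - 1) / 96)) y :=
      ((((hasDerivAt_pow 3 y).div_const 3).sub
        (((hasDerivAt_pow 4 y).const_mul 3).div_const 16)).add
        ((hasDerivAt_pow 6 y).div_const 96)).const_mul _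
    have h2 : 4 * Real.pi / 3 * ((3 : ℕ) * y ^ (3 - 1) / 3 - 3 * ((4 : ℕ) * y ^ (4 - 1)) / 16 +
        (6 : ℕ) * y ^ (6 - 1) / 96) = y ^ 2 * ph y := by
      unfold ph
      push_cast
      ring
    rw [← h2]
    exact h1
  rw [intervalIntegral.integral_eq_sub_of_hasDerivAt h
    (((continuous_pow 2).mul ph_cont).intervalIntegrable 0 1)]
  ring

theorem int2 : ∫ y in Set.Ioi (0 : ℝ), y ^ 2 • ff y = 4 * Real.pi / 3 * (5 / 32) := by
  have h1 : (fun y : ℝ => y ^ 2 • ff y) = (Set.Iic (1 : ℝ)).indicator (fun y => y ^ 2 * ph y) := by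
    funext y
    unfold ff
    by_cases hy : y ∈ Set.Iic (1 : ℝ)
    · rw [Set.indicator_of_mem hy, Set.indicator_of_mem hy, smul_eq_mul]
    · rw [Set.indicator_of_notMem hy, Set.indicator_of_notMem hy, smul_zero]
  rw [h1, setIntegral_indicator measurableSet_Iic, Set.Ioi_inter_Iic,
    ← intervalIntegral.integral_of_le (by norm_num : (0 : ℝ) ≤ 1), int1]

theorem vb : (volume : Measure E3).real (Metric.ball (0 : E3) 1) = 4 * Real.pi / 3 := by
  unfold Measure.real
  rw [EuclideanSpace.volume_ball_fin_three, ENNReal.ofReal_one, one_pow, one_mul,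
    ENNReal.toReal_ofReal (by positivity)]
  ring

theorem int3 : ∫ w : E3, ff ‖w‖ = 15 / 32 * (4 * Real.pi / 3) ^ 2 := by
  rw [integral_fun_norm_addHaar (volume : Measure E3) ff, vb]
  have h1 : Module.finrank ℝ E3 = 3 := finrank_euclideanSpace_fin
  rw [h1]
  have h2 : ∫ y in Set.Ioi (0 : ℝ), y ^ (3 - 1) • ff y = 4 * Real.pi / 3 * (5 / 32) := int2
  rw [h2, smul_eq_mul, nsmul_eq_mul]
  push_cast
  ring

end IB2

theorem pr_B2 (hB1 : St_B1) : St_B2 := by
  unfold St_B2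
  rw [IB2.step1, IB2.step2 hB1, ← IB2.int3]
  exact (ofReal_integral_eq_lintegral_ofReal IB2.integ
    (Filter.Eventually.of_forall fun w => IB2.ff_nonneg _ (norm_nonneg w))).symm

end Pool.Agent.Work.MP_b25393_ag.HF
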