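import Pool.Agent.Work.MP_b25393_ag.HF.StmtsR

/-!
# MP_b25393_ag, block HF, item B3 (helper85): the constant
-/

set_option autoImplicit false

open scoped LinearAlgebra.Projectivization Pointwise Matrix RealInnerProductSpace ENNReal
open MeasureTheory Filter Topology Matrix

namespace Pool.Agent.Work.MP_b25393_ag.HF

open Pool.Agent.Work.MP_b25393_ag

namespace IB3

theorem vol_ball (r : ℝ) (hr : 0 ≤ r) :
    volume (Metric.closedBall (0 : E3) r) = ENNReal.ofReal (r ^ 3 * (4 * Real.pi / 3)) := by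
  rw [EuclideanSpace.volume_closedBall_fin_three, ← ENNReal.ofReal_pow hr,
    ← ENNReal.ofReal_mul (by positivity)]
  congr 1
  ring

theorem tri_ball (r : ℝ) (hr : 0 < r) :
    tri (Metric.closedBall (0 : E3) r) = r • tri (Metric.closedBall (0 : E3) 1) := by
  ext z
  rw [Set.mem_smul_set_iff_inv_smul_mem₀ hr.ne']
  simp only [tri, Set.mem_setOf_eq, Prod.smul_fst, Prod.smul_snd, ← smul_add,
    mem_closedBall_zero_iff, norm_smul, norm_inv, Real.norm_eq_abs, abs_of_pos hr]
  have h : ∀ a : ℝ, r⁻¹ * a ≤ 1 ↔ a ≤ r := fun a => by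
    rw [inv_mul_le_iff₀ hr, mul_one]
  simp only [h]

theorem vol_tri (hB2 : St_B2) (r : ℝ) (hr : 0 < r) :
    volume (tri (Metric.closedBall (0 : E3) r)) =
      ENNReal.ofReal (15 / 32 * (r ^ 3 * (4 * Real.pi / 3)) ^ 2) := by
  haveI : (volume : Measure (E3 × E3)).IsAddHaarMeasure := by
    rw [Measure.volume_eq_prod]
    infer_instance
  rw [tri_ball r hr, Measure.addHaar_smul, show volume (tri (Metric.closedBall (0 : E3) 1)) =
    ENNReal.ofReal (15 / 32 * (4 * Real.pi / 3) ^ 2) from hB2]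
  have h6 : Module.finrank ℝ (E3 × E3) = 6 := by
    rw [Module.finrank_prod, finrank_euclideanSpace]
    simp
  rw [h6, abs_of_nonneg (by positivity), ← ENNReal.ofReal_mul (by positivity)]
  congr 1
  ring

theorem ratio (r : ℝ) (hr : 0 < r) : 15 / 32 * (r ^ 3 * (4 * Real.pi / 3)) ^ 2 /
    (r ^ 3 * (4 * Real.pi / 3)) ^ 2 = 15 / 32 := by
  have h : (r ^ 3 * (4 * Real.pi / 3)) ^ 2 ≠ 0 := by positivity
  rw [mul_div_assoc, div_self h, mul_one]

end IB3

open IB3 in
theorem pr_B3 (hB2 : St_B2) (hH8 : St_H8) : St_B3 := by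
  refine ⟨fun K hK => ?_, fun r hr => ?_⟩
  · -- the radius of the ball of the same volume
    have hfin : volume K ≠ ⊤ := hK.comp.measure_lt_top.ne
    have hpos : 0 < volume K :=
      lt_of_lt_of_le (isOpen_interior.measure_pos volume hK.inte) (measure_mono interior_subset)
    have hV : 0 < (volume K).toReal := ENNReal.toReal_pos hpos.ne' hfin
    have hπ : 0 < 4 * Real.pi / 3 := by positivity
    obtain ⟨r, hr, hr3⟩ : ∃ r : ℝ, 0 < r ∧ r ^ 3 = (volume K).toReal / (4 * Real.pi / 3) := by
      refine ⟨((volume K).toReal / (4 * Real.pi / 3)) ^ ((1 : ℝ) / 3), by positivity, ?_⟩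
      rw [← Real.rpow_natCast, ← Real.rpow_mul (by positivity)]
      norm_num
    have hvr : r ^ 3 * (4 * Real.pi / 3) = (volume K).toReal := by
      rw [hr3]
      field_simp
    have hvol : volume K = volume (Metric.closedBall (0 : E3) r) := by
      rw [vol_ball r hr.le, hvr, ENNReal.ofReal_toReal hfin]
    have h8 := hH8 K hK r hr.le hvol
    rw [vol_tri hB2 r hr, hvr] at h8
    unfold qq
    rw [div_le_iff₀ (by positivity)]
    have := ENNReal.toReal_mono ENNReal.ofReal_ne_top h8
    rwa [ENNReal.toReal_ofReal (by positivity)] at this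
  · unfold qq
    rw [vol_tri hB2 r hr, vol_ball r hr.le, ENNReal.toReal_ofReal (by positivity),
      ENNReal.toReal_ofReal (by positivity)]
    exact ratio r hr

end Pool.Agent.Work.MP_b25393_ag.HF
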