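import Pool.Agent.Work.MP_b25393_ag.HF.StmtsC

/-!
# MP_b25393_ag, block HF, item C1: facts on bodies
-/

set_option autoImplicit false

open scoped LinearAlgebra.Projectivization Pointwise Matrix RealInnerProductSpace ENNReal
open MeasureTheory Filter Topology Matrix

namespace Pool.Agent.Work.MP_b25393_ag.HF

namespace IC1

variable {E : Type} [NormedAddCommGroup E] [NormedSpace ℝ E] {D : Set E}

theorem neg_eq (h : Body D) : -D = D := by
  ext x
  constructor
  · intro hx
    have h1 := h.symm _ (Set.mem_neg.1 hx)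
    rwa [neg_neg] at h1
  · intro hx
    exact Set.mem_neg.2 (h.symm _ hx)

theorem zero_mem_interior (h : Body D) : (0 : E) ∈ interior D := by
  obtain ⟨x, hx⟩ := h.inte
  have hx' : -x ∈ interior D := by
    have h1 : interior D = -interior D := by
      conv_lhs => rw [← neg_eq h]
      exact ((Homeomorph.neg E).preimage_interior D).symm
    rw [h1]
    exact Set.mem_neg.2 (by rwa [neg_neg])
  have h2 := h.conv.interior hx hx' (a := 1 / 2) (b := 1 / 2) (by norm_num) (by norm_num)
    (by norm_num)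
  rwa [smul_neg, add_neg_cancel] at h2

theorem zero_mem (h : Body D) : (0 : E) ∈ D := interior_subset (zero_mem_interior h)

theorem smul_mono (h : Body D) (s t : ℝ) (hs : 0 ≤ s) (hst : s ≤ t) : s • D ⊆ t • D := by
  rcases (hs.trans hst).eq_or_lt with ht | ht
  · have : s = t := le_antisymm hst (ht ▸ hs)
    rw [this]
  · rintro _ ⟨d, hd, rfl⟩
    refine ⟨(s / t) • d, h.conv.smul_mem_of_zero_mem (zero_mem h) hd
      ⟨div_nonneg hs ht.le, (div_le_one ht).2 hst⟩, ?_⟩
    show t • (s / t) • d = s • d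
    rw [smul_smul, mul_div_cancel₀ _ ht.ne']

theorem bdd (h : Body D) (B : Set E) (hB : Bornology.IsBounded B) :
    ∃ C : ℝ, 0 ≤ C ∧ B ⊆ C • D := by
  obtain ⟨r, hr, hrD⟩ := Metric.mem_nhds_iff.1 (mem_interior_iff_mem_nhds.1 (zero_mem_interior h))
  obtain ⟨M, hM⟩ := hB.subset_ball (0 : E)
  have hC : 0 < (|M| + 1) / r := by positivity
  refine ⟨(|M| + 1) / r, hC.le, ?_⟩
  refine subset_trans ?_ (Set.smul_set_mono hrD)
  rw [smul_ball hC.ne', smul_zero, Real.norm_eq_abs, abs_of_pos hC, div_mul_cancel₀ _ hr.ne']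
  refine hM.trans (Metric.ball_subset_ball ?_)
  have := le_abs_self M
  linarith

end IC1

open IC1 in
theorem pr_C1 : St_C1 := by
  intro E _ _ D h
  refine ⟨zero_mem_interior h, fun s t hs hst => smul_mono h s t hs hst, ?_, fun B hB => bdd h B hB⟩
  intro s t hs ht x hx y hy
  rw [h.conv.add_smul hs ht]
  exact Set.add_mem_add hx hy

end Pool.Agent.Work.MP_b25393_ag.HF
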