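import Pool.Agent.Work.MP_b25393_ag.HF.StmtsC

/-!
# MP_b25393_ag, block HF, item C2: lattice points in dilates

Author: helper5.
-/

set_option autoImplicit false

open scoped LinearAlgebra.Projectivization Pointwise Matrix RealInnerProductSpace ENNReal
open MeasureTheory Filter Topology Matrix

namespace Pool.Agent.Work.MP_b25393_ag.HF

open Pool.Agent.Work.MP_b25393_ag

namespace IC2

/-- the span over the integers of the standard basis: the vectors with integral coordinates -/
theorem mem_L {ι : Type} [Fintype ι] (x : ι → ℝ) :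
    x ∈ Submodule.span ℤ (Set.range (Pi.basisFun ℝ ι)) ↔ ∃ z : ι → ℤ, toR z = x := by
  rw [Module.Basis.mem_span_iff_repr_mem]
  constructor
  · intro h
    choose z hz using h
    refine ⟨z, ?_⟩
    funext i
    have := hz i
    simpa [toR] using this
  · rintro ⟨z, rfl⟩ i
    exact ⟨z i, by simp [toR]⟩

theorem toR_injective {ι : Type} : Function.Injective (toR : (ι → ℤ) → ι → ℝ) := by
  intro a b h
  funext i
  have := congrFun h i
  simpa [toR] using this

theorem inter_eq {ι : Type} [Fintype ι] (D : Set (ι → ℝ)) {R : ℝ} (hR : 0 < R) :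
    (D ∩ R⁻¹ • ((Submodule.span ℤ (Set.range (Pi.basisFun ℝ ι)) : Submodule ℤ (ι → ℝ)) :
      Set (ι → ℝ))) = (fun z : ι → ℤ => R⁻¹ • toR z) '' {z : ι → ℤ | toR z ∈ R • D} := by
  have hR0 : R ≠ 0 := hR.ne'
  ext x
  constructor
  · rintro ⟨hxD, hxL⟩
    rw [Set.mem_inv_smul_set_iff₀ hR0] at hxL
    obtain ⟨z, hz⟩ := (mem_L _).1 hxL
    refine ⟨z, ?_, ?_⟩
    · show toR z ∈ R • D
      rw [hz]
      exact Set.smul_mem_smul_set hxD
    · show R⁻¹ • toR z = x
      rw [hz, inv_smul_smul₀ hR0]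
  · rintro ⟨z, hz, rfl⟩
    have hz' : toR z ∈ R • D := hz
    refine ⟨?_, ?_⟩
    · exact (Set.mem_smul_set_iff_inv_smul_mem₀ hR0 _ _).1 hz'
    · exact Set.smul_mem_smul_set ((mem_L _).2 ⟨z, rfl⟩)

end IC2

theorem pr_C2 (hC1 : St_C1) : St_C2 := by
  intro ι _ D hD
  obtain ⟨-, hmono, -, -⟩ := hC1 (ι → ℝ) D hD
  have key := tendsto_card_div_pow_atTop_volume' D hD.comp.isBounded hD.comp.measurableSet
    (hD.conv.addHaar_frontier volume) (fun x y hx hxy => hmono x y hx.le hxy)
  refine Tendsto.congr' ?_ key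
  filter_upwards [eventually_gt_atTop (0 : ℝ)] with R hR
  have e : Nat.card ↑(D ∩ R⁻¹ • ((Submodule.span ℤ (Set.range (Pi.basisFun ℝ ι)) :
      Submodule ℤ (ι → ℝ)) : Set (ι → ℝ))) = {z : ι → ℤ | toR z ∈ R • D}.ncard := by
    rw [IC2.inter_eq D hR, Nat.card_coe_set_eq, Set.ncard_image_of_injective]
    intro a b hab
    exact IC2.toR_injective (smul_right_injective (ι → ℝ) (inv_ne_zero hR.ne') hab)
  rw [← e]

end Pool.Agent.Work.MP_b25393_ag.HF
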