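import Pool.Agent.Work.MP_b25393_ag.HF.StmtsC

/-!
# MP_b25393_ag, block HF, item C3: lattice points in a residue class
-/

set_option autoImplicit false

open scoped LinearAlgebra.Projectivization Pointwise Matrix RealInnerProductSpace ENNReal
open MeasureTheory Filter Topology Matrix

namespace Pool.Agent.Work.MP_b25393_ag.HF

open Pool.Agent.Work.MP_b25393_ag

namespace IC3

/-- the integral vectors in a bounded set are finite in number -/
theorem fin {ι : Type} [Fintype ι] {D : Set (ι → ℝ)} (hD : Bornology.IsBounded D) :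
    {z : ι → ℤ | toR z ∈ D}.Finite := by
  classical
  obtain ⟨M, hM⟩ := hD.exists_norm_le
  refine (Set.finite_Icc (fun _ : ι => -⌈M⌉) (fun _ : ι => ⌈M⌉)).subset ?_
  intro z hz
  have h1 : ∀ i, |(z i : ℝ)| ≤ M := fun i => by
    have h2 : ‖toR z i‖ ≤ ‖toR z‖ := norm_le_pi_norm (toR z) i
    have h3 : ‖toR z i‖ = |(z i : ℝ)| := Real.norm_eq_abs _
    rw [← h3]
    exact h2.trans (hM _ hz)
  refine ⟨fun i => ?_, fun i => ?_⟩
  · have h4 := (abs_le.1 (h1 i)).1
    have h5 : -((⌈M⌉ : ℤ) : ℝ) ≤ (z i : ℝ) := by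
      have := Int.le_ceil M
      linarith
    have h6 : (-⌈M⌉ : ℤ) ≤ z i := by exact_mod_cast h5
    exact h6
  · have h4 := (abs_le.1 (h1 i)).2
    have h5 : (z i : ℝ) ≤ ((⌈M⌉ : ℤ) : ℝ) := h4.trans (Int.le_ceil M)
    have h6 : z i ≤ ⌈M⌉ := by exact_mod_cast h5
    exact h6

theorem finD {ι : Type} [Fintype ι] {D : Set (ι → ℝ)} (hD : Body D) (s : ℝ) :
    {z : ι → ℤ | toR z ∈ s • D}.Finite :=
  fin (hD.comp.isBounded.smul₀ s)

/-- a shifted and rescaled count has the rescaled limit -/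
theorem lim {n : ℕ} {a : ℝ → ℝ} {v : ℝ} (h : Tendsto (fun R : ℝ => a R / R ^ n) atTop (𝓝 v))
    {N : ℝ} (hN : 0 < N) (C : ℝ) :
    Tendsto (fun R : ℝ => a (R / N + C) / R ^ n) atTop (𝓝 (v / N ^ n)) := by
  have h1 : Tendsto (fun R : ℝ => R / N + C) atTop atTop :=
    tendsto_atTop_add_const_right _ _ (tendsto_id.atTop_div_const hN)
  have h2 := h.comp h1
  have h3 : Tendsto (fun R : ℝ => (R / N + C) / R) atTop (𝓝 (1 / N)) := by
    have h4 : Tendsto (fun R : ℝ => 1 / N + C / R) atTop (𝓝 (1 / N + 0)) :=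
      tendsto_const_nhds.add (tendsto_const_nhds.div_atTop tendsto_id)
    rw [add_zero] at h4
    refine h4.congr' ?_
    filter_upwards [eventually_gt_atTop 0] with R hR
    field_simp
  have h5 := h2.mul (h3.pow n)
  have h6 : v * (1 / N) ^ n = v / N ^ n := by
    rw [one_div, inv_pow, div_eq_mul_inv]
  rw [h6] at h5
  refine h5.congr' ?_
  filter_upwards [eventually_gt_atTop 0, h1.eventually_gt_atTop 0] with R hR hR'
  simp only [Function.comp_apply]
  rw [div_pow]
  have e1 : (R / N + C) ^ n ≠ 0 := (pow_pos hR' n).ne'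
  have e2 : R ^ n ≠ 0 := (pow_pos hR n).ne'
  generalize (R / N + C) ^ n = X at e1
  generalize a (R / N + C) = Y
  field_simp

end IC3

theorem pr_C3 (hC1 : St_C1) (hC2 : St_C2) : St_C3 := by
  intro ι _ D hD N hN r
  obtain ⟨-, hmono, hadd, hbd⟩ := hC1 (ι → ℝ) D hD
  have hN0 : (0 : ℝ) < N := by exact_mod_cast hN
  have hNz : (0 : ℤ) < N := by exact_mod_cast hN
  obtain ⟨C, hC0, hC⟩ := hbd (Metric.closedBall 0 1) Metric.isBounded_closedBall
  -- the shift
  obtain ⟨r', hr'⟩ : ∃ r' : ι → ℤ, r' = fun i => r i % N := ⟨_, rfl⟩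
  obtain ⟨w, hw⟩ : ∃ w : ι → ℝ, w = (1 / (N : ℝ)) • toR r' := ⟨_, rfl⟩
  have hw1 : ‖w‖ ≤ 1 := by
    rw [pi_norm_le_iff_of_nonneg zero_le_one]
    intro i
    have h1 : w i = (1 / (N : ℝ)) * (r' i : ℝ) := by rw [hw]; rfl
    have h2 : 0 ≤ r' i := by rw [hr']; exact Int.emod_nonneg _ hNz.ne'
    have h3 : r' i < N := by rw [hr']; exact Int.emod_lt_of_pos _ hNz
    have h2' : (0 : ℝ) ≤ (r' i : ℝ) := by exact_mod_cast h2
    have h3' : (r' i : ℝ) ≤ N := by exact_mod_cast h3.le
    rw [h1, Real.norm_eq_abs, abs_of_nonneg (by positivity), one_div, inv_mul_le_iff₀ hN0, mul_one]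
    exact h3'
  have hwC : w ∈ C • D := hC (by simpa using hw1)
  have hwC' : -w ∈ C • D := hC (by simpa using hw1)
  -- the sets
  obtain ⟨φ, hφ⟩ : ∃ φ : (ι → ℤ) → (ι → ℤ), φ = fun z i => r' i + N * z i := ⟨_, rfl⟩
  have hφi : Function.Injective φ := by
    intro z z' h
    funext i
    have h1 := congrFun h i
    rw [hφ] at h1
    have h2 : (N : ℤ) * z i = N * z' i := by simpa using h1
    exact mul_left_cancel₀ hNz.ne' h2
  have key : ∀ z : ι → ℤ, toR (φ z) = (N : ℝ) • (toR z + w) := by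
    intro z
    funext i
    rw [hφ, hw]
    simp only [toR, Pi.smul_apply, Pi.add_apply, smul_eq_mul, Int.cast_add, Int.cast_mul,
      Int.cast_natCast]
    field_simp
    ring
  have himg : ∀ R : ℝ, {z : ι → ℤ | toR z ∈ R • D ∧ ∀ i, (N : ℤ) ∣ z i - r i} =
      φ '' {z : ι → ℤ | toR z + w ∈ (R / N) • D} := by
    intro R
    have hiff : ∀ z : ι → ℤ, toR (φ z) ∈ R • D ↔ toR z + w ∈ (R / N) • D := by
      intro z
      rw [key]
      have e1 : R • D = (N : ℝ) • ((R / N) • D) := by
        rw [smul_smul]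
        congr 1
        field_simp
      rw [e1]
      exact Set.smul_mem_smul_set_iff₀ hN0.ne' _ _
    ext z
    constructor
    · rintro ⟨h1, h2⟩
      refine ⟨fun i => z i / N, ?_, ?_⟩
      · have e2 : φ (fun i => z i / N) = z := by
          funext i
          rw [hφ, hr']
          show r i % N + N * (z i / N) = z i
          have h3 : z i % N = r i % N := Int.ModEq.symm ((Int.modEq_iff_dvd).2 (h2 i))
          rw [← h3]
          exact Int.emod_add_mul_ediv _ _
        show toR (fun i => z i / N) + w ∈ (R / N) • D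
        rw [← hiff, e2]
        exact h1
      · funext i
        rw [hφ, hr']
        show r i % N + N * (z i / N) = z i
        have h3 : z i % N = r i % N := Int.ModEq.symm ((Int.modEq_iff_dvd).2 (h2 i))
        rw [← h3]
        exact Int.emod_add_mul_ediv _ _
    · rintro ⟨z', h1, rfl⟩
      refine ⟨(hiff z').2 h1, fun i => ?_⟩
      rw [hφ, hr']
      show (N : ℤ) ∣ r i % N + N * z' i - r i
      have h4 : r i % N + N * z' i - r i = N * (z' i - r i / N) := by
        have := Int.emod_add_mul_ediv (r i) N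
        linear_combination this
      rw [h4]
      exact dvd_mul_right _ _
  have hup : ∀ R : ℝ, 0 ≤ R → {z : ι → ℤ | toR z + w ∈ (R / N) • D} ⊆
      {z : ι → ℤ | toR z ∈ (R / N + C) • D} := by
    intro R hR z hz
    have h1 := hadd (R / N) C (by positivity) hC0 _ hz _ hwC'
    have h2 : toR z + w + -w = toR z := by abel
    rw [h2] at h1
    exact h1
  have hlo : ∀ R : ℝ, 0 ≤ R / N - C → {z : ι → ℤ | toR z ∈ (R / N - C) • D} ⊆
      {z : ι → ℤ | toR z + w ∈ (R / N) • D} := by
    intro R hR z hz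
    have h1 := hadd (R / N - C) C hR hC0 _ hz _ hwC
    rw [sub_add_cancel] at h1
    exact h1
  have lim1 := IC3.lim (hC2 ι D hD) hN0 C
  have lim2 := IC3.lim (hC2 ι D hD) hN0 (-C)
  refine tendsto_of_tendsto_of_tendsto_of_le_of_le' lim2 lim1 ?_ ?_
  · have h1 : Tendsto (fun R : ℝ => R / N - C) atTop atTop :=
      tendsto_atTop_add_const_right _ _ (tendsto_id.atTop_div_const hN0)
    filter_upwards [eventually_gt_atTop 0, h1.eventually_ge_atTop 0] with R hR hR'
    refine div_le_div_of_nonneg_right ?_ (pow_nonneg hR.le _)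
    rw [himg R, Set.ncard_image_of_injective _ hφi]
    have h2 := Set.ncard_le_ncard (hlo R hR') ((IC3.finD hD _).subset (hup R hR.le))
    rw [← sub_eq_add_neg]
    exact_mod_cast h2
  · filter_upwards [eventually_gt_atTop 0] with R hR
    refine div_le_div_of_nonneg_right ?_ (pow_nonneg hR.le _)
    rw [himg R, Set.ncard_image_of_injective _ hφi]
    exact_mod_cast Set.ncard_le_ncard (hup R hR.le) (IC3.finD hD _)

end Pool.Agent.Work.MP_b25393_ag.HF
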