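import Pool.Agent.Work.MP_b25393_ag.HF.StmtsC

/-!
# MP_b25393_ag, block HF, item C4: lattice points in a residue class, pairs of vectors

Statement C3 is applied to the index type `Fin 3 ⊕ Fin 3`.
-/

set_option autoImplicit false

open scoped LinearAlgebra.Projectivization Pointwise Matrix RealInnerProductSpace ENNReal
open MeasureTheory Filter Topology Matrix

namespace Pool.Agent.Work.MP_b25393_ag.HF

open Pool.Agent.Work.MP_b25393_ag

namespace IC4

/-- the vectors of length six as pairs of vectors of length three -/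
def sm : (Fin 3 ⊕ Fin 3 → ℝ) ≃ₗ[ℝ] (Fin 3 → ℝ) × (Fin 3 → ℝ) :=
  LinearEquiv.sumArrowLequivProdArrow (Fin 3) (Fin 3) ℝ ℝ

theorem sm_apply (x : Fin 3 ⊕ Fin 3 → ℝ) : sm x = (fun i => x (Sum.inl i), fun i => x (Sum.inr i)) :=
  rfl

/-- the preimage of `D` -/
def pre (D : Set ((Fin 3 → ℝ) × (Fin 3 → ℝ))) : Set (Fin 3 ⊕ Fin 3 → ℝ) := sm ⁻¹' D

theorem body_pre {D : Set ((Fin 3 → ℝ) × (Fin 3 → ℝ))} (hD : Body D) : Body (pre D) := by
  refine ⟨hD.conv.linear_preimage sm.toLinearMap, ?_, ?_, ?_⟩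
  · exact (sm.toContinuousLinearEquiv.toHomeomorph.isCompact_preimage).2 hD.comp
  · intro x hx
    have h := hD.symm _ hx
    show sm (-x) ∈ D
    rw [map_neg]
    exact h
  · have h := sm.toContinuousLinearEquiv.toHomeomorph.preimage_interior D
    have h2 : interior (pre D) = sm ⁻¹' interior D := h.symm
    rw [h2]
    obtain ⟨y, hy⟩ := hD.inte
    refine ⟨sm.symm y, ?_⟩
    show sm (sm.symm y) ∈ interior D
    rw [LinearEquiv.apply_symm_apply]
    exact hy

theorem volume_pre (D : Set ((Fin 3 → ℝ) × (Fin 3 → ℝ))) : volume (pre D) = volume D := by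
  have h := (volume_measurePreserving_sumPiEquivProdPi
    (fun _ : Fin 3 ⊕ Fin 3 => ℝ)).measure_preimage_equiv D
  exact h

theorem mem_smul_pre (D : Set ((Fin 3 → ℝ) × (Fin 3 → ℝ))) (R : ℝ) (x : Fin 3 ⊕ Fin 3 → ℝ) :
    x ∈ R • pre D ↔ sm x ∈ R • D := by
  constructor
  · rintro ⟨y, hy, rfl⟩
    exact ⟨sm y, hy, (map_smul sm R y).symm⟩
  · rintro ⟨w, hw, h⟩
    refine ⟨sm.symm w, ?_, ?_⟩
    · show sm (sm.symm w) ∈ D
      rw [LinearEquiv.apply_symm_apply]
      exact hw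
    · apply sm.injective
      show sm (R • sm.symm w) = sm x
      rw [map_smul, LinearEquiv.apply_symm_apply]
      exact h

end IC4

open IC4 in
theorem pr_C4 (hC3 : St_C3) : St_C4 := by
  intro D hD N hN r
  have h := hC3 (Fin 3 ⊕ Fin 3) (pre D) (body_pre hD) N hN (Sum.elim r.1 r.2)
  have hc : Fintype.card (Fin 3 ⊕ Fin 3) = 6 := by simp
  rw [hc, volume_pre] at h
  refine h.congr fun R => ?_
  congr 2
  refine Set.ncard_congr (fun z _ => (fun i => z (Sum.inl i), fun i => z (Sum.inr i))) ?_ ?_ ?_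
  · rintro z ⟨h1, h2⟩
    exact ⟨(mem_smul_pre D R (toR z)).1 h1, fun i => h2 (Sum.inl i), fun i => h2 (Sum.inr i)⟩
  · intro z z' _ _ hz
    funext i
    rcases i with i | i
    · exact congrFun (congrArg Prod.fst hz) i
    · exact congrFun (congrArg Prod.snd hz) i
  · rintro z ⟨h1, h2, h3⟩
    refine ⟨Sum.elim z.1 z.2, ⟨?_, ?_⟩, rfl⟩
    · exact (mem_smul_pre D R (toR (Sum.elim z.1 z.2))).2 h1
    · rintro (i | i)
      · exact h2 i
      · exact h3 i

end Pool.Agent.Work.MP_b25393_ag.HF
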