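import Pool.Agent.Work.MP_b25393_ag.HF.StmtsC

/-!
# MP_b25393_ag, block HF, item C5 (helper37): periodic sets of pairs of integral vectors
-/

set_option autoImplicit false

open scoped LinearAlgebra.Projectivization Pointwise Matrix RealInnerProductSpace ENNReal
open MeasureTheory Filter Topology Matrix

namespace Pool.Agent.Work.MP_b25393_ag.HF

open Pool.Agent.Work.MP_b25393_ag

namespace IC5

/-- `dl D R` is finite for compact `D` -/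
theorem dl_finite {D : Set ((Fin 3 → ℝ) × (Fin 3 → ℝ))} (hD : IsCompact D) (R : ℝ) :
    (dl D R).Finite := by
  have hb : Bornology.IsBounded (R • D) := (hD.smul R).isBounded
  obtain ⟨M, hM⟩ := hb.exists_norm_le
  have key : dl D R ⊆ (Set.Icc ((fun _ => -⌈M⌉) : Fin 3 → ℤ) (fun _ => ⌈M⌉)) ×ˢ
      (Set.Icc ((fun _ => -⌈M⌉) : Fin 3 → ℤ) (fun _ => ⌈M⌉)) := by
    intro z hz
    have h1 : ‖((toR z.1, toR z.2) : (Fin 3 → ℝ) × (Fin 3 → ℝ))‖ ≤ M := hM _ hz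
    have h2 : ∀ i, |(z.1 i : ℝ)| ≤ M := by
      intro i
      have := norm_le_pi_norm (toR z.1) i
      have h3 : ‖toR z.1‖ ≤ M := le_trans (norm_fst_le ((toR z.1, toR z.2) :
        (Fin 3 → ℝ) × (Fin 3 → ℝ))) h1
      exact le_trans this h3
    have h4 : ∀ i, |(z.2 i : ℝ)| ≤ M := by
      intro i
      have := norm_le_pi_norm (toR z.2) i
      have h3 : ‖toR z.2‖ ≤ M := le_trans (norm_snd_le ((toR z.1, toR z.2) :
        (Fin 3 → ℝ) × (Fin 3 → ℝ))) h1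
      exact le_trans this h3
    have h5 : ∀ a : ℤ, |(a : ℝ)| ≤ M → -⌈M⌉ ≤ a ∧ a ≤ ⌈M⌉ := by
      intro a ha
      have hc : |(a : ℝ)| ≤ (⌈M⌉ : ℤ) := le_trans ha (Int.le_ceil M)
      have hc' : |a| ≤ ⌈M⌉ := by exact_mod_cast hc
      exact abs_le.1 hc'
    exact ⟨⟨fun i => (h5 _ (h2 i)).1, fun i => (h5 _ (h2 i)).2⟩,
      ⟨fun i => (h5 _ (h4 i)).1, fun i => (h5 _ (h4 i)).2⟩⟩
  exact ((Set.finite_Icc _ _).prod (Set.finite_Icc _ _)).subset key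

/-- the box `[0, N)` is finite -/
theorem box_finite (N : ℕ) (W : Set ((Fin 3 → ℤ) × (Fin 3 → ℤ))) :
    ({z | z ∈ W ∧ (∀ i, 0 ≤ z.1 i ∧ z.1 i < (N : ℤ)) ∧
      ∀ i, 0 ≤ z.2 i ∧ z.2 i < (N : ℤ)} : Set ((Fin 3 → ℤ) × (Fin 3 → ℤ))).Finite := by
  refine ((Set.finite_Icc ((fun _ => 0) : Fin 3 → ℤ) (fun _ => (N : ℤ))).prod
    (Set.finite_Icc ((fun _ => 0) : Fin 3 → ℤ) (fun _ => (N : ℤ)))).subset ?_
  rintro z ⟨-, h1, h2⟩
  exact ⟨⟨fun i => (h1 i).1, fun i => (h1 i).2.le⟩, ⟨fun i => (h2 i).1, fun i => (h2 i).2.le⟩⟩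

/-- reduction mod `N` -/
def red (N : ℕ) (z : (Fin 3 → ℤ) × (Fin 3 → ℤ)) : (Fin 3 → ℤ) × (Fin 3 → ℤ) :=
  (fun i => z.1 i % (N : ℤ), fun i => z.2 i % (N : ℤ))

theorem red_eq_iff {N : ℕ} {z r : (Fin 3 → ℤ) × (Fin 3 → ℤ)}
    (hr : (∀ i, 0 ≤ r.1 i ∧ r.1 i < (N : ℤ)) ∧ ∀ i, 0 ≤ r.2 i ∧ r.2 i < (N : ℤ)) :
    red N z = r ↔ (∀ i, (N : ℤ) ∣ z.1 i - r.1 i) ∧ ∀ i, (N : ℤ) ∣ z.2 i - r.2 i := by
  have key : ∀ a b : ℤ, 0 ≤ b → b < (N : ℤ) → (a % (N : ℤ) = b ↔ (N : ℤ) ∣ a - b) := by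
    intro a b hb0 hb1
    constructor
    · intro h
      rw [← h]
      exact Int.dvd_self_sub_emod
    · intro h
      have h1 : b % (N : ℤ) = a % (N : ℤ) := Int.emod_eq_emod_iff_emod_sub_eq_zero.2 (by
        have : (N : ℤ) ∣ b - a := by
          have := (dvd_neg).2 h
          rwa [neg_sub] at this
        exact Int.emod_eq_zero_of_dvd this)
      rw [← h1]
      exact Int.emod_eq_of_lt hb0 hb1
  constructor
  · intro h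
    subst h
    exact ⟨fun i => Int.dvd_self_sub_emod, fun i => Int.dvd_self_sub_emod⟩
  · rintro ⟨h1, h2⟩
    refine Prod.ext (funext fun i => ?_) (funext fun i => ?_)
    · exact (key _ _ (hr.1 i).1 (hr.1 i).2).2 (h1 i)
    · exact (key _ _ (hr.2 i).1 (hr.2 i).2).2 (h2 i)

theorem red_mem {N : ℕ} (hN : 1 ≤ N) (z : (Fin 3 → ℤ) × (Fin 3 → ℤ)) :
    (∀ i, 0 ≤ (red N z).1 i ∧ (red N z).1 i < (N : ℤ)) ∧
      ∀ i, 0 ≤ (red N z).2 i ∧ (red N z).2 i < (N : ℤ) := by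
  have h0 : (0 : ℤ) < N := by exact_mod_cast hN
  exact ⟨fun i => ⟨Int.emod_nonneg _ h0.ne', Int.emod_lt_of_pos _ h0⟩,
    fun i => ⟨Int.emod_nonneg _ h0.ne', Int.emod_lt_of_pos _ h0⟩⟩

open Classical in
/-- the count is a finite sum -/
theorem count {D : Set ((Fin 3 → ℝ) × (Fin 3 → ℝ))} (hD : IsCompact D) {N : ℕ} (hN : 1 ≤ N)
    (W : Set ((Fin 3 → ℤ) × (Fin 3 → ℤ)))
    (hW : ∀ z z' : (Fin 3 → ℤ) × (Fin 3 → ℤ), (∀ i, (N : ℤ) ∣ z.1 i - z'.1 i) →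
      (∀ i, (N : ℤ) ∣ z.2 i - z'.2 i) → (z ∈ W ↔ z' ∈ W)) (R : ℝ) :
    ({z | z ∈ dl D R ∧ z ∈ W} : Set ((Fin 3 → ℤ) × (Fin 3 → ℤ))).ncard =
      ∑ r ∈ (box_finite N W).toFinset, ({z | z ∈ dl D R ∧ (∀ i, (N : ℤ) ∣ z.1 i - r.1 i) ∧
        ∀ i, (N : ℤ) ∣ z.2 i - r.2 i} : Set ((Fin 3 → ℤ) × (Fin 3 → ℤ))).ncard := by
  have hf := dl_finite hD R
  have e1 : ({z | z ∈ dl D R ∧ z ∈ W} : Set ((Fin 3 → ℤ) × (Fin 3 → ℤ))) =
      ((hf.toFinset.filter (fun z => z ∈ W) : Finset _) : Set ((Fin 3 → ℤ) × (Fin 3 → ℤ))) := by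
    ext z
    simp
  have e2 : ∀ r ∈ (box_finite N W).toFinset,
      ({z | z ∈ dl D R ∧ (∀ i, (N : ℤ) ∣ z.1 i - r.1 i) ∧
        ∀ i, (N : ℤ) ∣ z.2 i - r.2 i} : Set ((Fin 3 → ℤ) × (Fin 3 → ℤ))) =
      (((hf.toFinset.filter (fun z => z ∈ W)).filter (fun z => red N z = r) : Finset _) :
        Set ((Fin 3 → ℤ) × (Fin 3 → ℤ))) := by
    intro r hr
    have hr' : r ∈ W ∧ (∀ i, 0 ≤ r.1 i ∧ r.1 i < (N : ℤ)) ∧
      ∀ i, 0 ≤ r.2 i ∧ r.2 i < (N : ℤ) := (box_finite N W).mem_toFinset.1 hr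
    ext z
    simp only [Set.mem_ofPred_eq, Finset.coe_filter, Finset.mem_filter, Set.Finite.mem_toFinset,
      red_eq_iff hr'.2]
    constructor
    · rintro ⟨h1, h2, h3⟩
      exact ⟨⟨h1, (hW z r h2 h3).2 hr'.1⟩, h2, h3⟩
    · rintro ⟨⟨h1, -⟩, h2, h3⟩
      exact ⟨h1, h2, h3⟩
  rw [e1, Set.ncard_coe_finset, Finset.card_eq_sum_card_fiberwise (f := red N)
    (t := (box_finite N W).toFinset) ?_]
  · refine Finset.sum_congr rfl fun r hr => ?_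
    rw [e2 r hr, Set.ncard_coe_finset]
  · intro z hz
    have hz' : z ∈ W := (Finset.mem_filter.1 (Finset.mem_coe.1 hz)).2
    have hm := red_mem hN z
    have hc := (red_eq_iff hm (z := z)).1 rfl
    exact Finset.mem_coe.2 ((Set.Finite.mem_toFinset _).2 ⟨(hW z (red N z) hc.1 hc.2).1 hz', hm⟩)

end IC5

open IC5 in
/-- Item C5. -/
theorem pr_C5 (hC4 : St_C4) : St_C5 := by
  intro D hD N hN W hW
  have hlim : Tendsto (fun R : ℝ => ∑ r ∈ (box_finite N W).toFinset,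
      ((({z | z ∈ dl D R ∧ (∀ i, (N : ℤ) ∣ z.1 i - r.1 i) ∧
        ∀ i, (N : ℤ) ∣ z.2 i - r.2 i} : Set ((Fin 3 → ℤ) × (Fin 3 → ℤ))).ncard : ℕ) : ℝ) / R ^ 6)
      atTop (𝓝 (∑ _r ∈ (box_finite N W).toFinset, (volume D).toReal / (N : ℝ) ^ 6)) :=
    tendsto_finsetSum _ fun r _ => hC4 D hD N hN r
  have e : ∑ _r ∈ (box_finite N W).toFinset, (volume D).toReal / (N : ℝ) ^ 6 =
      (({z | z ∈ W ∧ (∀ i, 0 ≤ z.1 i ∧ z.1 i < (N : ℤ)) ∧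
      ∀ i, 0 ≤ z.2 i ∧ z.2 i < (N : ℤ)}.ncard : ℕ) : ℝ) / (N : ℝ) ^ 6 * (volume D).toReal := by
    rw [Finset.sum_const, nsmul_eq_mul, Set.ncard_eq_toFinset_card _ (box_finite N W)]
    ring
  rw [← e]
  refine hlim.congr fun R => ?_
  rw [count hD.comp hN W hW R, Nat.cast_sum, Finset.sum_div]

end Pool.Agent.Work.MP_b25393_ag.HF
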