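import Pool.Agent.Work.MP_b25393_ag.HF.StmtsC

/-!
# Block HF, item D1: dependent pairs modulo a prime
-/

set_option autoImplicit false

open Matrix

namespace Pool.Agent.Work.MP_b25393_ag.HF

namespace ID1

/-- reduction of a pair -/
def red (p : ℕ) (z : (Fin 3 → ℤ) × (Fin 3 → ℤ)) : (Fin 3 → ZMod p) × (Fin 3 → ZMod p) :=
  (fun i => (z.1 i : ZMod p), fun i => (z.2 i : ZMod p))

/-- parametrisation of the dependent pairs -/
def par (p : ℕ) : (Fin 3 → ZMod p) ⊕ ((Fin 3 → ZMod p) × ZMod p) →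
    (Fin 3 → ZMod p) × (Fin 3 → ZMod p)
  | Sum.inl v => (0, v)
  | Sum.inr w => (w.1, fun i => w.2 * w.1 i)

/-- the components of the cross product -/
theorem comp {R : Type} [CommRing R] (u v : Fin 3 → R) :
    (u ⨯₃ v) 0 = u 1 * v 2 - u 2 * v 1 ∧ (u ⨯₃ v) 1 = u 2 * v 0 - u 0 * v 2 ∧
      (u ⨯₃ v) 2 = u 0 * v 1 - u 1 * v 0 := by
  rw [cross_apply]
  exact ⟨rfl, rfl, rfl⟩

/-- dependent pairs are in the range -/
theorem mem_range (p : ℕ) [Fact p.Prime] (u v : Fin 3 → ZMod p)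
    (h0 : u 1 * v 2 - u 2 * v 1 = 0) (h1 : u 2 * v 0 - u 0 * v 2 = 0)
    (h2 : u 0 * v 1 - u 1 * v 0 = 0) : (u, v) ∈ Set.range (par p) := by
  by_cases hu : u = 0
  · exact ⟨Sum.inl v, by rw [hu]; rfl⟩
  · obtain ⟨j, hj⟩ : ∃ j, u j ≠ 0 := by
      by_contra hn
      apply hu
      funext i
      by_contra hi
      exact hn ⟨i, hi⟩
    refine ⟨Sum.inr (u, v j / u j), ?_⟩
    have key : ∀ i, v j / u j * u i = v i := by
      intro i
      have hji : u j * v i = u i * v j := by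
        fin_cases j <;> fin_cases i
        · rfl
        · simp only [Fin.zero_eta, Fin.mk_one]; linear_combination h2
        · simp only [Fin.zero_eta, Fin.reduceFinMk]; linear_combination (-1 : ZMod p) * h1
        · simp only [Fin.zero_eta, Fin.mk_one]; linear_combination (-1 : ZMod p) * h2
        · rfl
        · simp only [Fin.mk_one, Fin.reduceFinMk]; linear_combination h0
        · simp only [Fin.zero_eta, Fin.reduceFinMk]; linear_combination h1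
        · simp only [Fin.mk_one, Fin.reduceFinMk]; linear_combination (-1 : ZMod p) * h0
        · rfl
      rw [div_mul_eq_mul_div, div_eq_iff hj]
      linear_combination (-1 : ZMod p) * hji
    show (u, fun i => v j / u j * u i) = (u, v)
    rw [Prod.mk.injEq]
    exact ⟨rfl, funext key⟩

/-- coordinates in `[0, p)` are determined by the residues -/
theorem eq_of_cast (p : ℕ) (a b : ℤ) (ha : 0 ≤ a ∧ a < (p : ℤ)) (hb : 0 ≤ b ∧ b < (p : ℤ))
    (h : (a : ZMod p) = (b : ZMod p)) : a = b := by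
  have h1 : a ≡ b [ZMOD (p : ℤ)] := (ZMod.intCast_eq_intCast_iff a b p).1 h
  have h2 : a % (p : ℤ) = b % (p : ℤ) := h1
  rwa [Int.emod_eq_of_lt ha.1 ha.2, Int.emod_eq_of_lt hb.1 hb.2] at h2

end ID1

theorem pr_D1 : St_D1 := by
  intro p hp
  have hpf : Fact p.Prime := ⟨hp⟩
  have hinj : Set.InjOn (ID1.red p) {z : (Fin 3 → ℤ) × (Fin 3 → ℤ) |
      (∀ i, (p : ℤ) ∣ (z.1 ⨯₃ z.2) i) ∧ (∀ i, 0 ≤ z.1 i ∧ z.1 i < (p : ℤ)) ∧
        ∀ i, 0 ≤ z.2 i ∧ z.2 i < (p : ℤ)} := by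
    rintro ⟨a, b⟩ ⟨-, ha, hb⟩ ⟨a', b'⟩ ⟨-, ha', hb'⟩ h
    have h1 : (fun i => (a i : ZMod p)) = fun i => (a' i : ZMod p) := congrArg Prod.fst h
    have h2 : (fun i => (b i : ZMod p)) = fun i => (b' i : ZMod p) := congrArg Prod.snd h
    rw [Prod.mk.injEq]
    constructor
    · funext i
      exact ID1.eq_of_cast p _ _ (ha i) (ha' i) (congrFun h1 i)
    · funext i
      exact ID1.eq_of_cast p _ _ (hb i) (hb' i) (congrFun h2 i)
  rw [← hinj.ncard_image]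
  have hsub : ID1.red p '' {z : (Fin 3 → ℤ) × (Fin 3 → ℤ) |
      (∀ i, (p : ℤ) ∣ (z.1 ⨯₃ z.2) i) ∧ (∀ i, 0 ≤ z.1 i ∧ z.1 i < (p : ℤ)) ∧
        ∀ i, 0 ≤ z.2 i ∧ z.2 i < (p : ℤ)} ⊆ Set.range (ID1.par p) := by
    rintro _ ⟨⟨a, b⟩, ⟨hd, -, -⟩, rfl⟩
    obtain ⟨c0, c1, c2⟩ := ID1.comp a b
    have d0 := (ZMod.intCast_zmod_eq_zero_iff_dvd _ p).2 (c0 ▸ hd 0)
    have d1 := (ZMod.intCast_zmod_eq_zero_iff_dvd _ p).2 (c1 ▸ hd 1)
    have d2 := (ZMod.intCast_zmod_eq_zero_iff_dvd _ p).2 (c2 ▸ hd 2)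
    refine ID1.mem_range p (fun i => (a i : ZMod p)) (fun i => (b i : ZMod p)) ?_ ?_ ?_
    · rw [← d0]; push_cast; rfl
    · rw [← d1]; push_cast; rfl
    · rw [← d2]; push_cast; rfl
  refine (Set.ncard_le_ncard hsub (Set.finite_range _)).trans ?_
  rw [← Set.image_univ]
  refine (Set.ncard_image_le (Set.finite_univ)).trans ?_
  rw [Set.ncard_univ, Nat.card_eq_fintype_card, Fintype.card_sum, Fintype.card_prod,
    Fintype.card_fun, ZMod.card, Fintype.card_fin]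
  have : p ^ 3 * p = p ^ 4 := by ring
  omega

end Pool.Agent.Work.MP_b25393_ag.HF
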