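import Pool.Agent.Work.MP_b25393_ag.HF.StmtsC

/-! # MP_b25393_ag, block HF, item D2 (helper86): a sum over the primes -/

set_option autoImplicit false

open scoped LinearAlgebra.Projectivization Pointwise Matrix RealInnerProductSpace ENNReal
open MeasureTheory Filter Topology Matrix

namespace Pool.Agent.Work.MP_b25393_ag.HF

open Pool.Agent.Work.MP_b25393_ag

namespace ID2

/-- the summand -/
noncomputable def f (n : ℕ) : ℝ := 1 / (n : ℝ) ^ 2 + 1 / (n : ℝ) ^ 3

theorem f_nonneg (n : ℕ) : 0 ≤ f n := by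
  unfold f
  positivity

/-- the sum over the primes below `G` -/
noncomputable def S (G : ℕ) : ℝ := ∑ p ∈ Finset.range G, if p.Prime then f p else 0

theorem S_succ (G : ℕ) : S (G + 1) = S G + if G.Prime then f G else 0 := by
  unfold S
  rw [Finset.sum_range_succ]

theorem S_mono {G H : ℕ} (h : G ≤ H) : S G ≤ S H := by
  unfold S
  apply Finset.sum_le_sum_of_subset_of_nonneg
  · exact Finset.range_subset_range.2 h
  · intro p _ _
    split_ifs
    · exact f_nonneg p
    · exact le_rfl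

theorem f_le (k : ℕ) : f (2 * k + 5) ≤ 3 / 5 * (1 / ((2 * k + 4 : ℕ) : ℝ) - 1 / ((2 * k + 6 : ℕ) : ℝ)) := by
  unfold f
  push_cast
  have hk : (0 : ℝ) ≤ k := Nat.cast_nonneg k
  have h1 : (0 : ℝ) < 2 * k + 4 := by linarith
  have h2 : (0 : ℝ) < 2 * k + 5 := by linarith
  have h3 : (0 : ℝ) < 2 * k + 6 := by linarith
  have e1 : 3 / 5 * (1 / (2 * (k : ℝ) + 4) - 1 / (2 * k + 6)) =
      6 / 5 / ((2 * k + 4) * (2 * k + 6)) := by
    field_simp
    ring
  have e2 : 1 / (2 * (k : ℝ) + 5) ^ 2 + 1 / (2 * k + 5) ^ 3 = (2 * k + 6) / (2 * k + 5) ^ 3 := by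
    field_simp
    ring
  rw [e1, e2, div_div, div_le_div_iff₀ (by positivity) (by positivity)]
  have h4 : (0 : ℝ) ≤ (k : ℝ) ^ 2 := sq_nonneg _
  have h5 : (0 : ℝ) ≤ (k : ℝ) ^ 3 := by positivity
  nlinarith [mul_nonneg hk hk]

theorem main (k : ℕ) :
    S (2 * k + 5) ≤ 3 / 8 + 4 / 27 + 3 / 5 * (1 / 4 - 1 / ((2 * k + 4 : ℕ) : ℝ)) := by
  induction k with
  | zero =>
    have h : S 5 = f 2 + f 3 := by
      rw [S_succ, S_succ, S_succ, S_succ, S_succ]
      have h0 : S 0 = 0 := by simp [S]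
      rw [h0, if_neg (by norm_num), if_neg (by norm_num), if_pos (by norm_num),
        if_pos (by norm_num), if_neg (by norm_num)]
      ring
    show S 5 ≤ _
    rw [h]
    unfold f
    norm_num
  | succ k ih =>
    have h1 : 2 * (k + 1) + 5 = 2 * k + 5 + 1 + 1 := by ring
    rw [h1, S_succ, S_succ]
    have h2 : ¬ (2 * k + 5 + 1).Prime := by
      intro hp
      have h3 : 2 ∣ 2 * k + 5 + 1 := ⟨k + 3, by ring⟩
      have := (Nat.prime_dvd_prime_iff_eq Nat.prime_two hp).1 h3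
      omega
    rw [if_neg h2, add_zero]
    have h3 : (if (2 * k + 5).Prime then f (2 * k + 5) else 0) ≤ f (2 * k + 5) := by
      split_ifs
      · exact le_rfl
      · exact f_nonneg _
    have h4 := f_le k
    have h5 : 2 * (k + 1) + 4 = 2 * k + 6 := by ring
    rw [h5]
    linarith

end ID2

theorem pr_D2 : St_D2 := by
  intro G
  have h1 : ∑ p ∈ (Finset.range (G + 1)).filter Nat.Prime,
      (1 / (p : ℝ) ^ 2 + 1 / (p : ℝ) ^ 3) = ID2.S (G + 1) := by
    rw [Finset.sum_filter]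
    rfl
  rw [h1]
  have h2 : ID2.S (G + 1) ≤ ID2.S (2 * G + 5) := ID2.S_mono (by omega)
  have h3 := ID2.main G
  have h4 : (0 : ℝ) ≤ 1 / ((2 * G + 4 : ℕ) : ℝ) := by positivity
  linarith

end Pool.Agent.Work.MP_b25393_ag.HF
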