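import Pool.Agent.Work.MP_b25393_ag.HF.StmtsC

/-!
# Item D3: the densities
-/

set_option autoImplicit false

open scoped LinearAlgebra.Projectivization Pointwise Matrix RealInnerProductSpace ENNReal
open MeasureTheory Filter Topology Matrix

namespace Pool.Agent.Work.MP_b25393_ag.HF

open Pool.Agent.Work.MP_b25393_ag

namespace ID3

/-- pairs of integral vectors -/
abbrev ZZ : Type := (Fin 3 → ℤ) × (Fin 3 → ℤ)

/-- the unit ball -/
abbrev DD : Set ((Fin 3 → ℝ) × (Fin 3 → ℝ)) := Metric.closedBall 0 1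

theorem body : Body DD where
  conv := convex_closedBall 0 1
  comp := isCompact_closedBall 0 1
  symm x hx := by
    rw [mem_closedBall_zero_iff] at hx ⊢
    rwa [norm_neg]
  inte := ⟨0, mem_interior_iff_mem_nhds.mpr (Metric.closedBall_mem_nhds 0 one_pos)⟩

theorem vol_pos : 0 < (volume DD).toReal :=
  ENNReal.toReal_pos (Metric.measure_closedBall_pos volume _ one_pos).ne' measure_closedBall_lt_top.ne

theorem cross_dvd (p : ℤ) (z z' : ZZ) (h1 : ∀ i, p ∣ z.1 i - z'.1 i)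
    (h2 : ∀ i, p ∣ z.2 i - z'.2 i) : ∀ i, p ∣ (z.1 ⨯₃ z.2) i - (z'.1 ⨯₃ z'.2) i := by
  have key : ∀ a b : Fin 3, p ∣ (z.1 a * z.2 b - z.1 b * z.2 a) -
      (z'.1 a * z'.2 b - z'.1 b * z'.2 a) := by
    intro a b
    have e : (z.1 a * z.2 b - z.1 b * z.2 a) - (z'.1 a * z'.2 b - z'.1 b * z'.2 a) =
        (z.1 a - z'.1 a) * z.2 b + (z.2 b - z'.2 b) * z'.1 a -
        ((z.1 b - z'.1 b) * z.2 a + (z.2 a - z'.2 a) * z'.1 b) := by ring
    rw [e]
    exact dvd_sub (dvd_add (Dvd.dvd.mul_right (h1 a) _) (Dvd.dvd.mul_right (h2 b) _))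
      (dvd_add (Dvd.dvd.mul_right (h1 b) _) (Dvd.dvd.mul_right (h2 a) _))
  intro i
  rw [cross_apply, cross_apply]
  fin_cases i
  · exact key 1 2
  · exact key 2 0
  · exact key 0 1

theorem cross_iff (p : ℤ) (z z' : ZZ) (h1 : ∀ i, p ∣ z.1 i - z'.1 i)
    (h2 : ∀ i, p ∣ z.2 i - z'.2 i) :
    (∀ i, p ∣ (z.1 ⨯₃ z.2) i) ↔ ∀ i, p ∣ (z'.1 ⨯₃ z'.2) i := by
  have h := cross_dvd p z z' h1 h2
  constructor
  · intro h3 i
    exact (dvd_sub_right (h3 i)).mp (h i)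
  · intro h3 i
    exact (dvd_sub_left (h3 i)).mp (h i)

theorem gd_iff (G : ℕ) (z z' : ZZ) (h1 : ∀ i, ((primorial G : ℕ) : ℤ) ∣ z.1 i - z'.1 i)
    (h2 : ∀ i, ((primorial G : ℕ) : ℤ) ∣ z.2 i - z'.2 i) : gd G z ↔ gd G z' := by
  have h : ∀ p : ℕ, p.Prime → p ≤ G → ((p : ℕ) : ℤ) ∣ ((primorial G : ℕ) : ℤ) := by
    intro p hp hpG
    rw [Int.natCast_dvd_natCast]
    unfold primorial
    refine Finset.dvd_prod_of_mem _ ?_
    rw [Finset.mem_filter, Finset.mem_range]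
    exact ⟨by omega, hp⟩
  unfold gd
  refine forall_congr' fun p => forall_congr' fun hp => forall_congr' fun hpG => ?_
  exact not_congr (cross_iff p z z' (fun i => (h p hp hpG).trans (h1 i))
    (fun i => (h p hp hpG).trans (h2 i)))

/-- the densities -/
noncomputable def d (G : ℕ) : ℝ :=
  (({z : ZZ | z ∈ {z : ZZ | gd G z} ∧ (∀ i, 0 ≤ z.1 i ∧ z.1 i < ((primorial G : ℕ) : ℤ)) ∧
      ∀ i, 0 ≤ z.2 i ∧ z.2 i < ((primorial G : ℕ) : ℤ)}.ncard : ℕ) : ℝ) /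
    ((primorial G : ℕ) : ℝ) ^ 6

theorem lim (hC5 : St_C5) (G : ℕ) (D : Set ((Fin 3 → ℝ) × (Fin 3 → ℝ))) (hD : Body D) :
    Tendsto (fun R : ℝ => (({z | z ∈ dl D R ∧ gd G z}.ncard : ℕ) : ℝ) / R ^ 6) atTop
      (𝓝 (d G * (volume D).toReal)) :=
  hC5 D hD (primorial G) (primorial_pos G) {z : ZZ | gd G z}
    (fun z z' h1 h2 => gd_iff G z z' h1 h2)

theorem fin (R : ℝ) : (dl DD R).Finite := by
  refine ((Set.finite_Icc (fun _ => -⌈|R|⌉ : Fin 3 → ℤ) (fun _ => ⌈|R|⌉)).prod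
    (Set.finite_Icc (fun _ => -⌈|R|⌉ : Fin 3 → ℤ) (fun _ => ⌈|R|⌉))).subset ?_
  intro z hz
  obtain ⟨x, hx, hxz⟩ := hz
  rw [mem_closedBall_zero_iff] at hx
  have h1 : ‖(toR z.1, toR z.2)‖ ≤ |R| := by
    rw [← hxz]
    show ‖R • x‖ ≤ |R|
    rw [norm_smul, Real.norm_eq_abs]
    exact mul_le_of_le_one_right (abs_nonneg R) hx
  have h2 : ∀ (w : Fin 3 → ℤ), ‖toR w‖ ≤ |R| → ∀ i, -⌈|R|⌉ ≤ w i ∧ w i ≤ ⌈|R|⌉ := by
    intro w hw i
    have h3 : ‖toR w i‖ ≤ |R| := (norm_le_pi_norm (toR w) i).trans hw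
    have h4 : |(w i : ℝ)| ≤ |R| := h3
    have h5 : |(w i : ℝ)| ≤ (⌈|R|⌉ : ℝ) := h4.trans (Int.le_ceil _)
    have h6 : |w i| ≤ ⌈|R|⌉ := by exact_mod_cast h5
    exact abs_le.mp h6
  have h3 := h2 z.1 ((norm_fst_le (toR z.1, toR z.2)).trans h1)
  have h4 := h2 z.2 ((norm_snd_le (toR z.1, toR z.2)).trans h1)
  exact ⟨⟨fun i => (h3 i).1, fun i => (h3 i).2⟩, ⟨fun i => (h4 i).1, fun i => (h4 i).2⟩⟩

theorem anti (hC5 : St_C5) : Antitone d := by
  refine antitone_nat_of_succ_le fun G => ?_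
  have h1 := lim hC5 (G + 1) DD body
  have h2 := lim hC5 G DD body
  have h3 : d (G + 1) * (volume DD).toReal ≤ d G * (volume DD).toReal := by
    refine le_of_tendsto_of_tendsto h1 h2 ?_
    filter_upwards [eventually_gt_atTop (0 : ℝ)] with R hR
    refine div_le_div_of_nonneg_right ?_ (by positivity)
    rw [Nat.cast_le]
    refine Set.ncard_le_ncard ?_ ((fin R).subset fun z hz => hz.1)
    intro z hz
    exact ⟨hz.1, fun p hp hpG => hz.2 p hp (by omega)⟩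
  exact le_of_mul_le_mul_right h3 vol_pos

/-- the pairs with cross product divisible by `p` -/
def Wp (p : ℕ) : Set ZZ := {z | ∀ i, (p : ℤ) ∣ (z.1 ⨯₃ z.2) i}

theorem count (G : ℕ) (R : ℝ) :
    ({z | z ∈ dl DD R ∧ z ∈ (Set.univ : Set ZZ)}.ncard) ≤
      {z | z ∈ dl DD R ∧ gd G z}.ncard +
        ∑ p ∈ (Finset.range (G + 1)).filter Nat.Prime, {z | z ∈ dl DD R ∧ z ∈ Wp p}.ncard := by
  classical
  have hF := fin R
  have h0 : {z | z ∈ dl DD R ∧ z ∈ (Set.univ : Set ZZ)} = (hF.toFinset : Set ZZ) := by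
    ext z
    simp
  have h1 : {z | z ∈ dl DD R ∧ gd G z} = (hF.toFinset.filter (fun z => gd G z) : Set ZZ) := by
    ext z
    simp
  have h2 : ∀ p, {z | z ∈ dl DD R ∧ z ∈ Wp p} =
      (hF.toFinset.filter (fun z => z ∈ Wp p) : Set ZZ) := by
    intro p
    ext z
    simp
  rw [h0, h1, Set.ncard_coe_finset, Set.ncard_coe_finset]
  have h3 : ∑ p ∈ (Finset.range (G + 1)).filter Nat.Prime, {z | z ∈ dl DD R ∧ z ∈ Wp p}.ncard =
      ∑ p ∈ (Finset.range (G + 1)).filter Nat.Prime,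
        (hF.toFinset.filter (fun z => z ∈ Wp p)).card := by
    refine Finset.sum_congr rfl fun p _ => ?_
    rw [h2 p, Set.ncard_coe_finset]
  rw [h3]
  have h4 : hF.toFinset ⊆ hF.toFinset.filter (fun z => gd G z) ∪
      ((Finset.range (G + 1)).filter Nat.Prime).biUnion
        (fun p => hF.toFinset.filter (fun z => z ∈ Wp p)) := by
    intro z hz
    rw [Finset.mem_union]
    by_cases hg : gd G z
    · left
      rw [Finset.mem_filter]
      exact ⟨hz, hg⟩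
    · right
      unfold gd at hg
      push Not at hg
      obtain ⟨p, hp, hpG, h⟩ := hg
      rw [Finset.mem_biUnion]
      refine ⟨p, ?_, ?_⟩
      · rw [Finset.mem_filter, Finset.mem_range]
        exact ⟨by omega, hp⟩
      · rw [Finset.mem_filter]
        exact ⟨hz, h⟩
  calc hF.toFinset.card ≤ _ := Finset.card_le_card h4
    _ ≤ _ := Finset.card_union_le _ _
    _ ≤ _ := Nat.add_le_add_left Finset.card_biUnion_le _

theorem lower (hC5 : St_C5) (hD1 : St_D1) (hD2 : St_D2) (G : ℕ) : 1 / 4 ≤ d G := by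
  have hV := vol_pos
  have h1 := hC5 DD body 1 le_rfl Set.univ (fun _ _ _ _ => Iff.rfl)
  have hone : {z : ZZ | z ∈ (Set.univ : Set ZZ) ∧ (∀ i, 0 ≤ z.1 i ∧ z.1 i < ((1 : ℕ) : ℤ)) ∧
      ∀ i, 0 ≤ z.2 i ∧ z.2 i < ((1 : ℕ) : ℤ)} = {0} := by
    ext z
    simp only [Set.mem_ofPred_eq, Set.mem_univ, true_and, Set.mem_singleton_iff, Nat.cast_one]
    constructor
    · rintro ⟨ha, hb⟩
      refine Prod.ext (funext fun i => ?_) (funext fun i => ?_)
      · have := ha i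
        show z.1 i = 0
        omega
      · have := hb i
        show z.2 i = 0
        omega
    · rintro rfl
      exact ⟨fun i => ⟨le_refl 0, one_pos⟩, fun i => ⟨le_refl 0, one_pos⟩⟩
  rw [hone, Set.ncard_singleton, Nat.cast_one, one_pow, div_one, one_mul] at h1
  have h2 := lim hC5 G DD body
  have h3 : ∀ p ∈ (Finset.range (G + 1)).filter Nat.Prime,
      Tendsto (fun R : ℝ => (({z | z ∈ dl DD R ∧ z ∈ Wp p}.ncard : ℕ) : ℝ) / R ^ 6) atTop
        (𝓝 ((({z : ZZ | z ∈ Wp p ∧ (∀ i, 0 ≤ z.1 i ∧ z.1 i < (p : ℤ)) ∧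
          ∀ i, 0 ≤ z.2 i ∧ z.2 i < (p : ℤ)}.ncard : ℕ) : ℝ) / (p : ℝ) ^ 6 *
            (volume DD).toReal)) := by
    intro p hp
    rw [Finset.mem_filter] at hp
    exact hC5 DD body p hp.2.one_lt.le (Wp p)
      (fun z z' ha hb => cross_iff p z z' ha hb)
  have h4 := h2.add (tendsto_finsetSum _ h3)
  have h5 : (volume DD).toReal ≤ d G * (volume DD).toReal +
      ∑ p ∈ (Finset.range (G + 1)).filter Nat.Prime,
        (({z : ZZ | z ∈ Wp p ∧ (∀ i, 0 ≤ z.1 i ∧ z.1 i < (p : ℤ)) ∧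
          ∀ i, 0 ≤ z.2 i ∧ z.2 i < (p : ℤ)}.ncard : ℕ) : ℝ) / (p : ℝ) ^ 6 *
            (volume DD).toReal := by
    refine le_of_tendsto_of_tendsto h1 h4 ?_
    filter_upwards [eventually_gt_atTop (0 : ℝ)] with R hR
    have hR6 : 0 < R ^ 6 := by positivity
    have hc := count G R
    rw [← Finset.sum_div, ← add_div]
    refine div_le_div_of_nonneg_right ?_ hR6.le
    exact_mod_cast hc
  have h6 : ∀ p ∈ (Finset.range (G + 1)).filter Nat.Prime,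
      (({z : ZZ | z ∈ Wp p ∧ (∀ i, 0 ≤ z.1 i ∧ z.1 i < (p : ℤ)) ∧
          ∀ i, 0 ≤ z.2 i ∧ z.2 i < (p : ℤ)}.ncard : ℕ) : ℝ) / (p : ℝ) ^ 6 *
            (volume DD).toReal ≤
        (1 / (p : ℝ) ^ 2 + 1 / (p : ℝ) ^ 3) * (volume DD).toReal := by
    intro p hp
    rw [Finset.mem_filter] at hp
    have hp0 : (0 : ℝ) < p := by exact_mod_cast hp.2.pos
    refine mul_le_mul_of_nonneg_right ?_ hV.le
    have h7 : (({z : ZZ | z ∈ Wp p ∧ (∀ i, 0 ≤ z.1 i ∧ z.1 i < (p : ℤ)) ∧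
          ∀ i, 0 ≤ z.2 i ∧ z.2 i < (p : ℤ)}.ncard : ℕ) : ℝ) ≤ (p : ℝ) ^ 4 + (p : ℝ) ^ 3 := by
      exact_mod_cast hD1 p hp.2
    rw [div_le_iff₀ (by positivity)]
    refine h7.trans (le_of_eq ?_)
    field_simp
  have h8 := Finset.sum_le_sum h6
  have h11 : ∑ p ∈ (Finset.range (G + 1)).filter Nat.Prime,
      (1 / (p : ℝ) ^ 2 + 1 / (p : ℝ) ^ 3) * (volume DD).toReal =
      (∑ p ∈ (Finset.range (G + 1)).filter Nat.Prime,
        (1 / (p : ℝ) ^ 2 + 1 / (p : ℝ) ^ 3)) * (volume DD).toReal :=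
    (Finset.sum_mul _ _ _).symm
  rw [h11] at h8
  have h9 := mul_le_mul_of_nonneg_right (hD2 G) hV.le
  have h10 : 1 / 4 * (volume DD).toReal ≤ d G * (volume DD).toReal := by linarith
  exact le_of_mul_le_mul_right h10 hV

end ID3

theorem pr_D3 (hC5 : St_C5) (hD1 : St_D1) (hD2 : St_D2) : St_D3 :=
  ⟨ID3.d, ID3.anti hC5, ID3.lower hC5 hD1 hD2, ID3.lim hC5⟩

end Pool.Agent.Work.MP_b25393_ag.HF
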