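import Pool.Agent.Work.MP_b25393_ag.HF.StmtsC

/-!
# MP_b25393_ag, block HF: item D4 (the main count)
-/

set_option autoImplicit false

open scoped LinearAlgebra.Projectivization Pointwise Matrix RealInnerProductSpace ENNReal
open MeasureTheory Filter Topology Matrix

namespace Pool.Agent.Work.MP_b25393_ag.HF

open Pool.Agent.Work.MP_b25393_ag

namespace ID4

theorem bx_finite (M : ℕ) : (bx M).Finite := by
  have h1 : {f : Fin 3 → ℤ | ∀ i, f i ∈ Set.Icc (-(M : ℤ)) (M : ℤ)}.Finite :=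
    Set.Finite.pi' (fun _ => Set.finite_Icc _ _)
  refine (h1.prod h1).subset ?_
  rintro ⟨u, v⟩ ⟨hu, hv⟩
  exact ⟨fun i => ⟨(abs_le.mp (hu i)).1, (abs_le.mp (hu i)).2⟩,
    fun i => ⟨(abs_le.mp (hv i)).1, (abs_le.mp (hv i)).2⟩⟩

theorem dl_sub (D : Set ((Fin 3 → ℝ) × (Fin 3 → ℝ))) (κ : ℝ) (hD : ∀ x ∈ D, ‖x‖ ≤ κ) (R : ℝ)
    (hR : 0 ≤ R) (M : ℕ) (hM : κ * R ≤ M) : dl D R ⊆ bx M := by
  rintro z hz
  obtain ⟨x, hx, hxz⟩ := hz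
  have hx' := hD x hx
  have h1 : ‖x.1‖ ≤ κ := (norm_fst_le x).trans hx'
  have h2 : ‖x.2‖ ≤ κ := (norm_snd_le x).trans hx'
  have e1 : toR z.1 = R • x.1 := (congrArg Prod.fst hxz).symm
  have e2 : toR z.2 = R • x.2 := (congrArg Prod.snd hxz).symm
  have key : ∀ (w : Fin 3 → ℤ) (y : Fin 3 → ℝ), ‖y‖ ≤ κ → toR w = R • y → ∀ i, |w i| ≤ (M : ℤ) := by
    intro w y hy e i
    have h3 : (w i : ℝ) = R * y i := congrFun e i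
    have h4 : |y i| ≤ κ := (norm_le_pi_norm y i).trans hy
    have h5 : |(w i : ℝ)| ≤ M := by
      rw [h3, abs_mul, abs_of_nonneg hR, mul_comm]
      exact (mul_le_mul_of_nonneg_right h4 hR).trans hM
    have h6 : ((|w i| : ℤ) : ℝ) ≤ ((M : ℤ) : ℝ) := by
      rw [Int.cast_abs]
      exact_mod_cast h5
    exact_mod_cast h6
  exact ⟨key z.1 x.1 h1 e1, key z.2 x.2 h2 e2⟩

theorem gd_of_prm (G : ℕ) (z : (Fin 3 → ℤ) × (Fin 3 → ℤ)) (h : Prm (z.1 ⨯₃ z.2)) : gd G z := by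
  intro p hp _ hd
  have h1 := h p hd
  exact (Nat.prime_iff_prime_int.mp hp).not_isUnit h1

theorem of_not_prm (G : ℕ) (hG : 2 ≤ G) (z : (Fin 3 → ℤ) × (Fin 3 → ℤ)) (hg : gd G z)
    (h : ¬ Prm (z.1 ⨯₃ z.2)) : z.1 ⨯₃ z.2 ≠ 0 ∧
      ∃ p : ℕ, p.Prime ∧ G < p ∧ ∀ i, (p : ℤ) ∣ (z.1 ⨯₃ z.2) i := by
  have h0 : z.1 ⨯₃ z.2 ≠ 0 := by
    intro h0
    refine hg 2 Nat.prime_two hG (fun i => ?_)
    rw [h0]
    exact dvd_zero _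
  refine ⟨h0, ?_⟩
  unfold Prm at h
  push Not at h
  obtain ⟨d, hd, hu⟩ := h
  have h1 : d.natAbs ≠ 1 := fun h1 => hu (Int.isUnit_iff_natAbs_eq.mpr h1)
  obtain ⟨p, hp, hpd⟩ := Nat.exists_prime_and_dvd h1
  have h2 : ∀ i, (p : ℤ) ∣ (z.1 ⨯₃ z.2) i := fun i =>
    (Int.natCast_dvd.mpr hpd).trans (hd i)
  refine ⟨p, hp, ?_, h2⟩
  by_contra h3
  exact hg p hp (by omega) h2

theorem count (hT5 : St_T5) (D : Set ((Fin 3 → ℝ) × (Fin 3 → ℝ))) (κ : ℝ) (hκ : 1 ≤ κ)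
    (hD : ∀ x ∈ D, ‖x‖ ≤ κ) (R : ℝ) (hR : 1 ≤ R) (G : ℕ) (hG : 2 ≤ G) :
    (({z | z ∈ dl D R ∧ Prm (z.1 ⨯₃ z.2)}.ncard : ℕ) : ℝ) / R ^ 6 ≤
      (({z | z ∈ dl D R ∧ gd G z}.ncard : ℕ) : ℝ) / R ^ 6 ∧
    (({z | z ∈ dl D R ∧ gd G z}.ncard : ℕ) : ℝ) / R ^ 6 ≤
      (({z | z ∈ dl D R ∧ Prm (z.1 ⨯₃ z.2)}.ncard : ℕ) : ℝ) / R ^ 6 +
        663552 * (2 * κ) ^ 6 / Real.sqrt G := by
  have hR0 : 0 < R := by linarith
  have hR6 : 0 < R ^ 6 := by positivity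
  have hκR : 1 ≤ κ * R := by nlinarith
  set M : ℕ := ⌈κ * R⌉₊ with hMdef
  have hM1 : κ * R ≤ M := Nat.le_ceil _
  have hM2 : (M : ℝ) ≤ 2 * κ * R := by
    have := Nat.ceil_lt_add_one (show 0 ≤ κ * R by linarith)
    linarith
  have hM3 : 1 ≤ M := by
    have : (1 : ℝ) ≤ M := hκR.trans hM1
    exact_mod_cast this
  have hsub : dl D R ⊆ bx M := dl_sub D κ hD R hR0.le M hM1
  have hBfin : {z | z ∈ dl D R ∧ gd G z}.Finite :=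
    (bx_finite M).subset (fun z hz => hsub hz.1)
  have hAB : {z | z ∈ dl D R ∧ Prm (z.1 ⨯₃ z.2)} ⊆ {z | z ∈ dl D R ∧ gd G z} :=
    fun z hz => ⟨hz.1, gd_of_prm G z hz.2⟩
  have hAfin : {z | z ∈ dl D R ∧ Prm (z.1 ⨯₃ z.2)}.Finite := hBfin.subset hAB
  have h1 : ({z | z ∈ dl D R ∧ Prm (z.1 ⨯₃ z.2)}).ncard ≤ ({z | z ∈ dl D R ∧ gd G z}).ncard :=
    Set.ncard_le_ncard hAB hBfin
  refine ⟨?_, ?_⟩
  · have h1' : (({z | z ∈ dl D R ∧ Prm (z.1 ⨯₃ z.2)}.ncard : ℕ) : ℝ) ≤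
        (({z | z ∈ dl D R ∧ gd G z}.ncard : ℕ) : ℝ) := by exact_mod_cast h1
    gcongr
  · set T : Set ((Fin 3 → ℤ) × (Fin 3 → ℤ)) := {z | z ∈ bx M ∧ z.1 ⨯₃ z.2 ≠ 0 ∧
      ∃ p : ℕ, p.Prime ∧ G < p ∧ ∀ i, (p : ℤ) ∣ (z.1 ⨯₃ z.2) i} with hT
    have hTfin : T.Finite := (bx_finite M).subset (fun z hz => hz.1)
    have hBT : {z | z ∈ dl D R ∧ gd G z} ⊆ {z | z ∈ dl D R ∧ Prm (z.1 ⨯₃ z.2)} ∪ T := by
      rintro z ⟨hz1, hz2⟩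
      by_cases hp : Prm (z.1 ⨯₃ z.2)
      · exact Or.inl ⟨hz1, hp⟩
      · exact Or.inr ⟨hsub hz1, of_not_prm G hG z hz2 hp⟩
    have h2 : ({z | z ∈ dl D R ∧ gd G z}).ncard ≤
        ({z | z ∈ dl D R ∧ Prm (z.1 ⨯₃ z.2)}).ncard + T.ncard :=
      (Set.ncard_le_ncard hBT (hAfin.union hTfin)).trans (Set.ncard_union_le _ _)
    have h3 : ((T.ncard : ℕ) : ℝ) ≤ 663552 * (M : ℝ) ^ 6 / Real.sqrt G := hT5 G M (by omega) hM3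
    have hs : 0 < Real.sqrt G := Real.sqrt_pos.mpr (by exact_mod_cast (show 0 < G by omega))
    have h4 : 663552 * (M : ℝ) ^ 6 / Real.sqrt G ≤
        663552 * (2 * κ) ^ 6 / Real.sqrt G * R ^ 6 := by
      have h5 : (M : ℝ) ^ 6 ≤ (2 * κ) ^ 6 * R ^ 6 := by
        rw [← mul_pow]
        exact pow_le_pow_left₀ (Nat.cast_nonneg _) hM2 6
      have e : 663552 * (2 * κ) ^ 6 / Real.sqrt G * R ^ 6 =
          663552 * ((2 * κ) ^ 6 * R ^ 6) / Real.sqrt G := by ring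
      rw [e]
      gcongr
    have h2' : (({z | z ∈ dl D R ∧ gd G z}.ncard : ℕ) : ℝ) ≤
        (({z | z ∈ dl D R ∧ Prm (z.1 ⨯₃ z.2)}.ncard : ℕ) : ℝ) + ((T.ncard : ℕ) : ℝ) := by
      exact_mod_cast h2
    rw [div_le_iff₀ hR6, add_mul, div_mul_cancel₀ _ hR6.ne']
    linarith

end ID4

open ID4 in
theorem pr_D4 (hD3 : St_D3) (hT5 : St_T5) : St_D4 := by
  obtain ⟨d, hanti, hlow, hlim⟩ := hD3
  have hbdd : BddBelow (Set.range d) := ⟨1 / 4, by rintro _ ⟨G, rfl⟩; exact hlow G⟩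
  have hc : Tendsto d atTop (𝓝 (⨅ G, d G)) := tendsto_atTop_ciInf hanti hbdd
  refine ⟨⨅ G, d G, ?_, ?_⟩
  · have : (1 / 4 : ℝ) ≤ ⨅ G, d G := le_ciInf hlow
    linarith
  intro D hD
  obtain ⟨κ0, hκ0⟩ := hD.comp.isBounded.exists_norm_le
  set κ : ℝ := max 1 κ0 with hκ
  have hκ1 : 1 ≤ κ := le_max_left _ _
  have hκD : ∀ x ∈ D, ‖x‖ ≤ κ := fun x hx => (hκ0 x hx).trans (le_max_right _ _)
  set V : ℝ := (volume D).toReal with hV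
  set c : ℝ := ⨅ G, d G with hcdef
  have hcV : Tendsto (fun G => d G * V) atTop (𝓝 (c * V)) := hc.mul_const V
  have herr : Tendsto (fun G : ℕ => 663552 * (2 * κ) ^ 6 / Real.sqrt (G : ℝ)) atTop (𝓝 0) :=
    tendsto_const_nhds.div_atTop (Real.tendsto_sqrt_atTop.comp tendsto_natCast_atTop_atTop)
  rw [Metric.tendsto_nhds]
  intro ε hε
  have e1 : ∀ᶠ G in atTop, dist (d G * V) (c * V) < ε / 3 :=
    Metric.tendsto_nhds.mp hcV (ε / 3) (by linarith)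
  have e2 : ∀ᶠ G : ℕ in atTop, dist (663552 * (2 * κ) ^ 6 / Real.sqrt (G : ℝ)) 0 < ε / 3 :=
    Metric.tendsto_nhds.mp herr (ε / 3) (by linarith)
  obtain ⟨G, hG1, hG2, hG3⟩ := (e1.and (e2.and (eventually_ge_atTop 2))).exists
  have e3 := Metric.tendsto_nhds.mp (hlim G D hD) (ε / 3) (by linarith)
  filter_upwards [e3, eventually_ge_atTop (1 : ℝ)] with R hR1 hR2
  obtain ⟨k1, k2⟩ := count hT5 D κ hκ1 hκD R hR2 G hG3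
  rw [Real.dist_eq, abs_lt] at hG1 hR1 ⊢
  rw [Real.dist_eq, sub_zero, abs_lt] at hG2
  constructor <;> linarith [hG1.1, hG1.2, hR1.1, hR1.2, hG2.1, hG2.2]

end Pool.Agent.Work.MP_b25393_ag.HF
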