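import Pool.Agent.Work.MP_b25393_ag.HF.StmtsC

/-!
# MP_b25393_ag, block HF: item D5 (few lines)
-/

set_option autoImplicit false

open scoped Pointwise Matrix
open MeasureTheory Filter Topology Matrix

namespace Pool.Agent.Work.MP_b25393_ag.HF

namespace ID5

theorem fin_dil (K : Set (Fin 3 → ℝ)) (hK : Body K) (R : ℝ) :
    {z : Fin 3 → ℤ | toR z ∈ R • K}.Finite := by
  obtain ⟨M, hM⟩ := hK.comp.isBounded.exists_norm_le
  set N : ℤ := ⌈|R| * M⌉ with hN
  refine (Set.finite_Icc (fun _ : Fin 3 => -N) (fun _ : Fin 3 => N)).subset ?_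
  intro z hz
  obtain ⟨x, hx, hxz⟩ := Set.mem_smul_set.1 hz
  have h1 : ‖toR z‖ ≤ |R| * M := by
    rw [← hxz, norm_smul, Real.norm_eq_abs]
    exact mul_le_mul_of_nonneg_left (hM x hx) (abs_nonneg R)
  have h2 : ∀ i, |z i| ≤ N := by
    intro i
    have h3 : |(z i : ℝ)| ≤ |R| * M := by
      have := (norm_le_pi_norm (toR z) i).trans h1
      rwa [Real.norm_eq_abs] at this
    have h4 : ((|z i| : ℤ) : ℝ) ≤ (N : ℝ) := by
      push_cast
      exact h3.trans (Int.le_ceil _)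
    exact_mod_cast h4
  rw [Set.mem_Icc]
  exact ⟨fun i => (abs_le.1 (h2 i)).1, fun i => (abs_le.1 (h2 i)).2⟩

end ID5

theorem pr_D5 (hC2 : St_C2) : St_D5 := by
  intro K hK
  have hsub : ∀ R : ℝ, S1 (R • K) ⊆ {z : Fin 3 → ℤ | toR z ∈ R • K} := fun R z hz => hz.2
  refine ⟨fun R => (ID5.fin_dil K hK R).subset (hsub R), ?_⟩
  have h1 := hC2 (Fin 3) K hK
  rw [Fintype.card_fin] at h1
  have h2 : Tendsto (fun R : ℝ => (R ^ 3)⁻¹) atTop (𝓝 0) :=
    tendsto_inv_atTop_zero.comp (tendsto_pow_atTop (by norm_num))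
  have h3 := h1.mul h2
  rw [mul_zero] at h3
  refine squeeze_zero' ?_ ?_ h3
  · filter_upwards [eventually_gt_atTop (0 : ℝ)] with R hR
    positivity
  · filter_upwards [eventually_gt_atTop (0 : ℝ)] with R hR
    have h4 : ((S1 (R • K)).ncard : ℝ) ≤ ({z : Fin 3 → ℤ | toR z ∈ R • K}.ncard : ℝ) := by
      exact_mod_cast Set.ncard_le_ncard (hsub R) (ID5.fin_dil K hK R)
    have h5 : (({z : Fin 3 → ℤ | toR z ∈ R • K}.ncard : ℕ) : ℝ) / R ^ 3 * (R ^ 3)⁻¹ =
        (({z : Fin 3 → ℤ | toR z ∈ R • K}.ncard : ℕ) : ℝ) / R ^ 6 := by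
      field_simp
    rw [h5]
    exact div_le_div_of_nonneg_right h4 (by positivity)

end Pool.Agent.Work.MP_b25393_ag.HF
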