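import Pool.Agent.Work.MP_b25393_ag.HF.StmtsC

/-!
# MP_b25393_ag, block HF, item D6: the two counts
-/

set_option autoImplicit false

open scoped LinearAlgebra.Projectivization Pointwise Matrix RealInnerProductSpace ENNReal
open MeasureTheory Filter Topology Matrix

namespace Pool.Agent.Work.MP_b25393_ag.HF

open Pool.Agent.Work.MP_b25393_ag

namespace ID6

theorem body_prod {K : Set (Fin 3 → ℝ)} (hK : Body K) : Body (K ×ˢ K) where
  conv := hK.conv.prod hK.conv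
  comp := hK.comp.prod hK.comp
  symm := fun x hx => ⟨hK.symm _ hx.1, hK.symm _ hx.2⟩
  inte := by
    rw [interior_prod_eq]
    exact hK.inte.prod hK.inte

theorem tri_eq (K : Set (Fin 3 → ℝ)) :
    tri K = (K ×ˢ K) ∩ (fun z : (Fin 3 → ℝ) × (Fin 3 → ℝ) => z.1 + z.2) ⁻¹' K := by
  ext z
  constructor
  · rintro ⟨h1, h2, h3⟩
    exact ⟨⟨h1, h2⟩, h3⟩
  · rintro ⟨⟨h1, h2⟩, h3⟩
    exact ⟨h1, h2, h3⟩

theorem body_tri {K : Set (Fin 3 → ℝ)} (hK : Body K) (h0 : (0 : Fin 3 → ℝ) ∈ interior K) :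
    Body (tri K) where
  conv := by
    rw [tri_eq]
    refine (hK.conv.prod hK.conv).inter ?_
    exact hK.conv.linear_preimage
      (LinearMap.fst ℝ (Fin 3 → ℝ) (Fin 3 → ℝ) + LinearMap.snd ℝ (Fin 3 → ℝ) (Fin 3 → ℝ))
  comp := by
    rw [tri_eq]
    exact (hK.comp.prod hK.comp).inter_right
      (hK.comp.isClosed.preimage (continuous_fst.add continuous_snd))
  symm := by
    rintro x ⟨h1, h2, h3⟩
    refine ⟨hK.symm _ h1, hK.symm _ h2, ?_⟩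
    have h4 : (-x).1 + (-x).2 = -(x.1 + x.2) := by
      rw [Prod.fst_neg, Prod.snd_neg, neg_add]
    rw [h4]
    exact hK.symm _ h3
  inte := by
    refine ⟨(0, 0), ?_⟩
    rw [mem_interior]
    refine ⟨(interior K ×ˢ interior K) ∩
      (fun z : (Fin 3 → ℝ) × (Fin 3 → ℝ) => z.1 + z.2) ⁻¹' interior K, ?_, ?_, ?_⟩
    · rintro z ⟨⟨h1, h2⟩, h3⟩
      exact ⟨interior_subset h1, interior_subset h2, interior_subset h3⟩
    · exact (isOpen_interior.prod isOpen_interior).inter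
        (isOpen_interior.preimage (continuous_fst.add continuous_snd))
    · refine ⟨⟨h0, h0⟩, ?_⟩
      show (0 : Fin 3 → ℝ) + 0 ∈ interior K
      rw [add_zero]
      exact h0

theorem toR_add (u v : Fin 3 → ℤ) : toR (u + v) = toR u + toR v := by
  funext i
  show (((u + v) i : ℤ) : ℝ) = (u i : ℝ) + (v i : ℝ)
  rw [Pi.add_apply, Int.cast_add]

theorem P2_eq (K : Set (Fin 3 → ℝ)) {R : ℝ} (hR : 0 < R) :
    P2 (R • K) = {z | z ∈ dl (K ×ˢ K) R ∧ Prm (z.1 ⨯₃ z.2)} := by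
  ext z
  have h1 : z ∈ dl (K ×ˢ K) R ↔ toR z.1 ∈ R • K ∧ toR z.2 ∈ R • K := by
    show (toR z.1, toR z.2) ∈ R • (K ×ˢ K) ↔ _
    rw [Set.mem_smul_set_iff_inv_smul_mem₀ hR.ne', Set.mem_smul_set_iff_inv_smul_mem₀ hR.ne',
      Set.mem_smul_set_iff_inv_smul_mem₀ hR.ne']
    exact Iff.rfl
  show (toR z.1 ∈ R • K ∧ toR z.2 ∈ R • K ∧ Prm (z.1 ⨯₃ z.2)) ↔
    (z ∈ dl (K ×ˢ K) R ∧ Prm (z.1 ⨯₃ z.2))
  rw [h1, and_assoc]

theorem Q2_eq (K : Set (Fin 3 → ℝ)) {R : ℝ} (hR : 0 < R) :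
    Q2 (R • K) = {z | z ∈ dl (tri K) R ∧ Prm (z.1 ⨯₃ z.2)} := by
  ext z
  have h1 : z ∈ dl (tri K) R ↔
      toR z.1 ∈ R • K ∧ toR z.2 ∈ R • K ∧ toR (z.1 + z.2) ∈ R • K := by
    show (toR z.1, toR z.2) ∈ R • (tri K) ↔ _
    rw [toR_add, Set.mem_smul_set_iff_inv_smul_mem₀ hR.ne',
      Set.mem_smul_set_iff_inv_smul_mem₀ hR.ne', Set.mem_smul_set_iff_inv_smul_mem₀ hR.ne',
      Set.mem_smul_set_iff_inv_smul_mem₀ hR.ne', smul_add]
    exact Iff.rfl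
  show (toR z.1 ∈ R • K ∧ toR z.2 ∈ R • K ∧ toR (z.1 + z.2) ∈ R • K ∧ Prm (z.1 ⨯₃ z.2)) ↔
    (z ∈ dl (tri K) R ∧ Prm (z.1 ⨯₃ z.2))
  rw [h1, and_assoc, and_assoc]

end ID6

theorem pr_D6 (hC1 : St_C1) (hD4 : St_D4) : St_D6 := by
  obtain ⟨c, hc, h⟩ := hD4
  refine ⟨c, hc, ?_⟩
  intro K hK
  have h0 := (hC1 (Fin 3 → ℝ) K hK).1
  constructor
  · have h1 := h (K ×ˢ K) (ID6.body_prod hK)
    have h2 : (volume (K ×ˢ K)).toReal = (volume K).toReal ^ 2 := by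
      rw [Measure.volume_eq_prod, Measure.prod_prod, ENNReal.toReal_mul, pow_two]
    rw [h2] at h1
    refine h1.congr' ?_
    filter_upwards [eventually_gt_atTop (0 : ℝ)] with R hR
    rw [ID6.P2_eq K hR]
  · have h1 := h (tri K) (ID6.body_tri hK h0)
    refine h1.congr' ?_
    filter_upwards [eventually_gt_atTop (0 : ℝ)] with R hR
    rw [ID6.Q2_eq K hR]

end Pool.Agent.Work.MP_b25393_ag.HF
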