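import Pool.Agent.Work.MP_b25393_ag.HF.StmtsC

/-!
# MP_b25393_ag, block HF, item D7: the limit of the slope
-/

set_option autoImplicit false

open scoped LinearAlgebra.Projectivization Pointwise Matrix RealInnerProductSpace ENNReal
open MeasureTheory Filter Topology Matrix

namespace Pool.Agent.Work.MP_b25393_ag.HF

open Pool.Agent.Work.MP_b25393_ag

namespace ID7

theorem vol_pos {K : Set (Fin 3 → ℝ)} (hK : Body K) : 0 < (volume K).toReal := by
  rw [ENNReal.toReal_pos_iff]
  refine ⟨?_, hK.comp.measure_lt_top⟩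
  exact lt_of_lt_of_le (isOpen_interior.measure_pos volume hK.inte) (measure_mono interior_subset)

theorem qq_le {K : Set (Fin 3 → ℝ)} (hK : Body K) : qq K ≤ 1 := by
  have h0 := vol_pos hK
  unfold qq
  rw [div_le_one (by positivity)]
  have h1 : volume (tri K) ≤ volume (K ×ˢ K) := measure_mono (fun z hz => ⟨hz.1, hz.2.1⟩)
  have h2 : volume (K ×ˢ K) = volume K * volume K := Measure.prod_prod K K
  rw [h2] at h1
  have h3 : volume K * volume K ≠ ⊤ :=
    ENNReal.mul_ne_top hK.comp.measure_lt_top.ne hK.comp.measure_lt_top.ne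
  calc (volume (tri K)).toReal ≤ (volume K * volume K).toReal := ENNReal.toReal_mono h3 h1
    _ = (volume K).toReal ^ 2 := by rw [ENNReal.toReal_mul, sq]

end ID7

open ID7 in
theorem pr_D7 (hA2 : St_A2) (hA3 : St_A3) (hA5 : St_A5) (hD5 : St_D5) (hD6 : St_D6) : St_D7 := by
  intro K hK A hA
  obtain ⟨c, hc, hD6'⟩ := hD6
  obtain ⟨hP, hQ⟩ := hD6' K hK
  obtain ⟨hfin, hzero⟩ := hD5 K hK
  have hconv : ∀ R : ℝ, Convex ℝ (R • K) := fun R => hK.conv.smul R
  have hsymm : ∀ R : ℝ, ∀ z ∈ R • K, -z ∈ R • K := by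
    rintro R z ⟨k, hk, rfl⟩
    exact ⟨-k, hK.symm k hk, smul_neg R k⟩
  have hvol0 := vol_pos hK
  refine hA5 A (fun R => (P2 (R • K)).ncard) (fun R => (Q2 (R • K)).ncard)
    (c * (volume K).toReal ^ 2) (qq K) (by positivity) (qq_le hK)
    (fun R => hA3 _ (hconv R) (hsymm R) (hfin R) (A R) (hA R)) hP ?_ ?_
  · have h1 : c * (volume K).toReal ^ 2 * qq K = c * (volume (tri K)).toReal := by
      unfold qq
      field_simp
    rw [h1]
    exact hQ
  · have h2 : ∀ R : ℝ, (2 : ℝ) * ((A R).card : ℝ) = ((S1 (R • K)).ncard : ℝ) := by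
      intro R
      exact_mod_cast (hA2 _ (hsymm R) (hfin R) (A R) (hA R)).1
    have h3 : (fun R : ℝ => ((A R).card : ℝ) / R ^ 6) =
        fun R : ℝ => (1 / 2) * (((S1 (R • K)).ncard : ℝ) / R ^ 6) := by
      funext R
      rw [← h2 R]
      ring
    rw [h3]
    have h4 := hzero.const_mul (1 / 2 : ℝ)
    rw [mul_zero] at h4
    exact h4

end Pool.Agent.Work.MP_b25393_ag.HF
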