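import Pool.Agent.Work.MP_b25393_ag.HF.StmtsR

/-! # MP_b25393_ag, block HF, item E1: the Steiner symmetral is a convex body in the ball -/

set_option autoImplicit false

open scoped RealInnerProductSpace ENNReal
open MeasureTheory Filter Topology

namespace Pool.Agent.Work.MP_b25393_ag.HF

open Pool.Agent.Work.MP_b25393_ag

namespace IE1

theorem comb (e x y : E3) (a b : ℝ) :
    (a • x + b • y) - ⟪e, a • x + b • y⟫ • e = a • (x - ⟪e, x⟫ • e) + b • (y - ⟪e, y⟫ • e) := by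
  rw [inner_add_right, real_inner_smul_right, real_inner_smul_right]
  module

theorem negp (e x : E3) : (-x) - ⟪e, -x⟫ • e = -(x - ⟪e, x⟫ • e) := by
  rw [inner_neg_right]
  module

theorem nrm (e x : E3) (t : ℝ) (he : ‖e‖ = 1) :
    ‖x - ⟪e, x⟫ • e + t • e‖ ^ 2 = ‖x‖ ^ 2 - ⟪e, x⟫ ^ 2 + t ^ 2 := by
  have h1 : x - ⟪e, x⟫ • e + t • e = x + (t - ⟪e, x⟫) • e := by module
  rw [h1, norm_add_sq_real, real_inner_smul_right, norm_smul, he, real_inner_comm x e,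
    Real.norm_eq_abs, mul_one, sq_abs]
  ring

theorem image_eq (e : E3) (K : Set E3) :
    St e K = (fun z : E3 × E3 => z.1 - ⟪e, z.1⟫ • e + ((⟪e, z.2⟫ - ⟪e, z.1⟫) / 2) • e) ''
      ((K ×ˢ K) ∩ {z : E3 × E3 | z.1 - ⟪e, z.1⟫ • e = z.2 - ⟪e, z.2⟫ • e}) := by
  ext y
  constructor
  · rintro ⟨k, hk, k', hk', h1, h2⟩
    exact ⟨(k, k'), ⟨⟨hk, hk'⟩, h1⟩, h2.symm⟩
  · rintro ⟨⟨k, k'⟩, ⟨⟨hk, hk'⟩, h1⟩, h2⟩
    exact ⟨k, hk, k', hk', h1, h2.symm⟩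

end IE1

open IE1 in
theorem pr_E1 : St_E1 := by
  intro e he K hK hc hne
  refine ⟨?_, ?_, ?_, ?_, ?_⟩
  · rw [image_eq]
    have c1 : Continuous fun z : E3 × E3 => ⟪e, z.1⟫ := continuous_const.inner continuous_fst
    have c2 : Continuous fun z : E3 × E3 => ⟪e, z.2⟫ := continuous_const.inner continuous_snd
    have hcl : IsClosed {z : E3 × E3 | z.1 - ⟪e, z.1⟫ • e = z.2 - ⟪e, z.2⟫ • e} := by
      apply isClosed_eq
      · exact continuous_fst.sub (c1.smul continuous_const)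
      · exact continuous_snd.sub (c2.smul continuous_const)
    have h1 : IsCompact ((K ×ˢ K) ∩ {z : E3 × E3 | z.1 - ⟪e, z.1⟫ • e = z.2 - ⟪e, z.2⟫ • e}) :=
      (hK.prod hK).inter_right hcl
    apply h1.image
    exact (continuous_fst.sub (c1.smul continuous_const)).add
      (((c2.sub c1).div_const 2).smul continuous_const)
  · rintro x ⟨k, hk, k', hk', h1, h2⟩ y ⟨l, hl, l', hl', h3, h4⟩ a b ha hb hab
    refine ⟨a • k + b • l, hc hk hl ha hb hab, a • k' + b • l', hc hk' hl' ha hb hab, ?_, ?_⟩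
    · rw [comb, comb, h1, h3]
    · rw [comb, h2, h4, inner_add_right, inner_add_right, real_inner_smul_right,
        real_inner_smul_right, real_inner_smul_right, real_inner_smul_right]
      module
  · obtain ⟨k, hk⟩ := hne
    exact ⟨_, k, hk, k, hk, rfl, rfl⟩
  · rintro hs x ⟨k, hk, k', hk', h1, h2⟩
    refine ⟨-k, hs k hk, -k', hs k' hk', ?_, ?_⟩
    · rw [negp, negp, h1]
    · rw [negp, h2, inner_neg_right, inner_neg_right]
      module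
  · rintro ρ hρ hb y ⟨k, hk, k', hk', h1, h2⟩
    have e1 : ‖k‖ ≤ ρ := by simpa using hb hk
    have e2 : ‖k'‖ ≤ ρ := by simpa using hb hk'
    have n1 : ‖y‖ ^ 2 = ‖k‖ ^ 2 - ⟪e, k⟫ ^ 2 + ((⟪e, k'⟫ - ⟪e, k⟫) / 2) ^ 2 := by
      rw [h2]; exact nrm e k _ he
    have n2 : ‖y‖ ^ 2 = ‖k'‖ ^ 2 - ⟪e, k'⟫ ^ 2 + ((⟪e, k'⟫ - ⟪e, k⟫) / 2) ^ 2 := by
      rw [h2, h1]; exact nrm e k' _ he
    have q1 : ‖k‖ ^ 2 ≤ ρ ^ 2 := by
      exact pow_le_pow_left₀ (norm_nonneg _) e1 2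
    have q2 : ‖k'‖ ^ 2 ≤ ρ ^ 2 := by
      exact pow_le_pow_left₀ (norm_nonneg _) e2 2
    have q3 : ‖y‖ ^ 2 ≤ ρ ^ 2 := by
      nlinarith [sq_nonneg (⟪e, k'⟫ + ⟪e, k⟫)]
    have q4 : ‖y‖ ≤ ρ := by
      exact (pow_le_pow_iff_left₀ (norm_nonneg _) hρ two_ne_zero).mp q3
    simpa using q4

end Pool.Agent.Work.MP_b25393_ag.HF
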