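import Pool.Agent.Work.MP_b25393_ag.HF.StmtsR

set_option autoImplicit false

open scoped Pointwise Matrix RealInnerProductSpace ENNReal
open MeasureTheory Filter Topology

namespace Pool.Agent.Work.MP_b25393_ag.HF

namespace IE2

/-- splitting off the last coordinate -/
noncomputable def spl : (Fin 3 → ℝ) ≃ₗ[ℝ] F3 where
  toFun x := (fun i : Fin 2 => x i.castSucc, x (Fin.last 2))
  invFun z := Fin.snoc (α := fun _ => ℝ) z.1 z.2
  map_add' x y := rfl
  map_smul' c x := rfl
  left_inv x := by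
    funext i
    refine Fin.lastCases ?_ (fun j => ?_) i
    · exact Fin.snoc_last (α := fun _ => ℝ) _ _
    · exact Fin.snoc_castSucc (α := fun _ => ℝ) _ _ _
  right_inv z := by
    refine Prod.ext ?_ ?_
    · funext i
      exact Fin.snoc_castSucc (α := fun _ => ℝ) _ _ _
    · exact Fin.snoc_last (α := fun _ : Fin 3 => ℝ) z.2 z.1

lemma spl_mp : MeasurePreserving (spl : (Fin 3 → ℝ) → F3) volume volume := by
  have h1 := volume_preserving_piFinSuccAbove (fun _ : Fin 3 => ℝ) (Fin.last 2)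
  have h2 : MeasurePreserving (Prod.swap : ℝ × (Fin 2 → ℝ) → (Fin 2 → ℝ) × ℝ) volume volume :=
    Measure.measurePreserving_swap
  have h3 := h2.comp h1
  have h4 : (Prod.swap ∘ (MeasurableEquiv.piFinSuccAbove (fun _ : Fin 3 => ℝ) (Fin.last 2)) :
      (Fin 3 → ℝ) → (Fin 2 → ℝ) × ℝ) = (spl : (Fin 3 → ℝ) → F3) := by
    funext x
    refine Prod.ext ?_ ?_
    · funext i
      show x ((Fin.last 2).succAbove i) = x i.castSucc
      rw [Fin.succAbove_last]
    · simp [spl, MeasurableEquiv.piFinSuccAbove, Fin.insertNthEquiv]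
  rw [← h4]
  exact h3

end IE2

theorem pr_E2 : St_E2 := by
  intro e he
  have hfin : Module.finrank ℝ E3 = Fintype.card (Fin 3) := by simp
  have hv : Orthonormal ℝ (({2} : Set (Fin 3)).domRestrict (fun _ : Fin 3 => e)) := by
    refine ⟨fun i => he, ?_⟩
    intro i j hij
    exact absurd (Subsingleton.elim i j) hij
  obtain ⟨b, hb⟩ := hv.exists_orthonormalBasis_extension_of_card_eq hfin
  have hb2 : b 2 = e := hb 2 rfl
  let Φ : E3 ≃ₗ[ℝ] F3 := (b.repr.toLinearEquiv.trans (WithLp.linearEquiv 2 ℝ (Fin 3 → ℝ))).trans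
    IE2.spl
  let Ψ : E3 ≃L[ℝ] F3 := Φ.toContinuousLinearEquiv
  have hΨ1 : ∀ x (i : Fin 2), (Ψ x).1 i = ⟪b i.castSucc, x⟫ := by
    intro x i
    show b.repr x i.castSucc = _
    exact b.repr_apply_apply x _
  have hΨ2 : ∀ x, (Ψ x).2 = ⟪e, x⟫ := by
    intro x
    have : (Ψ x).2 = b.repr x (Fin.last 2) := rfl
    rw [this, b.repr_apply_apply, show (Fin.last 2 : Fin 3) = 2 from rfl, hb2]
  refine ⟨Ψ, ?_, ?_, hΨ2, ?_⟩
  · have h1 : MeasurePreserving b.repr volume volume := b.repr.measurePreserving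
    have h2 := (EuclideanSpace.volume_preserving_symm_measurableEquiv_toLp (Fin 3)).comp h1
    have h3 := IE2.spl_mp.comp h2
    exact h3
  · refine Prod.ext ?_ ?_
    · funext i
      rw [hΨ1]
      have : ⟪b i.castSucc, b 2⟫ = 0 := by
        apply b.orthonormal.2
        fin_cases i <;> decide
      rw [hb2] at this
      exact this
    · rw [hΨ2, real_inner_self_eq_norm_sq, he]
      norm_num
  · intro x
    have h := b.sum_sq_norm_inner_right x
    rw [← h, Fin.sum_univ_three, hΨ1, hΨ1, hΨ2, ← hb2]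
    simp only [Real.norm_eq_abs, sq_abs]
    rfl

end Pool.Agent.Work.MP_b25393_ag.HF
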