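import Pool.Agent.Work.MP_b25393_ag.HF.StmtsR

/-!
# Item E3: transport to adapted coordinates
-/

set_option autoImplicit false

open scoped LinearAlgebra.Projectivization Pointwise Matrix RealInnerProductSpace ENNReal
open MeasureTheory Filter Topology Matrix TopologicalSpace

namespace Pool.Agent.Work.MP_b25393_ag.HF

open Pool.Agent.Work.MP_b25393_ag

namespace IE3

theorem psi_proj {e : E3} {Ψ : E3 ≃L[ℝ] F3} (h : Adp e Ψ) (x : E3) :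
    Ψ (x - ⟪e, x⟫ • e) = ((Ψ x).1, 0) := by
  rw [map_sub, map_smul, h.at_e]
  refine Prod.ext ?_ ?_
  · show (Ψ x).1 - ⟪e, x⟫ • (0 : Fin 2 → ℝ) = (Ψ x).1
    rw [smul_zero, sub_zero]
  · show (Ψ x).2 - ⟪e, x⟫ • (1 : ℝ) = 0
    rw [h.snd x, smul_eq_mul, mul_one, sub_self]

theorem psi_full {e : E3} {Ψ : E3 ≃L[ℝ] F3} (h : Adp e Ψ) (x : E3) (c : ℝ) :
    Ψ (x - ⟪e, x⟫ • e + c • e) = ((Ψ x).1, c) := by
  rw [map_add, psi_proj h, map_smul, h.at_e]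
  refine Prod.ext ?_ ?_
  · show (Ψ x).1 + c • (0 : Fin 2 → ℝ) = (Ψ x).1
    rw [smul_zero, add_zero]
  · show (0 : ℝ) + c • (1 : ℝ) = c
    rw [smul_eq_mul, mul_one, zero_add]

theorem image_St {e : E3} {Ψ : E3 ≃L[ℝ] F3} (h : Adp e Ψ) (K : Set E3) :
    Ψ '' St e K = sy (Ψ '' K) := by
  ext z
  constructor
  · rintro ⟨y, ⟨k, hk, k', hk', hkk, rfl⟩, rfl⟩
    rw [psi_full h]
    have h1 : (Ψ k).1 = (Ψ k').1 := by
      have h2 := congrArg Ψ hkk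
      rw [psi_proj h, psi_proj h] at h2
      exact (Prod.mk.inj h2).1
    refine ⟨(Ψ k).2, (Ψ k').2, ⟨k, hk, rfl⟩, ⟨k', hk', ?_⟩, ?_⟩
    · exact Prod.ext h1.symm rfl
    · show (⟪e, k'⟫ - ⟪e, k⟫) / 2 = ((Ψ k').2 - (Ψ k).2) / 2
      rw [h.snd, h.snd]
  · rintro ⟨s, s', ⟨k, hk, hks⟩, ⟨k', hk', hks'⟩, hz⟩
    refine ⟨k - ⟪e, k⟫ • e + ((⟪e, k'⟫ - ⟪e, k⟫) / 2) • e, ⟨k, hk, k', hk', ?_, rfl⟩, ?_⟩
    · apply Ψ.injective
      rw [psi_proj h, psi_proj h, hks, hks']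
    · rw [psi_full h, hks]
      refine Prod.ext rfl ?_
      show (⟪e, k'⟫ - ⟪e, k⟫) / 2 = z.2
      rw [hz, ← h.snd k, ← h.snd k', hks, hks']

end IE3

theorem pr_E3 : St_E3 := by
  intro e Ψ h K hK
  have hK' : IsCompact (Ψ '' K) := hK.image Ψ.continuous
  have hpre : Ψ ⁻¹' (Ψ '' K) = K := Set.preimage_image_eq K Ψ.injective
  refine ⟨IE3.image_St h K, ?_, ?_, ?_⟩
  · have h1 := h.mp.measure_preimage hK'.measurableSet.nullMeasurableSet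
    rw [hpre] at h1
    exact h1.symm
  · have hcl : IsClosed (tri (Ψ '' K)) := by
      have h2 : tri (Ψ '' K) = ((fun z : F3 × F3 => z.1) ⁻¹' (Ψ '' K)) ∩
          (((fun z : F3 × F3 => z.2) ⁻¹' (Ψ '' K)) ∩
            ((fun z : F3 × F3 => z.1 + z.2) ⁻¹' (Ψ '' K))) := rfl
      rw [h2]
      exact (hK'.isClosed.preimage continuous_fst).inter
        ((hK'.isClosed.preimage continuous_snd).inter
          (hK'.isClosed.preimage (continuous_fst.add continuous_snd)))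
    have h3 := (h.mp.prod h.mp).measure_preimage hcl.measurableSet.nullMeasurableSet
    have h4 : Prod.map Ψ Ψ ⁻¹' (tri (Ψ '' K)) = tri K := by
      ext z
      have h5 : ∀ x, Ψ x ∈ Ψ '' K ↔ x ∈ K := fun x => Ψ.injective.mem_set_image
      show (Ψ z.1 ∈ Ψ '' K ∧ Ψ z.2 ∈ Ψ '' K ∧ Ψ z.1 + Ψ z.2 ∈ Ψ '' K) ↔
        (z.1 ∈ K ∧ z.2 ∈ K ∧ z.1 + z.2 ∈ K)
      rw [← map_add, h5, h5, h5]
    rw [h4] at h3
    exact h3.symm
  · intro f hf
    have h6 := h.mp.setLIntegral_comp_preimage hK'.measurableSet hf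
    rw [hpre] at h6
    exact h6.symm

end Pool.Agent.Work.MP_b25393_ag.HF
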