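import Pool.Agent.Work.MP_b25393_ag.HF.StmtsR

/-!
# MP_b25393_ag, block HF, item E4: Steiner symmetrisation
-/

set_option autoImplicit false

open scoped LinearAlgebra.Projectivization Pointwise Matrix RealInnerProductSpace ENNReal
open MeasureTheory Filter Topology Matrix TopologicalSpace

namespace Pool.Agent.Work.MP_b25393_ag.HF

open Pool.Agent.Work.MP_b25393_ag

namespace IE4

/-- the first part of the square of the norm -/
noncomputable def g1 (y : Fin 2 → ℝ) : ℝ≥0∞ := ENNReal.ofReal (y 0 ^ 2 + y 1 ^ 2)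

theorem g1_meas : Measurable g1 := by
  unfold g1
  fun_prop

/-- the square of the norm in coordinates -/
noncomputable def f1 (z : F3) : ℝ≥0∞ := g1 z.1 + ENNReal.ofReal (z.2 ^ 2)

theorem f1_meas : Measurable f1 := by
  unfold f1
  exact (g1_meas.comp measurable_fst).add (by fun_prop)

theorem f1_eq {e : E3} {Ψ : E3 ≃L[ℝ] F3} (h : Adp e Ψ) (x : E3) :
    ENNReal.ofReal (‖x‖ ^ 2) = f1 (Ψ x) := by
  unfold f1 g1
  rw [h.nrm x, ENNReal.ofReal_add (by positivity) (by positivity)]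

theorem moment_eq {e : E3} {Ψ : E3 ≃L[ℝ] F3} (h : Adp e Ψ) (hE3 : St_E3) {K : Set E3}
    (hK : IsCompact K) :
    ∫⁻ x in K, ENNReal.ofReal (‖x‖ ^ 2) =
      (∫⁻ z in Ψ '' K, g1 z.1) + ∫⁻ z in Ψ '' K, ENNReal.ofReal (z.2 ^ 2) := by
  have h1 := (hE3 e Ψ h K hK).2.2.2 f1 f1_meas
  have h2 : ∫⁻ x in K, ENNReal.ofReal (‖x‖ ^ 2) = ∫⁻ x in K, f1 (Ψ x) :=
    lintegral_congr fun x => f1_eq h x
  rw [h2, ← h1]
  exact lintegral_add_left (g1_meas.comp measurable_fst) _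

end IE4

open IE4 in
/-- E4. Steiner symmetrisation. -/
theorem pr_E4 (hE1 : St_E1) (hE2 : St_E2) (hE3 : St_E3) (hG5 : St_G5) (hG6 : St_G6)
    (hG7 : St_G7) : St_E4 := by
  intro e he K hK hKc hKn
  obtain ⟨Ψ, hΨ⟩ := hE2 e he
  have hS : IsCompact (St e K) := (hE1 e he K hK hKc hKn).1
  obtain ⟨k1, k2, k3, -⟩ := hE3 e Ψ hΨ K hK
  obtain ⟨-, s2, s3, -⟩ := hE3 e Ψ hΨ (St e K) hS
  rw [k1] at s2 s3
  have hA : IsCompact (Ψ '' K) := hK.image Ψ.continuous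
  have hAc : Convex ℝ (Ψ '' K) := hKc.linear_image Ψ.toLinearEquiv.toLinearMap
  refine ⟨?_, ?_, ?_⟩
  · have h1 := hG6 _ hA hAc (fun _ => 1) measurable_const
    simp only [setLIntegral_one] at h1
    rw [← s2, h1, k2]
  · rw [← k3, ← s3]
    exact hG5 _ hA hAc
  · rw [moment_eq hΨ hE3 hK, moment_eq hΨ hE3 hS, k1, hG6 _ hA hAc g1 g1_meas]
    exact add_le_add le_rfl (hG7 _ hA hAc).1

end Pool.Agent.Work.MP_b25393_ag.HF
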