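import Pool.Agent.Work.MP_b25393_ag.HF.StmtsR

/-!
# MP_b25393_ag, block HF: item E5 (the case of equality of the Steiner symmetrisation)
-/

set_option autoImplicit false

open scoped LinearAlgebra.Projectivization Pointwise Matrix RealInnerProductSpace ENNReal
open MeasureTheory Filter Topology Matrix TopologicalSpace

namespace Pool.Agent.Work.MP_b25393_ag.HF

open Pool.Agent.Work.MP_b25393_ag

namespace IE5

theorem subset_of_null {A B : Set F3} (hA : Convex ℝ A) (hi : (interior A).Nonempty)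
    (hB : IsClosed B) (h0 : volume (A \ B) = 0) : A ⊆ B := by
  intro x hx
  by_contra hxB
  have hcl : x ∈ closure (interior A) := by
    rw [hA.closure_interior_eq_closure_of_nonempty_interior hi]
    exact subset_closure hx
  have hne : (Bᶜ ∩ interior A).Nonempty := mem_closure_iff.1 hcl Bᶜ hB.isOpen_compl hxB
  have hpos : 0 < volume (Bᶜ ∩ interior A) :=
    (hB.isOpen_compl.inter isOpen_interior).measure_pos volume hne
  have hle : volume (Bᶜ ∩ interior A) ≤ volume (A \ B) :=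
    measure_mono fun z hz => ⟨interior_subset hz.2, hz.1⟩
  rw [h0] at hle
  exact absurd (lt_of_lt_of_le hpos hle) (lt_irrefl _)

end IE5

open IE5 in
theorem pr_E5 (hE1 : St_E1) (hE2 : St_E2) (hE3 : St_E3) (hG6 : St_G6) (hG7 : St_G7) : St_E5 := by
  intro e he K hK hc hi H x hx
  obtain ⟨Ψ, hΨ⟩ := hE2 e he
  have hne : K.Nonempty := ⟨x, hx⟩
  obtain ⟨hSK, -, -, -, -⟩ := hE1 e he K hK hc hne
  obtain ⟨himg, -, -, hint⟩ := hE3 e Ψ hΨ K hK
  obtain ⟨-, -, -, hint'⟩ := hE3 e Ψ hΨ (St e K) hSK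
  rw [himg] at hint'
  have hAc : IsCompact (Ψ '' K) := hK.image Ψ.continuous
  have hAv : Convex ℝ (Ψ '' K) := hc.linear_image (Ψ : E3 →ₗ[ℝ] F3)
  have hAi : (interior (Ψ '' K)).Nonempty := by
    have h := Ψ.toHomeomorph.image_interior K
    have h' : Ψ '' interior K = interior (Ψ '' K) := h
    rw [← h']
    exact hi.image _
  have hgm : Measurable fun y : Fin 2 → ℝ => ENNReal.ofReal (y 0 ^ 2 + y 1 ^ 2) := by
    fun_prop
  have hg1 : Measurable fun z : F3 => ENNReal.ofReal (z.1 0 ^ 2 + z.1 1 ^ 2) := by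
    fun_prop
  have hg2 : Measurable fun z : F3 => ENNReal.ofReal (z.2 ^ 2) := by
    fun_prop
  have h6 := hG6 (Ψ '' K) hAc hAv _ hgm
  have hsq : ∀ y : E3, ENNReal.ofReal (‖y‖ ^ 2) =
      (fun z : F3 => ENNReal.ofReal (z.1 0 ^ 2 + z.1 1 ^ 2) + ENNReal.ofReal (z.2 ^ 2)) (Ψ y) := by
    intro y
    show _ = ENNReal.ofReal ((Ψ y).1 0 ^ 2 + (Ψ y).1 1 ^ 2) + ENNReal.ofReal ((Ψ y).2 ^ 2)
    rw [← ENNReal.ofReal_add (by positivity) (by positivity), ← hΨ.nrm]
  have hg12 : Measurable fun z : F3 =>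
      ENNReal.ofReal (z.1 0 ^ 2 + z.1 1 ^ 2) + ENNReal.ofReal (z.2 ^ 2) := hg1.add hg2
  have e1 := hint _ hg12
  have e2 := hint' _ hg12
  simp only [hsq] at H
  rw [← e1, ← e2, lintegral_add_left hg1, lintegral_add_left hg1, h6] at H
  have hfin : ∫⁻ z in Ψ '' K, ENNReal.ofReal (z.1 0 ^ 2 + z.1 1 ^ 2) ≠ ⊤ := by
    have hcont : Continuous fun z : F3 => z.1 0 ^ 2 + z.1 1 ^ 2 := by fun_prop
    exact (hcont.continuousOn.integrableOn_compact hAc).lintegral_lt_top.ne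
  rw [ENNReal.add_right_inj hfin] at H
  have h0 := (hG7 (Ψ '' K) hAc hAv).2 H
  have hcl : IsClosed {z : F3 | (z.1, -z.2) ∈ Ψ '' K} :=
    hAc.isClosed.preimage (by fun_prop : Continuous fun z : F3 => (z.1, -z.2))
  have hsub := subset_of_null hAv hAi hcl h0
  obtain ⟨k, hk, hk'⟩ := hsub (Set.mem_image_of_mem Ψ hx)
  have hx' : Ψ (x - (2 * ⟪e, x⟫) • e) = ((Ψ x).1, -(Ψ x).2) := by
    rw [map_sub, map_smul, hΨ.at_e]
    refine Prod.ext ?_ ?_
    · simp
    · show (Ψ x).2 - (2 * ⟪e, x⟫) * 1 = -(Ψ x).2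
      rw [hΨ.snd]
      ring
  have hkx : k = x - (2 * ⟪e, x⟫) • e := Ψ.injective (hk'.trans hx'.symm)
  rw [← hkx]
  exact hk

end Pool.Agent.Work.MP_b25393_ag.HF
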