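import Pool.Agent.Work.MP_b25393_ag.HF.StmtsR

/-!
# MP_b25393_ag, block HF, item E6: a convex body symmetric under all reflections is a ball (helper57)
-/

set_option autoImplicit false

open scoped LinearAlgebra.Projectivization Pointwise Matrix RealInnerProductSpace ENNReal
open MeasureTheory Filter Topology Matrix

namespace Pool.Agent.Work.MP_b25393_ag.HF

open Pool.Agent.Work.MP_b25393_ag

namespace IE6

/-- the reflection which exchanges two vectors of the same norm -/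
theorem refl_eq (x y : E3) (hy : ‖y‖ = ‖x‖) (hne : x ≠ y) :
    x - (2 * ⟪‖x - y‖⁻¹ • (x - y), x⟫) • (‖x - y‖⁻¹ • (x - y)) = y := by
  have hd : ‖x - y‖ ≠ 0 := norm_ne_zero_iff.2 (sub_ne_zero.2 hne)
  have h2 : 2 * ⟪x - y, x⟫ = ‖x - y‖ ^ 2 := by
    have h3 : ‖x - y‖ ^ 2 = ‖x‖ ^ 2 - 2 * ⟪x, y⟫ + ‖y‖ ^ 2 := norm_sub_sq_real x y
    rw [inner_sub_left, real_inner_self_eq_norm_sq, h3, hy, real_inner_comm]
    ring
  rw [real_inner_smul_left, smul_smul]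
  have h5 : 2 * (‖x - y‖⁻¹ * ⟪x - y, x⟫) * ‖x - y‖⁻¹ = 1 := by
    have h6 : 2 * (‖x - y‖⁻¹ * ⟪x - y, x⟫) * ‖x - y‖⁻¹ =
        (2 * ⟪x - y, x⟫) * (‖x - y‖⁻¹ * ‖x - y‖⁻¹) := by ring
    rw [h6, h2, pow_two, mul_assoc, ← mul_assoc ‖x - y‖ ‖x - y‖⁻¹ ‖x - y‖⁻¹,
      mul_inv_cancel₀ hd, one_mul, mul_inv_cancel₀ hd]
  rw [h5, one_smul]
  abel

end IE6

theorem pr_E6 : St_E6 := by
  intro K hK hconv hne href
  obtain ⟨x₀, hx₀, hmax⟩ := hK.exists_isMaxOn hne continuous_norm.continuousOn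
  have hmax' : ∀ x ∈ K, ‖x‖ ≤ ‖x₀‖ := fun x hx => hmax hx
  have hsph : ∀ y : E3, ‖y‖ = ‖x₀‖ → y ∈ K := by
    intro y hy
    by_cases hxy : x₀ = y
    · rw [← hxy]
      exact hx₀
    · have hd : ‖x₀ - y‖ ≠ 0 := norm_ne_zero_iff.2 (sub_ne_zero.2 hxy)
      have h1 := href (‖x₀ - y‖⁻¹ • (x₀ - y))
        (by rw [norm_smul, norm_inv, norm_norm, inv_mul_cancel₀ hd]) x₀ hx₀
      rwa [IE6.refl_eq x₀ y hy hxy] at h1
  refine ⟨‖x₀‖, norm_nonneg _, Set.Subset.antisymm (fun y hy => ?_) (fun y hy => ?_)⟩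
  · rw [mem_closedBall_zero_iff]
    exact hmax' y hy
  · rw [mem_closedBall_zero_iff] at hy
    obtain ⟨a, t, ha, ht0, ht1, rfl⟩ : ∃ (a : E3) (t : ℝ), ‖a‖ = ‖x₀‖ ∧ 0 ≤ t ∧ t ≤ 1 ∧
        y = t • a := by
      by_cases h0 : y = 0
      · exact ⟨x₀, 0, rfl, le_rfl, zero_le_one, by rw [h0, zero_smul]⟩
      · have hy0 : 0 < ‖y‖ := norm_pos_iff.2 h0
        have hr : 0 < ‖x₀‖ := hy0.trans_le hy
        refine ⟨(‖x₀‖ / ‖y‖) • y, ‖y‖ / ‖x₀‖, ?_, by positivity, (div_le_one hr).2 hy, ?_⟩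
        · rw [norm_smul, norm_div, norm_norm, norm_norm, div_mul_cancel₀ _ hy0.ne']
        · have h6 : ‖y‖ / ‖x₀‖ * (‖x₀‖ / ‖y‖) = 1 := by
            field_simp
          rw [smul_smul, h6, one_smul]
    have h1 := hconv (hsph a ha) (hsph (-a) (by rw [norm_neg, ha]))
      (by linarith : 0 ≤ (1 + t) / 2) (by linarith : 0 ≤ (1 - t) / 2) (by ring)
    have h2 : ((1 + t) / 2) • a + ((1 - t) / 2) • (-a) = t • a := by
      rw [smul_neg, ← sub_eq_add_neg, ← sub_smul]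
      congr 1
      ring
    rwa [h2] at h1

end Pool.Agent.Work.MP_b25393_ag.HF
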