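import Pool.Agent.Work.MP_b25393_ag.HF.StmtsA

/-!
# MP_b25393_ag, block HF, item F2: the small neighbours in the Farey graph
-/

set_option autoImplicit false

namespace Pool.Agent.Work.MP_b25393_ag.HF

namespace IF2

/-- no cancellation: adding multiples of `a + b` to `a` increases the absolute value -/
lemma key (a b k : ℤ) (h : |a| + |b| = |a + b|) (hk : 1 ≤ k) :
    |a| + |a + b| ≤ |a + k * (a + b)| := by
  have hs : (0 ≤ a ∧ 0 ≤ b) ∨ (a ≤ 0 ∧ b ≤ 0) := by
    rcases le_total 0 a with ha | ha <;> rcases le_total 0 b with hb | hb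
    · exact Or.inl ⟨ha, hb⟩
    · rw [abs_of_nonneg ha, abs_of_nonpos hb] at h
      rcases le_total 0 (a + b) with hc | hc
      · rw [abs_of_nonneg hc] at h
        left
        omega
      · rw [abs_of_nonpos hc] at h
        right
        omega
    · rw [abs_of_nonpos ha, abs_of_nonneg hb] at h
      rcases le_total 0 (a + b) with hc | hc
      · rw [abs_of_nonneg hc] at h
        left
        omega
      · rw [abs_of_nonpos hc] at h
        right
        omega
    · exact Or.inr ⟨ha, hb⟩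
  rcases hs with ⟨ha, hb⟩ | ⟨ha, hb⟩
  · have h1 : a + b ≤ k * (a + b) := by nlinarith
    rw [abs_of_nonneg ha, abs_of_nonneg (by omega : 0 ≤ a + b),
      abs_of_nonneg (by omega : 0 ≤ a + k * (a + b))]
    omega
  · have h1 : k * (a + b) ≤ a + b := by nlinarith
    rw [abs_of_nonpos ha, abs_of_nonpos (by omega : a + b ≤ 0),
      abs_of_nonpos (by omega : a + k * (a + b) ≤ 0)]
    omega

/-- the case of equal determinants -/
lemma core (a₁ a₂ b₁ b₂ u₁ u₂ D : ℤ) (hD : D = a₁ * b₂ - a₂ * b₁) (hD2 : D * D = 1)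
    (h1 : |a₁| + |b₁| = |a₁ + b₁|) (h2 : |a₂| + |b₂| = |a₂ + b₂|)
    (hu : u₁ * (a₂ + b₂) - u₂ * (a₁ + b₁) = D)
    (hn : |u₁| + |u₂| ≤ |a₁ + b₁| + |a₂ + b₂|) :
    (u₁ = a₁ ∧ u₂ = a₂) ∨ (u₁ = -b₁ ∧ u₂ = -b₂) := by
  set k : ℤ := -D * ((u₁ - a₁) * a₂ - (u₂ - a₂) * a₁) with hk
  have e1 : u₁ = a₁ + k * (a₁ + b₁) := by
    have : D * D * (u₁ - a₁) = D * (a₁ * (u₁ * (a₂ + b₂) - u₂ * (a₁ + b₁) - D)) +
        k * (a₁ + b₁) := by
      rw [hk, hD]
      ring
    rw [hD2, hu] at this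
    linarith
  have e2 : u₂ = a₂ + k * (a₂ + b₂) := by
    have : D * D * (u₂ - a₂) = D * (a₂ * (u₁ * (a₂ + b₂) - u₂ * (a₁ + b₁) - D)) +
        k * (a₂ + b₂) := by
      rw [hk, hD]
      ring
    rw [hD2, hu] at this
    linarith
  have hD0 : D ≠ 0 := by
    intro h
    rw [h] at hD2
    omega
  have ha : a₁ ≠ 0 ∨ a₂ ≠ 0 := by
    by_contra hc
    push Not at hc
    apply hD0
    rw [hD, hc.1, hc.2]
    ring
  have hb : b₁ ≠ 0 ∨ b₂ ≠ 0 := by
    by_contra hc
    push Not at hc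
    apply hD0
    rw [hD, hc.1, hc.2]
    ring
  have hk1 : k < 1 := by
    by_contra hc
    have hc' : 1 ≤ k := not_lt.1 hc
    have f1 := key a₁ b₁ k h1 hc'
    have f2 := key a₂ b₂ k h2 hc'
    rw [← e1] at f1
    rw [← e2] at f2
    have f3 : 0 < |a₁| + |a₂| := by
      rcases ha with h | h
      · have := abs_pos.2 h
        have := abs_nonneg a₂
        omega
      · have := abs_pos.2 h
        have := abs_nonneg a₁
        omega
    omega
  have hk2 : -2 < k := by
    by_contra hc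
    have hc' : 1 ≤ -k - 1 := by omega
    have f1 := key b₁ a₁ (-k - 1) (by rw [add_comm, h1, add_comm]) hc'
    have f2 := key b₂ a₂ (-k - 1) (by rw [add_comm, h2, add_comm]) hc'
    have g1 : |b₁ + (-k - 1) * (b₁ + a₁)| = |u₁| := by
      rw [← abs_neg]
      congr 1
      rw [e1]
      ring
    have g2 : |b₂ + (-k - 1) * (b₂ + a₂)| = |u₂| := by
      rw [← abs_neg]
      congr 1
      rw [e2]
      ring
    rw [g1, add_comm b₁ a₁] at f1
    rw [g2, add_comm b₂ a₂] at f2
    have f3 : 0 < |b₁| + |b₂| := by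
      rcases hb with h | h
      · have := abs_pos.2 h
        have := abs_nonneg b₂
        omega
      · have := abs_pos.2 h
        have := abs_nonneg b₁
        omega
    omega
  have hk3 : k = 0 ∨ k = -1 := by omega
  rcases hk3 with h | h
  · left
    rw [h] at e1 e2
    constructor <;> omega
  · right
    rw [h] at e1 e2
    constructor <;> omega

end IF2

open IF2 in
/-- item F2 -/
theorem pr_F2 : St_F2 := by
  rintro ⟨a₁, a₂⟩ ⟨b₁, b₂⟩ ⟨u₁, u₂⟩ hab h1 h2 hu hn
  simp only [dt, Prod.mk_add_mk, Prod.neg_mk, Prod.mk.injEq] at hab h1 h2 hu hn ⊢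
  obtain ⟨D, hD⟩ : ∃ D : ℤ, D = a₁ * b₂ - a₂ * b₁ := ⟨_, rfl⟩
  rw [← hD] at hab
  have hD2 : D * D = 1 := by
    rw [← abs_mul_abs_self, hab]
    norm_num
  have hcase : u₁ * (a₂ + b₂) - u₂ * (a₁ + b₁) = D ∨
      (-u₁) * (a₂ + b₂) - (-u₂) * (a₁ + b₁) = D := by
    rcases eq_or_eq_neg_of_abs_eq hab with h | h <;>
      rcases eq_or_eq_neg_of_abs_eq hu with h' | h'
    · left
      rw [h', h]
    · right
      rw [h]
      linarith
    · right
      rw [h]
      linarith
    · left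
      rw [h', h]
  rcases hcase with h | h
  · rcases core a₁ a₂ b₁ b₂ u₁ u₂ D hD hD2 h1 h2 h hn with h3 | h3
    · exact Or.inl h3
    · exact Or.inr (Or.inr (Or.inr h3))
  · rcases core a₁ a₂ b₁ b₂ (-u₁) (-u₂) D hD hD2 h1 h2 h (by rwa [abs_neg, abs_neg]) with h3 | h3
    · refine Or.inr (Or.inr (Or.inl ?_))
      constructor <;> omega
    · refine Or.inr (Or.inl ?_)
      constructor <;> omega

end Pool.Agent.Work.MP_b25393_ag.HF
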