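import Pool.Agent.Work.MP_b25393_ag.HF.StmtsA

/-!
# MP_b25393_ag, block HF: item F3 (helper56)
-/

set_option autoImplicit false

namespace Pool.Agent.Work.MP_b25393_ag.HF

open Pool.Agent.Work.MP_b25393_ag

namespace IF3

/-- the norm -/
def NN (u : ℤ × ℤ) : ℤ := |u.1| + |u.2|

/-- the elements of norm one -/
def UU : Finset (ℤ × ℤ) := {(1, 0), (-1, 0), (0, 1), (0, -1)}

lemma UU_card : UU.card = 4 := by decide

lemma UU_pairs : ((UU ×ˢ UU).filter (fun z => |dt z.1 z.2| = 1)).card = 8 := by decide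

lemma dt_swap (u v : ℤ × ℤ) : dt v u = -dt u v := by
  simp only [dt]; ring

lemma nn_pos {u : ℤ × ℤ} (h : IsCoprime u.1 u.2) : 1 ≤ NN u := by
  by_contra hlt
  have h1 := abs_nonneg u.1
  have h2 := abs_nonneg u.2
  have h3 : |u.1| = 0 := by unfold NN at hlt; omega
  have h4 : |u.2| = 0 := by unfold NN at hlt; omega
  rw [abs_eq_zero] at h3 h4
  rw [h3, h4, isCoprime_zero_left] at h
  exact not_isUnit_zero h

lemma mem_UU {u : ℤ × ℤ} (h : NN u = 1) : u ∈ UU := by
  obtain ⟨x, y⟩ := u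
  unfold NN at h
  simp only at h
  have h1 := abs_nonneg x
  have h2 := abs_nonneg y
  rcases (by omega : |x| = 0 ∧ |y| = 1 ∨ |x| = 1 ∧ |y| = 0) with ⟨h3, h4⟩ | ⟨h3, h4⟩
  · rw [abs_eq_zero] at h3
    rcases (abs_eq (by norm_num)).1 h4 with h5 | h5 <;> simp [UU, h3, h5]
  · rw [abs_eq_zero] at h4
    rcases (abs_eq (by norm_num)).1 h3 with h5 | h5 <;> simp [UU, h4, h5]

lemma nn_UU {u : ℤ × ℤ} (h : u ∈ UU) : NN u = 1 := by
  simp only [UU, Finset.mem_insert, Finset.mem_singleton] at h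
  rcases h with rfl | rfl | rfl | rfl <;> simp [NN]

lemma UU_sub {S : Finset (ℤ × ℤ)} (hS : Cl2 S) : UU ⊆ S := by
  intro u hu
  simp only [UU, Finset.mem_insert, Finset.mem_singleton] at hu
  rcases hu with rfl | rfl | rfl | rfl
  · exact hS.e1
  · have := hS.neg _ hS.e1
    simpa using this
  · exact hS.e2
  · have := hS.neg _ hS.e2
    simpa using this

lemma nonax {w : ℤ × ℤ} (hc : IsCoprime w.1 w.2) (hN : 2 ≤ NN w) : w.1 ≠ 0 ∧ w.2 ≠ 0 := by
  constructor
  · intro h
    rw [h, isCoprime_zero_left] at hc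
    have h1 : |w.2| = 1 := Int.isUnit_iff_abs_eq.1 hc
    unfold NN at hN
    rw [h, h1] at hN
    simp at hN
  · intro h
    rw [h, isCoprime_zero_right] at hc
    have h1 : |w.1| = 1 := Int.isUnit_iff_abs_eq.1 hc
    unfold NN at hN
    rw [h, h1] at hN
    simp at hN

/-- the lower neighbours -/
lemma key (hF2 : St_F2) {S : Finset (ℤ × ℤ)} (hS : Cl2 S) {w : ℤ × ℤ} (hw : w ∈ S)
    (hN : 2 ≤ NN w) :
    (S.filter (fun u => |dt u w| = 1 ∧ NN u < NN w)).card = 4 ∧
      ∀ u ∈ S, |dt u w| = 1 → NN u ≤ NN w → NN u < NN w := by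
  obtain ⟨hx, hy⟩ := nonax (hS.cop w hw) hN
  obtain ⟨a, ha, b, hb, hab, hD, h1, h2⟩ := hS.par w hw hx hy
  have hNa := nn_pos (hS.cop a ha)
  have hNb := nn_pos (hS.cop b hb)
  have hNw : NN a + NN b = NN w := by unfold NN; omega
  have hna : NN (-a) = NN a := by simp [NN]
  have hnb : NN (-b) = NN b := by simp [NN]
  have hwa : w.1 = a.1 + b.1 := by rw [← hab]; rfl
  have hwb : w.2 = a.2 + b.2 := by rw [← hab]; rfl
  have hF : ∀ u : ℤ × ℤ, |dt u w| = 1 → NN u ≤ NN w → u = a ∨ u = b ∨ u = -a ∨ u = -b := by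
    intro u hu hle
    refine hF2 a b u hD ?_ ?_ ?_ ?_
    · rw [← hwa]; exact h1
    · rw [← hwb]; exact h2
    · rw [hab]; exact hu
    · rw [← hwa, ← hwb]; exact hle
  have hlt : ∀ u : ℤ × ℤ, (u = a ∨ u = b ∨ u = -a ∨ u = -b) → NN u < NN w := by
    rintro u (rfl | rfl | rfl | rfl)
    · omega
    · omega
    · omega
    · omega
  have hda : dt a w = dt a b := by rw [← hab]; simp only [dt, Prod.fst_add, Prod.snd_add]; ring
  have hdb : dt b w = -dt a b := by rw [← hab]; simp only [dt, Prod.fst_add, Prod.snd_add]; ring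
  have hdna : dt (-a) w = -dt a b := by
    rw [← hab]; simp only [dt, Prod.fst_add, Prod.snd_add, Prod.fst_neg, Prod.snd_neg]; ring
  have hdnb : dt (-b) w = dt a b := by
    rw [← hab]; simp only [dt, Prod.fst_add, Prod.snd_add, Prod.fst_neg, Prod.snd_neg]; ring
  have hset : S.filter (fun u => |dt u w| = 1 ∧ NN u < NN w) = {a, b, -a, -b} := by
    ext u
    rw [Finset.mem_filter]
    simp only [Finset.mem_insert, Finset.mem_singleton]
    constructor
    · rintro ⟨-, hu, hle⟩
      exact hF u hu hle.le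
    · intro hu
      refine ⟨?_, ?_, hlt u hu⟩
      · rcases hu with rfl | rfl | rfl | rfl
        · exact ha
        · exact hb
        · exact hS.neg _ ha
        · exact hS.neg _ hb
      · rcases hu with rfl | rfl | rfl | rfl
        · rw [hda]; exact hD
        · rw [hdb, abs_neg]; exact hD
        · rw [hdna, abs_neg]; exact hD
        · rw [hdnb]; exact hD
  have hD0 : dt a b ≠ 0 := by
    intro h
    rw [h] at hD
    simp at hD
  have ne1 : a ≠ b := by
    rintro rfl
    apply hD0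
    simp only [dt]; ring
  have ne2 : a ≠ -b := by
    rintro rfl
    apply hD0
    simp only [dt, Prod.fst_neg, Prod.snd_neg]; ring
  have hself : ∀ c : ℤ × ℤ, 1 ≤ NN c → c ≠ -c := by
    rintro ⟨x, y⟩ hc h
    simp only [Prod.neg_mk, Prod.mk.injEq] at h
    have hx0 : x = 0 := by omega
    have hy0 : y = 0 := by omega
    simp [NN, hx0, hy0] at hc
  refine ⟨?_, fun u _ hu hle => hlt u (hF u hu hle)⟩
  rw [hset, Finset.card_insert_of_notMem, Finset.card_insert_of_notMem,
    Finset.card_insert_of_notMem, Finset.card_singleton]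
  · simp only [Finset.mem_singleton]
    intro h
    exact ne1 (neg_injective h)
  · simp only [Finset.mem_insert, Finset.mem_singleton, not_or]
    refine ⟨fun h => ne2 ?_, hself b hNb⟩
    rw [h, neg_neg]
  · simp only [Finset.mem_insert, Finset.mem_singleton, not_or]
    exact ⟨ne1, hself a hNa, ne2⟩

end IF3

open IF3 in
theorem pr_F3 (hF2 : St_F2) : St_F3 := by
  intro S hS
  classical
  set E := (S ×ˢ S).filter (fun z => |dt z.1 z.2| = 1) with hE
  set E1 := (S ×ˢ S).filter (fun z => |dt z.1 z.2| = 1 ∧ NN z.1 < NN z.2) with hE1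
  set E2 := (S ×ˢ S).filter (fun z => |dt z.1 z.2| = 1 ∧ NN z.1 = NN z.2) with hE2
  set E3 := (S ×ˢ S).filter (fun z => |dt z.1 z.2| = 1 ∧ NN z.2 < NN z.1) with hE3
  have hsum : E.card = E1.card + E2.card + E3.card := by
    rw [hE, hE1, hE2, hE3, Finset.card_filter, Finset.card_filter, Finset.card_filter,
      Finset.card_filter, ← Finset.sum_add_distrib, ← Finset.sum_add_distrib]
    refine Finset.sum_congr rfl fun z _ => ?_
    by_cases hz : |dt z.1 z.2| = 1
    · rcases lt_trichotomy (NN z.1) (NN z.2) with h | h | h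
      · simp [hz, h, h.ne, h.le]
      · simp [hz, h]
      · simp [hz, h, h.ne', h.le]
    · simp [hz]
  have h31 : E3.card = E1.card := by
    refine Finset.card_nbij' Prod.swap Prod.swap ?_ ?_ ?_ ?_
    · intro z hz
      simp only [hE3, hE1, Finset.coe_filter, Finset.mem_product,
        Set.mem_ofPred_eq, Prod.fst_swap, Prod.snd_swap] at hz ⊢
      refine ⟨⟨hz.1.2, hz.1.1⟩, ?_, hz.2.2⟩
      rw [dt_swap, abs_neg]
      exact hz.2.1
    · intro z hz
      simp only [hE3, hE1, Finset.coe_filter, Finset.mem_product,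
        Set.mem_ofPred_eq, Prod.fst_swap, Prod.snd_swap] at hz ⊢
      refine ⟨⟨hz.1.2, hz.1.1⟩, ?_, hz.2.2⟩
      rw [dt_swap, abs_neg]
      exact hz.2.1
    · intro z _
      exact Prod.swap_swap z
    · intro z _
      exact Prod.swap_swap z
  -- the elements of norm one
  have hU : S.filter (fun u => ¬ 2 ≤ NN u) = UU := by
    ext u
    rw [Finset.mem_filter]
    constructor
    · rintro ⟨hu, h⟩
      have := nn_pos (hS.cop u hu)
      exact mem_UU (by omega)
    · intro hu
      refine ⟨UU_sub hS hu, ?_⟩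
      rw [nn_UU hu]
      norm_num
  have hcard : (S.filter (fun u => 2 ≤ NN u)).card + 4 = S.card := by
    rw [← UU_card, ← hU]
    exact Finset.card_filter_add_card_filter_not _
  have h1 : E1.card = 4 * (S.filter (fun u => 2 ≤ NN u)).card := by
    rw [hE1, Finset.card_filter, Finset.sum_product_right]
    have e1 : ∀ w ∈ S, (∑ u ∈ S, if |dt u w| = 1 ∧ NN u < NN w then 1 else 0) =
        if 2 ≤ NN w then 4 else 0 := by
      intro w hw
      rw [← Finset.card_filter]
      split_ifs with h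
      · exact (key hF2 hS hw h).1
      · rw [Finset.card_eq_zero, Finset.filter_eq_empty_iff]
        rintro u hu ⟨-, hlt⟩
        have h3 := nn_pos (hS.cop u hu)
        omega
    rw [Finset.sum_congr rfl e1, ← Finset.sum_filter, Finset.sum_const, smul_eq_mul, mul_comm]
  have h2 : E2.card = 8 := by
    rw [← UU_pairs]
    congr 1
    ext z
    simp only [hE2, Finset.mem_filter, Finset.mem_product]
    constructor
    · rintro ⟨⟨hu, hv⟩, hd, hn⟩
      have h3 := nn_pos (hS.cop z.2 hv)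
      have h4 : ¬ 2 ≤ NN z.2 := by
        intro h
        have := (key hF2 hS hv h).2 z.1 hu hd hn.le
        omega
      have h5 : NN z.2 = 1 := by omega
      exact ⟨⟨mem_UU (by omega), mem_UU h5⟩, hd⟩
    · rintro ⟨⟨hu, hv⟩, hd⟩
      exact ⟨⟨UU_sub hS hu, UU_sub hS hv⟩, hd, by rw [nn_UU hu, nn_UU hv]⟩
  rw [hsum, h31, h1, h2]
  omega

end Pool.Agent.Work.MP_b25393_ag.HF
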