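import Pool.Agent.Work.MP_b25393_ag.HF.StmtsA

/-!
# MP_b25393_ag, block HF: item F4 (the triangles of the Farey graph)
-/

set_option autoImplicit false

namespace Pool.Agent.Work.MP_b25393_ag.HF

namespace IF4

/-- the norm -/
def N (u : ℤ × ℤ) : ℤ := |u.1| + |u.2|

theorem N_neg (u : ℤ × ℤ) : N (-u) = N u := by
  simp [N, abs_neg]

theorem abs_dt_comm (u v : ℤ × ℤ) : |dt u v| = |dt v u| := by
  rw [show dt u v = -dt v u by unfold dt; ring, abs_neg]

theorem dt_add_right (u v : ℤ × ℤ) : dt u (u + v) = dt u v := by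
  simp only [dt, Prod.fst_add, Prod.snd_add]; ring

theorem N_pos {u v : ℤ × ℤ} (h : |dt u v| = 1) : 1 ≤ N u := by
  by_contra hc
  have h0 : |u.1| = 0 ∧ |u.2| = 0 := by
    have h1 := abs_nonneg u.1
    have h2 := abs_nonneg u.2
    have h3 : N u < 1 := not_le.1 hc
    unfold N at h3
    constructor <;> omega
  have h1 := abs_eq_zero.1 h0.1
  have h2 := abs_eq_zero.1 h0.2
  rw [show dt u v = 0 by unfold dt; rw [h1, h2]; ring] at h
  simp at h

theorem N_ge_one {S : Finset (ℤ × ℤ)} (hS : Cl2 S) {w : ℤ × ℤ} (hw : w ∈ S) : 1 ≤ N w := by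
  by_contra hc
  have h1 := abs_nonneg w.1
  have h2 := abs_nonneg w.2
  have h3 : N w < 1 := not_le.1 hc
  unfold N at h3
  have h4 : |w.1| = 0 := by omega
  have h5 : |w.2| = 0 := by omega
  have hc := hS.cop w hw
  rw [abs_eq_zero.1 h4, abs_eq_zero.1 h5] at hc
  exact not_isCoprime_zero_zero hc

theorem ne_zero_of_N {S : Finset (ℤ × ℤ)} (hS : Cl2 S) {w : ℤ × ℤ} (hw : w ∈ S) (h : 2 ≤ N w) :
    w.1 ≠ 0 ∧ w.2 ≠ 0 := by
  have hc := hS.cop w hw
  constructor
  · intro h0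
    rw [h0, isCoprime_zero_left, Int.isUnit_iff_abs_eq] at hc
    unfold N at h
    rw [h0, hc] at h
    simp at h
  · intro h0
    rw [h0, isCoprime_zero_right, Int.isUnit_iff_abs_eq] at hc
    unfold N at h
    rw [h0, hc] at h
    simp at h

/-- the parents -/
theorem parents {S : Finset (ℤ × ℤ)} (hS : Cl2 S) {w : ℤ × ℤ} (hw : w ∈ S) (h : 2 ≤ N w) :
    ∃ a ∈ S, ∃ b ∈ S, a + b = w ∧ |dt a b| = 1 ∧
    |a.1| + |b.1| = |w.1| ∧ |a.2| + |b.2| = |w.2| :=
  hS.par w hw (ne_zero_of_N hS hw h).1 (ne_zero_of_N hS hw h).2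

theorem nb (hF2 : St_F2) {w a b : ℤ × ℤ}
    (hab : a + b = w) (hd : |dt a b| = 1) (h1 : |a.1| + |b.1| = |w.1|) (h2 : |a.2| + |b.2| = |w.2|)
    {u : ℤ × ℤ} (hu : |dt u w| = 1) (hN : N u ≤ N w) : u = a ∨ u = b ∨ u = -a ∨ u = -b := by
  subst hab
  exact hF2 a b u hd h1 h2 hu hN

theorem lt_of (hF2 : St_F2) {S : Finset (ℤ × ℤ)} (hS : Cl2 S) {w : ℤ × ℤ} (hw : w ∈ S)
    (h : 2 ≤ N w) {u : ℤ × ℤ} (hu : |dt u w| = 1) (hN : N u ≤ N w) : N u < N w := by
  obtain ⟨a, ha, b, hb, hab, hd, h1, h2⟩ := parents hS hw h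
  have hsum : N a + N b = N w := by unfold N; omega
  have ha1 := N_ge_one hS ha
  have hb1 := N_ge_one hS hb
  rcases nb hF2 hab hd h1 h2 hu hN with e | e | e | e
  · rw [e]; omega
  · rw [e]; omega
  · rw [e, N_neg]; omega
  · rw [e, N_neg]; omega

/-- small triangles do not exist -/
theorem small (u v : ℤ × ℤ) (h : |dt u v| = 1) (h1 : N u ≤ 1) (h2 : N v ≤ 1) :
    2 ≤ N (u + v) := by
  obtain ⟨a, b⟩ := u
  obtain ⟨c, d⟩ := v
  simp only [N, dt, Prod.mk_add_mk] at *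
  have g1 := abs_nonneg a
  have g2 := abs_nonneg b
  have g3 := abs_nonneg c
  have g4 := abs_nonneg d
  have ha : |a| ≤ 1 := by omega
  have hb : |b| ≤ 1 := by omega
  have hc : |c| ≤ 1 := by omega
  have hd : |d| ≤ 1 := by omega
  rw [abs_le] at ha hb hc hd
  obtain ⟨a1, a2⟩ := ha
  obtain ⟨b1, b2⟩ := hb
  obtain ⟨c1, c2⟩ := hc
  obtain ⟨d1, d2⟩ := hd
  interval_cases a <;> interval_cases b <;> interval_cases c <;> interval_cases d <;>
    simp_all

/-- the set of triangles -/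
def T (S : Finset (ℤ × ℤ)) : Finset ((ℤ × ℤ) × (ℤ × ℤ)) :=
  (S ×ˢ S).filter (fun z => |dt z.1 z.2| = 1 ∧ z.1 + z.2 ∈ S)

theorem mem_T {S : Finset (ℤ × ℤ)} {u v : ℤ × ℤ} :
    (u, v) ∈ T S ↔ (u ∈ S ∧ v ∈ S) ∧ |dt u v| = 1 ∧ u + v ∈ S := by
  simp [T]

def Tw (S : Finset (ℤ × ℤ)) : Finset ((ℤ × ℤ) × (ℤ × ℤ)) :=
  (T S).filter (fun z => N z.1 < N (z.1 + z.2) ∧ N z.2 < N (z.1 + z.2))

def Tu (S : Finset (ℤ × ℤ)) : Finset ((ℤ × ℤ) × (ℤ × ℤ)) :=
  (T S).filter (fun z => N z.2 < N z.1 ∧ N (z.1 + z.2) < N z.1)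

def Tv (S : Finset (ℤ × ℤ)) : Finset ((ℤ × ℤ) × (ℤ × ℤ)) :=
  (T S).filter (fun z => N z.1 < N z.2 ∧ N (z.1 + z.2) < N z.2)

theorem tri_cases (hF2 : St_F2) {S : Finset (ℤ × ℤ)} (hS : Cl2 S) {z : (ℤ × ℤ) × (ℤ × ℤ)}
    (hz : z ∈ T S) :
    (N z.1 < N (z.1 + z.2) ∧ N z.2 < N (z.1 + z.2)) ∨ (N z.2 < N z.1 ∧ N (z.1 + z.2) < N z.1) ∨
      (N z.1 < N z.2 ∧ N (z.1 + z.2) < N z.2) := by
  obtain ⟨u, v⟩ := z
  obtain ⟨⟨hu, hv⟩, hd, hw⟩ := mem_T.1 hz
  show (N u < N (u + v) ∧ N v < N (u + v)) ∨ (N v < N u ∧ N (u + v) < N u) ∨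
      (N u < N v ∧ N (u + v) < N v)
  have d1 : |dt u (u + v)| = 1 := by rw [dt_add_right]; exact hd
  have d2 : |dt v (u + v)| = 1 := by
    rw [add_comm u v, dt_add_right, abs_dt_comm]; exact hd
  have d3 : |dt v u| = 1 := by rw [abs_dt_comm]; exact hd
  have d4 : |dt (u + v) u| = 1 := by rw [abs_dt_comm]; exact d1
  have d5 : |dt (u + v) v| = 1 := by rw [abs_dt_comm]; exact d2
  have hsm := small u v hd
  have k1 : 2 ≤ N (u + v) → N u ≤ N (u + v) → N u < N (u + v) := fun h h' =>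
    lt_of hF2 hS hw h d1 h'
  have k2 : 2 ≤ N (u + v) → N v ≤ N (u + v) → N v < N (u + v) := fun h h' =>
    lt_of hF2 hS hw h d2 h'
  have k3 : 2 ≤ N u → N v ≤ N u → N v < N u := fun h h' => lt_of hF2 hS hu h d3 h'
  have k4 : 2 ≤ N u → N (u + v) ≤ N u → N (u + v) < N u := fun h h' => lt_of hF2 hS hu h d4 h'
  have k5 : 2 ≤ N v → N u ≤ N v → N u < N v := fun h h' => lt_of hF2 hS hv h hd h'
  have k6 : 2 ≤ N v → N (u + v) ≤ N v → N (u + v) < N v := fun h h' => lt_of hF2 hS hv h d5 h'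
  omega

theorem card_T (hF2 : St_F2) {S : Finset (ℤ × ℤ)} (hS : Cl2 S) :
    (T S).card = (Tw S).card + (Tu S).card + (Tv S).card := by
  classical
  have h1 : T S = (Tw S ∪ Tu S) ∪ Tv S := by
    ext z
    simp only [Finset.mem_union, Tw, Tu, Tv, Finset.mem_filter]
    constructor
    · intro hz
      rcases tri_cases hF2 hS hz with h | h | h
      · exact Or.inl (Or.inl ⟨hz, h⟩)
      · exact Or.inl (Or.inr ⟨hz, h⟩)
      · exact Or.inr ⟨hz, h⟩
    · rintro ((h | h) | h) <;> exact h.1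
  have h2 : Disjoint (Tw S) (Tu S) := by
    rw [Finset.disjoint_left]
    intro z h h'
    have a := (Finset.mem_filter.1 h).2
    have b := (Finset.mem_filter.1 h').2
    have := a.1; have := b.2
    omega
  have h3 : Disjoint (Tw S ∪ Tu S) (Tv S) := by
    rw [Finset.disjoint_left]
    intro z h h'
    have b := (Finset.mem_filter.1 h').2
    rcases Finset.mem_union.1 h with h | h
    · have a := (Finset.mem_filter.1 h).2
      have := a.2; have := b.2
      omega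
    · have a := (Finset.mem_filter.1 h).2
      have := a.1; have := b.1
      omega
  rw [h1, Finset.card_union_of_disjoint h3, Finset.card_union_of_disjoint h2]

theorem card_Tv (S : Finset (ℤ × ℤ)) : (Tv S).card = (Tu S).card := by
  refine Finset.card_bij' (fun z _ => (z.2, z.1)) (fun z _ => (z.2, z.1)) ?_ ?_ ?_ ?_
  · rintro ⟨u, v⟩ h
    obtain ⟨h1, h2, h3⟩ := Finset.mem_filter.1 h
    obtain ⟨⟨hu, hv⟩, hd, hw⟩ := mem_T.1 h1
    refine Finset.mem_filter.2 ⟨mem_T.2 ⟨⟨hv, hu⟩, ?_, ?_⟩, h2, ?_⟩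
    · rw [abs_dt_comm]; exact hd
    · rw [add_comm]; exact hw
    · show N (v + u) < N v
      rw [add_comm]; exact h3
  · rintro ⟨u, v⟩ h
    obtain ⟨h1, h2, h3⟩ := Finset.mem_filter.1 h
    obtain ⟨⟨hu, hv⟩, hd, hw⟩ := mem_T.1 h1
    refine Finset.mem_filter.2 ⟨mem_T.2 ⟨⟨hv, hu⟩, ?_, ?_⟩, h2, ?_⟩
    · rw [abs_dt_comm]; exact hd
    · rw [add_comm]; exact hw
    · show N (v + u) < N u
      rw [add_comm]; exact h3
  · intro z _; rfl
  · intro z _; rfl

theorem dt_swap (u v : ℤ × ℤ) : |dt (u + v) (-v)| = |dt u v| := by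
  rw [show dt (u + v) (-v) = -dt u v by
    simp only [dt, Prod.fst_add, Prod.snd_add, Prod.fst_neg, Prod.snd_neg]; ring, abs_neg]

theorem card_Tu {S : Finset (ℤ × ℤ)} (hS : Cl2 S) : (Tu S).card = (Tw S).card := by
  refine Finset.card_bij' (fun z _ => (z.1 + z.2, -z.2)) (fun z _ => (z.1 + z.2, -z.2)) ?_ ?_ ?_ ?_
  · rintro ⟨u, v⟩ h
    obtain ⟨h1, h2, h3⟩ := Finset.mem_filter.1 h
    obtain ⟨⟨hu, hv⟩, hd, hw⟩ := mem_T.1 h1
    have e : u + v + -v = u := by abel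
    refine Finset.mem_filter.2 ⟨mem_T.2 ⟨⟨hw, hS.neg v hv⟩, ?_, ?_⟩, ?_, ?_⟩
    · rw [dt_swap]; exact hd
    · show u + v + -v ∈ S
      rw [e]; exact hu
    · show N (u + v) < N (u + v + -v)
      rw [e]; exact h3
    · show N (-v) < N (u + v + -v)
      rw [e, N_neg]; exact h2
  · rintro ⟨u, v⟩ h
    obtain ⟨h1, h2, h3⟩ := Finset.mem_filter.1 h
    obtain ⟨⟨hu, hv⟩, hd, hw⟩ := mem_T.1 h1
    have e : u + v + -v = u := by abel
    refine Finset.mem_filter.2 ⟨mem_T.2 ⟨⟨hw, hS.neg v hv⟩, ?_, ?_⟩, ?_, ?_⟩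
    · rw [dt_swap]; exact hd
    · show u + v + -v ∈ S
      rw [e]; exact hu
    · show N (-v) < N (u + v)
      rw [N_neg]; exact h3
    · show N (u + v + -v) < N (u + v)
      rw [e]; exact h2
  · rintro ⟨u, v⟩ _
    show ((u + v) + -v, - -v) = (u, v)
    rw [neg_neg, add_neg_cancel_right]
  · rintro ⟨u, v⟩ _
    show ((u + v) + -v, - -v) = (u, v)
    rw [neg_neg, add_neg_cancel_right]

/-- the elements of norm at least two -/
def B (S : Finset (ℤ × ℤ)) : Finset (ℤ × ℤ) := S.filter (fun w => 2 ≤ N w)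

theorem card_B {S : Finset (ℤ × ℤ)} (hS : Cl2 S) : (B S).card + 4 = S.card := by
  classical
  have h1 := Finset.card_filter_add_card_filter_not (s := S) (fun w => 2 ≤ N w)
  have h2 : S.filter (fun w => ¬ 2 ≤ N w) = {((1 : ℤ), (0 : ℤ)), (0, 1), (-1, 0), (0, -1)} := by
    ext w
    simp only [Finset.mem_filter, Finset.mem_insert, Finset.mem_singleton]
    constructor
    · rintro ⟨hw, hN⟩
      have h3 := N_ge_one hS hw
      obtain ⟨x, y⟩ := w
      simp only [N] at hN h3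
      have g1 := abs_nonneg x
      have g2 := abs_nonneg y
      have hx : |x| ≤ 1 := by omega
      have hy : |y| ≤ 1 := by omega
      rw [abs_le] at hx hy
      obtain ⟨a1, a2⟩ := hx
      obtain ⟨b1, b2⟩ := hy
      interval_cases x <;> interval_cases y <;> simp_all
    · rintro (h | h | h | h)
      · rw [h]; exact ⟨hS.e1, by simp [N]⟩
      · rw [h]; exact ⟨hS.e2, by simp [N]⟩
      · rw [h]; exact ⟨by simpa using hS.neg _ hS.e1, by simp [N]⟩
      · rw [h]; exact ⟨by simpa using hS.neg _ hS.e2, by simp [N]⟩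
  rw [h2] at h1
  have h4 : ({((1 : ℤ), (0 : ℤ)), (0, 1), (-1, 0), (0, -1)} : Finset (ℤ × ℤ)).card = 4 := by decide
  rw [h4] at h1
  exact h1

theorem card_Tw (hF2 : St_F2) {S : Finset (ℤ × ℤ)} (hS : Cl2 S) :
    (Tw S).card = 2 * (B S).card := by
  classical
  have hmap : ∀ z ∈ Tw S, z.1 + z.2 ∈ B S := by
    rintro ⟨u, v⟩ h
    obtain ⟨h1, h2, h3⟩ := Finset.mem_filter.1 h
    obtain ⟨⟨hu, hv⟩, hd, hw⟩ := mem_T.1 h1
    refine Finset.mem_filter.2 ⟨hw, ?_⟩
    have := N_ge_one hS hu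
    have h2' : N u < N (u + v) := h2
    show 2 ≤ N (u + v)
    omega
  rw [Finset.card_eq_sum_card_fiberwise (f := fun z => z.1 + z.2) (t := B S)
    (fun z hz => hmap z hz)]
  rw [Finset.sum_const_nat (m := 2), mul_comm]
  intro w hw
  obtain ⟨hwS, hwN⟩ := Finset.mem_filter.1 hw
  obtain ⟨a, ha, b, hb, hab, hd, h1, h2⟩ := parents hS hwS hwN
  have hne : (a, b) ≠ (b, a) := by
    intro h
    have : a = b := congrArg Prod.fst h
    rw [this, show dt b b = 0 by unfold dt; ring] at hd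
    simp at hd
  have hsum : N a + N b = N w := by unfold N; omega
  have ha1 := N_ge_one hS ha
  have hb1 := N_ge_one hS hb
  have key : (Tw S).filter (fun z => z.1 + z.2 = w) = {(a, b), (b, a)} := by
    ext z
    obtain ⟨u, v⟩ := z
    simp only [Finset.mem_filter, Finset.mem_insert, Finset.mem_singleton]
    constructor
    · rintro ⟨hz, hzw⟩
      obtain ⟨h3, h4, h5⟩ := Finset.mem_filter.1 hz
      obtain ⟨⟨hu, hv⟩, hd', hw'⟩ := mem_T.1 h3
      have h4' : N u < N w := by rw [← hzw]; exact h4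
      have h5' : N v < N w := by rw [← hzw]; exact h5
      have hduw : |dt u w| = 1 := by rw [← hzw, dt_add_right]; exact hd'
      have hv' : v = w - u := by rw [← hzw]; abel
      rcases nb hF2 hab hd h1 h2 hduw h4'.le with e | e | e | e
      · left; rw [hv', e, ← hab]; simp
      · right; rw [hv', e, ← hab]; simp
      · exfalso
        rw [hv', e, ← hab] at h5'
        rw [← hab] at h1 h2
        simp only [N, Prod.fst_add, Prod.snd_add, Prod.fst_sub, Prod.snd_sub, Prod.fst_neg,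
          Prod.snd_neg] at h5' h1 h2
        revert h5' h1 h2
        simp only [abs_eq_max_neg]
        omega
      · exfalso
        rw [hv', e, ← hab] at h5'
        rw [← hab] at h1 h2
        simp only [N, Prod.fst_add, Prod.snd_add, Prod.fst_sub, Prod.snd_sub, Prod.fst_neg,
          Prod.snd_neg] at h5' h1 h2
        revert h5' h1 h2
        simp only [abs_eq_max_neg]
        omega
    · rintro (h | h)
      · obtain ⟨rfl, rfl⟩ := Prod.mk.inj h
        refine ⟨Finset.mem_filter.2 ⟨mem_T.2 ⟨⟨ha, hb⟩, hd, by rw [hab]; exact hwS⟩, ?_, ?_⟩, hab⟩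
        · show N u < N (u + v)
          rw [hab]; omega
        · show N v < N (u + v)
          rw [hab]; omega
      · obtain ⟨rfl, rfl⟩ := Prod.mk.inj h
        have hab' : u + v = w := by rw [add_comm]; exact hab
        refine ⟨Finset.mem_filter.2 ⟨mem_T.2 ⟨⟨hb, ha⟩, ?_, by rw [hab']; exact hwS⟩, ?_, ?_⟩,
          hab'⟩
        · rw [abs_dt_comm]; exact hd
        · show N u < N (u + v)
          rw [hab']; omega
        · show N v < N (u + v)
          rw [hab']; omega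
  rw [key, Finset.card_pair hne]

end IF4

theorem pr_F4 (hF2 : St_F2) : St_F4 := by
  intro S hS
  have h1 := IF4.card_T hF2 hS
  have h2 := IF4.card_Tv S
  have h3 := IF4.card_Tu hS
  have h4 := IF4.card_Tw hF2 hS
  have h5 := IF4.card_B hS
  show (IF4.T S).card + 24 = 6 * S.card
  omega

end Pool.Agent.Work.MP_b25393_ag.HF
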