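import Pool.Agent.Work.MP_b25393_ag.HF.StmtsR

/-!
# MP_b25393_ag, block HF, item G1: the overlap of two intervals
-/

set_option autoImplicit false

open scoped LinearAlgebra.Projectivization Pointwise Matrix RealInnerProductSpace ENNReal
open MeasureTheory Filter Topology Matrix TopologicalSpace

namespace Pool.Agent.Work.MP_b25393_ag.HF

open Pool.Agent.Work.MP_b25393_ag

namespace IG1

theorem set_eq (l m y : ℝ) : {s : ℝ | |s| ≤ l ∧ |y - s| ≤ m} =
    Set.Icc (max (-l) (y - m)) (min l (y + m)) := by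
  ext s
  simp only [Set.mem_ofPred_eq, Set.mem_Icc, abs_le, max_le_iff, le_min_iff]
  constructor
  · rintro ⟨⟨h1, h2⟩, h3, h4⟩
    exact ⟨⟨h1, by linarith⟩, h2, by linarith⟩
  · rintro ⟨⟨h1, h3⟩, h2, h4⟩
    exact ⟨⟨h1, h2⟩, by linarith, by linarith⟩

theorem len_eq (l m y : ℝ) : min l (y + m) - max (-l) (y - m) =
    min (min (2 * l) (2 * m)) (l + m - |y|) := by
  rcases le_total l (y + m) with h1 | h1 <;> rcases le_total (-l) (y - m) with h2 | h2 <;>
    rcases abs_cases y with ⟨h3, h4⟩ | ⟨h3, h4⟩ <;>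
    rcases le_total (2 * l) (2 * m) with h5 | h5 <;>
    simp only [h1, h2, h3, h5, min_eq_left, min_eq_right, max_eq_left, max_eq_right]
  all_goals
    first
    | rw [min_eq_left (by linarith)]
      linarith
    | rw [min_eq_right (by linarith)]
      linarith

end IG1

theorem pr_G1 : St_G1 := by
  intro l m hl hm x y hxy
  rw [IG1.set_eq, IG1.set_eq, Real.volume_Icc, Real.volume_Icc, IG1.len_eq, IG1.len_eq]
  refine ENNReal.ofReal_le_ofReal ?_
  exact min_le_min le_rfl (by linarith)

end Pool.Agent.Work.MP_b25393_ag.HF
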