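import Pool.Agent.Work.MP_b25393_ag.HF.StmtsR

/-!
# MP_b25393_ag, block HF, item G2: the centred interval is best
-/

set_option autoImplicit false

open scoped LinearAlgebra.Projectivization Pointwise Matrix RealInnerProductSpace ENNReal
open MeasureTheory Filter Topology Matrix TopologicalSpace

namespace Pool.Agent.Work.MP_b25393_ag.HF

open Pool.Agent.Work.MP_b25393_ag

theorem pr_G2 : St_G2 := by
  intro h _ hh c l hl
  set A : Set ℝ := Set.Icc (c - l) (c + l) with hA
  set B : Set ℝ := Set.Icc (-l) l with hB
  have mA : MeasurableSet A := measurableSet_Icc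
  have mB : MeasurableSet B := measurableSet_Icc
  have vA : volume A = ENNReal.ofReal (2 * l) := by
    rw [hA, Real.volume_Icc]
    congr 1
    ring
  have vB : volume B = ENNReal.ofReal (2 * l) := by
    rw [hB, Real.volume_Icc]
    congr 1
    ring
  have e1 := measure_inter_add_sdiff (μ := volume) A mB
  have e2 := measure_inter_add_sdiff (μ := volume) B mA
  have e3 : volume (A ∩ B) ≠ ∞ := by
    refine ne_top_of_le_ne_top ?_ (measure_mono Set.inter_subset_left)
    rw [vA]
    exact ENNReal.ofReal_ne_top
  have e4 : volume (A \ B) = volume (B \ A) := by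
    rw [vA] at e1
    rw [vB, Set.inter_comm, ← e1] at e2
    exact ((ENNReal.add_right_inj e3).1 e2).symm
  have i1 : ∫⁻ x in A \ B, h x ≤ h l * volume (A \ B) := by
    rw [← setLIntegral_const]
    refine setLIntegral_mono' (mA.diff mB) fun x hx => hh l x ?_
    rw [abs_of_nonneg hl]
    by_contra hlt
    rw [not_le] at hlt
    have h1 := abs_lt.1 hlt
    exact hx.2 ⟨h1.1.le, h1.2.le⟩
  have i2 : h l * volume (B \ A) ≤ ∫⁻ x in B \ A, h x := by
    rw [← setLIntegral_const]
    refine setLIntegral_mono' (mB.diff mA) fun x hx => hh x l ?_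
    rw [abs_of_nonneg hl]
    exact abs_le.2 hx.1
  rw [← lintegral_inter_add_sdiff h A mB, ← lintegral_inter_add_sdiff h B mA, Set.inter_comm B A]
  rw [e4] at i1
  exact add_le_add le_rfl (i1.trans i2)

end Pool.Agent.Work.MP_b25393_ag.HF
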