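import Pool.Agent.Work.MP_b25393_ag.HF.StmtsR

/-!
# MP_b25393_ag, block HF, item G4: the fibres of the symmetral
-/

set_option autoImplicit false

open scoped LinearAlgebra.Projectivization Pointwise Matrix RealInnerProductSpace ENNReal
open MeasureTheory Filter Topology Matrix TopologicalSpace

namespace Pool.Agent.Work.MP_b25393_ag.HF

open Pool.Agent.Work.MP_b25393_ag

namespace IG4

theorem compact {A : Set F3} (hA : IsCompact A) : IsCompact (sy A) := by
  have h1 : IsCompact ((A ×ˢ A) ∩ {w : F3 × F3 | w.1.1 = w.2.1}) :=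
    (hA.prod hA).inter_right (isClosed_eq (by fun_prop) (by fun_prop))
  have h2 : Continuous (fun w : F3 × F3 => ((w.1.1, (w.2.2 - w.1.2) / 2) : F3)) := by fun_prop
  have h3 : sy A = (fun w : F3 × F3 => ((w.1.1, (w.2.2 - w.1.2) / 2) : F3)) ''
      ((A ×ˢ A) ∩ {w : F3 × F3 | w.1.1 = w.2.1}) := by
    ext z
    constructor
    · rintro ⟨s, s', h4, h5, h6⟩
      exact ⟨((z.1, s), (z.1, s')), ⟨⟨h4, h5⟩, rfl⟩, Prod.ext rfl h6.symm⟩
    · rintro ⟨⟨⟨y, s⟩, ⟨y', s'⟩⟩, ⟨⟨h4, h5⟩, h6⟩, rfl⟩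
      have h7 : y = y' := h6
      subst h7
      exact ⟨s, s', h4, h5, rfl⟩
  rw [h3]
  exact h1.image h2

theorem comb {A : Set F3} (hA : Convex ℝ A) {y y' : Fin 2 → ℝ} {s s' a b : ℝ}
    (h : ((y, s) : F3) ∈ A) (h' : ((y', s') : F3) ∈ A) (ha : 0 ≤ a) (hb : 0 ≤ b)
    (hab : a + b = 1) : ((a • y + b • y', a * s + b * s') : F3) ∈ A :=
  hA h h' ha hb hab

theorem convex {A : Set F3} (hA : Convex ℝ A) : Convex ℝ (sy A) := by
  rintro ⟨y, t⟩ ⟨s, s', h1, h2, h3⟩ ⟨y', t'⟩ ⟨r, r', h4, h5, h6⟩ a b ha hb hab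
  have h3' : t = (s' - s) / 2 := h3
  have h6' : t' = (r' - r) / 2 := h6
  refine ⟨a * s + b * r, a * s' + b * r', comb hA h1 h4 ha hb hab, comb hA h2 h5 ha hb hab, ?_⟩
  show a * t + b * t' = (a * s' + b * r' - (a * s + b * r)) / 2
  rw [h3', h6']
  ring

end IG4

theorem pr_G4 : St_G4 := by
  intro A hA hcv
  refine ⟨IG4.compact hA, IG4.convex hcv, ?_⟩
  intro y
  by_cases hne : ∃ s : ℝ, ((y, s) : F3) ∈ A
  · right
    obtain ⟨F, hF⟩ : ∃ F : Set ℝ, F = {s : ℝ | ((y, s) : F3) ∈ A} := ⟨_, rfl⟩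
    have hmem : ∀ s, s ∈ F ↔ ((y, s) : F3) ∈ A := by
      intro s
      rw [hF]
      exact Iff.rfl
    have hFne : F.Nonempty := by
      obtain ⟨s, hs⟩ := hne
      exact ⟨s, (hmem s).2 hs⟩
    have hFcl : IsClosed F := by
      rw [hF]
      exact hA.isClosed.preimage (f := fun s : ℝ => ((y, s) : F3)) (by fun_prop)
    have hFc : IsCompact F := by
      refine (hA.image continuous_snd).of_isClosed_subset hFcl ?_
      intro s hs
      exact ⟨(y, s), (hmem s).1 hs, rfl⟩
    have hFcv : Convex ℝ F := by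
      intro s hs r hr a b ha hb hab
      have h1 := IG4.comb hcv ((hmem s).1 hs) ((hmem r).1 hr) ha hb hab
      rw [← add_smul, hab, one_smul] at h1
      exact (hmem _).2 h1
    have ha := hFc.sInf_mem hFne
    have hb := hFc.sSup_mem hFne
    have hF2 : ∀ s, s ∈ F ↔ s ∈ Set.Icc (sInf F) (sSup F) := by
      intro s
      constructor
      · intro hs
        exact ⟨csInf_le hFc.bddBelow hs, le_csSup hFc.bddAbove hs⟩
      · intro hs
        exact hFcv.ordConnected.out ha hb hs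
    obtain ⟨a, hae⟩ : ∃ a : ℝ, a = sInf F := ⟨_, rfl⟩
    obtain ⟨b, hbe⟩ : ∃ b : ℝ, b = sSup F := ⟨_, rfl⟩
    rw [← hae, ← hbe] at hF2
    refine ⟨a, b, ?_, fun s => by rw [← hmem, hF2], ?_⟩
    · rw [hae, hbe]
      exact (csInf_le hFc.bddBelow ha).trans (le_csSup hFc.bddAbove ha)
    · intro t
      constructor
      · rintro ⟨s, s', h1, h2, h3⟩
        have h1' := (hF2 s).1 ((hmem s).2 h1)
        have h2' := (hF2 s').1 ((hmem s').2 h2)
        have h3' : t = (s' - s) / 2 := h3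
        rw [h3', abs_le]
        constructor
        · have := h1'.2
          have := h2'.1
          linarith
        · have := h1'.1
          have := h2'.2
          linarith
      · intro ht
        rw [abs_le] at ht
        refine ⟨(a + b) / 2 - t, (a + b) / 2 + t, (hmem _).1 ((hF2 _).2 ⟨?_, ?_⟩),
          (hmem _).1 ((hF2 _).2 ⟨?_, ?_⟩), ?_⟩
        · linarith [ht.2]
        · linarith [ht.1]
        · linarith [ht.1]
        · linarith [ht.2]
        · show t = ((a + b) / 2 + t - ((a + b) / 2 - t)) / 2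
          ring
  · left
    push Not at hne
    refine ⟨hne, ?_⟩
    rintro s ⟨r, r', h1, _, _⟩
    exact hne r h1

end Pool.Agent.Work.MP_b25393_ag.HF
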