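import Pool.Agent.Work.MP_b25393_ag.HF.StmtsR

/-!
# MP_b25393_ag, block HF: item G5 (Riesz step)
-/

set_option autoImplicit false

open scoped Pointwise Matrix RealInnerProductSpace ENNReal
open MeasureTheory Filter Topology Matrix TopologicalSpace

namespace Pool.Agent.Work.MP_b25393_ag.HF

namespace IG5

/-- the planes -/
abbrev P : Type := Fin 2 → ℝ

/-- rearranging the coordinates -/
def ex (z : F3 × F3) : (P × P) × (ℝ × ℝ) := ((z.1.1, z.2.1), (z.1.2, z.2.2))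

theorem mp_ex : MeasurePreserving ex (volume : Measure (F3 × F3))
    (volume : Measure ((P × P) × (ℝ × ℝ))) := by
  have h1 : MeasurePreserving (MeasurableEquiv.prodAssoc : (P × ℝ) × (P × ℝ) ≃ᵐ P × ℝ × (P × ℝ)) :=
    volume_preserving_prodAssoc
  have h2 : MeasurePreserving (MeasurableEquiv.prodAssoc : (ℝ × P) × ℝ ≃ᵐ ℝ × P × ℝ) :=
    volume_preserving_prodAssoc
  have h2' := h2.symm
  have h3 : MeasurePreserving (Prod.swap : ℝ × P → P × ℝ) :=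
    Measure.measurePreserving_swap
  have h4 : MeasurePreserving (MeasurableEquiv.prodAssoc : (P × ℝ) × ℝ ≃ᵐ P × ℝ × ℝ) :=
    volume_preserving_prodAssoc
  have h5 : MeasurePreserving (MeasurableEquiv.prodAssoc : (P × P) × (ℝ × ℝ) ≃ᵐ P × P × (ℝ × ℝ)) :=
    volume_preserving_prodAssoc
  have k2 : MeasurePreserving (Prod.map (id : P → P)
      (MeasurableEquiv.prodAssoc : (ℝ × P) × ℝ ≃ᵐ ℝ × P × ℝ).symm) :=
    (MeasurePreserving.id volume).prod h2'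
  have k3 : MeasurePreserving (Prod.map (id : P → P) (Prod.map (Prod.swap : ℝ × P → P × ℝ)
      (id : ℝ → ℝ))) :=
    (MeasurePreserving.id volume).prod (h3.prod (MeasurePreserving.id volume))
  have k4 : MeasurePreserving (Prod.map (id : P → P)
      (MeasurableEquiv.prodAssoc : (P × ℝ) × ℝ ≃ᵐ P × ℝ × ℝ)) :=
    (MeasurePreserving.id volume).prod h4
  exact h5.symm.comp (k4.comp (k3.comp (k2.comp h1)))

/-- the rearranged set -/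
def T (A : Set F3) : Set ((P × P) × (ℝ × ℝ)) :=
  {w | (w.1.1, w.2.1) ∈ A ∧ (w.1.2, w.2.2) ∈ A ∧ (w.1.1 + w.1.2, w.2.1 + w.2.2) ∈ A}

theorem meas_T {A : Set F3} (hA : IsCompact A) : MeasurableSet (T A) := by
  have h1 : MeasurableSet ((fun w : (P × P) × (ℝ × ℝ) => ((w.1.1, w.2.1) : F3)) ⁻¹' A) :=
    hA.measurableSet.preimage (by fun_prop)
  have h2 : MeasurableSet ((fun w : (P × P) × (ℝ × ℝ) => ((w.1.2, w.2.2) : F3)) ⁻¹' A) :=
    hA.measurableSet.preimage (by fun_prop)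
  have h3 : MeasurableSet ((fun w : (P × P) × (ℝ × ℝ) =>
      ((w.1.1 + w.1.2, w.2.1 + w.2.2) : F3)) ⁻¹' A) :=
    hA.measurableSet.preimage (by fun_prop)
  exact h1.inter (h2.inter h3)

theorem vol_tri {A : Set F3} (hA : IsCompact A) :
    volume (tri A) = ∫⁻ y : P × P, volume {z : ℝ × ℝ | (y.1, z.1) ∈ A ∧ (y.2, z.2) ∈ A ∧
      (y.1 + y.2, z.1 + z.2) ∈ A} := by
  have h1 : tri A = ex ⁻¹' (T A) := rfl
  rw [h1, mp_ex.measure_preimage (meas_T hA).nullMeasurableSet]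
  rw [Measure.volume_eq_prod, Measure.prod_apply (meas_T hA)]
  rfl

theorem fibre (hG3 : St_G3) (hG4 : St_G4) {A : Set F3} (hA : IsCompact A) (hc : Convex ℝ A)
    (y : P × P) :
    volume {z : ℝ × ℝ | (y.1, z.1) ∈ A ∧ (y.2, z.2) ∈ A ∧ (y.1 + y.2, z.1 + z.2) ∈ A} ≤
    volume {z : ℝ × ℝ | (y.1, z.1) ∈ sy A ∧ (y.2, z.2) ∈ sy A ∧
      (y.1 + y.2, z.1 + z.2) ∈ sy A} := by
  obtain ⟨-, -, h⟩ := hG4 A hA hc
  rcases h y.1 with ⟨h1, -⟩ | ⟨a0, b0, hab0, h1, h1'⟩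
  · rw [show {z : ℝ × ℝ | (y.1, z.1) ∈ A ∧ (y.2, z.2) ∈ A ∧ (y.1 + y.2, z.1 + z.2) ∈ A} = ∅ from
      Set.eq_empty_iff_forall_notMem.2 fun z hz => h1 _ hz.1, measure_empty]
    exact zero_le
  rcases h y.2 with ⟨h2, -⟩ | ⟨a1, b1, hab1, h2, h2'⟩
  · rw [show {z : ℝ × ℝ | (y.1, z.1) ∈ A ∧ (y.2, z.2) ∈ A ∧ (y.1 + y.2, z.1 + z.2) ∈ A} = ∅ from
      Set.eq_empty_iff_forall_notMem.2 fun z hz => h2 _ hz.2.1, measure_empty]
    exact zero_le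
  rcases h (y.1 + y.2) with ⟨h3, -⟩ | ⟨a2, b2, hab2, h3, h3'⟩
  · rw [show {z : ℝ × ℝ | (y.1, z.1) ∈ A ∧ (y.2, z.2) ∈ A ∧ (y.1 + y.2, z.1 + z.2) ∈ A} = ∅ from
      Set.eq_empty_iff_forall_notMem.2 fun z hz => h3 _ hz.2.2, measure_empty]
    exact zero_le
  have key := hG3 ![a0, a1, a2] ![b0, b1, b2] (by
    intro i
    fin_cases i
    · exact hab0
    · exact hab1
    · exact hab2)
  have e1 : {z : ℝ × ℝ | (y.1, z.1) ∈ A ∧ (y.2, z.2) ∈ A ∧ (y.1 + y.2, z.1 + z.2) ∈ A} =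
      {z : ℝ × ℝ | z.1 ∈ Set.Icc (![a0, a1, a2] 0) (![b0, b1, b2] 0) ∧
        z.2 ∈ Set.Icc (![a0, a1, a2] 1) (![b0, b1, b2] 1) ∧
        z.1 + z.2 ∈ Set.Icc (![a0, a1, a2] 2) (![b0, b1, b2] 2)} := by
    ext z
    exact and_congr (h1 z.1) (and_congr (h2 z.2) (h3 (z.1 + z.2)))
  have e2 : {z : ℝ × ℝ | (y.1, z.1) ∈ sy A ∧ (y.2, z.2) ∈ sy A ∧
      (y.1 + y.2, z.1 + z.2) ∈ sy A} =
      {z : ℝ × ℝ | |z.1| ≤ (![b0, b1, b2] 0 - ![a0, a1, a2] 0) / 2 ∧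
        |z.2| ≤ (![b0, b1, b2] 1 - ![a0, a1, a2] 1) / 2 ∧
        |z.1 + z.2| ≤ (![b0, b1, b2] 2 - ![a0, a1, a2] 2) / 2} := by
    ext z
    exact and_congr (h1' z.1) (and_congr (h2' z.2) (h3' (z.1 + z.2)))
  rw [e1, e2]
  exact key

end IG5

theorem pr_G5 (hG3 : St_G3) (hG4 : St_G4) : St_G5 := by
  intro A hA hc
  rw [IG5.vol_tri hA, IG5.vol_tri (hG4 A hA hc).1]
  exact lintegral_mono fun y => IG5.fibre hG3 hG4 hA hc y

end Pool.Agent.Work.MP_b25393_ag.HF
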