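import Pool.Agent.Work.MP_b25393_ag.HF.StmtsR

set_option autoImplicit false

open scoped LinearAlgebra.Projectivization Pointwise Matrix RealInnerProductSpace ENNReal
open MeasureTheory Filter Topology Matrix TopologicalSpace

namespace Pool.Agent.Work.MP_b25393_ag.HF

namespace IG6

theorem fub (S : Set F3) (hS : MeasurableSet S) (g : (Fin 2 → ℝ) → ℝ≥0∞) (hg : Measurable g) :
    ∫⁻ z in S, g z.1 = ∫⁻ y, g y * volume {s : ℝ | (y, s) ∈ S} := by
  rw [← lintegral_indicator hS]
  have hm : Measurable (S.indicator fun z : F3 => g z.1) :=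
    (hg.comp measurable_fst).indicator hS
  rw [Measure.volume_eq_prod, lintegral_prod _ hm.aemeasurable]
  apply lintegral_congr
  intro y
  have h1 : (fun s : ℝ => S.indicator (fun z : F3 => g z.1) (y, s)) =
      {s : ℝ | (y, s) ∈ S}.indicator (fun _ => g y) := by
    funext s
    by_cases h : (y, s) ∈ S
    · rw [Set.indicator_of_mem h, Set.indicator_of_mem (show s ∈ {s : ℝ | (y, s) ∈ S} from h)]
    · rw [Set.indicator_of_notMem h,
        Set.indicator_of_notMem (show s ∉ {s : ℝ | (y, s) ∈ S} from h)]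
  have h2 : MeasurableSet {s : ℝ | (y, s) ∈ S} := measurable_prodMk_left hS
  rw [h1]
  exact lintegral_indicator_const h2 (g y)

end IG6

theorem pr_G6 (hG4 : St_G4) : St_G6 := by
  intro A hA hc g hg
  obtain ⟨h1, h2, h3⟩ := hG4 A hA hc
  rw [IG6.fub (sy A) h1.measurableSet g hg, IG6.fub A hA.measurableSet g hg]
  apply lintegral_congr
  intro y
  congr 1
  rcases h3 y with ⟨h4, h5⟩ | ⟨a, b, hab, h4, h5⟩
  · have e1 : {s : ℝ | (y, s) ∈ sy A} = ∅ := by
      ext s; simpa using h5 s
    have e2 : {s : ℝ | (y, s) ∈ A} = ∅ := by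
      ext s; simpa using h4 s
    rw [e1, e2]
  · have e1 : {s : ℝ | (y, s) ∈ sy A} = Set.Icc (-((b - a) / 2)) ((b - a) / 2) := by
      ext s
      rw [Set.mem_ofPred_eq, h5 s, abs_le, Set.mem_Icc]
    have e2 : {s : ℝ | (y, s) ∈ A} = Set.Icc a b := by
      ext s
      rw [Set.mem_ofPred_eq, h4 s]
    rw [e1, e2, Real.volume_Icc, Real.volume_Icc]
    congr 1
    ring

end Pool.Agent.Work.MP_b25393_ag.HF
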