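import Pool.Agent.Work.MP_b25393_ag.HF.StmtsR

set_option autoImplicit false

open scoped LinearAlgebra.Projectivization Pointwise Matrix RealInnerProductSpace ENNReal
open MeasureTheory Filter Topology Matrix TopologicalSpace

namespace Pool.Agent.Work.MP_b25393_ag.HF

open Pool.Agent.Work.MP_b25393_ag

namespace IG7

/-- The integrand. -/
noncomputable def f (z : F3) : ℝ≥0∞ := ENNReal.ofReal (z.2 ^ 2)

theorem f_meas : Measurable f := by
  unfold f
  fun_prop

/-- The fibre integral. -/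
noncomputable def M (A : Set F3) (y : Fin 2 → ℝ) : ℝ≥0∞ := ∫⁻ s : ℝ, A.indicator f (y, s)

theorem M_meas (A : Set F3) (hA : MeasurableSet A) : Measurable (M A) := by
  unfold M
  exact (f_meas.indicator hA).lintegral_prod_right'

theorem fubini (A : Set F3) (hA : MeasurableSet A) :
    ∫⁻ z in A, ENNReal.ofReal (z.2 ^ 2) = ∫⁻ y, M A y := by
  have h1 : ∫⁻ z in A, ENNReal.ofReal (z.2 ^ 2) = ∫⁻ z, A.indicator f z := by
    rw [lintegral_indicator hA]
    rfl
  rw [h1, Measure.volume_eq_prod, lintegral_prod _ (f_meas.indicator hA).aemeasurable]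
  rfl

/-- The integral of the square over an interval. -/
theorem int_sq (a b : ℝ) (hab : a ≤ b) :
    ∫⁻ s in Set.Icc a b, ENNReal.ofReal (s ^ 2) = ENNReal.ofReal ((b ^ 3 - a ^ 3) / 3) := by
  have hint : IntegrableOn (fun s : ℝ => s ^ 2) (Set.Icc a b) :=
    (continuous_pow 2).continuousOn.integrableOn_Icc
  rw [← ofReal_integral_eq_lintegral_ofReal hint (ae_of_all _ fun s => sq_nonneg s)]
  congr 1
  rw [integral_Icc_eq_integral_Ioc, ← intervalIntegral.integral_of_le hab, integral_pow]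
  norm_num

theorem M_empty (A : Set F3) (y : Fin 2 → ℝ) (h : ∀ s : ℝ, (y, s) ∉ A) : M A y = 0 := by
  unfold M
  have : (fun s : ℝ => A.indicator f (y, s)) = fun _ => 0 := by
    funext s
    exact Set.indicator_of_notMem (h s) f
  rw [this]
  simp

theorem M_fibre (A : Set F3) (y : Fin 2 → ℝ) (a b : ℝ) (hab : a ≤ b)
    (h : ∀ s : ℝ, (y, s) ∈ A ↔ s ∈ Set.Icc a b) :
    M A y = ENNReal.ofReal ((b ^ 3 - a ^ 3) / 3) := by
  unfold M
  rw [← int_sq a b hab, ← lintegral_indicator measurableSet_Icc]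
  congr 1
  funext s
  by_cases hs : s ∈ Set.Icc a b
  · rw [Set.indicator_of_mem ((h s).mpr hs), Set.indicator_of_mem hs]
    rfl
  · rw [Set.indicator_of_notMem (fun h' => hs ((h s).mp h')), Set.indicator_of_notMem hs]

/-- The fibre integrals of `A` and `sy A`. -/
theorem M_sy (A : Set F3) (y : Fin 2 → ℝ)
    (h : ((∀ s : ℝ, (y, s) ∉ A) ∧ ∀ s : ℝ, (y, s) ∉ sy A) ∨
      ∃ a b : ℝ, a ≤ b ∧ (∀ s : ℝ, (y, s) ∈ A ↔ s ∈ Set.Icc a b) ∧
        ∀ t : ℝ, (y, t) ∈ sy A ↔ |t| ≤ (b - a) / 2) :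
    M (sy A) y ≤ M A y ∧ (M (sy A) y = M A y →
      volume (Prod.mk y ⁻¹' (A \ {z : F3 | (z.1, -z.2) ∈ A})) = 0) := by
  rcases h with ⟨h1, h2⟩ | ⟨a, b, hab, h1, h2⟩
  · rw [M_empty A y h1, M_empty (sy A) y h2]
    refine ⟨le_refl _, fun _ => ?_⟩
    have : (Prod.mk y ⁻¹' (A \ {z : F3 | (z.1, -z.2) ∈ A})) = ∅ := by
      ext s
      simp only [Set.mem_preimage, Set.mem_diff, Set.mem_setOf_eq, Set.mem_empty_iff_false,
        iff_false, not_and]
      intro h
      exact absurd h (h1 s)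
    rw [this]
    exact measure_empty
  · have h2' : ∀ t : ℝ, (y, t) ∈ sy A ↔ t ∈ Set.Icc (-((b - a) / 2)) ((b - a) / 2) := by
      intro t
      rw [h2 t, abs_le, Set.mem_Icc]
    rw [M_fibre A y a b hab h1, M_fibre (sy A) y _ _ (by linarith) h2']
    have hd : ((b - a) / 2) ^ 3 - (-((b - a) / 2)) ^ 3 ≤ b ^ 3 - a ^ 3 := by
      have : b ^ 3 - a ^ 3 - (((b - a) / 2) ^ 3 - (-((b - a) / 2)) ^ 3) =
          3 / 4 * ((b - a) * (a + b) ^ 2) := by ring
      have h0 : 0 ≤ (b - a) * (a + b) ^ 2 := mul_nonneg (by linarith) (sq_nonneg _)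
      linarith
    refine ⟨ENNReal.ofReal_le_ofReal (by linarith), fun heq => ?_⟩
    have hnn1 : 0 ≤ (((b - a) / 2) ^ 3 - (-((b - a) / 2)) ^ 3) / 3 := by
      have h0 : 0 ≤ ((b - a) / 2) ^ 3 := pow_nonneg (by linarith) 3
      have : (((b - a) / 2) ^ 3 - (-((b - a) / 2)) ^ 3) = 2 * ((b - a) / 2) ^ 3 := by ring
      rw [this]
      linarith
    have hnn2 : 0 ≤ (b ^ 3 - a ^ 3) / 3 := by linarith
    have heq' := (ENNReal.ofReal_eq_ofReal_iff hnn1 hnn2).mp heq
    have hprod : (b - a) * (a + b) ^ 2 = 0 := by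
      have : b ^ 3 - a ^ 3 - (((b - a) / 2) ^ 3 - (-((b - a) / 2)) ^ 3) =
          3 / 4 * ((b - a) * (a + b) ^ 2) := by ring
      linarith
    rcases mul_eq_zero.mp hprod with h0 | h0
    · -- one point
      have hsub : (Prod.mk y ⁻¹' (A \ {z : F3 | (z.1, -z.2) ∈ A})) ⊆ {a} := by
        intro s hs
        have hs1 : (y, s) ∈ A := hs.1
        rw [h1 s, Set.mem_Icc] at hs1
        rw [Set.mem_singleton_iff]
        linarith [hs1.1, hs1.2]
      exact measure_mono_null hsub (by simp)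
    · -- symmetric fibre
      have hab0 : a + b = 0 := by simpa using h0
      have : (Prod.mk y ⁻¹' (A \ {z : F3 | (z.1, -z.2) ∈ A})) = ∅ := by
        ext s
        simp only [Set.mem_preimage, Set.mem_diff, Set.mem_setOf_eq, Set.mem_empty_iff_false,
          iff_false, not_and, not_not]
        intro h
        rw [h1 s, Set.mem_Icc] at h
        rw [h1 (-s), Set.mem_Icc]
        constructor <;> linarith [h.1, h.2]
      rw [this]
      exact measure_empty

end IG7

theorem pr_G7 (hG4 : St_G4) : St_G7 := by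
  intro A hA hconv
  obtain ⟨hsyc, _, hfib⟩ := hG4 A hA hconv
  have hAm : MeasurableSet A := hA.isClosed.measurableSet
  have hsym : MeasurableSet (sy A) := hsyc.isClosed.measurableSet
  rw [IG7.fubini A hAm, IG7.fubini (sy A) hsym]
  have hle : ∀ y, IG7.M (sy A) y ≤ IG7.M A y := fun y => (IG7.M_sy A y (hfib y)).1
  refine ⟨lintegral_mono hle, fun heq => ?_⟩
  have hfin : ∫⁻ y, IG7.M (sy A) y ≠ ∞ := by
    rw [← IG7.fubini (sy A) hsym]
    have hint : IntegrableOn (fun z : F3 => z.2 ^ 2) (sy A) :=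
      ((continuous_snd.pow 2).continuousOn).integrableOn_compact hsyc
    exact (hint.lintegral_lt_top).ne
  have hae := ae_eq_of_ae_le_of_lintegral_le (ae_of_all _ hle) hfin
    (IG7.M_meas A hAm).aemeasurable heq.ge
  have hneg : MeasurableSet {z : F3 | (z.1, -z.2) ∈ A} := by
    have : Measurable (fun z : F3 => ((z.1, -z.2) : F3)) := by fun_prop
    exact this hAm
  rw [Measure.volume_eq_prod, Measure.measure_prod_null (hAm.diff hneg)]
  filter_upwards [hae] with y hy
  exact (IG7.M_sy A y (hfib y)).2 hy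

end Pool.Agent.Work.MP_b25393_ag.HF
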