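import Pool.Agent.Work.MP_b25393_ag.HF.StmtsR

/-!
# MP_b25393_ag, block HF, item H2: the volume of the pairs is upper semicontinuous
-/

set_option autoImplicit false

open scoped LinearAlgebra.Projectivization Pointwise Matrix RealInnerProductSpace ENNReal
open MeasureTheory Filter Topology Matrix TopologicalSpace

namespace Pool.Agent.Work.MP_b25393_ag.HF

open Pool.Agent.Work.MP_b25393_ag

namespace IH2

theorem tri_mono {K L : Set E3} (h : K ⊆ L) : tri K ⊆ tri L :=
  fun _ hz => ⟨h hz.1, h hz.2.1, h hz.2.2⟩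

theorem tri_compact {K : Set E3} (h : IsCompact K) : IsCompact (tri K) := by
  have e : tri K = (K ×ˢ K) ∩ (fun z : E3 × E3 => z.1 + z.2) ⁻¹' K := by
    ext z
    constructor
    · rintro ⟨h1, h2, h3⟩
      exact ⟨⟨h1, h2⟩, h3⟩
    · rintro ⟨⟨h1, h2⟩, h3⟩
      exact ⟨h1, h2, h3⟩
  rw [e]
  exact (h.prod h).inter_right (h.isClosed.preimage (by fun_prop))

end IH2

open IH2 in
theorem pr_H2 : St_H2 := by
  intro K c hc
  obtain ⟨W, hKW, hWo, hWc⟩ := Set.exists_isOpen_lt_of_lt (tri (K : Set E3)) c hc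
  have hK : IsCompact (K : Set E3) := K.isCompact
  have hne : Nonempty {δ : ℝ // 0 < δ} := ⟨⟨1, one_pos⟩⟩
  have hcpt : ∀ δ : {δ : ℝ // 0 < δ}, IsCompact (tri (Metric.cthickening δ.1 (K : Set E3))) :=
    fun δ => tri_compact hK.cthickening
  have hdir : Directed (· ⊇ ·)
      (fun δ : {δ : ℝ // 0 < δ} => tri (Metric.cthickening δ.1 (K : Set E3))) := by
    intro a b
    refine ⟨⟨min a.1 b.1, lt_min a.2 b.2⟩, ?_, ?_⟩
    · exact tri_mono (Metric.cthickening_mono (min_le_left _ _) _)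
    · exact tri_mono (Metric.cthickening_mono (min_le_right _ _) _)
  have hint : ∀ z ∈ ⋂ δ : {δ : ℝ // 0 < δ}, tri (Metric.cthickening δ.1 (K : Set E3)),
      W ∈ 𝓝 z := by
    intro z hz
    rw [Set.mem_iInter] at hz
    have key : ∀ x : E3, (∀ δ : {δ : ℝ // 0 < δ}, x ∈ Metric.cthickening δ.1 (K : Set E3)) →
        x ∈ (K : Set E3) := by
      intro x hx
      have h1 : x ∈ closure (K : Set E3) := by
        rw [Metric.closure_eq_iInter_cthickening]
        rw [Set.mem_iInter₂]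
        exact fun δ hδ => hx ⟨δ, hδ⟩
      rwa [hK.isClosed.closure_eq] at h1
    exact hWo.mem_nhds (hKW ⟨key _ fun δ => (hz δ).1, key _ fun δ => (hz δ).2.1,
      key _ fun δ => (hz δ).2.2⟩)
  obtain ⟨δ, hδ⟩ := exists_subset_nhds_of_isCompact' hdir hcpt (fun δ => (hcpt δ).isClosed) hint
  have hop : IsOpen {L : NonemptyCompacts E3 | (L : Set E3) ⊆ Metric.thickening δ.1 (K : Set E3)} :=
    NonemptyCompacts.isOpen_subsets_of_isOpen Metric.isOpen_thickening
  filter_upwards [hop.mem_nhds (Metric.self_subset_thickening δ.2 _)] with L hL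
  refine lt_of_le_of_lt (measure_mono ?_) hWc
  exact (tri_mono (hL.trans (Metric.thickening_subset_cthickening _ _))).trans hδ

end Pool.Agent.Work.MP_b25393_ag.HF
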