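import Pool.Agent.Work.MP_b25393_ag.HF.StmtsR

/-!
# MP_b25393_ag, block HF, item H3: the sandwich

Author: helper5.
-/

set_option autoImplicit false

open scoped LinearAlgebra.Projectivization Pointwise Matrix RealInnerProductSpace ENNReal
open MeasureTheory Filter Topology Matrix TopologicalSpace

namespace Pool.Agent.Work.MP_b25393_ag.HF

open Pool.Agent.Work.MP_b25393_ag

theorem pr_H3 (hC1 : St_C1) : St_H3 := by
  intro K hK η h0 h1
  obtain ⟨hint, -, -, -⟩ := hC1 E3 (K : Set E3) hK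
  obtain ⟨r, hr, hrK⟩ := Metric.nhds_basis_closedBall.mem_iff.1 (mem_interior_iff_mem_nhds.1 hint)
  have hε : 0 < η * r := mul_pos h0 hr
  filter_upwards [Metric.ball_mem_nhds K hε] with L hL hconv
  have hd : Metric.hausdorffDist (K : Set E3) (L : Set E3) < η * r := by
    rw [Metric.mem_ball, dist_comm, Metric.NonemptyCompacts.dist_eq] at hL
    exact hL
  have hfin : Metric.hausdorffEDist (K : Set E3) (L : Set E3) ≠ ⊤ :=
    Metric.hausdorffEDist_ne_top_of_nonempty_of_bounded K.nonempty L.nonempty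
      K.isCompact.isBounded L.isCompact.isBounded
  rintro _ ⟨x, hx, rfl⟩
  by_contra hnot
  obtain ⟨f, u, hf1, hf2⟩ := geometric_hahn_banach_closed_point hconv L.isCompact.isClosed hnot
  obtain ⟨y0, hy0, hmax⟩ := K.isCompact.exists_isMaxOn K.nonempty f.continuous.continuousOn
  obtain ⟨l, hl, hyl⟩ := Metric.exists_dist_lt_of_hausdorffDist_lt hy0 hd hfin
  have hk : η⁻¹ • (y0 - l) ∈ (K : Set E3) := by
    apply hrK
    rw [mem_closedBall_zero_iff, norm_smul, norm_inv, Real.norm_of_nonneg h0.le, ← dist_eq_norm,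
      inv_mul_le_iff₀ h0]
    exact hyl.le
  have e1 : f (η⁻¹ • (y0 - l)) ≤ f y0 := hmax hk
  have e2 : f x ≤ f y0 := hmax hx
  have e3 : f l < u := hf1 l hl
  have e4 : u < (1 - η) * f x := by
    have : u < f ((1 - η) • x) := hf2
    rwa [map_smul, smul_eq_mul] at this
  rw [map_smul, map_sub, smul_eq_mul, inv_mul_le_iff₀ h0] at e1
  have e5 : (1 - η) * f x ≤ (1 - η) * f y0 := mul_le_mul_of_nonneg_left e2 (by linarith)
  linarith

end Pool.Agent.Work.MP_b25393_ag.HF
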