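import Pool.Agent.Work.MP_b25393_ag.HF.StmtsR

/-!
# MP_b25393_ag, block HF: item H4 (convexity and symmetry are closed conditions)
-/

set_option autoImplicit false

open scoped LinearAlgebra.Projectivization Pointwise Matrix RealInnerProductSpace ENNReal
open MeasureTheory Filter Topology Matrix TopologicalSpace

namespace Pool.Agent.Work.MP_b25393_ag.HF

open Pool.Agent.Work.MP_b25393_ag

namespace IH4

theorem closed_convex : IsClosed {K : NonemptyCompacts E3 | Convex ℝ (K : Set E3)} := by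
  rw [← isOpen_compl_iff, isOpen_iff_mem_nhds]
  intro K hK
  have hK' : ¬ Convex ℝ (K : Set E3) := hK
  have h1 : ∃ x ∈ (K : Set E3), ∃ y ∈ (K : Set E3), ∃ a b : ℝ, 0 ≤ a ∧ 0 ≤ b ∧ a + b = 1 ∧
      a • x + b • y ∉ (K : Set E3) := by
    by_contra hcon
    push Not at hcon
    exact hK' (fun x hx y hy a b ha hb hab => hcon x hx y hy a b ha hb hab)
  obtain ⟨x, hx, y, hy, a, b, ha, hb, hab, hz⟩ := h1
  obtain ⟨U, W, hU, hW, hKU, hzW, hUW⟩ := K.isCompact.separation_of_notMem hz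
  have hcont : Continuous (fun p : E3 × E3 => a • p.1 + b • p.2) := by fun_prop
  obtain ⟨U1, U2, hU1, hU2, hx1, hy2, hsub⟩ := isOpen_prod_iff.mp (hW.preimage hcont) x y hzW
  have hopen : IsOpen ({L : NonemptyCompacts E3 | (L : Set E3) ⊆ U} ∩
      ({L : NonemptyCompacts E3 | ((L : Set E3) ∩ U1).Nonempty} ∩
        {L : NonemptyCompacts E3 | ((L : Set E3) ∩ U2).Nonempty})) :=
    (NonemptyCompacts.isOpen_subsets_of_isOpen hU).inter
      ((NonemptyCompacts.isOpen_inter_nonempty_of_isOpen hU1).inter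
        (NonemptyCompacts.isOpen_inter_nonempty_of_isOpen hU2))
  refine Filter.mem_of_superset (hopen.mem_nhds ⟨hKU, ⟨x, hx, hx1⟩, ⟨y, hy, hy2⟩⟩) ?_
  rintro L ⟨hLU, ⟨x', hx', hx1'⟩, ⟨y', hy', hy2'⟩⟩ hL
  have hL' : Convex ℝ (L : Set E3) := hL
  have h2 : a • x' + b • y' ∈ U := hLU (hL' hx' hy' ha hb hab)
  have h3 : a • x' + b • y' ∈ W := hsub (Set.mk_mem_prod hx1' hy2')
  exact Set.disjoint_left.mp hUW h2 h3

theorem closed_symm :
    IsClosed {K : NonemptyCompacts E3 | ∀ x ∈ (K : Set E3), -x ∈ (K : Set E3)} := by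
  rw [← isOpen_compl_iff, isOpen_iff_mem_nhds]
  intro K hK
  have h1 : ∃ x ∈ (K : Set E3), -x ∉ (K : Set E3) := by
    by_contra hcon
    push Not at hcon
    exact hK hcon
  obtain ⟨x, hx, hz⟩ := h1
  obtain ⟨U, W, hU, hW, hKU, hzW, hUW⟩ := K.isCompact.separation_of_notMem hz
  have hU1 : IsOpen ((fun y : E3 => -y) ⁻¹' W) := hW.preimage continuous_neg
  have hopen : IsOpen ({L : NonemptyCompacts E3 | (L : Set E3) ⊆ U} ∩
      {L : NonemptyCompacts E3 | ((L : Set E3) ∩ ((fun y : E3 => -y) ⁻¹' W)).Nonempty}) :=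
    (NonemptyCompacts.isOpen_subsets_of_isOpen hU).inter
      (NonemptyCompacts.isOpen_inter_nonempty_of_isOpen hU1)
  refine Filter.mem_of_superset (hopen.mem_nhds ⟨hKU, ⟨x, hx, hzW⟩⟩) ?_
  rintro L ⟨hLU, ⟨x', hx', hx1'⟩⟩ hL
  exact Set.disjoint_left.mp hUW (hLU (hL x' hx')) hx1'

end IH4

open IH4 in
theorem pr_H4 : St_H4 := ⟨closed_convex, closed_symm⟩

end Pool.Agent.Work.MP_b25393_ag.HF
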