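import Pool.Agent.Work.MP_b25393_ag.HF.StmtsR

/-!
Item H5 of the block HF: the symmetric convex sets of given volume in a ball form a compact set.
-/

set_option autoImplicit false

open scoped LinearAlgebra.Projectivization Pointwise Matrix RealInnerProductSpace ENNReal
open MeasureTheory Filter Topology Matrix TopologicalSpace

namespace Pool.Agent.Work.MP_b25393_ag.HF

open Pool.Agent.Work.MP_b25393_ag

namespace IH5

lemma body_of_pos {K : Set E3} (hc : Convex ℝ K) (hK : IsCompact K) (hs : ∀ x ∈ K, -x ∈ K)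
    (hv : 0 < volume K) : Body K := by
  refine ⟨hc, hK, hs, ?_⟩
  by_contra h
  rw [Set.not_nonempty_iff_eq_empty] at h
  have h1 : frontier K = K := by
    rw [frontier, hK.isClosed.closure_eq, h, Set.sdiff_empty]
  have h2 := hc.addHaar_frontier (μ := (volume : Measure E3))
  rw [h1] at h2
  exact hv.ne' h2

lemma smul_lt {K : Set E3} (hK : IsCompact K) {V : ℝ≥0∞} (hV : V < volume K) :
    ∃ η : ℝ, 0 < η ∧ η < 1 ∧ V < volume ((1 - η) • K) := by
  have hfin : volume K ≠ ⊤ := hK.measure_lt_top.ne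
  have hVt : V ≠ ⊤ := (hV.trans_le le_top).ne
  set v : ℝ := (volume K).toReal with hv
  set w : ℝ := V.toReal with hw
  have hwv : w < v := (ENNReal.toReal_lt_toReal hVt hfin).2 hV
  have hw0 : 0 ≤ w := ENNReal.toReal_nonneg
  have hv0 : 0 < v := lt_of_le_of_lt hw0 hwv
  refine ⟨(v - w) / (6 * v), div_pos (by linarith) (by linarith), ?_, ?_⟩
  · rw [div_lt_one (by linarith)]
    linarith
  · set η : ℝ := (v - w) / (6 * v) with hη
    have h1 : η * (6 * v) = v - w := by
      rw [hη]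
      field_simp
    have hη0 : 0 < η := div_pos (by linarith) (by linarith)
    have hη1 : η < 1 := by
      rw [hη, div_lt_one (by linarith)]
      linarith
    rw [Measure.addHaar_smul, finrank_euclideanSpace_fin]
    have h2 : (1 - 3 * η) ≤ (1 - η) ^ 3 := by nlinarith [mul_pos hη0 hη0, mul_pos (mul_pos hη0 hη0) (by linarith : (0 : ℝ) < 3 - η)]
    have h3 : w < (1 - η) ^ 3 * v := by nlinarith
    have h4 : |(1 - η) ^ 3| = (1 - η) ^ 3 := abs_of_nonneg (by
      have : 0 ≤ 1 - η := by linarith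
      positivity)
    rw [h4, ← ENNReal.ofReal_toReal hfin, ← ENNReal.ofReal_toReal hVt,
      ← ENNReal.ofReal_mul (by rw [← h4]; exact abs_nonneg _)]
    exact (ENNReal.ofReal_lt_ofReal_iff (lt_of_le_of_lt hw0 h3)).2 h3

end IH5

/-- item H5 -/
theorem pr_H5 (hH1 : St_H1) (hH3 : St_H3) (hH4 : St_H4) : St_H5 := by
  intro ρ V hV hVt
  have hbody : ∀ K ∈ XX ρ V, Body (K : Set E3) := by
    rintro K ⟨h1, h2, -, h4⟩
    exact IH5.body_of_pos h1 K.isCompact h2 (by rw [h4]; exact hV)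
  refine ⟨?_, hbody⟩
  have hA : IsCompact {K : NonemptyCompacts E3 | (K : Set E3) ⊆ Metric.closedBall 0 ρ} :=
    NonemptyCompacts.isCompact_subsets_of_isCompact (isCompact_closedBall 0 ρ)
  refine hA.of_isClosed_subset ?_ fun K hK => hK.2.2.1
  have hA' : IsClosed {K : NonemptyCompacts E3 | (K : Set E3) ⊆ Metric.closedBall 0 ρ} :=
    NonemptyCompacts.isClosed_subsets_of_isClosed Metric.isClosed_closedBall
  have hD : IsClosed {K : NonemptyCompacts E3 | V ≤ volume (K : Set E3)} :=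
    upperSemicontinuous_iff_isClosed_preimage.1 (hH1 volume inferInstance) V
  have hZ : IsClosed ({K : NonemptyCompacts E3 | (K : Set E3) ⊆ Metric.closedBall 0 ρ} ∩
      {K : NonemptyCompacts E3 | Convex ℝ (K : Set E3)} ∩
      {K : NonemptyCompacts E3 | ∀ x ∈ (K : Set E3), -x ∈ (K : Set E3)} ∩
      {K : NonemptyCompacts E3 | V ≤ volume (K : Set E3)}) :=
    ((hA'.inter hH4.1).inter hH4.2).inter hD
  rw [← isOpen_compl_iff, isOpen_iff_mem_nhds]
  intro K hK
  by_cases hKZ : K ∈ ({K : NonemptyCompacts E3 | (K : Set E3) ⊆ Metric.closedBall 0 ρ} ∩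
      {K : NonemptyCompacts E3 | Convex ℝ (K : Set E3)} ∩
      {K : NonemptyCompacts E3 | ∀ x ∈ (K : Set E3), -x ∈ (K : Set E3)} ∩
      {K : NonemptyCompacts E3 | V ≤ volume (K : Set E3)})
  · obtain ⟨⟨⟨h1, h2⟩, h3⟩, h4⟩ := hKZ
    have h5 : V < volume (K : Set E3) := by
      refine lt_of_le_of_ne h4 fun h => hK ⟨h2, h3, h1, h.symm⟩
    obtain ⟨η, hη0, hη1, hη⟩ := IH5.smul_lt K.isCompact h5
    have hB : Body (K : Set E3) := IH5.body_of_pos h2 K.isCompact h3 (hV.trans h5)
    filter_upwards [hH3 K hB η hη0 hη1] with L hL hLX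
    have h6 := measure_mono (μ := (volume : Measure E3)) (hL hLX.1)
    rw [hLX.2.2.2] at h6
    exact absurd hη (not_lt_of_ge h6)
  · refine Filter.mem_of_superset (hZ.isOpen_compl.mem_nhds hKZ) ?_
    intro L hL hLX
    exact hL ⟨⟨⟨hLX.2.2.1, hLX.1⟩, hLX.2.1⟩, hLX.2.2.2.ge⟩

end Pool.Agent.Work.MP_b25393_ag.HF
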