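import Pool.Agent.Work.MP_b25393_ag.HF.StmtsR

/-!
# MP_b25393_ag, block HF, item H6: a maximiser
-/

set_option autoImplicit false

open scoped LinearAlgebra.Projectivization Pointwise Matrix RealInnerProductSpace ENNReal
open MeasureTheory Filter Topology Matrix TopologicalSpace

namespace Pool.Agent.Work.MP_b25393_ag.HF

open Pool.Agent.Work.MP_b25393_ag

namespace IH6

lemma nu_lt (ρ : ℝ) (K : Set E3) (hK : IsCompact K) : nu ρ K < ⊤ := by
  have h1 : nu ρ K ≤ ENNReal.ofReal (ρ ^ 2) * volume K := by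
    unfold nu
    rw [withDensity_apply _ hK.measurableSet, ← setLIntegral_const]
    refine lintegral_mono fun x => ENNReal.ofReal_le_ofReal ?_
    have := sq_nonneg ‖x‖
    linarith
  exact h1.trans_lt (ENNReal.mul_lt_top ENNReal.ofReal_lt_top hK.measure_lt_top)

lemma fin (ρ : ℝ) : IsFiniteMeasureOnCompacts (nu ρ) := ⟨fun {_} hK => nu_lt ρ _ hK⟩

end IH6

theorem pr_H6 (hH1 : St_H1) (hH2 : St_H2) (hH5 : St_H5) : St_H6 := by
  intro ρ V ε hV hV' hε hne
  have h0 : IsFiniteMeasureOnCompacts (nu ρ) := IH6.fin ρ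
  have h1 : IsFiniteMeasureOnCompacts (ε • nu ρ) :=
    IsFiniteMeasureOnCompacts.smul (nu ρ) hε
  have h2 : UpperSemicontinuous (fun K : NonemptyCompacts E3 =>
      volume (tri (K : Set E3)) + (ε • nu ρ) (K : Set E3)) := hH2.add (hH1 _ h1)
  obtain ⟨K, hK, hmax⟩ :=
    (h2.upperSemicontinuousOn (XX ρ V)).exists_isMaxOn hne (hH5 ρ V hV hV').1
  refine ⟨K, hK, fun L hL => ?_⟩
  have h3 : volume (tri (L : Set E3)) + (ε • nu ρ) (L : Set E3) ≤
      volume (tri (K : Set E3)) + (ε • nu ρ) (K : Set E3) := hmax hL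
  simpa only [Measure.smul_apply, smul_eq_mul] using h3

end Pool.Agent.Work.MP_b25393_ag.HF
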