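import Pool.Agent.Work.MP_b25393_ag.HF.StmtsR

/-!
# MP_b25393_ag, block HF, item H7 (helper22): the maximiser is a ball
-/

set_option autoImplicit false

open scoped LinearAlgebra.Projectivization Pointwise Matrix RealInnerProductSpace ENNReal
open MeasureTheory Filter Topology Matrix TopologicalSpace

namespace Pool.Agent.Work.MP_b25393_ag.HF

open Pool.Agent.Work.MP_b25393_ag

namespace IH7

theorem nu_add (ρ : ℝ) (M : Set E3) (hM : IsCompact M) (hb : M ⊆ Metric.closedBall 0 ρ) :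
    nu ρ M + ∫⁻ x in M, ENNReal.ofReal (‖x‖ ^ 2) = ENNReal.ofReal (ρ ^ 2) * volume M := by
  have hmeas := hM.measurableSet
  unfold nu
  rw [withDensity_apply _ hmeas, ← lintegral_add_right]
  · rw [← setLIntegral_const]
    refine setLIntegral_congr_fun hmeas fun x hx => ?_
    have h1 := hb hx
    rw [Metric.mem_closedBall, dist_zero_right] at h1
    have h2 : ‖x‖ ^ 2 ≤ ρ ^ 2 := pow_le_pow_left₀ (norm_nonneg _) h1 2
    show ENNReal.ofReal (ρ ^ 2 - ‖x‖ ^ 2) + ENNReal.ofReal (‖x‖ ^ 2) = ENNReal.ofReal (ρ ^ 2)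
    rw [← ENNReal.ofReal_add (by linarith) (by positivity)]
    congr 1
    ring
  · exact (measurable_norm.pow_const 2).ennreal_ofReal

theorem tri_lt (K : Set E3) (h : volume K < ⊤) : volume (tri K) < ⊤ := by
  have hsub : tri K ⊆ K ×ˢ K := fun z hz => ⟨hz.1, hz.2.1⟩
  refine (measure_mono hsub).trans_lt ?_
  rw [Measure.volume_eq_prod, Measure.prod_prod]
  exact ENNReal.mul_lt_top h h

end IH7

open IH7

theorem pr_H7 (hE1 : St_E1) (hE4 : St_E4) (hE5 : St_E5) (hE6 : St_E6) (hH5 : St_H5) : St_H7 := by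
  intro ρ V ε hV hV' hε hε' K hK hmax
  have hKc : IsCompact (K : Set E3) := K.isCompact
  have hKn : (K : Set E3).Nonempty := K.nonempty
  obtain ⟨hconv, hsymm, hball, hvol⟩ := hK
  have hK' : K ∈ XX ρ V := ⟨hconv, hsymm, hball, hvol⟩
  have hbody := (hH5 ρ V hV hV').2 K hK'
  have hρ : 0 ≤ ρ := by
    obtain ⟨x, hx⟩ := hKn
    have h1 := hball hx
    rw [Metric.mem_closedBall] at h1
    exact dist_nonneg.trans h1
  refine hE6 (K : Set E3) hKc hconv hKn fun e he => ?_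
  refine hE5 e he (K : Set E3) hKc hconv hbody.inte ?_
  obtain ⟨hL1, hL2, hL3, hL4, hL5⟩ := hE1 e he (K : Set E3) hKc hconv hKn
  obtain ⟨hv, ht, hm⟩ := hE4 e he (K : Set E3) hKc hconv hKn
  have hLball := hL5 ρ hρ hball
  let L : NonemptyCompacts E3 := ⟨⟨St e (K : Set E3), hL1⟩, hL3⟩
  have hLX : L ∈ XX ρ V := ⟨hL2, hL4 hsymm, hLball, hv.trans hvol⟩
  have h1 := hmax L hLX
  change volume (tri (St e (K : Set E3))) + ε * nu ρ (St e (K : Set E3)) ≤
    volume (tri (K : Set E3)) + ε * nu ρ (K : Set E3) at h1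
  have a1 := nu_add ρ (K : Set E3) hKc hball
  have a2 := nu_add ρ (St e (K : Set E3)) hL1 hLball
  rw [hvol] at a1
  rw [hv, hvol] at a2
  have hc : ENNReal.ofReal (ρ ^ 2) * V < ⊤ := ENNReal.mul_lt_top ENNReal.ofReal_lt_top
    (lt_top_iff_ne_top.2 hV')
  have hmK : ∫⁻ x in (K : Set E3), ENNReal.ofReal (‖x‖ ^ 2) ≠ ⊤ := by
    refine ne_top_of_le_ne_top hc.ne ?_
    rw [← a1]
    exact le_add_self
  have hnK : nu ρ (K : Set E3) ≠ ⊤ := by
    refine ne_top_of_le_ne_top hc.ne ?_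
    rw [← a1]
    exact le_self_add
  have htK : volume (tri (K : Set E3)) ≠ ⊤ :=
    (tri_lt (K : Set E3) (by rw [hvol]; exact lt_top_iff_ne_top.2 hV')).ne
  have h2 : nu ρ (K : Set E3) ≤ nu ρ (St e (K : Set E3)) := by
    refine ENNReal.le_of_add_le_add_right hmK ?_
    rw [a1, ← a2]
    exact add_le_add le_rfl hm
  have h3 : nu ρ (St e (K : Set E3)) ≤ nu ρ (K : Set E3) := by
    have h4 : ε * nu ρ (St e (K : Set E3)) ≤ ε * nu ρ (K : Set E3) := by
      refine ENNReal.le_of_add_le_add_left htK ?_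
      exact (add_le_add ht le_rfl).trans h1
    exact (ENNReal.mul_le_mul_iff_right hε.ne' hε').1 h4
  have h5 := le_antisymm h2 h3
  rw [← h5, ← a1] at a2
  exact (ENNReal.add_right_inj hnK).1 a2

end Pool.Agent.Work.MP_b25393_ag.HF
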