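import Pool.Agent.Work.MP_b25393_ag.HF.StmtsR

/-!
# MP_b25393_ag, block HF, item H8: Riesz's inequality for a symmetric convex body
-/

set_option autoImplicit false

open scoped LinearAlgebra.Projectivization Pointwise Matrix RealInnerProductSpace ENNReal
open MeasureTheory Filter Topology Matrix TopologicalSpace

namespace Pool.Agent.Work.MP_b25393_ag.HF

open Pool.Agent.Work.MP_b25393_ag

namespace IH8

/-- the volume of a ball determines the radius -/
theorem radius_eq {r s : ℝ} (hr : 0 ≤ r) (hs : 0 ≤ s)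
    (h : volume (Metric.closedBall (0 : E3) r) = volume (Metric.closedBall (0 : E3) s)) :
    r = s := by
  rw [Measure.addHaar_closedBall volume (0 : E3) hr, Measure.addHaar_closedBall volume (0 : E3) hs]
    at h
  have h1 : volume (Metric.ball (0 : E3) 1) ≠ 0 :=
    (Metric.measure_ball_pos volume (0 : E3) one_pos).ne'
  have h2 : volume (Metric.ball (0 : E3) 1) ≠ ⊤ := measure_ball_lt_top.ne
  have h3 : ENNReal.ofReal (r ^ Module.finrank ℝ E3) = ENNReal.ofReal (s ^ Module.finrank ℝ E3) :=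
    (ENNReal.mul_left_inj h1 h2).1 h
  rw [ENNReal.ofReal_eq_ofReal_iff (pow_nonneg hr _) (pow_nonneg hs _)] at h3
  have h4 : Module.finrank ℝ E3 ≠ 0 := by
    rw [finrank_euclideanSpace, Fintype.card_fin]
    norm_num
  exact (pow_left_inj₀ hr hs h4).1 h3

/-- the weighted volume of a ball is finite -/
theorem nu_ne_top (ρ r : ℝ) : nu ρ (Metric.closedBall (0 : E3) r) ≠ ⊤ := by
  unfold nu
  rw [withDensity_apply _ measurableSet_closedBall]
  have h1 : ∫⁻ x in Metric.closedBall (0 : E3) r, ENNReal.ofReal (ρ ^ 2 - ‖x‖ ^ 2) ≤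
      ∫⁻ _ in Metric.closedBall (0 : E3) r, ENNReal.ofReal (ρ ^ 2) := by
    refine lintegral_mono fun x => ENNReal.ofReal_le_ofReal ?_
    have := sq_nonneg ‖x‖
    linarith
  refine ne_top_of_le_ne_top ?_ h1
  rw [setLIntegral_const]
  exact ENNReal.mul_ne_top ENNReal.ofReal_ne_top measure_closedBall_lt_top.ne

/-- the limit `ε → 0` -/
theorem lim_eps {a b c : ℝ≥0∞} (hc : c ≠ ⊤)
    (h : ∀ ε : ℝ≥0∞, 0 < ε → ε ≠ ⊤ → a ≤ b + ε * c) : a ≤ b := by
  refine ENNReal.le_of_forall_pos_le_add fun δ hδ _ => ?_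
  have h1 : c + 1 ≠ ⊤ := ENNReal.add_ne_top.2 ⟨hc, ENNReal.one_ne_top⟩
  have h2 : c + 1 ≠ 0 := by simp
  have h3 : (0 : ℝ≥0∞) < (δ : ℝ≥0∞) / (c + 1) :=
    ENNReal.div_pos (ENNReal.coe_pos.2 hδ).ne' h1
  have h4 : (δ : ℝ≥0∞) / (c + 1) ≠ ⊤ := ENNReal.div_ne_top ENNReal.coe_ne_top h2
  refine (h _ h3 h4).trans (add_le_add le_rfl ?_)
  calc (δ : ℝ≥0∞) / (c + 1) * c ≤ (δ : ℝ≥0∞) / (c + 1) * (c + 1) := by
        gcongr
        exact le_self_add
    _ = (δ : ℝ≥0∞) := ENNReal.div_mul_cancel h2 h1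

end IH8

theorem pr_H8 (hH6 : St_H6) (hH7 : St_H7) : St_H8 := by
  intro K hK r hr hV
  have hne : K.Nonempty := hK.inte.mono interior_subset
  have hpos : 0 < volume K := Measure.measure_pos_of_nonempty_interior volume hK.inte
  have hfin : volume K ≠ ⊤ := hK.comp.measure_lt_top.ne
  obtain ⟨ρ, hρ⟩ := hK.comp.isBounded.subset_closedBall (0 : E3)
  have hmem : (⟨⟨K, hK.comp⟩, hne⟩ : NonemptyCompacts E3) ∈ XX ρ (volume K) :=
    ⟨hK.conv, hK.symm, hρ, rfl⟩
  refine IH8.lim_eps (IH8.nu_ne_top ρ r) fun ε hε hε' => ?_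
  obtain ⟨K0, hK0, hmax⟩ := hH6 ρ (volume K) ε hpos hfin hε' ⟨_, hmem⟩
  obtain ⟨s, hs, hK0s⟩ := hH7 ρ (volume K) ε hpos hfin hε hε' K0 hK0 hmax
  have hrs : r = s := by
    refine IH8.radius_eq hr hs ?_
    rw [← hV, ← hK0s]
    exact hK0.2.2.2.symm
  have h1 := hmax _ hmem
  rw [hK0s, ← hrs] at h1
  exact le_self_add.trans h1

end Pool.Agent.Work.MP_b25393_ag.HF
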