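import Pool.Agent.Work.MP_b25393_ag.HF.StmtsA

/-!
# MP_b25393_ag, block HF, item L1: Bezout for three integers
-/

set_option autoImplicit false

open scoped Matrix

namespace Pool.Agent.Work.MP_b25393_ag.HF

namespace IL1

/-- explicit Bezout coefficients of three integers -/
lemma bez (a b c : ℤ) : ∃ x y z : ℤ, x * a + y * b + z * c = ((Int.gcd (Int.gcd a b : ℤ) c : ℕ) : ℤ) := by
  have h1 := Int.gcd_eq_gcd_ab a b
  have h2 := Int.gcd_eq_gcd_ab (Int.gcd a b : ℤ) c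
  refine ⟨Int.gcdA a b * Int.gcdA (Int.gcd a b : ℤ) c,
    Int.gcdB a b * Int.gcdA (Int.gcd a b : ℤ) c, Int.gcdB (Int.gcd a b : ℤ) c, ?_⟩
  rw [h2]
  calc Int.gcdA a b * Int.gcdA (Int.gcd a b : ℤ) c * a + Int.gcdB a b * Int.gcdA (Int.gcd a b : ℤ) c * b
        + Int.gcdB (Int.gcd a b : ℤ) c * c
      = (a * Int.gcdA a b + b * Int.gcdB a b) * Int.gcdA (Int.gcd a b : ℤ) c
        + c * Int.gcdB (Int.gcd a b : ℤ) c := by ring
    _ = (Int.gcd a b : ℤ) * Int.gcdA (Int.gcd a b : ℤ) c + c * Int.gcdB (Int.gcd a b : ℤ) c := by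
        rw [← h1]

end IL1

theorem pr_L1 : St_L1 := by
  intro v
  constructor
  · intro hv
    obtain ⟨x, y, z, h⟩ := IL1.bez (v 0) (v 1) (v 2)
    set g : ℤ := ((Int.gcd (Int.gcd (v 0) (v 1) : ℤ) (v 2) : ℕ) : ℤ) with hg
    have hg1 : g ∣ (Int.gcd (v 0) (v 1) : ℤ) := Int.gcd_dvd_left _ _
    have hg2 : g ∣ v 2 := Int.gcd_dvd_right _ _
    have hu : IsUnit g := by
      apply hv
      intro i
      fin_cases i
      · exact hg1.trans (Int.gcd_dvd_left _ _)
      · exact hg1.trans (Int.gcd_dvd_right _ _)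
      · exact hg2
    obtain h1 | h1 := Int.isUnit_iff.1 hu
    · refine ⟨![x, y, z], ?_⟩
      rw [dotProduct, Fin.sum_univ_three]
      simpa [h1] using h
    · exfalso
      have : (0 : ℤ) ≤ g := by
        rw [hg]
        exact Int.natCast_nonneg _
      omega
  · rintro ⟨c, hc⟩ d hd
    apply isUnit_of_dvd_one
    rw [← hc, dotProduct]
    exact Finset.dvd_sum fun i _ => (hd i).mul_left _

end Pool.Agent.Work.MP_b25393_ag.HF
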