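import Pool.Agent.Work.MP_b25393_ag.HF.StmtsA

/-!
# MP_b25393_ag, block HF, item L2: coordinates in the lattice orthogonal to a cross product
-/

set_option autoImplicit false

open scoped Matrix
open Matrix

namespace Pool.Agent.Work.MP_b25393_ag.HF

namespace IL2

/-- Cramer's rule -/
theorem cramer (u x y c : Fin 3 → ℤ) :
    ((u ⨯₃ x) ⬝ᵥ c) • y = ((y ⨯₃ x) ⬝ᵥ c) • u + ((u ⨯₃ y) ⬝ᵥ c) • x + ((u ⨯₃ x) ⬝ᵥ y) • c := by
  funext i
  simp only [cross_apply, dotProduct, Fin.sum_univ_three, Pi.smul_apply, Pi.add_apply, smul_eq_mul]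
  fin_cases i <;> simp <;> ring

/-- bilinearity of the cross product -/
theorem bil (u x : Fin 3 → ℤ) (i j i' j' : ℤ) :
    (i • u + j • x) ⨯₃ (i' • u + j' • x) = (i * j' - j * i') • (u ⨯₃ x) := by
  funext k
  simp only [cross_apply, Pi.smul_apply, Pi.add_apply, smul_eq_mul]
  fin_cases k <;> simp <;> ring

/-- the cross product is orthogonal to the plane -/
theorem orth (u x : Fin 3 → ℤ) (i j : ℤ) : (u ⨯₃ x) ⬝ᵥ (i • u + j • x) = 0 := by
  simp only [cross_apply, dotProduct, Fin.sum_univ_three, Pi.smul_apply, Pi.add_apply, smul_eq_mul]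
  simp
  ring

/-- the first coordinate -/
theorem co1 (u x c : Fin 3 → ℤ) (i j : ℤ) :
    ((i • u + j • x) ⨯₃ x) ⬝ᵥ c = i * ((u ⨯₃ x) ⬝ᵥ c) := by
  simp only [cross_apply, dotProduct, Fin.sum_univ_three, Pi.smul_apply, Pi.add_apply, smul_eq_mul]
  simp
  ring

/-- the second coordinate -/
theorem co2 (u x c : Fin 3 → ℤ) (i j : ℤ) :
    (u ⨯₃ (i • u + j • x)) ⬝ᵥ c = j * ((u ⨯₃ x) ⬝ᵥ c) := by
  simp only [cross_apply, dotProduct, Fin.sum_univ_three, Pi.smul_apply, Pi.add_apply, smul_eq_mul]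
  simp
  ring

/-- divisibility of the first coordinate -/
theorem dv1 (y x c : Fin 3 → ℤ) (d : ℤ) (h : ∀ i, d ∣ y i) : d ∣ (y ⨯₃ x) ⬝ᵥ c := by
  obtain ⟨a, ha⟩ := h 0
  obtain ⟨b, hb⟩ := h 1
  obtain ⟨e, he⟩ := h 2
  simp only [cross_apply, dotProduct, Fin.sum_univ_three, ha, hb, he]
  refine ⟨(b * x 2 - e * x 1) * c 0 + (e * x 0 - a * x 2) * c 1 + (a * x 1 - b * x 0) * c 2, ?_⟩
  simp
  ring

/-- divisibility of the second coordinate -/
theorem dv2 (u y c : Fin 3 → ℤ) (d : ℤ) (h : ∀ i, d ∣ y i) : d ∣ (u ⨯₃ y) ⬝ᵥ c := by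
  obtain ⟨a, ha⟩ := h 0
  obtain ⟨b, hb⟩ := h 1
  obtain ⟨e, he⟩ := h 2
  simp only [cross_apply, dotProduct, Fin.sum_univ_three, ha, hb, he]
  refine ⟨(u 1 * e - u 2 * b) * c 0 + (u 2 * a - u 0 * e) * c 1 + (u 0 * b - u 1 * a) * c 2, ?_⟩
  simp
  ring

end IL2

open IL2 in
theorem pr_L2 (hL1 : St_L1) : St_L2 := by
  intro u x n hn hux
  obtain ⟨c, hc⟩ := (hL1 n).1 hn
  have hc' : (u ⨯₃ x) ⬝ᵥ c = 1 := by rw [hux, dotProduct_comm]; exact hc
  refine ⟨?_, ?_, ?_, ?_, ?_, ?_⟩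
  · intro y hy
    have h := cramer u x y c
    rw [hc', hux, hy, one_smul, zero_smul, add_zero] at h
    exact ⟨_, _, h⟩
  · intro i j i' j'
    rw [bil, hux]
  · intro i j
    constructor
    · intro h
      rw [← isRelPrime_iff_isCoprime]
      intro d hi hj
      apply h d
      intro k
      simp only [Pi.add_apply, Pi.smul_apply, smul_eq_mul]
      exact dvd_add (Dvd.dvd.mul_right hi _) (Dvd.dvd.mul_right hj _)
    · intro h d hd
      have h1 := dv1 _ x c d hd
      have h2 := dv2 u _ c d hd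
      rw [co1, hc', mul_one] at h1
      rw [co2, hc', mul_one] at h2
      exact h.isRelPrime h1 h2
  · intro k
    constructor
    · intro h
      have h1 : IsUnit k := h k (fun i => by
        simp only [Pi.smul_apply, smul_eq_mul]; exact dvd_mul_right _ _)
      exact Int.isUnit_iff_abs_eq.1 h1
    · intro h d hd
      have hk : IsUnit k := Int.isUnit_iff_abs_eq.2 h
      apply hn d
      intro i
      have := hd i
      simp only [Pi.smul_apply, smul_eq_mul] at this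
      exact (hk.dvd_mul_left).1 this
  · intro i j i' j' h
    have h1 := co1 u x c i j
    have h1' := co1 u x c i' j'
    have h2 := co2 u x c i j
    have h2' := co2 u x c i' j'
    rw [hc', mul_one] at h1 h1' h2 h2'
    rw [h] at h1 h2
    exact ⟨h1.symm.trans h1', h2.symm.trans h2'⟩
  · intro i j
    rw [← hux]
    exact orth u x i j

end Pool.Agent.Work.MP_b25393_ag.HF
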