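import Pool.Agent.Work.MP_b25393_ag.HF.StmtsA

/-!
# MP_b25393_ag, block HF, item L3: a basis in the body
-/

set_option autoImplicit false

open scoped LinearAlgebra.Projectivization Pointwise Matrix RealInnerProductSpace ENNReal
open MeasureTheory Filter Topology Matrix

namespace Pool.Agent.Work.MP_b25393_ag.HF

namespace IL3

theorem cross_eq (u n c : Fin 3 → ℤ) (h1 : c ⬝ᵥ u = 1) (h2 : n ⬝ᵥ u = 0) :
    u ⨯₃ (n ⨯₃ c) = n := by
  rw [dotProduct, Fin.sum_univ_three] at h1 h2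
  rw [cross_apply, cross_apply]
  ext i
  fin_cases i
  · simp only [Matrix.cons_val_zero, Matrix.cons_val_one, Matrix.cons_val]
    change u 1 * (n 0 * c 1 - n 1 * c 0) - u 2 * (n 2 * c 0 - n 0 * c 2) = n 0
    linear_combination n 0 * h1 - c 0 * h2
  · simp only [Matrix.cons_val_zero, Matrix.cons_val_one, Matrix.cons_val]
    change u 2 * (n 1 * c 2 - n 2 * c 1) - u 0 * (n 0 * c 1 - n 1 * c 0) = n 1
    linear_combination n 1 * h1 - c 1 * h2
  · simp only [Matrix.cons_val_zero, Matrix.cons_val_one, Matrix.cons_val]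
    change u 0 * (n 2 * c 0 - n 0 * c 2) - u 1 * (n 1 * c 2 - n 2 * c 1) = n 2
    linear_combination n 2 * h1 - c 2 * h2

theorem toR_comb (a b : ℤ) (u x : Fin 3 → ℤ) :
    toR (a • u + b • x) = (a : ℝ) • toR u + (b : ℝ) • toR x := by
  ext i
  simp [toR]

theorem mem (C : Set (Fin 3 → ℝ)) (hC : Convex ℝ C) (hS : ∀ z ∈ C, -z ∈ C) (U V X : Fin 3 → ℝ)
    (hU : U ∈ C) (hV : V ∈ C) (a g : ℝ) (ha : 0 ≤ a) (hg : g ≠ 0) (hag : 1 + a ≤ |g|)
    (h : V = a • U + g • X) : X ∈ C := by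
  have h0 : (0 : Fin 3 → ℝ) ∈ C := by
    have := hC hU (hS U hU) (by norm_num : (0 : ℝ) ≤ 1 / 2) (by norm_num : (0 : ℝ) ≤ 1 / 2)
      (by norm_num)
    simpa using this
  have hgp : 0 < |g| := abs_pos.2 hg
  have key : ∀ P Q : Fin 3 → ℝ, P ∈ C → Q ∈ C → |g|⁻¹ • P + (a * |g|⁻¹) • Q ∈ C := by
    intro P Q hP hQ
    have hs : 0 < 1 + a := by linarith
    have h1 := hC hP hQ (by positivity : (0 : ℝ) ≤ 1 / (1 + a)) (by positivity : 0 ≤ a / (1 + a))
      (by field_simp)
    have h2 := hC.smul_mem_of_zero_mem h0 h1 (t := (1 + a) * |g|⁻¹) ⟨by positivity, by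
      rw [← div_eq_mul_inv, div_le_one hgp]
      exact hag⟩
    have e : ((1 + a) * |g|⁻¹) • ((1 / (1 + a)) • P + (a / (1 + a)) • Q) =
        |g|⁻¹ • P + (a * |g|⁻¹) • Q := by
      rw [smul_add, smul_smul, smul_smul]
      congr 2
      · field_simp
      · field_simp
    rw [e] at h2
    exact h2
  rcases lt_or_gt_of_ne hg with hn | hp
  · have h3 := key (-V) U (hS V hV) hU
    have e : |g|⁻¹ • (-V) + (a * |g|⁻¹) • U = X := by
      rw [h, abs_of_neg hn]
      ext i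
      simp only [Pi.add_apply, Pi.smul_apply, Pi.neg_apply, smul_eq_mul]
      field_simp
      ring
    rw [e] at h3
    exact h3
  · have h3 := key V (-U) hV (hS U hU)
    have e : |g|⁻¹ • V + (a * |g|⁻¹) • (-U) = X := by
      rw [h, abs_of_pos hp]
      ext i
      simp only [Pi.add_apply, Pi.smul_apply, Pi.neg_apply, smul_eq_mul]
      field_simp
      ring
    rw [e] at h3
    exact h3

end IL3

theorem pr_L3 (hL1 : St_L1) (hL2 : St_L2) : St_L3 := by
  intro C hC hS n u v hn hu hnu hnv huC hvC huv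
  obtain ⟨c, hc⟩ := (hL1 u).1 hu
  have hx0 := IL3.cross_eq u n c hc hnu
  set x₀ := n ⨯₃ c with hx0d
  obtain ⟨a1, a2, _, _, _, _⟩ := hL2 u x₀ n hn hx0
  obtain ⟨α, g, hv⟩ := a1 v hnv
  have hg : g ≠ 0 := by
    intro hg
    apply huv
    have h1 := a2 1 0 α g
    rw [one_smul, zero_smul, add_zero, ← hv] at h1
    rw [h1, hg]
    simp
  set k := α / g with hk
  have hα : α = g * k + α % g := (Int.mul_ediv_add_emod α g).symm
  have hα0 : 0 ≤ α % g := Int.emod_nonneg α hg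
  have hα1 : α % g < |g| := Int.emod_lt_abs α hg
  have hx : u ⨯₃ (x₀ + k • u) = n := by
    rw [map_add, map_smul, cross_self, smul_zero, add_zero]
    exact hx0
  have hv' : v = (α % g) • u + g • (x₀ + k • u) := by
    rw [hv]
    ext i
    simp only [Pi.add_apply, Pi.smul_apply, smul_eq_mul]
    linear_combination (u i) * hα
  obtain ⟨_, _, b3, _, _, b6⟩ := hL2 u (x₀ + k • u) n hn hx
  refine ⟨x₀ + k • u, hx, ?_, ?_, ?_⟩
  · have h1 := (b3 0 1).2 (isCoprime_zero_left.2 isUnit_one)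
    rw [zero_smul, one_smul, zero_add] at h1
    exact h1
  · have h1 := b6 0 1
    rw [zero_smul, one_smul, zero_add] at h1
    exact h1
  · have h2 : toR v = ((α % g : ℤ) : ℝ) • toR u + (g : ℝ) • toR (x₀ + k • u) := by
      rw [← IL3.toR_comb, ← hv']
    refine IL3.mem C hC hS (toR u) (toR v) _ huC hvC ((α % g : ℤ) : ℝ) (g : ℝ)
      (by exact_mod_cast hα0) (by exact_mod_cast hg) ?_ h2
    have h3 : 1 + α % g ≤ |g| := by omega
    exact_mod_cast h3

end Pool.Agent.Work.MP_b25393_ag.HF
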