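import Pool.Agent.Work.MP_b25393_ag.HF.StmtsA

/-!
# MP_b25393_ag, block HF, item L4: the pairs in one plane
-/

set_option autoImplicit false

open scoped LinearAlgebra.Projectivization Pointwise Matrix RealInnerProductSpace ENNReal
open MeasureTheory Filter Topology Matrix

namespace Pool.Agent.Work.MP_b25393_ag.HF

open Pool.Agent.Work.MP_b25393_ag

namespace IL4

/-- the coordinates in the plane lattice -/
def ph (u x : Fin 3 → ℤ) (z : ℤ × ℤ) : Fin 3 → ℤ := z.1 • u + z.2 • x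

theorem ph_add (u x : Fin 3 → ℤ) (z w : ℤ × ℤ) : ph u x (z + w) = ph u x z + ph u x w := by
  unfold ph
  rw [Prod.fst_add, Prod.snd_add, add_smul, add_smul]
  abel

theorem ph_neg (u x : Fin 3 → ℤ) (z : ℤ × ℤ) : ph u x (-z) = -ph u x z := by
  unfold ph
  rw [Prod.fst_neg, Prod.snd_neg, neg_smul, neg_smul, neg_add]

theorem toR_ph (u x : Fin 3 → ℤ) (z : ℤ × ℤ) :
    toR (ph u x z) = (z.1 : ℝ) • toR u + (z.2 : ℝ) • toR x := by
  funext i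
  simp [toR, ph]

theorem toR_neg' (y : Fin 3 → ℤ) : toR (-y) = -toR y := by
  funext i
  simp [toR]

theorem cop_of_dt {a b : ℤ × ℤ} (h : |dt a b| = 1) : IsCoprime a.1 a.2 := by
  unfold dt at h
  rcases (abs_eq (by norm_num : (0 : ℤ) ≤ 1)).1 h with h | h
  · exact ⟨b.2, -b.1, by linarith⟩
  · exact ⟨-b.2, b.1, by linarith⟩

theorem dt_comm_abs (a b : ℤ × ℤ) : |dt a b| = |dt b a| := by
  have : dt a b = -dt b a := by unfold dt; ring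
  rw [this, abs_neg]

theorem cop_of_dt' {a b : ℤ × ℤ} (h : |dt a b| = 1) : IsCoprime b.1 b.2 :=
  cop_of_dt (by rw [← dt_comm_abs]; exact h)

theorem dt_add_left (a b : ℤ × ℤ) : dt (a + b) b = dt a b := by
  unfold dt
  rw [Prod.fst_add, Prod.snd_add]
  ring

theorem cop_of_dt_add {a b : ℤ × ℤ} (h : |dt a b| = 1) : IsCoprime (a + b).1 (a + b).2 :=
  cop_of_dt (b := b) (by rw [dt_add_left]; exact h)

/-- the planar set -/
def pl (C : Set (Fin 3 → ℝ)) (U X : Fin 3 → ℝ) : Set (ℝ × ℝ) := {p | p.1 • U + p.2 • X ∈ C}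

theorem pl_convex {C : Set (Fin 3 → ℝ)} (hC : Convex ℝ C) (U X : Fin 3 → ℝ) :
    Convex ℝ (pl C U X) := by
  intro p hp q hq s t hs ht hst
  have h := hC hp hq hs ht hst
  have e : s • (p.1 • U + p.2 • X) + t • (q.1 • U + q.2 • X)
      = (s • p + t • q).1 • U + (s • p + t • q).2 • X := by
    funext i
    simp only [Pi.add_apply, Pi.smul_apply, smul_eq_mul, Prod.fst_add, Prod.snd_add,
      Prod.smul_fst, Prod.smul_snd]
    ring
  show (s • p + t • q).1 • U + (s • p + t • q).2 • X ∈ C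
  rw [← e]
  exact h

theorem pl_symm {C : Set (Fin 3 → ℝ)} (hs : ∀ z ∈ C, -z ∈ C) (U X : Fin 3 → ℝ) :
    ∀ z ∈ pl C U X, -z ∈ pl C U X := by
  intro z hz
  have h := hs _ hz
  show (-z).1 • U + (-z).2 • X ∈ C
  have e : (-z).1 • U + (-z).2 • X = -(z.1 • U + z.2 • X) := by
    rw [Prod.fst_neg, Prod.snd_neg, neg_smul, neg_smul, neg_add]
  rw [e]
  exact h

/-- the situation: `u`, `x` a basis of the lattice orthogonal to `n`, in `C`, `S` the finset of the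
coprime pairs of coordinates with `ph u x z ∈ C` -/
structure Sit (C : Set (Fin 3 → ℝ)) (n u x : Fin 3 → ℤ) (S : Finset (ℤ × ℤ)) : Prop where
  conv : Convex ℝ C
  symm : ∀ z ∈ C, -z ∈ C
  uC : toR u ∈ C
  xC : toR x ∈ C
  i1 : ∀ y : Fin 3 → ℤ, n ⬝ᵥ y = 0 → ∃ z : ℤ × ℤ, y = ph u x z
  i2 : ∀ z w : ℤ × ℤ, (ph u x z) ⨯₃ (ph u x w) = dt z w • n
  i3 : ∀ z : ℤ × ℤ, Prm (ph u x z) ↔ IsCoprime z.1 z.2
  i4 : ∀ k : ℤ, Prm (k • n) ↔ |k| = 1
  i5 : Function.Injective (ph u x)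
  i6 : ∀ z : ℤ × ℤ, n ⬝ᵥ ph u x z = 0
  mem : ∀ z : ℤ × ℤ, z ∈ S ↔ IsCoprime z.1 z.2 ∧ toR (ph u x z) ∈ C

variable {C : Set (Fin 3 → ℝ)} {n u x : Fin 3 → ℤ} {S : Finset (ℤ × ℤ)}

theorem ph10 (u x : Fin 3 → ℤ) : ph u x (1, 0) = u := by
  unfold ph
  simp

theorem ph01 (u x : Fin 3 → ℤ) : ph u x (0, 1) = x := by
  unfold ph
  simp

theorem Sit.cl (h : Sit C n u x S) (hF1 : St_F1) : Cl2 S where
  cop w hw := ((h.mem w).1 hw).1
  neg w hw := by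
    obtain ⟨h1, h2⟩ := (h.mem w).1 hw
    refine (h.mem _).2 ⟨?_, ?_⟩
    · rw [Prod.fst_neg, Prod.snd_neg]
      exact h1.neg_neg
    · rw [ph_neg, toR_neg']
      exact h.symm _ h2
  e1 := (h.mem _).2 ⟨isCoprime_one_left, by rw [ph10]; exact h.uC⟩
  e2 := (h.mem _).2 ⟨isCoprime_one_right, by rw [ph01]; exact h.xC⟩
  par w hw h1 h2 := by
    obtain ⟨hc, hC⟩ := (h.mem w).1 hw
    obtain ⟨a, b, hab, hd, e1, e2, hK⟩ := hF1 w.1 w.2 hc h1 h2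
    have k := hK (pl C (toR u) (toR x)) (pl_convex h.conv _ _) (pl_symm h.symm _ _)
      (by
        show (1 : ℝ) • toR u + (0 : ℝ) • toR x ∈ C
        rw [one_smul, zero_smul, add_zero]
        exact h.uC)
      (by
        show (0 : ℝ) • toR u + (1 : ℝ) • toR x ∈ C
        rw [one_smul, zero_smul, zero_add]
        exact h.xC)
      (by
        show ((w.1 : ℝ)) • toR u + ((w.2 : ℝ)) • toR x ∈ C
        rw [← toR_ph]
        exact hC)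
    refine ⟨a, (h.mem a).2 ⟨cop_of_dt hd, ?_⟩, b, (h.mem b).2 ⟨cop_of_dt' hd, ?_⟩, hab, hd, e1, e2⟩
    · rw [toR_ph]
      exact k.1
    · rw [toR_ph]
      exact k.2

theorem Sit.image_S1n (h : Sit C n u x S) : S1n C n = ph u x '' (S : Set (ℤ × ℤ)) := by
  ext y
  constructor
  · rintro ⟨h1, h2, h3⟩
    obtain ⟨z, rfl⟩ := h.i1 y h3
    exact ⟨z, Finset.mem_coe.2 ((h.mem z).2 ⟨(h.i3 z).1 h1, h2⟩), rfl⟩
  · rintro ⟨z, hz, rfl⟩
    obtain ⟨h1, h2⟩ := (h.mem z).1 (Finset.mem_coe.1 hz)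
    exact ⟨(h.i3 z).2 h1, h2, h.i6 z⟩

theorem Sit.card_S1n (h : Sit C n u x S) : (S1n C n).ncard = S.card := by
  rw [h.image_S1n, Set.ncard_image_of_injective _ h.i5, Set.ncard_coe_finset]

theorem Sit.inj2 (h : Sit C n u x S) : Function.Injective (Prod.map (ph u x) (ph u x)) :=
  h.i5.prodMap h.i5

theorem Sit.image_P2n (h : Sit C n u x S) : P2n C n = Prod.map (ph u x) (ph u x) ''
    (((S ×ˢ S).filter (fun z => |dt z.1 z.2| = 1) : Finset ((ℤ × ℤ) × (ℤ × ℤ))) :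
      Set ((ℤ × ℤ) × (ℤ × ℤ))) := by
  ext y
  constructor
  · rintro ⟨⟨h1, h2, h3⟩, h4, h5⟩
    obtain ⟨z, hz⟩ := h.i1 _ h4
    obtain ⟨w, hw⟩ := h.i1 _ h5
    rw [hz, hw, h.i2, h.i4] at h3
    refine ⟨(z, w), ?_, Prod.ext hz.symm hw.symm⟩
    rw [Finset.mem_coe, Finset.mem_filter, Finset.mem_product]
    refine ⟨⟨(h.mem z).2 ⟨cop_of_dt h3, ?_⟩, (h.mem w).2 ⟨cop_of_dt' h3, ?_⟩⟩, h3⟩
    · rw [← hz]; exact h1
    · rw [← hw]; exact h2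
  · rintro ⟨⟨z, w⟩, hzw, rfl⟩
    rw [Finset.mem_coe, Finset.mem_filter, Finset.mem_product] at hzw
    obtain ⟨⟨hz, hw⟩, hd⟩ := hzw
    refine ⟨⟨((h.mem z).1 hz).2, ((h.mem w).1 hw).2, ?_⟩, h.i6 z, h.i6 w⟩
    show Prm ((ph u x z) ⨯₃ (ph u x w))
    rw [h.i2, h.i4]
    exact hd

theorem Sit.image_Q2n (h : Sit C n u x S) : Q2n C n = Prod.map (ph u x) (ph u x) ''
    (((S ×ˢ S).filter (fun z => |dt z.1 z.2| = 1 ∧ z.1 + z.2 ∈ S) :
      Finset ((ℤ × ℤ) × (ℤ × ℤ))) : Set ((ℤ × ℤ) × (ℤ × ℤ))) := by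
  ext y
  constructor
  · rintro ⟨⟨h1, h2, h6, h3⟩, h4, h5⟩
    obtain ⟨z, hz⟩ := h.i1 _ h4
    obtain ⟨w, hw⟩ := h.i1 _ h5
    rw [hz, hw, h.i2, h.i4] at h3
    refine ⟨(z, w), ?_, Prod.ext hz.symm hw.symm⟩
    rw [Finset.mem_coe, Finset.mem_filter, Finset.mem_product]
    refine ⟨⟨(h.mem z).2 ⟨cop_of_dt h3, ?_⟩, (h.mem w).2 ⟨cop_of_dt' h3, ?_⟩⟩, h3,
      (h.mem _).2 ⟨cop_of_dt_add h3, ?_⟩⟩
    · rw [← hz]; exact h1
    · rw [← hw]; exact h2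
    · show toR (ph u x (z + w)) ∈ C
      rw [ph_add, ← hz, ← hw]; exact h6
  · rintro ⟨⟨z, w⟩, hzw, rfl⟩
    rw [Finset.mem_coe, Finset.mem_filter, Finset.mem_product] at hzw
    obtain ⟨⟨hz, hw⟩, hd, hs⟩ := hzw
    refine ⟨⟨((h.mem z).1 hz).2, ((h.mem w).1 hw).2, ?_, ?_⟩, h.i6 z, h.i6 w⟩
    · show toR (ph u x z + ph u x w) ∈ C
      rw [← ph_add]
      exact ((h.mem _).1 hs).2
    · show Prm ((ph u x z) ⨯₃ (ph u x w))
      rw [h.i2, h.i4]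
      exact hd

end IL4

open IL4 in
theorem pr_L4 (hF1 : St_F1) (hF3 : St_F3) (hF4 : St_F4) (hL2 : St_L2) (hL3 : St_L3) : St_L4 := by
  intro C hC hs n hn hfin ⟨u, hu, v, hv, huv⟩
  obtain ⟨x, hux, hxp, hnx, hxC⟩ :=
    hL3 C hC hs n u v hn hu.1 hu.2.2 hv.2.2 hu.2.1 hv.2.1 huv
  obtain ⟨j1, j2, j3, j4, j5, j6⟩ := hL2 u x n hn hux
  have hinj : Function.Injective (ph u x) := by
    intro z w hzw
    obtain ⟨e1, e2⟩ := j5 z.1 z.2 w.1 w.2 hzw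
    exact Prod.ext e1 e2
  have hmem : ∀ z : ℤ × ℤ, z ∈ hfin.toFinset.preimage (ph u x) hinj.injOn ↔
      IsCoprime z.1 z.2 ∧ toR (ph u x z) ∈ C := by
    intro z
    rw [Finset.mem_preimage, Set.Finite.mem_toFinset]
    constructor
    · rintro ⟨h1, h2, h3⟩
      exact ⟨(j3 z.1 z.2).1 h1, h2⟩
    · rintro ⟨h1, h2⟩
      exact ⟨(j3 z.1 z.2).2 h1, h2, j6 z.1 z.2⟩
  have h : Sit C n u x (hfin.toFinset.preimage (ph u x) hinj.injOn) := by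
    refine ⟨hC, hs, hu.2.1, hxC, ?_, ?_, ?_, j4, hinj, ?_, hmem⟩
    · intro y hy
      obtain ⟨i, j, e⟩ := j1 y hy
      exact ⟨(i, j), e⟩
    · intro z w
      exact j2 z.1 z.2 w.1 w.2
    · intro z
      exact j3 z.1 z.2
    · intro z
      exact j6 z.1 z.2
  have hcl := h.cl hF1
  constructor
  · rw [h.card_S1n, h.image_P2n, Set.ncard_image_of_injective _ h.inj2, Set.ncard_coe_finset]
    exact hF3 _ hcl
  · rw [h.card_S1n, h.image_Q2n, Set.ncard_image_of_injective _ h.inj2, Set.ncard_coe_finset]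
    exact hF4 _ hcl

end Pool.Agent.Work.MP_b25393_ag.HF
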