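import Pool.Agent.Work.MP_b25393_ag.HF.StmtsQ

/-!
# MP_b25393_ag, block HF, item Q1: strict inequality in the one-dimensional Riesz inequality
-/

set_option autoImplicit false

open MeasureTheory Filter Topology
open scoped ENNReal

namespace Pool.Agent.Work.MP_b25393_ag.HF

open Pool.Agent.Work.MP_b25393_ag

namespace IQ1

/-- Fubini after the shear -/
theorem fub (I0 I1 I2 : Set ℝ) (h0 : MeasurableSet I0) (h1 : MeasurableSet I1)
    (h2 : MeasurableSet I2) :
    volume {z : ℝ × ℝ | z.1 ∈ I0 ∧ z.2 ∈ I1 ∧ z.1 + z.2 ∈ I2} =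
      ∫⁻ x in I2, volume {s : ℝ | s ∈ I0 ∧ x - s ∈ I1} := by
  set S' : Set (ℝ × ℝ) := {z | z.1 ∈ I0 ∧ z.2 - z.1 ∈ I1 ∧ z.2 ∈ I2} with hS'
  have hm : MeasurableSet S' := by
    have e : S' = Prod.fst ⁻¹' I0 ∩ ((fun z : ℝ × ℝ => z.2 - z.1) ⁻¹' I1 ∩ Prod.snd ⁻¹' I2) := by
      ext z
      simp [hS']
    rw [e]
    exact (measurable_fst h0).inter
      (((measurable_snd.sub measurable_fst) h1).inter (measurable_snd h2))
  have hp : MeasurePreserving (fun z : ℝ × ℝ => (z.1, z.1 + z.2)) (volume : Measure (ℝ × ℝ))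
      (volume : Measure (ℝ × ℝ)) := measurePreserving_prod_add volume volume
  have e1 : {z : ℝ × ℝ | z.1 ∈ I0 ∧ z.2 ∈ I1 ∧ z.1 + z.2 ∈ I2} =
      (fun z : ℝ × ℝ => (z.1, z.1 + z.2)) ⁻¹' S' := by
    ext z
    simp [hS']
  rw [e1, hp.measure_preimage hm.nullMeasurableSet]
  have e2 : (volume : Measure (ℝ × ℝ)) S' = ∫⁻ x, volume ((fun s : ℝ => (s, x)) ⁻¹' S') :=
    Measure.prod_apply_symm hm
  rw [e2, ← lintegral_indicator h2]
  refine lintegral_congr fun x => ?_
  by_cases hx : x ∈ I2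
  · rw [Set.indicator_of_mem hx]
    congr 1
    ext s
    simp [hS', hx]
  · rw [Set.indicator_of_notMem hx]
    have : (fun s : ℝ => (s, x)) ⁻¹' S' = ∅ := by
      ext s
      simp [hS', hx]
    rw [this, measure_empty]

theorem meas_h (l m : ℝ) : Measurable (fun x : ℝ => volume {s : ℝ | |s| ≤ l ∧ |x - s| ≤ m}) := by
  have hT : MeasurableSet {z : ℝ × ℝ | |z.2| ≤ l ∧ |z.1 - z.2| ≤ m} := by
    refine IsClosed.measurableSet ?_
    exact (isClosed_le (continuous_abs.comp continuous_snd) continuous_const).inter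
      (isClosed_le (continuous_abs.comp (continuous_fst.sub continuous_snd)) continuous_const)
  exact measurable_measure_prodMk_left hT

/-- the value of `h` -/
theorem h_val (l m x : ℝ) : volume {s : ℝ | |s| ≤ l ∧ |x - s| ≤ m} =
    ENNReal.ofReal (min l (x + m) - max (-l) (x - m)) := by
  have e : {s : ℝ | |s| ≤ l ∧ |x - s| ≤ m} = Set.Icc (max (-l) (x - m)) (min l (x + m)) := by
    ext s
    simp only [Set.mem_ofPred_eq, Set.mem_Icc, abs_le, max_le_iff, le_min_iff]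
    constructor
    · rintro ⟨⟨h1, h2⟩, h3, h4⟩
      exact ⟨⟨h1, by linarith⟩, h2, by linarith⟩
    · rintro ⟨⟨h1, h2⟩, h3, h4⟩
      exact ⟨⟨h1, h3⟩, by linarith, by linarith⟩
  rw [e, Real.volume_Icc]

/-- `h` is strictly larger inside `(-k, k)` than at `k` -/
theorem h_strict (l m k x : ℝ) (h1 : l < m + k) (h2 : m < l + k) (h3 : k < l + m)
    (hx : |x| < k) : volume {s : ℝ | |s| ≤ l ∧ |k - s| ≤ m} <
      volume {s : ℝ | |s| ≤ l ∧ |x - s| ≤ m} := by
  rw [h_val, h_val]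
  obtain ⟨hx1, hx2⟩ := abs_lt.1 hx
  have e1 : min l (k + m) = l := min_eq_left (by linarith)
  have e2 : max (-l) (k - m) = k - m := max_eq_right (by linarith)
  rw [e1, e2]
  have key : l - (k - m) < min l (x + m) - max (-l) (x - m) := by
    rcases min_choice l (x + m) with ha | ha <;> rcases max_choice (-l) (x - m) with hb | hb <;>
      rw [ha, hb] <;> linarith
  exact (ENNReal.ofReal_lt_ofReal_iff (by linarith)).2 key

/-- G2 with strict inequality -/
theorem strict (h : ℝ → ℝ≥0∞) (hm : Measurable h) (hh : ∀ x y : ℝ, |x| ≤ |y| → h y ≤ h x)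
    (h0 : h 0 ≠ ∞) (c l : ℝ) (hl : 0 < l) (hc : c ≠ 0) (hs : ∀ x : ℝ, |x| < l → h l < h x) :
    ∫⁻ x in Set.Icc (c - l) (c + l), h x < ∫⁻ x in Set.Icc (-l) l, h x := by
  set A : Set ℝ := Set.Icc (c - l) (c + l) with hA
  set B : Set ℝ := Set.Icc (-l) l with hB
  have mA : MeasurableSet A := measurableSet_Icc
  have mB : MeasurableSet B := measurableSet_Icc
  have vA : volume A = ENNReal.ofReal (2 * l) := by
    rw [hA, Real.volume_Icc]
    congr 1
    ring
  have vB : volume B = ENNReal.ofReal (2 * l) := by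
    rw [hB, Real.volume_Icc]
    congr 1
    ring
  have e1 := measure_inter_add_sdiff (μ := volume) A mB
  have e2 := measure_inter_add_sdiff (μ := volume) B mA
  have e3 : volume (A ∩ B) ≠ ∞ := by
    refine ne_top_of_le_ne_top ?_ (measure_mono Set.inter_subset_left)
    rw [vA]
    exact ENNReal.ofReal_ne_top
  have e5 : volume (B \ A) ≠ ∞ := by
    refine ne_top_of_le_ne_top ?_ (measure_mono Set.sdiff_subset)
    rw [vB]
    exact ENNReal.ofReal_ne_top
  have e4 : volume (A \ B) = volume (B \ A) := by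
    rw [vA] at e1
    rw [vB, Set.inter_comm, ← e1] at e2
    exact ((ENNReal.add_right_inj e3).1 e2).symm
  have i1 : ∫⁻ x in A \ B, h x ≤ h l * volume (A \ B) := by
    rw [← setLIntegral_const]
    refine setLIntegral_mono' (mA.diff mB) fun x hx => hh l x ?_
    rw [abs_of_nonneg hl.le]
    by_contra hlt
    rw [not_le] at hlt
    have h1 := abs_lt.1 hlt
    exact hx.2 ⟨h1.1.le, h1.2.le⟩
  have fl : h l ≠ ∞ := ne_top_of_le_ne_top h0 (hh 0 l (by rw [abs_zero]; exact abs_nonneg l))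
  have pos : volume (B \ A) ≠ 0 := by
    rcases lt_or_gt_of_ne hc with hc | hc
    · have hsub : Set.Ioc (max (c + l) (-l)) l ⊆ B \ A := by
        intro x hx
        have h1 := max_lt_iff.1 hx.1
        exact ⟨⟨h1.2.le, hx.2⟩, fun h2 => absurd h2.2 (not_le.2 h1.1)⟩
      have hp : 0 < volume (Set.Ioc (max (c + l) (-l)) l) := by
        rw [Real.volume_Ioc, ENNReal.ofReal_pos, sub_pos, max_lt_iff]
        exact ⟨by linarith, by linarith⟩
      exact (hp.trans_le (measure_mono hsub)).ne'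
    · have hsub : Set.Ico (-l) (min (c - l) l) ⊆ B \ A := by
        intro x hx
        have h1 := lt_min_iff.1 hx.2
        exact ⟨⟨hx.1, h1.2.le⟩, fun h2 => absurd h2.1 (not_le.2 h1.1)⟩
      have hp : 0 < volume (Set.Ico (-l) (min (c - l) l)) := by
        rw [Real.volume_Ico, ENNReal.ofReal_pos, sub_pos, lt_min_iff]
        exact ⟨by linarith, by linarith⟩
      exact (hp.trans_le (measure_mono hsub)).ne'
  have i2 : h l * volume (B \ A) < ∫⁻ x in B \ A, h x := by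
    rw [← setLIntegral_const]
    refine setLIntegral_strict_mono (mB.diff mA) pos hm ?_ ?_
    · rw [setLIntegral_const]
      exact ENNReal.mul_ne_top fl e5
    · have n1 : ∀ᵐ x : ℝ, x ≠ l := compl_mem_ae_iff.2 (measure_singleton l)
      have n2 : ∀ᵐ x : ℝ, x ≠ -l := compl_mem_ae_iff.2 (measure_singleton (-l))
      filter_upwards [n1, n2] with x hx1 hx2 hx
      refine hs x (abs_lt.2 ⟨?_, ?_⟩)
      · exact lt_of_le_of_ne hx.1.1 (Ne.symm hx2)
      · exact lt_of_le_of_ne hx.1.2 hx1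
  have fin : ∫⁻ x in A ∩ B, h x ≠ ∞ := by
    have : ∫⁻ x in A ∩ B, h x ≤ ∫⁻ _ in A ∩ B, h 0 := by
      refine setLIntegral_mono' (mA.inter mB) fun x _ => hh 0 x ?_
      rw [abs_zero]
      exact abs_nonneg x
    refine ne_top_of_le_ne_top ?_ this
    rw [setLIntegral_const]
    exact ENNReal.mul_ne_top h0 e3
  rw [← lintegral_inter_add_sdiff h A mB, ← lintegral_inter_add_sdiff h B mA, Set.inter_comm B A]
  rw [e4] at i1
  exact (ENNReal.add_lt_add_iff_left fin).2 (i1.trans_lt i2)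

end IQ1

open IQ1 in
theorem pr_Q1 (hG1 : St_G1) : St_Q1 := by
  intro a b hab t0 t1 t2 hne
  set l0 : ℝ := (b 0 - a 0) / 2 with hl0
  set l1 : ℝ := (b 1 - a 1) / 2 with hl1
  set l2 : ℝ := (b 2 - a 2) / 2 with hl2
  set m0 : ℝ := (a 0 + b 0) / 2 with hm0
  set m1 : ℝ := (a 1 + b 1) / 2 with hm1
  set m2 : ℝ := (a 2 + b 2) / 2 with hm2
  have p0 : 0 < l0 := by have := hab 0; rw [hl0]; linarith
  have p1 : 0 < l1 := by have := hab 1; rw [hl1]; linarith
  have p2 : 0 < l2 := by have := hab 2; rw [hl2]; linarith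
  set h : ℝ → ℝ≥0∞ := fun x => volume {s : ℝ | |s| ≤ l0 ∧ |x - s| ≤ l1} with hh
  have hmeas : Measurable h := meas_h l0 l1
  have hanti : ∀ x y : ℝ, |x| ≤ |y| → h y ≤ h x := fun x y hxy => hG1 l0 l1 p0.le p1.le x y hxy
  have L : volume {z : ℝ × ℝ | z.1 ∈ Set.Icc (a 0) (b 0) ∧ z.2 ∈ Set.Icc (a 1) (b 1) ∧
      z.1 + z.2 ∈ Set.Icc (a 2) (b 2)} =
      ∫⁻ x in Set.Icc (m2 - m0 - m1 - l2) (m2 - m0 - m1 + l2), h x := by
    rw [fub _ _ _ measurableSet_Icc measurableSet_Icc measurableSet_Icc]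
    have hg : MeasurePreserving (fun x : ℝ => x - (m0 + m1)) volume volume :=
      measurePreserving_sub_right volume (m0 + m1)
    have e := hg.setLIntegral_comp_preimage
      (s := Set.Icc (m2 - m0 - m1 - l2) (m2 - m0 - m1 + l2)) measurableSet_Icc hmeas
    rw [← e]
    have e3 : (fun x : ℝ => x - (m0 + m1)) ⁻¹' Set.Icc (m2 - m0 - m1 - l2) (m2 - m0 - m1 + l2) =
        Set.Icc (a 2) (b 2) := by
      ext x
      simp only [Set.mem_preimage, Set.mem_Icc]
      rw [hm2, hl2]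
      constructor <;> rintro ⟨h1, h2⟩ <;> constructor <;> linarith
    rw [e3]
    refine lintegral_congr fun x => ?_
    show volume _ = volume _
    rw [← measure_preimage_add_right volume m0
      {s : ℝ | s ∈ Set.Icc (a 0) (b 0) ∧ x - s ∈ Set.Icc (a 1) (b 1)}]
    congr 1
    ext s
    simp only [Set.mem_preimage, Set.mem_ofPred_eq, Set.mem_Icc, abs_le]
    rw [hm0, hm1, hl0, hl1]
    constructor
    · rintro ⟨⟨h1, h2⟩, h3, h4⟩
      refine ⟨⟨?_, ?_⟩, ?_, ?_⟩ <;> linarith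
    · rintro ⟨⟨h1, h2⟩, h3, h4⟩
      refine ⟨⟨?_, ?_⟩, ?_, ?_⟩ <;> linarith
  have R : volume {z : ℝ × ℝ | |z.1| ≤ l0 ∧ |z.2| ≤ l1 ∧ |z.1 + z.2| ≤ l2} =
      ∫⁻ x in Set.Icc (-l2) l2, h x := by
    have e := fub {s : ℝ | |s| ≤ l0} {s : ℝ | |s| ≤ l1} (Set.Icc (-l2) l2)
      (isClosed_le continuous_abs continuous_const).measurableSet
      (isClosed_le continuous_abs continuous_const).measurableSet measurableSet_Icc
    have e4 : {z : ℝ × ℝ | |z.1| ≤ l0 ∧ |z.2| ≤ l1 ∧ |z.1 + z.2| ≤ l2} =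
        {z : ℝ × ℝ | z.1 ∈ {s : ℝ | |s| ≤ l0} ∧ z.2 ∈ {s : ℝ | |s| ≤ l1} ∧
          z.1 + z.2 ∈ Set.Icc (-l2) l2} := by
      ext z
      simp only [Set.mem_ofPred_eq, Set.mem_Icc, abs_le (a := z.1 + z.2)]
    rw [e4, e]
    rfl
  rw [L, R]
  have h0 : h 0 ≠ ∞ := by
    show volume {s : ℝ | |s| ≤ l0 ∧ |0 - s| ≤ l1} ≠ ∞
    rw [h_val]
    exact ENNReal.ofReal_ne_top
  refine strict h hmeas hanti h0 _ _ p2 ?_ ?_
  · intro h1
    apply hne
    rw [hm2, hm0, hm1] at h1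
    linarith
  · intro x hx
    exact h_strict l0 l1 l2 x (by rw [hl0, hl1, hl2]; linarith) (by rw [hl0, hl1, hl2]; linarith)
      (by rw [hl0, hl1, hl2]; linarith) hx

end Pool.Agent.Work.MP_b25393_ag.HF
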