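import Pool.Agent.Work.MP_b25393_ag.HF.StmtsQ

/-!
# MP_b25393_ag, block HF, item Q2: the fibres of a symmetric convex body
-/

set_option autoImplicit false

open scoped LinearAlgebra.Projectivization Pointwise Matrix RealInnerProductSpace ENNReal
open MeasureTheory Filter Topology Matrix TopologicalSpace

namespace Pool.Agent.Work.MP_b25393_ag.HF

open Pool.Agent.Work.MP_b25393_ag

namespace IQ2

/-- the base of the body -/
def base (A : Set F3) : Set (Fin 2 → ℝ) := Prod.fst '' A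

theorem mem_base {A : Set F3} {y : Fin 2 → ℝ} : y ∈ base A ↔ ∃ s : ℝ, ((y, s) : F3) ∈ A := by
  unfold base
  constructor
  · rintro ⟨⟨y', s⟩, h, rfl⟩
    exact ⟨s, h⟩
  · rintro ⟨s, h⟩
    exact ⟨(y, s), h, rfl⟩

theorem comb {A : Set F3} (hA : Convex ℝ A) {y y' : Fin 2 → ℝ} {s s' a b : ℝ}
    (h : ((y, s) : F3) ∈ A) (h' : ((y', s') : F3) ∈ A) (ha : 0 ≤ a) (hb : 0 ≤ b)
    (hab : a + b = 1) : ((a • y + b • y', a * s + b * s') : F3) ∈ A :=
  hA h h' ha hb hab

theorem base_convex {A : Set F3} (hA : Convex ℝ A) : Convex ℝ (base A) := by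
  intro y hy y' hy' a b ha hb hab
  obtain ⟨s, hs⟩ := mem_base.1 hy
  obtain ⟨s', hs'⟩ := mem_base.1 hy'
  exact mem_base.2 ⟨_, comb hA hs hs' ha hb hab⟩

theorem base_neg {A : Set F3} (hA : ∀ x ∈ A, -x ∈ A) {y : Fin 2 → ℝ} (hy : y ∈ base A) :
    -y ∈ base A := by
  obtain ⟨s, hs⟩ := mem_base.1 hy
  exact mem_base.2 ⟨-s, hA _ hs⟩

theorem int_sub {A : Set F3} {z : F3} (hz : z ∈ interior A) : z.1 ∈ interior (base A) := by
  have h1 : IsOpen (Prod.fst '' interior A) := isOpenMap_fst _ isOpen_interior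
  have h2 : Prod.fst '' interior A ⊆ base A := Set.image_mono interior_subset
  exact interior_maximal h2 h1 ⟨z, hz, rfl⟩

theorem zero_mem {A : Set F3} (hA : Body A) : (0 : Fin 2 → ℝ) ∈ interior (base A) := by
  obtain ⟨z, hz⟩ := hA.inte
  have h1 := int_sub hz
  have h2 : -z.1 ∈ interior (base A) := by
    have h3 : IsOpen {y : Fin 2 → ℝ | -y ∈ interior (base A)} :=
      isOpen_interior.preimage continuous_neg
    have h4 : {y : Fin 2 → ℝ | -y ∈ interior (base A)} ⊆ base A := by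
      intro y hy
      have := base_neg hA.symm (interior_subset hy)
      rwa [neg_neg] at this
    refine interior_maximal h4 h3 ?_
    show - -z.1 ∈ interior (base A)
    rw [neg_neg]
    exact h1
  have h5 := (base_convex hA.conv).interior h1 h2 (by norm_num : (0 : ℝ) ≤ 1 / 2)
    (by norm_num : (0 : ℝ) ≤ 1 / 2) (by norm_num)
  have h6 : (1 / 2 : ℝ) • z.1 + (1 / 2 : ℝ) • -z.1 = 0 := by
    rw [smul_neg, add_neg_cancel]
  rwa [h6] at h5

/-- data of the fibres -/
theorem ends {A : Set F3} (hG4 : St_G4) (hA : Body A) : ∃ a b : (Fin 2 → ℝ) → ℝ,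
    ∀ y ∈ base A, a y ≤ b y ∧ ∀ s : ℝ, ((y, s) : F3) ∈ A ↔ s ∈ Set.Icc (a y) (b y) := by
  have h := (hG4 A hA.comp hA.conv).2.2
  have h1 : ∀ y : Fin 2 → ℝ, ∃ p : ℝ × ℝ, y ∈ base A → p.1 ≤ p.2 ∧
      ∀ s : ℝ, ((y, s) : F3) ∈ A ↔ s ∈ Set.Icc p.1 p.2 := by
    intro y
    rcases h y with ⟨h2, _⟩ | ⟨a, b, h2, h3, _⟩
    · refine ⟨(0, 0), fun hy => ?_⟩
      obtain ⟨s, hs⟩ := mem_base.1 hy
      exact absurd hs (h2 s)
    · exact ⟨(a, b), fun _ => ⟨h2, h3⟩⟩
  choose p hp using h1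
  exact ⟨fun y => (p y).1, fun y => (p y).2, hp⟩

end IQ2

theorem pr_Q2 (hG4 : St_G4) : St_Q2 := by
  intro A hA
  obtain ⟨a, b, hab⟩ := IQ2.ends hG4 hA
  have hP := IQ2.base_convex hA.conv
  have hPc : IsCompact (IQ2.base A) := hA.comp.image continuous_fst
  have hmema : ∀ y ∈ IQ2.base A, ((y, a y) : F3) ∈ A := fun y hy =>
    ((hab y hy).2 _).2 ⟨le_rfl, (hab y hy).1⟩
  have hmemb : ∀ y ∈ IQ2.base A, ((y, b y) : F3) ∈ A := fun y hy =>
    ((hab y hy).2 _).2 ⟨(hab y hy).1, le_rfl⟩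
  have hconc : ConcaveOn ℝ (IQ2.base A) b := by
    refine ⟨hP, fun y hy y' hy' α β hα hβ hαβ => ?_⟩
    have h1 := IQ2.comb hA.conv (hmemb y hy) (hmemb y' hy') hα hβ hαβ
    have h2 := ((hab _ (hP hy hy' hα hβ hαβ)).2 _).1 h1
    rw [smul_eq_mul, smul_eq_mul]
    exact h2.2
  have hconv : ConvexOn ℝ (IQ2.base A) a := by
    refine ⟨hP, fun y hy y' hy' α β hα hβ hαβ => ?_⟩
    have h1 := IQ2.comb hA.conv (hmema y hy) (hmema y' hy') hα hβ hαβ
    have h2 := ((hab _ (hP hy hy' hα hβ hαβ)).2 _).1 h1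
    rw [smul_eq_mul, smul_eq_mul]
    exact h2.1
  have hcb := hconc.continuousOn_interior
  have hca := hconv.continuousOn_interior
  have hsub : interior (IQ2.base A) ⊆ IQ2.base A := interior_subset
  have hll : ∀ y ∈ IQ2.base A, ∀ y' ∈ IQ2.base A, ∀ α β : ℝ, 0 ≤ α → 0 ≤ β → α + β = 1 →
      α * ((b y - a y) / 2) + β * ((b y' - a y') / 2) ≤
        (b (α • y + β • y') - a (α • y + β • y')) / 2 := by
    intro y hy y' hy' α β hα hβ hαβ
    have h1 := hconc.2 hy hy' hα hβ hαβ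
    have h2 := hconv.2 hy hy' hα hβ hαβ
    rw [smul_eq_mul, smul_eq_mul] at h1 h2
    linarith
  refine ⟨interior (IQ2.base A), fun y => (a y + b y) / 2, fun y => (b y - a y) / 2, ?_⟩
  refine ⟨isOpen_interior, hP.interior, IQ2.zero_mem hA, ?_, ?_, ?_, ?_, ?_, ?_, ?_⟩
  · exact (hca.add hcb).div_const 2
  · exact (hcb.sub hca).div_const 2
  · -- positivity
    intro y hy
    obtain ⟨⟨y₀, s₀⟩, hz⟩ := hA.inte
    have hy₀ : y₀ ∈ IQ2.base A := hsub (IQ2.int_sub hz)
    have hpos₀ : 0 < (b y₀ - a y₀) / 2 := by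
      have h1 : {s : ℝ | ((y₀, s) : F3) ∈ interior A} ∈ 𝓝 s₀ :=
        (isOpen_interior.preimage (f := fun s : ℝ => ((y₀, s) : F3)) (by fun_prop)).mem_nhds hz
      obtain ⟨ε, hε, hε2⟩ := Metric.mem_nhds_iff.1 h1
      have h2 : ((y₀, s₀ + ε / 2) : F3) ∈ A := by
        refine interior_subset (hε2 ?_)
        rw [Metric.mem_ball, Real.dist_eq]
        rw [add_sub_cancel_left, abs_of_pos (by linarith)]
        linarith
      have h3 : ((y₀, s₀) : F3) ∈ A := interior_subset hz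
      have h4 := ((hab y₀ hy₀).2 _).1 h2
      have h5 := ((hab y₀ hy₀).2 _).1 h3
      have := h4.2
      have := h5.1
      linarith
    obtain ⟨η, hη, hη2⟩ : ∃ η : ℝ, 0 < η ∧ y + η • (y - y₀) ∈ IQ2.base A := by
      have hc : Continuous fun η : ℝ => y + η • (y - y₀) := by fun_prop
      have h1 : {η : ℝ | y + η • (y - y₀) ∈ interior (IQ2.base A)} ∈ 𝓝 (0 : ℝ) := by
        refine (isOpen_interior.preimage hc).mem_nhds ?_
        show y + (0 : ℝ) • (y - y₀) ∈ interior (IQ2.base A)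
        rw [zero_smul, add_zero]
        exact hy
      obtain ⟨ε, hε, hε2⟩ := Metric.mem_nhds_iff.1 h1
      refine ⟨ε / 2, by linarith, hsub (hε2 ?_)⟩
      rw [Metric.mem_ball, Real.dist_eq, sub_zero, abs_of_pos (by linarith)]
      linarith
    have h1 := hll y₀ hy₀ (y + η • (y - y₀)) hη2 (η / (1 + η)) (1 / (1 + η)) (by positivity)
      (by positivity) (by field_simp; ring)
    have h2 : (η / (1 + η)) • y₀ + (1 / (1 + η)) • (y + η • (y - y₀)) = y := by
      ext i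
      simp only [Pi.add_apply, Pi.smul_apply, Pi.sub_apply, smul_eq_mul]
      field_simp
      ring
    rw [h2] at h1
    have h3 : 0 < η / (1 + η) * ((b y₀ - a y₀) / 2) := by positivity
    have h4 : 0 ≤ 1 / (1 + η) * ((b (y + η • (y - y₀)) - a (y + η • (y - y₀))) / 2) := by
      have := (hab _ hη2).1
      have h5 : 0 ≤ (b (y + η • (y - y₀)) - a (y + η • (y - y₀))) / 2 := by linarith
      positivity
    show 0 < (b y - a y) / 2
    linarith
  · intro y hy s
    rw [(hab y (hsub hy)).2 s, Set.mem_Icc, abs_le]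
    constructor
    · rintro ⟨h1, h2⟩
      constructor
      · show -((b y - a y) / 2) ≤ s - (a y + b y) / 2
        linarith
      · show s - (a y + b y) / 2 ≤ (b y - a y) / 2
        linarith
    · rintro ⟨h1, h2⟩
      have h1' : -((b y - a y) / 2) ≤ s - (a y + b y) / 2 := h1
      have h2' : s - (a y + b y) / 2 ≤ (b y - a y) / 2 := h2
      constructor
      · linarith
      · linarith
  · intro y hy y' hy'
    have h1 := hll y (hsub hy) y' (hsub hy') (1 / 2) (1 / 2) (by norm_num) (by norm_num)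
      (by norm_num)
    have h2 : (1 / 2 : ℝ) • y + (1 / 2 : ℝ) • y' = (1 / 2 : ℝ) • (y + y') := by
      rw [smul_add]
    rw [h2] at h1
    show ((b y - a y) / 2 + (b y' - a y') / 2) / 2 ≤
      (b ((1 / 2 : ℝ) • (y + y')) - a ((1 / 2 : ℝ) • (y + y'))) / 2
    linarith
  · intro z hz
    have h1 : z ∈ closure A := subset_closure hz
    rw [← hA.conv.closure_interior_eq_closure_of_nonempty_interior hA.inte] at h1
    refine closure_mono ?_ h1
    intro w hw
    exact ⟨interior_subset hw, IQ2.int_sub hw⟩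
  · have h1 : volume (frontier (IQ2.base A)) = 0 := hP.addHaar_frontier volume
    have h2 : {z : F3 | z ∈ A ∧ z.1 ∉ interior (IQ2.base A)} ⊆
        frontier (IQ2.base A) ×ˢ (Set.univ : Set ℝ) := by
      rintro ⟨y, s⟩ ⟨h3, h4⟩
      refine ⟨?_, Set.mem_univ _⟩
      exact ⟨subset_closure (IQ2.mem_base.2 ⟨s, h3⟩), h4⟩
    refine measure_mono_null h2 ?_
    rw [Measure.volume_eq_prod, Measure.prod_prod, h1, zero_mul]

end Pool.Agent.Work.MP_b25393_ag.HF
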