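import Pool.Agent.Work.MP_b25393_ag.HF.StmtsQ

/-!
# MP_b25393_ag, block HF: item Q3 (the centres of the fibres are additive)
-/

set_option autoImplicit false

open scoped LinearAlgebra.Projectivization Pointwise Matrix RealInnerProductSpace ENNReal
open MeasureTheory Filter Topology Matrix TopologicalSpace

namespace Pool.Agent.Work.MP_b25393_ag.HF

namespace IQ3

/-- the planes -/
abbrev P : Type := Fin 2 → ℝ

/-- rearranging the coordinates -/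
def ex (z : F3 × F3) : (P × P) × (ℝ × ℝ) := ((z.1.1, z.2.1), (z.1.2, z.2.2))

theorem mp_ex : MeasurePreserving ex (volume : Measure (F3 × F3))
    (volume : Measure ((P × P) × (ℝ × ℝ))) := by
  have h1 : MeasurePreserving (MeasurableEquiv.prodAssoc : (P × ℝ) × (P × ℝ) ≃ᵐ P × ℝ × (P × ℝ)) :=
    volume_preserving_prodAssoc
  have h2 : MeasurePreserving (MeasurableEquiv.prodAssoc : (ℝ × P) × ℝ ≃ᵐ ℝ × P × ℝ) :=
    volume_preserving_prodAssoc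
  have h2' := h2.symm
  have h3 : MeasurePreserving (Prod.swap : ℝ × P → P × ℝ) :=
    Measure.measurePreserving_swap
  have h4 : MeasurePreserving (MeasurableEquiv.prodAssoc : (P × ℝ) × ℝ ≃ᵐ P × ℝ × ℝ) :=
    volume_preserving_prodAssoc
  have h5 : MeasurePreserving (MeasurableEquiv.prodAssoc : (P × P) × (ℝ × ℝ) ≃ᵐ P × P × (ℝ × ℝ)) :=
    volume_preserving_prodAssoc
  have k2 : MeasurePreserving (Prod.map (id : P → P)
      (MeasurableEquiv.prodAssoc : (ℝ × P) × ℝ ≃ᵐ ℝ × P × ℝ).symm) :=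
    (MeasurePreserving.id volume).prod h2'
  have k3 : MeasurePreserving (Prod.map (id : P → P) (Prod.map (Prod.swap : ℝ × P → P × ℝ)
      (id : ℝ → ℝ))) :=
    (MeasurePreserving.id volume).prod (h3.prod (MeasurePreserving.id volume))
  have k4 : MeasurePreserving (Prod.map (id : P → P)
      (MeasurableEquiv.prodAssoc : (P × ℝ) × ℝ ≃ᵐ P × ℝ × ℝ)) :=
    (MeasurePreserving.id volume).prod h4
  exact h5.symm.comp (k4.comp (k3.comp (k2.comp h1)))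

/-- the rearranged set -/
def T (A : Set F3) : Set ((P × P) × (ℝ × ℝ)) :=
  {w | (w.1.1, w.2.1) ∈ A ∧ (w.1.2, w.2.2) ∈ A ∧ (w.1.1 + w.1.2, w.2.1 + w.2.2) ∈ A}

theorem meas_T {A : Set F3} (hA : IsCompact A) : MeasurableSet (T A) := by
  have h1 : MeasurableSet ((fun w : (P × P) × (ℝ × ℝ) => ((w.1.1, w.2.1) : F3)) ⁻¹' A) :=
    hA.measurableSet.preimage (by fun_prop)
  have h2 : MeasurableSet ((fun w : (P × P) × (ℝ × ℝ) => ((w.1.2, w.2.2) : F3)) ⁻¹' A) :=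
    hA.measurableSet.preimage (by fun_prop)
  have h3 : MeasurableSet ((fun w : (P × P) × (ℝ × ℝ) =>
      ((w.1.1 + w.1.2, w.2.1 + w.2.2) : F3)) ⁻¹' A) :=
    hA.measurableSet.preimage (by fun_prop)
  exact h1.inter (h2.inter h3)

theorem vol_tri {A : Set F3} (hA : IsCompact A) :
    volume (tri A) = ∫⁻ y : P × P, volume {z : ℝ × ℝ | (y.1, z.1) ∈ A ∧ (y.2, z.2) ∈ A ∧
      (y.1 + y.2, z.1 + z.2) ∈ A} := by
  have h1 : tri A = ex ⁻¹' (T A) := rfl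
  rw [h1, mp_ex.measure_preimage (meas_T hA).nullMeasurableSet]
  rw [Measure.volume_eq_prod, Measure.prod_apply (meas_T hA)]
  rfl

theorem fibre (hG3 : St_G3) (hG4 : St_G4) {A : Set F3} (hA : IsCompact A) (hc : Convex ℝ A)
    (y : P × P) :
    volume {z : ℝ × ℝ | (y.1, z.1) ∈ A ∧ (y.2, z.2) ∈ A ∧ (y.1 + y.2, z.1 + z.2) ∈ A} ≤
    volume {z : ℝ × ℝ | (y.1, z.1) ∈ sy A ∧ (y.2, z.2) ∈ sy A ∧
      (y.1 + y.2, z.1 + z.2) ∈ sy A} := by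
  obtain ⟨-, -, h⟩ := hG4 A hA hc
  rcases h y.1 with ⟨h1, -⟩ | ⟨a0, b0, hab0, h1, h1'⟩
  · rw [show {z : ℝ × ℝ | (y.1, z.1) ∈ A ∧ (y.2, z.2) ∈ A ∧ (y.1 + y.2, z.1 + z.2) ∈ A} = ∅ from
      Set.eq_empty_iff_forall_notMem.2 fun z hz => h1 _ hz.1, measure_empty]
    exact zero_le
  rcases h y.2 with ⟨h2, -⟩ | ⟨a1, b1, hab1, h2, h2'⟩
  · rw [show {z : ℝ × ℝ | (y.1, z.1) ∈ A ∧ (y.2, z.2) ∈ A ∧ (y.1 + y.2, z.1 + z.2) ∈ A} = ∅ from
      Set.eq_empty_iff_forall_notMem.2 fun z hz => h2 _ hz.2.1, measure_empty]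
    exact zero_le
  rcases h (y.1 + y.2) with ⟨h3, -⟩ | ⟨a2, b2, hab2, h3, h3'⟩
  · rw [show {z : ℝ × ℝ | (y.1, z.1) ∈ A ∧ (y.2, z.2) ∈ A ∧ (y.1 + y.2, z.1 + z.2) ∈ A} = ∅ from
      Set.eq_empty_iff_forall_notMem.2 fun z hz => h3 _ hz.2.2, measure_empty]
    exact zero_le
  have key := hG3 ![a0, a1, a2] ![b0, b1, b2] (by
    intro i
    fin_cases i
    · exact hab0
    · exact hab1
    · exact hab2)
  have e1 : {z : ℝ × ℝ | (y.1, z.1) ∈ A ∧ (y.2, z.2) ∈ A ∧ (y.1 + y.2, z.1 + z.2) ∈ A} =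
      {z : ℝ × ℝ | z.1 ∈ Set.Icc (![a0, a1, a2] 0) (![b0, b1, b2] 0) ∧
        z.2 ∈ Set.Icc (![a0, a1, a2] 1) (![b0, b1, b2] 1) ∧
        z.1 + z.2 ∈ Set.Icc (![a0, a1, a2] 2) (![b0, b1, b2] 2)} := by
    ext z
    exact and_congr (h1 z.1) (and_congr (h2 z.2) (h3 (z.1 + z.2)))
  have e2 : {z : ℝ × ℝ | (y.1, z.1) ∈ sy A ∧ (y.2, z.2) ∈ sy A ∧
      (y.1 + y.2, z.1 + z.2) ∈ sy A} =
      {z : ℝ × ℝ | |z.1| ≤ (![b0, b1, b2] 0 - ![a0, a1, a2] 0) / 2 ∧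
        |z.2| ≤ (![b0, b1, b2] 1 - ![a0, a1, a2] 1) / 2 ∧
        |z.1 + z.2| ≤ (![b0, b1, b2] 2 - ![a0, a1, a2] 2) / 2} := by
    ext z
    exact and_congr (h1' z.1) (and_congr (h2' z.2) (h3' (z.1 + z.2)))
  rw [e1, e2]
  exact key

/-- the inner volume of `A` -/
noncomputable def vv (A : Set F3) (y : P × P) : ℝ≥0∞ :=
  volume {z : ℝ × ℝ | (y.1, z.1) ∈ A ∧ (y.2, z.2) ∈ A ∧ (y.1 + y.2, z.1 + z.2) ∈ A}

theorem meas_vv {A : Set F3} (hA : IsCompact A) : Measurable (vv A) :=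
  measurable_measure_prodMk_left (meas_T hA)

/-- the endpoints of the fibre -/
theorem ends {a b c l : ℝ} (hab : a ≤ b) (hl : 0 < l)
    (h : ∀ s : ℝ, |s - c| ≤ l ↔ s ∈ Set.Icc a b) : a = c - l ∧ b = c + l := by
  have h1 := (h a).2 ⟨le_rfl, hab⟩
  have h2 := (h b).2 ⟨hab, le_rfl⟩
  have h3 := (h (c - l)).1 (by rw [abs_le]; constructor <;> linarith)
  have h4 := (h (c + l)).1 (by rw [abs_le]; constructor <;> linarith)
  rw [abs_le] at h1 h2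
  constructor
  · linarith [h3.1, h1.1]
  · linarith [h4.2, h2.2]

/-- the fibres over `O` -/
theorem fib_ends (hG4 : St_G4) {A : Set F3} (hA : IsCompact A) (hc : Convex ℝ A)
    {O : Set (Fin 2 → ℝ)} {cc ll : (Fin 2 → ℝ) → ℝ} (hF : Fib A O cc ll) (y : Fin 2 → ℝ)
    (hy : y ∈ O) : ∃ a b : ℝ, a = cc y - ll y ∧ b = cc y + ll y ∧
      (∀ s : ℝ, (y, s) ∈ A ↔ s ∈ Set.Icc a b) ∧ ∀ t : ℝ, (y, t) ∈ sy A ↔ |t| ≤ (b - a) / 2 := by
  obtain ⟨-, -, h⟩ := hG4 A hA hc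
  have hpos := hF.pos y hy
  rcases h y with ⟨h1, -⟩ | ⟨a, b, hab, h1, h1'⟩
  · exact absurd ((hF.mem y hy (cc y)).2 (by rw [sub_self, abs_zero]; exact hpos.le)) (h1 _)
  · obtain ⟨ha, hb⟩ := ends hab hpos (fun s => (hF.mem y hy s).symm.trans (h1 s))
    exact ⟨a, b, ha, hb, h1, h1'⟩

theorem strict (hG4 : St_G4) (hQ1 : St_Q1) {A : Set F3} (hA : IsCompact A) (hc : Convex ℝ A)
    {O : Set (Fin 2 → ℝ)} {cc ll : (Fin 2 → ℝ) → ℝ} (hF : Fib A O cc ll) (y : P × P)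
    (hy1 : y.1 ∈ O) (hy2 : y.2 ∈ O) (hy3 : y.1 + y.2 ∈ O)
    (k1 : ll y.1 < ll y.2 + ll (y.1 + y.2)) (k2 : ll y.2 < ll y.1 + ll (y.1 + y.2))
    (k3 : ll (y.1 + y.2) < ll y.1 + ll y.2) (k4 : cc (y.1 + y.2) ≠ cc y.1 + cc y.2) :
    vv A y < vv (sy A) y := by
  obtain ⟨a0, b0, ha0, hb0, h1, h1'⟩ := fib_ends hG4 hA hc hF y.1 hy1
  obtain ⟨a1, b1, ha1, hb1, h2, h2'⟩ := fib_ends hG4 hA hc hF y.2 hy2
  obtain ⟨a2, b2, ha2, hb2, h3, h3'⟩ := fib_ends hG4 hA hc hF (y.1 + y.2) hy3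
  have p1 := hF.pos _ hy1
  have p2 := hF.pos _ hy2
  have p3 := hF.pos _ hy3
  have key := hQ1 ![a0, a1, a2] ![b0, b1, b2] (by
      intro i
      fin_cases i
      · show a0 < b0
        linarith
      · show a1 < b1
        linarith
      · show a2 < b2
        linarith)
    (by show b0 - a0 < (b1 - a1) + (b2 - a2); linarith)
    (by show b1 - a1 < (b0 - a0) + (b2 - a2); linarith)
    (by show b2 - a2 < (b0 - a0) + (b1 - a1); linarith)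
    (by
      show a2 + b2 ≠ (a0 + b0) + (a1 + b1)
      intro h0
      apply k4
      linarith)
  have e1 : {z : ℝ × ℝ | (y.1, z.1) ∈ A ∧ (y.2, z.2) ∈ A ∧ (y.1 + y.2, z.1 + z.2) ∈ A} =
      {z : ℝ × ℝ | z.1 ∈ Set.Icc (![a0, a1, a2] 0) (![b0, b1, b2] 0) ∧
        z.2 ∈ Set.Icc (![a0, a1, a2] 1) (![b0, b1, b2] 1) ∧
        z.1 + z.2 ∈ Set.Icc (![a0, a1, a2] 2) (![b0, b1, b2] 2)} := by
    ext z
    exact and_congr (h1 z.1) (and_congr (h2 z.2) (h3 (z.1 + z.2)))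
  have e2 : {z : ℝ × ℝ | (y.1, z.1) ∈ sy A ∧ (y.2, z.2) ∈ sy A ∧
      (y.1 + y.2, z.1 + z.2) ∈ sy A} =
      {z : ℝ × ℝ | |z.1| ≤ (![b0, b1, b2] 0 - ![a0, a1, a2] 0) / 2 ∧
        |z.2| ≤ (![b0, b1, b2] 1 - ![a0, a1, a2] 1) / 2 ∧
        |z.1 + z.2| ≤ (![b0, b1, b2] 2 - ![a0, a1, a2] 2) / 2} := by
    ext z
    exact and_congr (h1' z.1) (and_congr (h2' z.2) (h3' (z.1 + z.2)))
  unfold vv
  rw [e1, e2]
  exact key

/-- the exceptional set -/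
def Bad (O : Set (Fin 2 → ℝ)) (cc ll : (Fin 2 → ℝ) → ℝ) : Set (P × P) :=
  {w | (w.1 ∈ O ∧ w.2 ∈ O ∧ w.1 + w.2 ∈ O) ∧ ll w.1 < ll w.2 + ll (w.1 + w.2) ∧
    ll w.2 < ll w.1 + ll (w.1 + w.2) ∧ ll (w.1 + w.2) < ll w.1 + ll w.2 ∧
    cc (w.1 + w.2) ≠ cc w.1 + cc w.2}

theorem open_Bad {O : Set (Fin 2 → ℝ)} {cc ll : (Fin 2 → ℝ) → ℝ} (hO : IsOpen O)
    (hcc : ContinuousOn cc O) (hll : ContinuousOn ll O) : IsOpen (Bad O cc ll) := by
  set W : Set (P × P) := {w | w.1 ∈ O ∧ w.2 ∈ O ∧ w.1 + w.2 ∈ O} with hW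
  have c1 : Continuous (fun w : P × P => w.1) := continuous_fst
  have c2 : Continuous (fun w : P × P => w.2) := continuous_snd
  have c3 : Continuous (fun w : P × P => w.1 + w.2) := continuous_fst.add continuous_snd
  have hWo : IsOpen W := (hO.preimage c1).inter ((hO.preimage c2).inter (hO.preimage c3))
  have l1 : ContinuousOn (fun w : P × P => ll w.1) W :=
    hll.comp c1.continuousOn fun w hw => hw.1
  have l2 : ContinuousOn (fun w : P × P => ll w.2) W :=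
    hll.comp c2.continuousOn fun w hw => hw.2.1
  have l3 : ContinuousOn (fun w : P × P => ll (w.1 + w.2)) W :=
    hll.comp c3.continuousOn fun w hw => hw.2.2
  have m1 : ContinuousOn (fun w : P × P => cc w.1) W :=
    hcc.comp c1.continuousOn fun w hw => hw.1
  have m2 : ContinuousOn (fun w : P × P => cc w.2) W :=
    hcc.comp c2.continuousOn fun w hw => hw.2.1
  have m3 : ContinuousOn (fun w : P × P => cc (w.1 + w.2)) W :=
    hcc.comp c3.continuousOn fun w hw => hw.2.2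
  have o1 := ((l2.add l3).sub l1).isOpen_inter_preimage hWo (isOpen_Ioi (a := (0 : ℝ)))
  have o2 := ((l1.add l3).sub l2).isOpen_inter_preimage hWo (isOpen_Ioi (a := (0 : ℝ)))
  have o3 := ((l1.add l2).sub l3).isOpen_inter_preimage hWo (isOpen_Ioi (a := (0 : ℝ)))
  have o4 := (m3.sub (m1.add m2)).isOpen_inter_preimage hWo
    (isOpen_compl_singleton (x := (0 : ℝ)))
  have h := ((o1.inter o2).inter o3).inter o4
  have e : Bad O cc ll =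
      (((W ∩ (fun w : P × P => ll w.2 + ll (w.1 + w.2) - ll w.1) ⁻¹' Set.Ioi 0) ∩
        (W ∩ (fun w : P × P => ll w.1 + ll (w.1 + w.2) - ll w.2) ⁻¹' Set.Ioi 0)) ∩
        (W ∩ (fun w : P × P => ll w.1 + ll w.2 - ll (w.1 + w.2)) ⁻¹' Set.Ioi 0)) ∩
        (W ∩ (fun w : P × P => cc (w.1 + w.2) - (cc w.1 + cc w.2)) ⁻¹' {0}ᶜ) := by
    refine Set.Subset.antisymm ?_ ?_
    · rintro w ⟨hw, k1, k2, k3, k4⟩
      exact ⟨⟨⟨⟨hw, sub_pos.2 k1⟩, ⟨hw, sub_pos.2 k2⟩⟩, ⟨hw, sub_pos.2 k3⟩⟩,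
        ⟨hw, sub_ne_zero.2 k4⟩⟩
    · rintro w ⟨⟨⟨⟨hw, k1⟩, ⟨-, k2⟩⟩, ⟨-, k3⟩⟩, ⟨-, k4⟩⟩
      exact ⟨hw, sub_pos.1 k1, sub_pos.1 k2, sub_pos.1 k3, sub_ne_zero.1 k4⟩
  rw [e]
  exact h

end IQ3

open IQ3 in
/-- [Q3] The centres of the fibres are additive. -/
theorem pr_Q3 (hG3 : St_G3) (hG4 : St_G4) (hQ1 : St_Q1) : St_Q3 := by
  intro A hA heq O cc ll hF y₁ hy₁ y₂ hy₂ hy₁₂ k1 k2 k3
  by_contra k4
  have hK := hA.comp
  have hc := hA.conv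
  have hK' := (hG4 A hK hc).1
  have e1 : volume (tri A) = ∫⁻ y : P × P, vv A y := vol_tri hK
  have e2 : volume (tri (sy A)) = ∫⁻ y : P × P, vv (sy A) y := vol_tri hK'
  have hfin : volume (tri A) ≠ ⊤ := by
    have h1 : tri A ⊆ A ×ˢ A := fun z hz => ⟨hz.1, hz.2.1⟩
    exact ne_top_of_le_ne_top (hK.prod hK).measure_lt_top.ne (measure_mono h1)
  have hle : ∀ y, vv A y ≤ vv (sy A) y := fun y => fibre hG3 hG4 hK hc y
  have hae : vv A =ᵐ[volume] vv (sy A) := by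
    refine ae_eq_of_ae_le_of_lintegral_le (Filter.Eventually.of_forall hle) ?_
      (meas_vv hK').aemeasurable ?_
    · rw [← e1]; exact hfin
    · rw [← e1, ← e2, heq]
  have hnull : volume (Bad O cc ll) = 0 := by
    refine measure_mono_null ?_ (ae_iff.1 hae)
    rintro w ⟨⟨h1, h2, h3⟩, j1, j2, j3, j4⟩
    exact (strict hG4 hQ1 hK hc hF w h1 h2 h3 j1 j2 j3 j4).ne
  have hemp : Bad O cc ll = ∅ :=
    ((open_Bad hF.op hF.cont_c hF.cont_l).measure_eq_zero_iff volume).1 hnull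
  have hmem : (y₁, y₂) ∈ Bad O cc ll := ⟨⟨hy₁, hy₂, hy₁₂⟩, k1, k2, k3, k4⟩
  rw [hemp] at hmem
  exact hmem

end Pool.Agent.Work.MP_b25393_ag.HF
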