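import Pool.Agent.Work.MP_b25393_ag.HF.StmtsQ

/-!
# MP_b25393_ag, block HF, item Q4 (helper85): locally additive functions
-/

set_option autoImplicit false

open scoped LinearAlgebra.Projectivization Pointwise Matrix RealInnerProductSpace ENNReal
open MeasureTheory Filter Topology Matrix TopologicalSpace

namespace Pool.Agent.Work.MP_b25393_ag.HF

open Pool.Agent.Work.MP_b25393_ag

namespace IQ4

/-- the abstract statement: a function additive for small arguments extends to a linear map -/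
theorem ext_add {E : Type} [NormedAddCommGroup E] [NormedSpace ℝ E] (cc : E → ℝ) (δ : ℝ)
    (hδ : 0 < δ) (hc : ContinuousAt cc 0)
    (hadd : ∀ y₁ y₂ : E, ‖y₁‖ < δ → ‖y₂‖ < δ → cc (y₁ + y₂) = cc y₁ + cc y₂) :
    ∃ f : E →ₗ[ℝ] ℝ, ∀ (k : ℕ) (y : E), ‖((1 / 2 : ℝ) ^ k) • y‖ < δ →
      f y = 2 ^ k * cc (((1 / 2 : ℝ) ^ k) • y) := by
  -- one halving step
  have hhalf : ∀ z : E, ‖z‖ < δ → cc z = 2 * cc ((1 / 2 : ℝ) • z) := by
    intro z hz
    have h1 : ‖(1 / 2 : ℝ) • z‖ < δ := by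
      rw [norm_smul, Real.norm_eq_abs, abs_of_pos (by norm_num : (0 : ℝ) < 1 / 2)]
      linarith [norm_nonneg z]
    have h2 := hadd _ _ h1 h1
    rw [← add_smul] at h2
    norm_num at h2
    norm_num
    linarith
  have hmono : ∀ (k j : ℕ) (y : E), ‖((1 / 2 : ℝ) ^ k) • y‖ < δ →
      ‖((1 / 2 : ℝ) ^ (k + j)) • y‖ < δ := by
    intro k j y h
    refine lt_of_le_of_lt ?_ h
    rw [norm_smul, norm_smul]
    refine mul_le_mul_of_nonneg_right ?_ (norm_nonneg y)
    rw [Real.norm_eq_abs, Real.norm_eq_abs, abs_of_pos (by positivity),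
      abs_of_pos (by positivity)]
    exact pow_le_pow_of_le_one (by norm_num) (by norm_num) (Nat.le_add_right k j)
  have hstep : ∀ (k j : ℕ) (y : E), ‖((1 / 2 : ℝ) ^ k) • y‖ < δ →
      (2 : ℝ) ^ (k + j) * cc (((1 / 2 : ℝ) ^ (k + j)) • y) =
        2 ^ k * cc (((1 / 2 : ℝ) ^ k) • y) := by
    intro k j y h
    induction j with
    | zero => rfl
    | succ j ih =>
      rw [← ih, hhalf _ (hmono k j y h), smul_smul, ← pow_succ', ← add_assoc, pow_succ]
      ring
  have hex : ∀ y : E, ∃ k : ℕ, ‖((1 / 2 : ℝ) ^ k) • y‖ < δ := by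
    intro y
    have h1 : Tendsto (fun k : ℕ => ((1 / 2 : ℝ) ^ k) • y) atTop (𝓝 ((0 : ℝ) • y)) :=
      (tendsto_pow_atTop_nhds_zero_of_lt_one (by norm_num) (by norm_num)).smul_const y
    have h2 := h1.norm
    rw [zero_smul, norm_zero] at h2
    exact (h2.eventually_lt_const hδ).exists
  choose N hN using hex
  let g : E → ℝ := fun y => 2 ^ (N y) * cc (((1 / 2 : ℝ) ^ (N y)) • y)
  have hg : ∀ (k : ℕ) (y : E), ‖((1 / 2 : ℝ) ^ k) • y‖ < δ →
      g y = 2 ^ k * cc (((1 / 2 : ℝ) ^ k) • y) := by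
    intro k y h
    have h1 := hstep (N y) k y (hN y)
    have h2 := hstep k (N y) y h
    rw [add_comm k] at h2
    exact h1.symm.trans h2
  have hgadd : ∀ y y' : E, g (y + y') = g y + g y' := by
    intro y y'
    have h1 := hmono (N y) (N y' + N (y + y')) y (hN y)
    have h2 := hmono (N y') (N y + N (y + y')) y' (hN y')
    have h3 := hmono (N (y + y')) (N y + N y') (y + y') (hN (y + y'))
    have e2 : N y' + (N y + N (y + y')) = N y + (N y' + N (y + y')) := by ring
    have e3 : N (y + y') + (N y + N y') = N y + (N y' + N (y + y')) := by ring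
    rw [e2] at h2
    rw [e3] at h3
    rw [hg _ _ h1, hg _ _ h2, hg _ _ h3, smul_add, hadd _ _ h1 h2]
    ring
  let G : E →+ ℝ := AddMonoidHom.mk' g hgadd
  have hG0 : ContinuousAt G 0 := by
    have h1 : cc =ᶠ[𝓝 0] G := by
      filter_upwards [Metric.ball_mem_nhds (0 : E) hδ] with y hy
      rw [mem_ball_zero_iff] at hy
      have := hg 0 y (by simpa using hy)
      simp only [pow_zero, one_smul, one_mul] at this
      exact this.symm
    exact hc.congr h1
  have hGc : Continuous G := continuous_of_continuousAt_zero G hG0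
  refine ⟨(G.toRealLinearMap hGc : E →ₗ[ℝ] ℝ), fun k y h => ?_⟩
  exact hg k y h

end IQ4

open IQ4 in
theorem pr_Q4 : St_Q4 := by
  intro O cc hO hconv h0 hcont hhalf hδ
  obtain ⟨δ, hδ, hadd⟩ := hδ
  obtain ⟨f, hf⟩ := ext_add cc δ hδ (hcont.continuousAt (hO.mem_nhds h0)) hadd
  refine ⟨f, fun y hy => ?_⟩
  have hmem : ∀ k : ℕ, ((1 / 2 : ℝ) ^ k) • y ∈ O := by
    intro k
    have := hconv hy h0 (by positivity : (0 : ℝ) ≤ (1 / 2 : ℝ) ^ k)
      (sub_nonneg.2 (pow_le_one₀ (by norm_num) (by norm_num)) : (0 : ℝ) ≤ 1 - (1 / 2 : ℝ) ^ k)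
      (by ring)
    rwa [smul_zero, add_zero] at this
  have hall : ∀ k : ℕ, cc y = 2 ^ k * cc (((1 / 2 : ℝ) ^ k) • y) := by
    intro k
    induction k with
    | zero => simp
    | succ k ih =>
      rw [ih, hhalf _ (hmem k), smul_smul, ← pow_succ', pow_succ]
      ring
  obtain ⟨k, hk⟩ : ∃ k : ℕ, ‖((1 / 2 : ℝ) ^ k) • y‖ < δ := by
    have h1 : Tendsto (fun k : ℕ => ((1 / 2 : ℝ) ^ k) • y) atTop (𝓝 ((0 : ℝ) • y)) :=
      (tendsto_pow_atTop_nhds_zero_of_lt_one (by norm_num) (by norm_num)).smul_const y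
    have h2 := h1.norm
    rw [zero_smul, norm_zero] at h2
    exact (h2.eventually_lt_const hδ).exists
  rw [hf k y hk]
  exact hall k

end Pool.Agent.Work.MP_b25393_ag.HF
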