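import Pool.Agent.Work.MP_b25393_ag.HF.StmtsQ

/-!
# MP_b25393_ag, block HF, item Q5: equality for the symmetral, uncorrelated coordinates
-/

set_option autoImplicit false

open scoped LinearAlgebra.Projectivization Pointwise Matrix RealInnerProductSpace ENNReal
open MeasureTheory Filter Topology Matrix TopologicalSpace

namespace Pool.Agent.Work.MP_b25393_ag.HF

open Pool.Agent.Work.MP_b25393_ag

namespace IQ5

variable {A : Set F3} {O : Set (Fin 2 → ℝ)} {cc ll : (Fin 2 → ℝ) → ℝ}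

theorem half_mem (hF : Fib A O cc ll) {y : Fin 2 → ℝ} (hy : y ∈ O) : (1 / 2 : ℝ) • y ∈ O := by
  have h := hF.conv hF.zero hy (by norm_num : (0 : ℝ) ≤ 1 / 2) (by norm_num : (0 : ℝ) ≤ 1 / 2)
    (by norm_num)
  rw [smul_zero, zero_add] at h
  exact h

theorem half_add (y : Fin 2 → ℝ) : (1 / 2 : ℝ) • y + (1 / 2 : ℝ) • y = y := by
  rw [← add_smul]
  norm_num

theorem halves (hQ3 : St_Q3) (hA : Body A) (ht : volume (tri A) = volume (tri (sy A)))
    (hF : Fib A O cc ll) : ∀ y ∈ O, cc y = 2 * cc ((1 / 2 : ℝ) • y) := by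
  intro y hy
  have h1 := half_mem hF hy
  have h2 := hF.conc y hy 0 hF.zero
  rw [add_zero] at h2
  have p0 := hF.pos 0 hF.zero
  have py := hF.pos y hy
  have h3 := hQ3 A hA ht O cc ll hF _ h1 _ h1 (by rw [half_add]; exact hy)
    (by rw [half_add]; linarith) (by rw [half_add]; linarith) (by rw [half_add]; linarith)
  rw [half_add] at h3
  linarith

theorem small (hQ3 : St_Q3) (hA : Body A) (ht : volume (tri A) = volume (tri (sy A)))
    (hF : Fib A O cc ll) : ∃ δ : ℝ, 0 < δ ∧ ∀ y₁ y₂ : Fin 2 → ℝ, ‖y₁‖ < δ → ‖y₂‖ < δ →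
      cc (y₁ + y₂) = cc y₁ + cc y₂ := by
  have p0 := hF.pos 0 hF.zero
  have hO : O ∈ 𝓝 (0 : Fin 2 → ℝ) := hF.op.mem_nhds hF.zero
  have hc : ContinuousAt ll 0 := hF.cont_l.continuousAt hO
  have hlow : ∀ᶠ y in 𝓝 (0 : Fin 2 → ℝ), 2 / 3 * ll 0 < ll y :=
    hc.eventually_const_lt (by linarith)
  have hupp : ∀ᶠ y in 𝓝 (0 : Fin 2 → ℝ), ll y < 4 / 3 * ll 0 :=
    hc.eventually_lt_const (by linarith)
  have hall : ∀ᶠ y in 𝓝 (0 : Fin 2 → ℝ), y ∈ O ∧ 2 / 3 * ll 0 < ll y ∧ ll y < 4 / 3 * ll 0 :=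
    Filter.Eventually.and hO (hlow.and hupp)
  obtain ⟨δ, hδ, h⟩ := Metric.eventually_nhds_iff.1 hall
  have hball : ∀ y : Fin 2 → ℝ, ‖y‖ < δ →
      y ∈ O ∧ 2 / 3 * ll 0 < ll y ∧ ll y < 4 / 3 * ll 0 := by
    intro y hy
    exact h (by rw [dist_zero_right]; exact hy)
  refine ⟨δ / 2, by linarith, ?_⟩
  intro y₁ y₂ h1 h2
  have h3 : ‖y₁ + y₂‖ < δ := lt_of_le_of_lt (norm_add_le _ _) (by linarith)
  obtain ⟨a1, a2, a3⟩ := hball y₁ (by linarith)
  obtain ⟨b1, b2, b3⟩ := hball y₂ (by linarith)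
  obtain ⟨c1, c2, c3⟩ := hball _ h3
  exact hQ3 A hA ht O cc ll hF y₁ a1 y₂ b1 c1 (by linarith) (by linarith) (by linarith)

/-- the mean of the height over a fibre -/
theorem fibre (f a b : ℝ) (hab : a ≤ b) :
    ∫ s in Set.Icc a b, f * s = f * ((b ^ 2 - a ^ 2) / 2) := by
  rw [integral_const_mul, integral_Icc_eq_integral_Ioc, ← intervalIntegral.integral_of_le hab,
    integral_id]

theorem fub (hA : Body A) (hF : Fib A O cc ll) (f : (Fin 2 → ℝ) →ₗ[ℝ] ℝ)
    (hf : ∀ y ∈ O, cc y = f y) (h0 : ∫ z in A, f z.1 * z.2 = 0) : ∀ y ∈ O, f y = 0 := by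
  have fc : Continuous f := f.continuous_of_finiteDimensional
  have gc : Continuous (fun z : F3 => f z.1 * z.2) :=
    (fc.comp continuous_fst).mul continuous_snd
  have gi : IntegrableOn (fun z : F3 => f z.1 * z.2) A volume :=
    gc.continuousOn.integrableOn_compact hA.comp
  have mA : MeasurableSet A := hA.comp.isClosed.measurableSet
  have mO : MeasurableSet (Prod.fst ⁻¹' O : Set F3) :=
    (hF.op.preimage continuous_fst).measurableSet
  obtain ⟨A', hA'⟩ : ∃ A' : Set F3, A' = A ∩ Prod.fst ⁻¹' O := ⟨_, rfl⟩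
  have mA' : MeasurableSet A' := by
    rw [hA']
    exact mA.inter mO
  have hae : A' =ᵐ[volume] A := by
    rw [ae_eq_set]
    constructor
    · have h1 : A' \ A = ∅ := by
        rw [hA', Set.diff_eq_empty]
        exact Set.inter_subset_left
      rw [h1, measure_empty]
    · have h1 : A \ A' = {z | z ∈ A ∧ z.1 ∉ O} := by
        ext z
        rw [hA']
        constructor
        · rintro ⟨h2, h3⟩
          exact ⟨h2, fun h4 => h3 ⟨h2, h4⟩⟩
        · rintro ⟨h2, h3⟩
          exact ⟨h2, fun h4 => h3 h4.2⟩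
      rw [h1]
      exact hF.null
  have h1 : ∫ z, A'.indicator (fun z : F3 => f z.1 * z.2) z = 0 := by
    rw [integral_indicator mA', setIntegral_congr_set hae, h0]
  have h3 : Integrable (A'.indicator (fun z : F3 => f z.1 * z.2)) volume := by
    rw [integrable_indicator_iff mA']
    refine gi.mono_set ?_
    rw [hA']
    exact Set.inter_subset_left
  have h4 : ∫ z, A'.indicator (fun z : F3 => f z.1 * z.2) z =
      ∫ y, ∫ s, A'.indicator (fun z : F3 => f z.1 * z.2) (y, s) := integral_prod _ h3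
  have h5 : ∀ y : Fin 2 → ℝ, ∫ s, A'.indicator (fun z : F3 => f z.1 * z.2) (y, s) =
      O.indicator (fun y => 2 * ll y * f y ^ 2) y := by
    intro y
    by_cases hy : y ∈ O
    · rw [Set.indicator_of_mem hy]
      have e1 : (fun s : ℝ => A'.indicator (fun z : F3 => f z.1 * z.2) (y, s)) =
          (Set.Icc (cc y - ll y) (cc y + ll y)).indicator (fun s => f y * s) := by
        funext s
        by_cases hs : s ∈ Set.Icc (cc y - ll y) (cc y + ll y)
        · have hm : ((y, s) : F3) ∈ A' := by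
            rw [hA']
            refine ⟨(hF.mem y hy s).2 ?_, hy⟩
            rw [abs_le]
            constructor
            · linarith [hs.1]
            · linarith [hs.2]
          rw [Set.indicator_of_mem hs, Set.indicator_of_mem hm]
        · have hm : ((y, s) : F3) ∉ A' := by
            intro hm
            rw [hA'] at hm
            have h6 := (hF.mem y hy s).1 hm.1
            rw [abs_le] at h6
            exact hs ⟨by linarith [h6.1], by linarith [h6.2]⟩
          rw [Set.indicator_of_notMem hs, Set.indicator_of_notMem hm]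
      rw [e1, integral_indicator measurableSet_Icc,
        fibre _ _ _ (by linarith [hF.pos y hy]), hf y hy]
      ring
    · rw [Set.indicator_of_notMem hy]
      have e1 : (fun s : ℝ => A'.indicator (fun z : F3 => f z.1 * z.2) (y, s)) =
          fun _ => 0 := by
        funext s
        have hm : ((y, s) : F3) ∉ A' := by
          intro hm
          rw [hA'] at hm
          exact hy hm.2
        rw [Set.indicator_of_notMem hm]
      rw [e1, integral_zero]
  have h6 : Integrable (fun y : Fin 2 → ℝ => O.indicator (fun y => 2 * ll y * f y ^ 2) y)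
      volume := by
    have h7 : Integrable (fun y : Fin 2 → ℝ =>
      ∫ s, A'.indicator (fun z : F3 => f z.1 * z.2) (y, s)) volume := h3.integral_prod_left
    have h8 : (fun y : Fin 2 → ℝ =>
      ∫ s, A'.indicator (fun z : F3 => f z.1 * z.2) (y, s)) =
        fun y : Fin 2 → ℝ => O.indicator (fun y => 2 * ll y * f y ^ 2) y := funext h5
    rw [h8] at h7
    exact h7
  have h7 : ∫ y : Fin 2 → ℝ, O.indicator (fun y => 2 * ll y * f y ^ 2) y = 0 := by
    rw [← h1, h4]
    exact integral_congr_ae (Filter.Eventually.of_forall fun y => (h5 y).symm)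
  have h8 : 0 ≤ fun y : Fin 2 → ℝ => O.indicator (fun y => 2 * ll y * f y ^ 2) y := by
    intro y
    show (0 : ℝ) ≤ O.indicator (fun y => 2 * ll y * f y ^ 2) y
    by_cases hy : y ∈ O
    · rw [Set.indicator_of_mem hy]
      have := hF.pos y hy
      positivity
    · rw [Set.indicator_of_notMem hy]
  have h9 := (integral_eq_zero_iff_of_nonneg h8 h6).1 h7
  by_contra hcon
  push Not at hcon
  obtain ⟨y₀, hy₀, hne⟩ := hcon
  have hU : IsOpen (O ∩ {y : Fin 2 → ℝ | f y ≠ 0}) :=
    hF.op.inter (isOpen_ne_fun fc continuous_const)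
  have hU0 : volume (O ∩ {y : Fin 2 → ℝ | f y ≠ 0}) = 0 := by
    have h10 : volume {y : Fin 2 → ℝ | ¬ (O.indicator (fun y => 2 * ll y * f y ^ 2) y =
        (0 : (Fin 2 → ℝ) → ℝ) y)} = 0 := h9
    refine measure_mono_null ?_ h10
    rintro y ⟨hy, hfy⟩
    show ¬ (O.indicator (fun y => 2 * ll y * f y ^ 2) y = 0)
    rw [Set.indicator_of_mem hy]
    have hp := hF.pos y hy
    have hfy' : f y ≠ 0 := hfy
    positivity
  have hU1 := (hU.measure_eq_zero_iff (volume : Measure (Fin 2 → ℝ))).1 hU0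
  have h11 : y₀ ∈ (∅ : Set (Fin 2 → ℝ)) := by
    rw [← hU1]
    exact ⟨hy₀, hne⟩
  exact h11

theorem lin (hA : Body A) (f : (Fin 2 → ℝ) →ₗ[ℝ] ℝ)
    (hi : ∀ i : Fin 2, ∫ z in A, z.1 i * z.2 = 0) : ∫ z in A, f z.1 * z.2 = 0 := by
  have h1 : ∀ z : F3, f z.1 * z.2 =
      ∑ i : Fin 2, f (Pi.single i 1) * (z.1 i * z.2) := by
    intro z
    have h2 : f z.1 = ∑ i : Fin 2, z.1 i * f (Pi.single i 1) := by
      conv_lhs => rw [pi_eq_sum_univ' z.1]
      rw [map_sum]
      refine Finset.sum_congr rfl fun i _ => ?_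
      rw [map_smul, smul_eq_mul]
    rw [h2, Finset.sum_mul]
    refine Finset.sum_congr rfl fun i _ => ?_
    ring
  have h3 : ∀ i : Fin 2, IntegrableOn (fun z : F3 => f (Pi.single i 1) * (z.1 i * z.2)) A
      volume := by
    intro i
    refine Continuous.continuousOn ?_ |>.integrableOn_compact hA.comp
    fun_prop
  simp only [h1]
  rw [integral_finset_sum _ fun i _ => h3 i]
  refine Finset.sum_eq_zero fun i _ => ?_
  rw [integral_const_mul, hi i, mul_zero]

end IQ5

theorem pr_Q5 (hQ2 : St_Q2) (hQ3 : St_Q3) (hQ4 : St_Q4) : St_Q5 := by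
  intro A hA ht hi
  obtain ⟨O, cc, ll, hF⟩ := hQ2 A hA
  obtain ⟨f, hf⟩ := hQ4 O cc hF.op hF.conv hF.zero hF.cont_c (IQ5.halves hQ3 hA ht hF)
    (IQ5.small hQ3 hA ht hF)
  have h0 := IQ5.fub hA hF f hf (IQ5.lin hA f hi)
  have hcl : IsClosed {z : F3 | ((z.1, -z.2) : F3) ∈ A} :=
    hA.comp.isClosed.preimage (f := fun z : F3 => ((z.1, -z.2) : F3)) (by fun_prop)
  intro z hz
  have h1 : closure {z' : F3 | z' ∈ A ∧ z'.1 ∈ O} ⊆ {z : F3 | ((z.1, -z.2) : F3) ∈ A} := by
    refine closure_minimal ?_ hcl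
    rintro ⟨y, s⟩ ⟨h2, h3⟩
    have h3' : y ∈ O := h3
    have h4 : cc y = 0 := by rw [hf y h3', h0 y h3']
    have h5 := (hF.mem y h3' s).1 h2
    refine (hF.mem y h3' (-s)).2 ?_
    rw [h4, sub_zero] at h5 ⊢
    rw [abs_neg]
    exact h5
  exact h1 (hF.out z hz)

end Pool.Agent.Work.MP_b25393_ag.HF
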