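import Pool.Agent.Work.MP_b25393_ag.HF.StmtsQ

/-!
# MP_b25393_ag, block HF, item Q6 (helper59): an isotropic body with `qq K = 15/32` is invariant under
all reflections
-/

set_option autoImplicit false

open scoped LinearAlgebra.Projectivization Pointwise Matrix RealInnerProductSpace ENNReal
open MeasureTheory Filter Topology Matrix TopologicalSpace

namespace Pool.Agent.Work.MP_b25393_ag.HF

open Pool.Agent.Work.MP_b25393_ag

namespace IQ6

lemma inner_eq {e : E3} {Ψ : E3 ≃L[ℝ] F3} (h : Adp e Ψ) (x y : E3) :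
    ⟪x, y⟫ = (Ψ x).1 0 * (Ψ y).1 0 + (Ψ x).1 1 * (Ψ y).1 1 + (Ψ x).2 * (Ψ y).2 := by
  have h1 := norm_add_sq_real x y
  rw [h.nrm (x + y), h.nrm x, h.nrm y] at h1
  simp only [map_add, Prod.fst_add, Prod.snd_add, Pi.add_apply] at h1
  linarith

lemma inner_b {e : E3} {Ψ : E3 ≃L[ℝ] F3} (h : Adp e Ψ) (i : Fin 2) (x : E3) :
    ⟪Ψ.symm (Pi.single i 1, 0), x⟫ = (Ψ x).1 i := by
  rw [inner_eq h, ContinuousLinearEquiv.apply_symm_apply]
  fin_cases i <;> simp

lemma tri_lt_top {K : Set E3} (h : IsCompact K) : volume (tri K) < ⊤ := by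
  have h1 : tri K ⊆ K ×ˢ K := fun z hz => ⟨hz.1, hz.2.1⟩
  exact (measure_mono h1).trans_lt (h.prod h).measure_lt_top

lemma inte_of_pos {K : Set E3} (hc : IsCompact K) (hconv : Convex ℝ K) (hv : volume K ≠ 0) :
    (interior K).Nonempty := by
  by_contra h
  rw [Set.not_nonempty_iff_eq_empty] at h
  apply hv
  have h1 := hconv.addHaar_frontier (volume : Measure E3)
  rwa [hc.isClosed.frontier_eq, h, Set.sdiff_empty] at h1

end IQ6

open IQ6 in
theorem pr_Q6 (hE1 : St_E1) (hE2 : St_E2) (hE3 : St_E3) (hE4 : St_E4) (hB3 : St_B3)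
    (hQ5 : St_Q5) : St_Q6 := by
  intro K hK hq hiso e he x hx
  obtain ⟨Ψ, hΨ⟩ := hE2 e he
  have hne : K.Nonempty := ⟨x, hx⟩
  obtain ⟨c1, c2, c3, c4, -⟩ := hE1 e he K hK.comp hK.conv hne
  obtain ⟨v1, v2, -⟩ := hE4 e he K hK.comp hK.conv hne
  -- volumes
  have hv0 : volume K ≠ 0 := (Measure.measure_pos_of_nonempty_interior volume hK.inte).ne'
  have hvt : volume K ≠ ⊤ := hK.comp.measure_lt_top.ne
  have hbS : Body (St e K) := ⟨c2, c1, c4 hK.symm, inte_of_pos c1 c2 (by rw [v1]; exact hv0)⟩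
  have hvr : 0 < (volume K).toReal := ENNReal.toReal_pos hv0 hvt
  have e1 : volume (tri K) = volume (tri (St e K)) := by
    refine le_antisymm v2 ?_
    have h1 := hB3.1 _ hbS
    rw [← hq] at h1
    unfold qq at h1
    rw [v1] at h1
    have h2 : (volume (tri (St e K))).toReal ≤ (volume (tri K)).toReal :=
      (div_le_div_iff_of_pos_right (by positivity)).1 h1
    exact (ENNReal.toReal_le_toReal (tri_lt_top c1).ne (tri_lt_top hK.comp).ne).1 h2
  obtain ⟨w1, -, w3, -⟩ := hE3 e Ψ hΨ K hK.comp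
  obtain ⟨-, -, w3', -⟩ := hE3 e Ψ hΨ (St e K) c1
  have e2 : volume (tri (Ψ '' K)) = volume (tri (sy (Ψ '' K))) := by
    rw [w3, e1, ← w3', w1]
  -- the body `A`
  have hA : Body (Ψ '' K) := by
    refine ⟨hK.conv.linear_image Ψ.toLinearEquiv.toLinearMap, hK.comp.image Ψ.continuous, ?_, ?_⟩
    · rintro _ ⟨y, hy, rfl⟩
      exact ⟨-y, hK.symm y hy, map_neg Ψ y⟩
    · have h1 : Ψ '' interior K = interior (Ψ '' K) := Ψ.toHomeomorph.image_interior K
      rw [← h1]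
      exact hK.inte.image _
  -- the moments
  have hm : ∀ i : Fin 2, ∫ z in Ψ '' K, z.1 i * z.2 = 0 := by
    intro i
    have h1 : ∫ z in Ψ '' K, z.1 i * z.2 = ∫ y in K, (Ψ y).1 i * (Ψ y).2 :=
      hΨ.mp.setIntegral_image_emb Ψ.toHomeomorph.measurableEmbedding
        (fun z : F3 => z.1 i * z.2) K
    rw [h1]
    have h2 : ⟪Ψ.symm (Pi.single i 1, 0), e⟫ = 0 := by
      rw [inner_b hΨ, hΨ.at_e]; rfl
    have h3 := hiso _ _ h2
    rw [← h3]
    refine integral_congr_ae (Eventually.of_forall fun y => ?_)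
    simp only
    rw [inner_b hΨ, hΨ.snd]
  obtain ⟨y, hy, hyx⟩ := hQ5 (Ψ '' K) hA e2 hm (Ψ x) ⟨x, hx, rfl⟩
  have h4 : Ψ (x - (2 * ⟪e, x⟫) • e) = ((Ψ x).1, -(Ψ x).2) := by
    rw [map_sub, map_smul, hΨ.at_e, ← hΨ.snd]
    ext i
    · simp
    · simp; ring
  have h5 : x - (2 * ⟪e, x⟫) • e = y := Ψ.injective (h4.trans hyx.symm)
  rw [h5]
  exact hy

end Pool.Agent.Work.MP_b25393_ag.HF
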