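import Pool.Agent.Work.MP_b25393_ag.HF.StmtsQ

/-!
# MP_b25393_ag, block HF, item Q7: isotropic position
-/

set_option autoImplicit false

open scoped LinearAlgebra.Projectivization Pointwise Matrix RealInnerProductSpace ENNReal
open MeasureTheory Filter Topology Matrix TopologicalSpace

namespace Pool.Agent.Work.MP_b25393_ag.HF

open Pool.Agent.Work.MP_b25393_ag

namespace IQ7

theorem intg {K : Set E3} (hK : Body K) (u v : E3) :
    IntegrableOn (fun x => ⟪u, x⟫ * ⟪v, x⟫) K := by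
  refine ContinuousOn.integrableOn_compact hK.comp (Continuous.continuousOn ?_)
  exact (continuous_const.inner continuous_id).mul (continuous_const.inner continuous_id)

/-- the second moment form -/
noncomputable def B {K : Set E3} (hK : Body K) : LinearMap.BilinForm ℝ E3 :=
  LinearMap.mk₂ ℝ (fun u v => ∫ x in K, ⟪u, x⟫ * ⟪v, x⟫)
    (fun u u' v => by
      rw [← integral_add (intg hK u v) (intg hK u' v)]
      refine integral_congr_ae (Filter.Eventually.of_forall fun x => ?_)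
      show ⟪u + u', x⟫ * ⟪v, x⟫ = ⟪u, x⟫ * ⟪v, x⟫ + ⟪u', x⟫ * ⟪v, x⟫
      rw [inner_add_left]
      ring)
    (fun c u v => by
      rw [smul_eq_mul, ← integral_const_mul]
      refine integral_congr_ae (Filter.Eventually.of_forall fun x => ?_)
      show ⟪c • u, x⟫ * ⟪v, x⟫ = c * (⟪u, x⟫ * ⟪v, x⟫)
      rw [real_inner_smul_left]
      ring)
    (fun u v v' => by
      rw [← integral_add (intg hK u v) (intg hK u v')]
      refine integral_congr_ae (Filter.Eventually.of_forall fun x => ?_)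
      show ⟪u, x⟫ * ⟪v + v', x⟫ = ⟪u, x⟫ * ⟪v, x⟫ + ⟪u, x⟫ * ⟪v', x⟫
      rw [inner_add_left]
      ring)
    (fun c u v => by
      rw [smul_eq_mul, ← integral_const_mul]
      refine integral_congr_ae (Filter.Eventually.of_forall fun x => ?_)
      show ⟪u, x⟫ * ⟪c • v, x⟫ = c * (⟪u, x⟫ * ⟪v, x⟫)
      rw [real_inner_smul_left]
      ring)

theorem B_apply {K : Set E3} (hK : Body K) (u v : E3) :
    B hK u v = ∫ x in K, ⟪u, x⟫ * ⟪v, x⟫ := rfl

theorem B_symm {K : Set E3} (hK : Body K) : LinearMap.IsSymm (B hK) := by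
  constructor
  intro u v
  show (∫ x in K, ⟪u, x⟫ * ⟪v, x⟫) = ∫ x in K, ⟪v, x⟫ * ⟪u, x⟫
  refine integral_congr_ae (Filter.Eventually.of_forall fun x => ?_)
  exact mul_comm _ _

theorem B_pos {K : Set E3} (hK : Body K) {u : E3} (hu : u ≠ 0) : 0 < B hK u u := by
  rw [B_apply, setIntegral_pos_iff_support_of_nonneg_ae
    (Filter.Eventually.of_forall fun x => mul_self_nonneg _) (intg hK u u)]
  have hc : Continuous fun x : E3 => ⟪u, x⟫ := continuous_const.inner continuous_id
  have hop : IsOpen ({x : E3 | ⟪u, x⟫ ≠ 0} ∩ interior K) :=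
    (isOpen_ne_fun hc continuous_const).inter isOpen_interior
  have hne : ({x : E3 | ⟪u, x⟫ ≠ 0} ∩ interior K).Nonempty := by
    obtain ⟨x0, hx0⟩ := hK.inte
    by_cases h0 : ⟪u, x0⟫ = 0
    · have h1 : Tendsto (fun t : ℝ => x0 + t • u) (𝓝 0) (𝓝 (x0 + (0 : ℝ) • u)) :=
        Continuous.tendsto (by fun_prop) 0
      rw [zero_smul, add_zero] at h1
      have h2 : ∀ᶠ t in 𝓝 (0 : ℝ), x0 + t • u ∈ interior K :=
        h1.eventually (isOpen_interior.mem_nhds hx0)
      have h3 : ∀ᶠ t in 𝓝[≠] (0 : ℝ), x0 + t • u ∈ interior K ∧ t ≠ 0 :=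
        (h2.filter_mono nhdsWithin_le_nhds).and self_mem_nhdsWithin
      obtain ⟨t, ht, ht0⟩ := h3.exists
      refine ⟨x0 + t • u, ?_, ht⟩
      show ⟪u, x0 + t • u⟫ ≠ 0
      rw [inner_add_right, h0, zero_add, real_inner_smul_right]
      exact mul_ne_zero ht0 (inner_self_ne_zero.mpr hu)
    · exact ⟨x0, h0, hx0⟩
  refine lt_of_lt_of_le (hop.measure_pos volume hne) (measure_mono ?_)
  rintro x ⟨hx1, hx2⟩
  exact ⟨mul_ne_zero hx1 hx1, interior_subset hx2⟩

theorem exists_basis {K : Set E3} (hK : Body K) : ∃ f : Fin 3 → E3,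
    (∀ i j, B hK (f i) (f j) = if i = j then 1 else 0) ∧ ∀ x : E3, (∀ i, ⟪f i, x⟫ = 0) → x = 0 := by
  obtain ⟨w, hw⟩ := LinearMap.BilinForm.exists_orthogonal_basis (B_symm hK)
  have h3 : Module.finrank ℝ E3 = 3 := by simp
  set w' : Module.Basis (Fin 3) ℝ E3 := w.reindex (finCongr h3) with hw'
  have hort : ∀ i j, i ≠ j → B hK (w' i) (w' j) = 0 := by
    intro i j hij
    rw [hw', Module.Basis.reindex_apply, Module.Basis.reindex_apply]
    exact hw fun h => hij ((finCongr h3).symm.injective h)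
  have hpos : ∀ i, 0 < B hK (w' i) (w' i) := fun i => B_pos hK (w'.ne_zero i)
  refine ⟨fun i => (Real.sqrt (B hK (w' i) (w' i)))⁻¹ • w' i, fun i j => ?_, fun x hx => ?_⟩
  · rw [map_smul, map_smul, LinearMap.smul_apply, smul_eq_mul, smul_eq_mul]
    by_cases h : i = j
    · subst h
      rw [if_pos rfl]
      have h1 := Real.mul_self_sqrt (hpos i).le
      have h2 : Real.sqrt (B hK (w' i) (w' i)) ≠ 0 := (Real.sqrt_pos.mpr (hpos i)).ne'
      field_simp
      rw [sq, h1]
    · rw [if_neg h, hort i j h, mul_zero, mul_zero]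
  · have h1 : ∀ i, ⟪w' i, x⟫ = 0 := by
      intro i
      have h2 := hx i
      rw [real_inner_smul_left] at h2
      rcases mul_eq_zero.mp h2 with h3 | h3
      · exact absurd h3 (inv_ne_zero (Real.sqrt_pos.mpr (hpos i)).ne')
      · exact h3
    exact InnerProductSpace.ext_inner_left_basis w' fun i => by rw [h1 i, inner_zero_right]

end IQ7

open IQ7 in
theorem pr_Q7 : St_Q7 := by
  intro K hK
  obtain ⟨f, hf, hinj⟩ := exists_basis hK
  let T0 : E3 →ₗ[ℝ] E3 :=
    { toFun := fun x => WithLp.toLp 2 fun i => ⟪f i, x⟫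
      map_add' := by
        intro x y
        ext i
        show ⟪f i, x + y⟫ = ⟪f i, x⟫ + ⟪f i, y⟫
        exact inner_add_right _ _ _
      map_smul' := by
        intro c x
        ext i
        show ⟪f i, c • x⟫ = c * ⟪f i, x⟫
        exact real_inner_smul_right _ _ _ }
  have hT0 : Function.Injective T0 := by
    rw [← LinearMap.ker_eq_bot, LinearMap.ker_eq_bot']
    intro x hx
    refine hinj x fun i => ?_
    have := congrArg (fun z : E3 => z i) hx
    exact this
  let T : E3 ≃L[ℝ] E3 := (LinearEquiv.ofInjectiveEndo T0 hT0).toContinuousLinearEquiv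
  have hT : ∀ (u x : E3), ⟪u, T x⟫ = ⟪∑ i, u i • f i, x⟫ := by
    intro u x
    rw [PiLp.inner_apply, sum_inner]
    refine Finset.sum_congr rfl fun i _ => ?_
    rw [real_inner_smul_left]
    show inner ℝ (u i) (⟪f i, x⟫) = u i * ⟪f i, x⟫
    simp [mul_comm]
  have hB : ∀ u v : E3, B hK (∑ i, u i • f i) (∑ i, v i • f i) = ⟪u, v⟫ := by
    intro u v
    rw [map_sum (B hK), LinearMap.sum_apply, PiLp.inner_apply]
    refine Finset.sum_congr rfl fun i _ => ?_
    rw [map_smul, LinearMap.smul_apply, map_sum, Finset.sum_eq_single i]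
    · rw [map_smul, hf, if_pos rfl]
      simp [mul_comm]
    · intro j _ hj
      rw [map_smul, hf, if_neg hj.symm, smul_zero]
    · intro h
      exact absurd (Finset.mem_univ i) h
  refine ⟨T, fun u v huv => ?_⟩
  have hcv := integral_image_eq_integral_abs_det_fderiv_smul volume
    (s := K) (f := fun x => T x) (f' := fun _ => (T : E3 →L[ℝ] E3)) hK.comp.measurableSet
    (fun x _ => (T : E3 →L[ℝ] E3).hasFDerivWithinAt) T.injective.injOn
    (fun z => ⟪u, z⟫ * ⟪v, z⟫)
  refine hcv.trans ?_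
  have h1 : ∀ x, |(T : E3 →L[ℝ] E3).det| • (⟪u, T x⟫ * ⟪v, T x⟫) =
      |(T : E3 →L[ℝ] E3).det| * (⟪∑ i, u i • f i, x⟫ * ⟪∑ i, v i • f i, x⟫) := by
    intro x
    rw [hT u x, hT v x, smul_eq_mul]
  simp only [h1]
  rw [integral_const_mul]
  have h2 : (∫ x in K, ⟪∑ i, u i • f i, x⟫ * ⟪∑ i, v i • f i, x⟫) = ⟪u, v⟫ := hB u v
  rw [h2, huv, mul_zero]

end Pool.Agent.Work.MP_b25393_ag.HF
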