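import Pool.Agent.Work.MP_b25393_ag.HF.StmtsQ

/-!
# MP_b25393_ag, block HF, item Q8: linear invariance
-/

set_option autoImplicit false

open scoped LinearAlgebra.Projectivization Pointwise Matrix RealInnerProductSpace ENNReal
open MeasureTheory Filter Topology Matrix TopologicalSpace

namespace Pool.Agent.Work.MP_b25393_ag.HF

open Pool.Agent.Work.MP_b25393_ag

namespace IQ8

/-- The image of a body under a linear homeomorphism is a body. -/
theorem body {E : Type} [NormedAddCommGroup E] [NormedSpace ℝ E] (T : E ≃L[ℝ] E) (K : Set E)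
    (hK : Body K) : Body (T '' K) := by
  refine ⟨?_, ?_, ?_, ?_⟩
  · exact hK.conv.linear_image (T : E →ₗ[ℝ] E)
  · exact hK.comp.image T.continuous
  · rintro x ⟨y, hy, rfl⟩
    exact ⟨-y, hK.symm y hy, map_neg T y⟩
  · have h : interior (T '' K) = T '' interior K := (T.toHomeomorph.image_interior K).symm
    rw [h]
    exact hK.inte.image _

/-- `tri` commutes with the map. -/
theorem tri_image {E : Type} [NormedAddCommGroup E] [NormedSpace ℝ E] (T : E ≃L[ℝ] E)
    (K : Set E) :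
    tri (T '' K) = ((T : E →ₗ[ℝ] E).prodMap (T : E →ₗ[ℝ] E)) '' tri K := by
  ext z
  constructor
  · rintro ⟨⟨u, hu, hu'⟩, ⟨v, hv, hv'⟩, ⟨w, hw, hw'⟩⟩
    refine ⟨(u, v), ⟨hu, hv, ?_⟩, ?_⟩
    · have h : w = u + v := by
        apply T.injective
        rw [hw', map_add, hu', hv']
      rw [h] at hw
      exact hw
    · exact Prod.ext hu' hv'
  · rintro ⟨⟨u, v⟩, ⟨hu, hv, hw⟩, rfl⟩
    exact ⟨⟨u, hu, rfl⟩, ⟨v, hv, rfl⟩, ⟨u + v, hw, map_add T u v⟩⟩

end IQ8

/-- Q8. -/
theorem pr_Q8 : St_Q8 := by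
  intro E _ _ _ _ _ _ T K hK
  refine ⟨IQ8.body T K hK, ?_⟩
  set d : ℝ := |LinearMap.det (T : E →ₗ[ℝ] E)| with hd
  have hd0 : d ≠ 0 := by
    rw [hd, abs_ne_zero]
    exact (LinearEquiv.isUnit_det' T.toLinearEquiv).ne_zero
  have h1 : volume (T '' K) = ENNReal.ofReal d * volume K :=
    Measure.addHaar_image_linearMap volume (T : E →ₗ[ℝ] E) K
  have hpr : (volume : Measure (E × E)).IsAddHaarMeasure := by
    rw [Measure.volume_eq_prod]
    infer_instance
  have h2 : volume (tri (T '' K)) = ENNReal.ofReal (d * d) * volume (tri K) := by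
    rw [IQ8.tri_image, Measure.addHaar_image_linearMap, LinearMap.det_prodMap, abs_mul]
  unfold qq
  rw [h1, h2, ENNReal.toReal_mul, ENNReal.toReal_mul, ENNReal.toReal_ofReal (abs_nonneg _),
    ENNReal.toReal_ofReal (mul_nonneg (abs_nonneg _) (abs_nonneg _)), mul_pow, ← pow_two]
  exact mul_div_mul_left _ _ (pow_ne_zero 2 hd0)

end Pool.Agent.Work.MP_b25393_ag.HF
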