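import Pool.Agent.Work.MP_b25393_ag.HF.StmtsQ

/-!
# MP_b25393_ag, block HF: item Q9 (the ellipsoids)
-/

set_option autoImplicit false

open scoped Pointwise Matrix RealInnerProductSpace ENNReal
open MeasureTheory Filter Topology Matrix TopologicalSpace

namespace Pool.Agent.Work.MP_b25393_ag.HF

namespace IQ9

/-- the unit ball in coordinates -/
def U : Set (Fin 3 → ℝ) := {x : Fin 3 → ℝ | x 0 ^ 2 + x 1 ^ 2 + x 2 ^ 2 ≤ 1}

/-- the identification -/
noncomputable abbrev φ : E3 ≃L[ℝ] (Fin 3 → ℝ) := EuclideanSpace.equiv (Fin 3) ℝ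

theorem φ_apply (x : E3) (i : Fin 3) : φ x i = x i := rfl

theorem mp_φ : MeasurePreserving (φ : E3 → (Fin 3 → ℝ)) volume volume :=
  PiLp.volume_preserving_ofLp (Fin 3)

theorem body_pre {K : Set (Fin 3 → ℝ)} (hK : Body K) : Body (φ ⁻¹' K : Set E3) := by
  refine ⟨?_, ?_, ?_, ?_⟩
  · exact hK.conv.linear_preimage φ.toLinearMap
  · exact φ.toHomeomorph.isCompact_preimage.2 hK.comp
  · intro x hx
    show φ (-x) ∈ K
    rw [map_neg]
    exact hK.symm _ hx
  · obtain ⟨y, hy⟩ := hK.inte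
    have h1 : interior (φ ⁻¹' K : Set E3) = φ ⁻¹' (interior K) :=
      (φ.toHomeomorph.preimage_interior K).symm
    refine ⟨φ.symm y, ?_⟩
    rw [h1]
    show φ (φ.symm y) ∈ interior K
    rw [ContinuousLinearEquiv.apply_symm_apply]
    exact hy

theorem meas_tri {K : Set (Fin 3 → ℝ)} (hK : IsCompact K) : MeasurableSet (tri K) := by
  have h0 := hK.isClosed
  have h1 : IsClosed (tri K) :=
    (h0.preimage continuous_fst).inter
      ((h0.preimage continuous_snd).inter (h0.preimage (continuous_fst.add continuous_snd)))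
  exact h1.measurableSet

theorem qq_pre {K : Set (Fin 3 → ℝ)} (hK : Body K) : qq (φ ⁻¹' K : Set E3) = qq K := by
  have h1 : volume (φ ⁻¹' K : Set E3) = volume K :=
    mp_φ.measure_preimage hK.comp.isClosed.measurableSet.nullMeasurableSet
  have h2 : volume (tri (φ ⁻¹' K : Set E3)) = volume (tri K) := by
    have h3 : MeasurePreserving (Prod.map (φ : E3 → (Fin 3 → ℝ)) (φ : E3 → (Fin 3 → ℝ)))
        (volume : Measure (E3 × E3)) (volume : Measure ((Fin 3 → ℝ) × (Fin 3 → ℝ))) :=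
      mp_φ.prod mp_φ
    have h4 : tri (φ ⁻¹' K : Set E3) = Prod.map (φ : E3 → (Fin 3 → ℝ))
        (φ : E3 → (Fin 3 → ℝ)) ⁻¹' (tri K) := by
      ext z
      show (φ z.1 ∈ K ∧ φ z.2 ∈ K ∧ φ (z.1 + z.2) ∈ K) ↔
        (φ z.1 ∈ K ∧ φ z.2 ∈ K ∧ φ z.1 + φ z.2 ∈ K)
      rw [map_add]
    rw [h4]
    exact h3.measure_preimage (meas_tri hK.comp).nullMeasurableSet
  unfold qq
  rw [h1, h2]

theorem ball_pre : Metric.closedBall (0 : E3) 1 = φ ⁻¹' U := by
  ext x
  rw [mem_closedBall_zero_iff]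
  show ‖x‖ ≤ 1 ↔ x 0 ^ 2 + x 1 ^ 2 + x 2 ^ 2 ≤ 1
  have h1 : ‖x‖ ^ 2 = x 0 ^ 2 + x 1 ^ 2 + x 2 ^ 2 := by
    rw [EuclideanSpace.real_norm_sq_eq, Fin.sum_univ_three]
  rw [← h1, ← sq_le_sq₀ (norm_nonneg x) zero_le_one, one_pow]

end IQ9

open IQ9 in
theorem pr_Q9 (hE6 : St_E6) (hB4 : St_B4) (hQ6 : St_Q6) (hQ7 : St_Q7) (hQ8 : St_Q8) : St_Q9 := by
  intro K hK
  constructor
  · intro hq
    have hb := body_pre hK
    have hq' : qq (φ ⁻¹' K : Set E3) = 15 / 32 := by rw [qq_pre hK, hq]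
    obtain ⟨T, hT⟩ := hQ7 _ hb
    obtain ⟨hb', hq''⟩ := hQ8 E3 T _ hb
    rw [hq'] at hq''
    have href := hQ6 _ hb' hq'' hT
    obtain ⟨r, hr0, hr⟩ := hE6 _ hb'.comp hb'.conv (hb'.inte.mono interior_subset) href
    have hrpos : 0 < r := by
      rcases hr0.lt_or_eq with h | h
      · exact h
      · exfalso
        have h1 := hb'.inte
        rw [hr, ← h, Metric.closedBall_zero, interior_singleton] at h1
        exact Set.not_nonempty_empty h1
    set S : (Fin 3 → ℝ) ≃ₗ[ℝ] (Fin 3 → ℝ) :=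
      φ.symm.toLinearEquiv ≪≫ₗ (LinearEquiv.smulOfNeZero ℝ E3 r hrpos.ne') ≪≫ₗ
        T.symm.toLinearEquiv ≪≫ₗ φ.toLinearEquiv with hS
    have hSapp : ∀ x, S x = φ (T.symm (r • φ.symm x)) := fun x => rfl
    refine ⟨S, ?_⟩
    have hball : Metric.closedBall (0 : E3) r = r • Metric.closedBall (0 : E3) 1 := by
      rw [smul_closedBall _ _ zero_le_one, smul_zero, Real.norm_of_nonneg hr0, mul_one]
    ext y
    constructor
    · intro hy
      have h1 : T (φ.symm y) ∈ Metric.closedBall (0 : E3) r := by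
        rw [← hr]
        exact ⟨φ.symm y, by
          show φ (φ.symm y) ∈ K
          rw [ContinuousLinearEquiv.apply_symm_apply]; exact hy, rfl⟩
      rw [hball, Set.mem_smul_set] at h1
      obtain ⟨u, hu, hu'⟩ := h1
      rw [ball_pre] at hu
      refine ⟨φ u, hu, ?_⟩
      rw [hSapp, ContinuousLinearEquiv.symm_apply_apply, hu',
        ContinuousLinearEquiv.symm_apply_apply, ContinuousLinearEquiv.apply_symm_apply]
    · rintro ⟨x, hx, rfl⟩
      have h1 : φ.symm x ∈ Metric.closedBall (0 : E3) 1 := by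
        rw [ball_pre]
        show φ (φ.symm x) ∈ U
        rw [ContinuousLinearEquiv.apply_symm_apply]
        exact hx
      have h2 : r • φ.symm x ∈ Metric.closedBall (0 : E3) r := by
        rw [hball]
        exact Set.smul_mem_smul_set h1
      rw [← hr] at h2
      obtain ⟨w, hw, hw'⟩ := h2
      rw [hSapp, ← hw', ContinuousLinearEquiv.symm_apply_apply]
      exact hw
  · rintro ⟨T, hT⟩
    obtain ⟨-, h1, h2⟩ := hB4
    have h3 := (hQ8 (Fin 3 → ℝ) T.toContinuousLinearEquiv _ h1).2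
    rw [h2] at h3
    have h4 : K = T.toContinuousLinearEquiv '' {x : Fin 3 → ℝ | x 0 ^ 2 + x 1 ^ 2 + x 2 ^ 2 ≤ 1} :=
      hT
    rw [h4]
    exact h3

end Pool.Agent.Work.MP_b25393_ag.HF
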