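import Pool.Agent.Work.MP_b25393_ag.HF.StmtsC

/-!
# MP_b25393_ag, block HF, item T1: Thue's lemma for two vectors
-/

set_option autoImplicit false

open scoped LinearAlgebra.Projectivization Pointwise Matrix RealInnerProductSpace ENNReal
open MeasureTheory Filter Topology Matrix

namespace Pool.Agent.Work.MP_b25393_ag.HF

open Pool.Agent.Work.MP_b25393_ag

namespace IT1

theorem minors (p : ℤ) (u v : Fin 3 → ℤ) (h : ∀ i, p ∣ (u ⨯₃ v) i) (i j : Fin 3) :
    p ∣ u j * v i - u i * v j := by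
  have h0 : p ∣ u 1 * v 2 - u 2 * v 1 := by
    have := h 0
    rwa [cross_apply] at this
  have h1 : p ∣ u 2 * v 0 - u 0 * v 2 := by
    have := h 1
    rwa [cross_apply] at this
  have h2 : p ∣ u 0 * v 1 - u 1 * v 0 := by
    have := h 2
    rwa [cross_apply] at this
  have e : ∀ i : Fin 3, u i * v i - u i * v i = 0 := fun i => sub_self _
  have hh : ∀ i : Fin 3, i = 0 ∨ i = 1 ∨ i = 2 := by decide
  rcases hh i with rfl | rfl | rfl <;> rcases hh j with rfl | rfl | rfl
  · rw [e]; exact dvd_zero _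
  · rw [← dvd_neg]; refine dvd_of_eq_of_dvd' ?_ h2; ring
  · refine dvd_of_eq_of_dvd' ?_ h1; ring
  · refine dvd_of_eq_of_dvd' ?_ h2; ring
  · rw [e]; exact dvd_zero _
  · rw [← dvd_neg]; refine dvd_of_eq_of_dvd' ?_ h0; ring
  · rw [← dvd_neg]; refine dvd_of_eq_of_dvd' ?_ h1; ring
  · refine dvd_of_eq_of_dvd' ?_ h0; ring
  · rw [e]; exact dvd_zero _
where
  dvd_of_eq_of_dvd' {p a b : ℤ} (h : a = b) (h' : p ∣ b) : p ∣ a := h ▸ h'

/-- Thue's lemma -/
theorem thue (p : ℕ) (hp : p.Prime) (l : ℤ) : ∃ a b : ℤ, IsCoprime a b ∧ a ^ 2 ≤ p ∧ b ^ 2 ≤ p ∧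
    (p : ℤ) ∣ a + b * l := by
  have : NeZero p := ⟨hp.ne_zero⟩
  set k := Nat.sqrt p with hk
  have hk1 : k * k ≤ p := Nat.sqrt_le p
  have hk2 : p < (k + 1) * (k + 1) := Nat.lt_succ_sqrt p
  have hkp : k < p := Nat.sqrt_lt_self hp.one_lt
  have hcard : (Finset.univ : Finset (ZMod p)).card <
      (Finset.range (k + 1) ×ˢ Finset.range (k + 1)).card := by
    rw [Finset.card_univ, ZMod.card, Finset.card_product, Finset.card_range]
    exact hk2
  obtain ⟨x, hx, y, hy, hxy, hf⟩ := Finset.exists_ne_map_eq_of_card_lt_of_maps_to hcard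
    (f := fun z : ℕ × ℕ => ((z.1 : ZMod p) + (z.2 : ZMod p) * (l : ZMod p)))
    (fun z _ => Finset.mem_coe.2 (Finset.mem_univ _))
  rw [Finset.mem_product, Finset.mem_range, Finset.mem_range] at hx hy
  set a0 : ℤ := (x.1 : ℤ) - (y.1 : ℤ) with ha0
  set b0 : ℤ := (x.2 : ℤ) - (y.2 : ℤ) with hb0
  have hdiv : (p : ℤ) ∣ a0 + b0 * l := by
    rw [← ZMod.intCast_zmod_eq_zero_iff_dvd]
    rw [ha0, hb0]
    push_cast
    have hf' : (x.1 : ZMod p) + (x.2 : ZMod p) * (l : ZMod p) =
      (y.1 : ZMod p) + (y.2 : ZMod p) * (l : ZMod p) := hf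
    linear_combination hf'
  have ha : |a0| ≤ k := by
    rw [abs_le]
    constructor <;> omega
  have hb : |b0| ≤ k := by
    rw [abs_le]
    constructor <;> omega
  have hne : a0 ≠ 0 ∨ b0 ≠ 0 := by
    by_contra hcon
    push Not at hcon
    apply hxy
    apply Prod.ext <;> omega
  have hg : 0 < Int.gcd a0 b0 := by
    rcases hne with h | h
    · exact Int.gcd_pos_of_ne_zero_left _ h
    · exact Int.gcd_pos_of_ne_zero_right _ h
  obtain ⟨a, b, hab, ea, eb⟩ := Int.exists_gcd_one hg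
  set g := Int.gcd a0 b0 with hgdef
  have hgk : g ≤ k := by
    rcases hne with h | h
    · have h1 : (g : ℤ) ∣ a0 := Int.gcd_dvd_left ..
      have h2 := Int.le_of_dvd (abs_pos.2 h) ((dvd_abs _ _).2 h1)
      have h3 := h2.trans ha
      exact_mod_cast h3
    · have h1 : (g : ℤ) ∣ b0 := Int.gcd_dvd_right ..
      have h2 := Int.le_of_dvd (abs_pos.2 h) ((dvd_abs _ _).2 h1)
      have h3 := h2.trans hb
      exact_mod_cast h3
  have hpp : Prime (p : ℤ) := Nat.prime_iff_prime_int.1 hp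
  have hpg : ¬ (p : ℤ) ∣ (g : ℤ) := by
    intro h
    have := Int.le_of_dvd (by exact_mod_cast hg) h
    have h2 : p ≤ g := by exact_mod_cast this
    omega
  have hdiv' : (p : ℤ) ∣ a + b * l := by
    have e : a0 + b0 * l = (g : ℤ) * (a + b * l) := by
      rw [ea, eb]; ring
    rw [e] at hdiv
    rcases hpp.dvd_or_dvd hdiv with h | h
    · exact absurd h hpg
    · exact h
  have hg1 : (1 : ℤ) ≤ (g : ℤ) := by exact_mod_cast hg
  have hkk : (k : ℤ) * k ≤ p := by exact_mod_cast hk1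
  have sq_le : ∀ c c0 : ℤ, |c0| ≤ k → c0 = c * g → c ^ 2 ≤ p := by
    intro c c0 h1 h2
    have h3 : |c| ≤ |c0| := by
      rw [h2, abs_mul, abs_of_pos (by omega : (0 : ℤ) < g)]
      exact le_mul_of_one_le_right (abs_nonneg _) hg1
    have h4 : |c| ≤ k := h3.trans h1
    calc c ^ 2 = |c| * |c| := by rw [← abs_mul, ← sq, abs_sq]
      _ ≤ k * k := mul_le_mul h4 h4 (abs_nonneg _) (by positivity)
      _ ≤ p := hkk
  exact ⟨a, b, Int.isCoprime_iff_gcd_eq_one.2 hab, sq_le a a0 ha ea, sq_le b b0 hb eb, hdiv'⟩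

end IT1

open IT1 in
theorem pr_T1 : St_T1 := by
  intro p hp u v h
  by_cases hu : ∀ i, (p : ℤ) ∣ u i
  · refine ⟨1, 0, isCoprime_one_left, ?_, ?_, ?_⟩
    · have := hp.one_lt.le
      norm_num
      exact_mod_cast this
    · norm_num
    · intro i
      rw [one_mul, zero_mul, add_zero]
      exact hu i
  · push Not at hu
    obtain ⟨j, hj⟩ := hu
    have hpp : Prime (p : ℤ) := Nat.prime_iff_prime_int.1 hp
    have hcop : IsCoprime (p : ℤ) (u j) := (Prime.coprime_iff_not_dvd hpp).2 hj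
    obtain ⟨c, d, hcd⟩ := hcop
    obtain ⟨a, b, h1, h2, h3, h4⟩ := thue p hp (d * v j)
    refine ⟨a, b, h1, h2, h3, ?_⟩
    intro i
    have hm := minors (p : ℤ) u v h i j
    have hi : (p : ℤ) ∣ v i - (d * v j) * u i := by
      have e : u j * (v i - (d * v j) * u i) =
          (u j * v i - u i * v j) + (p : ℤ) * (c * v j * u i) := by
        linear_combination (-(v j * u i)) * hcd
      have : (p : ℤ) ∣ u j * (v i - (d * v j) * u i) := by
        rw [e]
        exact dvd_add hm (dvd_mul_right _ _)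
      rcases hpp.dvd_or_dvd this with h | h
      · exact absurd h hj
      · exact h
    have e2 : a * u i + b * v i = (a + b * (d * v j)) * u i + b * (v i - (d * v j) * u i) := by ring
    rw [e2]
    exact dvd_add (h4.mul_right _) (hi.mul_left _)

end Pool.Agent.Work.MP_b25393_ag.HF
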