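import Pool.Agent.Work.MP_b25393_ag.HF.StmtsC

/-!
# MP_b25393_ag, block HF, item T2: a residue class in an interval
-/

set_option autoImplicit false

namespace Pool.Agent.Work.MP_b25393_ag.HF

namespace IT2

/-- elements of the set are congruent modulo `b` -/
lemma dvd_sub {a b c x y : ℤ} (hab : IsCoprime a b) (hx : b ∣ c - a * x) (hy : b ∣ c - a * y) :
    b ∣ x - y := by
  have h1 : b ∣ a * (x - y) := by
    have h2 := Int.dvd_sub hy hx
    have e : c - a * y - (c - a * x) = a * (x - y) := by ring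
    rwa [e] at h2
  exact hab.symm.dvd_of_dvd_mul_left h1

end IT2

open IT2 in
/-- item T2 -/
theorem pr_T2 : St_T2 := by
  intro M a b c hb hab
  set B : ℕ := b.natAbs with hB
  have hB0 : 0 < B := Int.natAbs_pos.2 hb
  have hBz : (0 : ℤ) < (B : ℤ) := by exact_mod_cast hB0
  have hBr : (0 : ℝ) < (B : ℝ) := by exact_mod_cast hB0
  have hbB : |(b : ℝ)| = (B : ℝ) := by
    rw [hB, Nat.cast_natAbs, Int.cast_abs]
  have h1 : ({x : ℤ | |x| ≤ (M : ℤ) ∧ b ∣ c - a * x}.ncard) ≤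
      ((Finset.Icc (0 : ℤ) (2 * M / B) : Finset ℤ) : Set ℤ).ncard := by
    refine Set.ncard_le_ncard_of_injOn (fun x => (x + M) / B) ?_ ?_ (Finset.finite_toSet _)
    · intro x hx
      have hx1 := abs_le.1 hx.1
      simp only [Finset.coe_Icc, Set.mem_Icc]
      constructor
      · exact Int.ediv_nonneg (by omega) hBz.le
      · exact Int.ediv_le_ediv hBz (by omega)
    · intro x hx y hy hxy
      have h2 : (B : ℤ) ∣ x - y := by
        rw [hB, Int.natAbs_dvd]
        exact dvd_sub hab hx.2 hy.2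
      have h3 : (x + M) % (B : ℤ) = (y + M) % (B : ℤ) := by
        apply Int.emod_emod_of_dvd _ (dvd_refl _) |>.symm.trans
        have h4 : (x + M) ≡ (y + M) [ZMOD (B : ℤ)] := by
          apply Int.ModEq.symm
          rw [Int.modEq_iff_dvd]
          have e : x + M - (y + M) = x - y := by ring
          rwa [e]
        rw [h4]
        exact Int.emod_emod_of_dvd _ (dvd_refl _)
      have h5 := Int.emod_add_mul_ediv (x + M) (B : ℤ)
      have h6 := Int.emod_add_mul_ediv (y + M) (B : ℤ)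
      have h7 : (x + M) / (B : ℤ) = (y + M) / (B : ℤ) := hxy
      rw [h3, h7, h6] at h5
      omega
  rw [Set.ncard_coe_finset, Int.card_Icc] at h1
  have h2 : (0 : ℤ) ≤ 2 * M / B := Int.ediv_nonneg (by positivity) hBz.le
  have h3 : (((2 * (M : ℤ) / B + 1 - 0).toNat : ℕ) : ℝ) = ((2 * (M : ℤ) / B : ℤ) : ℝ) + 1 := by
    have h4 : (((2 * (M : ℤ) / B + 1 - 0).toNat : ℕ) : ℤ) = 2 * (M : ℤ) / B + 1 := by
      rw [Int.toNat_of_nonneg (by omega)]
      ring
    have h5 : ((((2 * (M : ℤ) / B + 1 - 0).toNat : ℕ) : ℤ) : ℝ) = ((2 * (M : ℤ) / B + 1 : ℤ) : ℝ) := by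
      rw [h4]
    rw [Int.cast_natCast, Int.cast_add, Int.cast_one] at h5
    exact h5
  have h4 : ((2 * (M : ℤ) / B : ℤ) : ℝ) ≤ 2 * (M : ℝ) / B := by
    rw [le_div_iff₀ hBr]
    have h5 := Int.ediv_mul_le (2 * (M : ℤ)) hBz.ne'
    exact_mod_cast h5
  rw [hbB]
  calc (({x : ℤ | |x| ≤ (M : ℤ) ∧ b ∣ c - a * x}.ncard : ℕ) : ℝ)
      ≤ (((2 * (M : ℤ) / B + 1 - 0).toNat : ℕ) : ℝ) := by exact_mod_cast h1
    _ = ((2 * (M : ℤ) / B : ℤ) : ℝ) + 1 := h3
    _ ≤ 2 * (M : ℝ) / B + 1 := by linarith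

end Pool.Agent.Work.MP_b25393_ag.HF
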