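import Pool.Agent.Work.MP_b25393_ag.HF.StmtsC

/-!
# MP_b25393_ag, block HF, item T3: pairs with a given dependence modulo `p`
-/

set_option autoImplicit false

open scoped LinearAlgebra.Projectivization Pointwise Matrix RealInnerProductSpace ENNReal
open MeasureTheory Filter Topology Matrix

namespace Pool.Agent.Work.MP_b25393_ag.HF

open Pool.Agent.Work.MP_b25393_ag

namespace IT3

/-- a residue class in an interval -/
noncomputable def Tc (M : ℕ) (a b c : ℤ) : Finset ℤ := (Finset.Icc (-(M : ℤ)) M).filter (fun x => b ∣ c - a * x)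

theorem card_Tc (hT2 : St_T2) (M : ℕ) (a b c : ℤ) (hb : b ≠ 0) (hab : IsCoprime a b) :
    ((Tc M a b c).card : ℝ) ≤ 2 * (M : ℝ) / |(b : ℝ)| + 1 := by
  have h := hT2 M a b c hb hab
  have e : {x : ℤ | |x| ≤ (M : ℤ) ∧ b ∣ c - a * x} = ((Tc M a b c : Finset ℤ) : Set ℤ) := by
    ext x
    simp [Tc, abs_le]
  rw [e, Set.ncard_coe_finset] at h
  exact h

/-- the box -/
noncomputable def bw (Y : ℕ) : Finset (Fin 3 → ℤ) := Fintype.piFinset fun _ => Finset.Icc (-(Y : ℤ)) Y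

theorem card_bw (Y : ℕ) : (bw Y).card = (2 * Y + 1) ^ 3 := by
  unfold bw
  rw [Fintype.card_piFinset]
  simp only [Int.card_Icc, Finset.prod_const, Finset.card_univ, Fintype.card_fin]
  congr 1
  omega

/-- the pairs -/
noncomputable def FF (p M Y : ℕ) (a b : ℤ) : Finset (Σ _ : Fin 3 → ℤ, Fin 3 → ℤ) :=
  (bw Y).sigma fun w => Fintype.piFinset fun i => Tc M a b (p * w i)

theorem card_FF (hT2 : St_T2) (p M Y : ℕ) (a b : ℤ) (hb : b ≠ 0) (hab : IsCoprime a b) :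
    ((FF p M Y a b).card : ℝ) ≤ (2 * (Y : ℝ) + 1) ^ 3 * (2 * (M : ℝ) / |(b : ℝ)| + 1) ^ 3 := by
  unfold FF
  rw [Finset.card_sigma, Nat.cast_sum]
  have h : ∀ w ∈ bw Y, ((Fintype.piFinset fun i => Tc M a b (p * w i)).card : ℝ) ≤
      (2 * (M : ℝ) / |(b : ℝ)| + 1) ^ 3 := by
    intro w _
    rw [Fintype.card_piFinset, Nat.cast_prod]
    calc ∏ i, ((Tc M a b (p * w i)).card : ℝ) ≤ ∏ _i : Fin 3, (2 * (M : ℝ) / |(b : ℝ)| + 1) :=
          Finset.prod_le_prod (fun _ _ => Nat.cast_nonneg _)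
            fun i _ => card_Tc hT2 M a b (p * w i) hb hab
      _ = _ := by simp
  refine (Finset.sum_le_sum h).trans (le_of_eq ?_)
  rw [Finset.sum_const, card_bw, nsmul_eq_mul]
  push_cast
  ring

end IT3

open IT3 in
/-- [T3] The pairs `(u, v)` with `a u + b v` divisible by `p` and not zero. -/
theorem pr_T3 (hT2 : St_T2) : St_T3 := by
  classical
  intro p hp M hM a b hab hle hbp
  have hb : b ≠ 0 := by
    rintro rfl
    have ha : a = 0 := by
      have : |a| ≤ 0 := by simpa using hle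
      exact abs_nonpos_iff.1 this
    subst ha
    exact not_isCoprime_zero_zero hab
  set Z : Set ((Fin 3 → ℤ) × (Fin 3 → ℤ)) :=
    {z | z ∈ bx M ∧ (∀ i, (p : ℤ) ∣ a * z.1 i + b * z.2 i) ∧ a • z.1 + b • z.2 ≠ 0} with hZ
  have hp0 : (0 : ℝ) < p := by exact_mod_cast hp.pos
  have hpz : (0 : ℤ) < p := by exact_mod_cast hp.pos
  have hb1 : (1 : ℝ) ≤ |(b : ℝ)| := by
    have : (1 : ℤ) ≤ |b| := Int.one_le_abs hb
    exact_mod_cast this
  have hb0 : (0 : ℝ) < |(b : ℝ)| := by linarith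
  have hM1 : (1 : ℝ) ≤ M := by exact_mod_cast hM
  set q : ℝ := Real.sqrt p with hq
  have hq0 : 0 < q := Real.sqrt_pos.2 hp0
  have hqq : q * q = p := Real.mul_self_sqrt hp0.le
  have hbq : |(b : ℝ)| ≤ q := by
    rw [hq]
    refine Real.le_sqrt_of_sq_le ?_
    rw [sq_abs]
    exact_mod_cast hbp
  have hRHS : 0 ≤ 13824 * (M : ℝ) ^ 6 / ((p : ℝ) * q * |(b : ℝ)| ^ 3) := by positivity
  rcases Set.eq_empty_or_nonempty Z with hemp | ⟨z0, hz0⟩
  · rw [hemp, Set.ncard_empty, Nat.cast_zero]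
    exact hRHS
  -- the bound of the coordinates of `a u + b v`
  have hcoord : ∀ z ∈ Z, ∀ i, |((a * z.1 i + b * z.2 i : ℤ) : ℝ)| ≤ 2 * |(b : ℝ)| * M := by
    intro z hz i
    obtain ⟨⟨h1, h2⟩, _, _⟩ := hz
    have g1 : |((z.1 i : ℤ) : ℝ)| ≤ M := by
      have := h1 i
      exact_mod_cast this
    have g2 : |((z.2 i : ℤ) : ℝ)| ≤ M := by
      have := h2 i
      exact_mod_cast this
    have g3 : |(a : ℝ)| ≤ |(b : ℝ)| := by exact_mod_cast hle
    push_cast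
    calc |(a : ℝ) * (z.1 i : ℝ) + (b : ℝ) * (z.2 i : ℝ)|
        ≤ |(a : ℝ) * (z.1 i : ℝ)| + |(b : ℝ) * (z.2 i : ℝ)| := abs_add_le _ _
      _ = |(a : ℝ)| * |(z.1 i : ℝ)| + |(b : ℝ)| * |(z.2 i : ℝ)| := by rw [abs_mul, abs_mul]
      _ ≤ |(b : ℝ)| * M + |(b : ℝ)| * M :=
          add_le_add (mul_le_mul g3 g1 (abs_nonneg _) hb0.le)
            (mul_le_mul_of_nonneg_left g2 hb0.le)
      _ = _ := by ring
  set X : ℝ := 2 * M / q with hX
  -- the quotient
  have hquot : ∀ z ∈ Z, ∀ i, |(((a * z.1 i + b * z.2 i) / (p : ℤ) : ℤ) : ℝ)| ≤ X := by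
    intro z hz i
    have hd := hz.2.1 i
    have e1 : ((a * z.1 i + b * z.2 i : ℤ) : ℝ) =
        (p : ℝ) * (((a * z.1 i + b * z.2 i) / (p : ℤ) : ℤ) : ℝ) := by
      have := Int.mul_ediv_cancel' hd
      exact_mod_cast this.symm
    have g1 := hcoord z hz i
    rw [e1, abs_mul, abs_of_pos hp0] at g1
    have g2 : (p : ℝ) * |(((a * z.1 i + b * z.2 i) / (p : ℤ) : ℤ) : ℝ)| ≤ 2 * q * M := by
      refine g1.trans ?_
      have := mul_le_mul_of_nonneg_right hbq (show (0 : ℝ) ≤ 2 * M by positivity)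
      linarith
    rw [hX, le_div_iff₀ hq0]
    rw [← hqq] at g2
    have g3 : q * (|(((a * z.1 i + b * z.2 i) / (p : ℤ) : ℤ) : ℝ)| * q) ≤ q * (2 * M) := by
      linarith
    exact le_of_mul_le_mul_left g3 hq0
  -- `X ≥ 1`
  have hX1 : 1 ≤ X := by
    obtain ⟨_, hd, hne⟩ := hz0
    obtain ⟨i, hi⟩ := Function.ne_iff.1 hne
    have hi' : a * z0.1 i + b * z0.2 i ≠ 0 := hi
    have h1 : (a * z0.1 i + b * z0.2 i) / (p : ℤ) ≠ 0 := by
      intro h0
      have := Int.mul_ediv_cancel' (hd i)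
      rw [h0, mul_zero] at this
      exact hi' this.symm
    have h2 : (1 : ℝ) ≤ |(((a * z0.1 i + b * z0.2 i) / (p : ℤ) : ℤ) : ℝ)| := by
      have := Int.one_le_abs h1
      exact_mod_cast this
    exact h2.trans (hquot z0 ⟨‹_›, hd, hne⟩ i)
  set Y : ℕ := ⌊X⌋₊ with hY
  have hYX : (Y : ℝ) ≤ X := Nat.floor_le (by linarith)
  -- the injection
  have hinj : Z.ncard ≤ (FF p M Y a b).card := by
    rw [← Set.ncard_coe_finset]
    refine Set.ncard_le_ncard_of_injOn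
      (fun z => (⟨fun i => (a * z.1 i + b * z.2 i) / (p : ℤ), z.1⟩ :
        Σ _ : Fin 3 → ℤ, Fin 3 → ℤ)) ?_ ?_ (Finset.finite_toSet _)
    · intro z hz
      have hz' := hz
      obtain ⟨⟨h1, h2⟩, hd, hne⟩ := hz'
      rw [Finset.mem_coe, FF, Finset.mem_sigma, bw, Fintype.mem_piFinset, Fintype.mem_piFinset]
      refine ⟨fun i => ?_, fun i => ?_⟩
      · rw [Finset.mem_Icc, ← abs_le]
        have g1 := hquot z hz i
        have g2 : (((|(a * z.1 i + b * z.2 i) / (p : ℤ)|).natAbs : ℕ) : ℝ) ≤ X := by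
          rw [Nat.cast_natAbs, abs_abs]
          exact_mod_cast g1
        have g3 := Nat.le_floor g2
        rw [← hY] at g3
        have g4 : ((|(a * z.1 i + b * z.2 i) / (p : ℤ)|).natAbs : ℤ) =
            |(a * z.1 i + b * z.2 i) / (p : ℤ)| := by
          rw [Int.natCast_natAbs, abs_abs]
        show |(a * z.1 i + b * z.2 i) / (p : ℤ)| ≤ (Y : ℤ)
        rw [← g4]
        exact_mod_cast g3
      · show z.1 i ∈ Tc M a b (p * ((a * z.1 i + b * z.2 i) / (p : ℤ)))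
        rw [Tc, Finset.mem_filter, Finset.mem_Icc, ← abs_le, Int.mul_ediv_cancel' (hd i)]
        exact ⟨h1 i, ⟨z.2 i, by ring⟩⟩
    · intro z hz z' hz' h
      have h1 : (fun i => (a * z.1 i + b * z.2 i) / (p : ℤ)) =
          fun i => (a * z'.1 i + b * z'.2 i) / (p : ℤ) := congrArg Sigma.fst h
      have h2 : z.1 = z'.1 := congrArg Sigma.snd h
      refine Prod.ext h2 (funext fun i => ?_)
      have h3 := congrFun h1 i
      have h4 : a * z.1 i + b * z.2 i = a * z'.1 i + b * z'.2 i := by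
        rw [← Int.mul_ediv_cancel' (hz.2.1 i), ← Int.mul_ediv_cancel' (hz'.2.1 i)]
        exact congrArg (fun t => (p : ℤ) * t) h3
      rw [h2] at h4
      exact mul_left_cancel₀ hb (add_left_cancel h4)
  have hfin : ((Z.ncard : ℕ) : ℝ) ≤
      (2 * (Y : ℝ) + 1) ^ 3 * (2 * (M : ℝ) / |(b : ℝ)| + 1) ^ 3 :=
    (by exact_mod_cast hinj : ((Z.ncard : ℕ) : ℝ) ≤ ((FF p M Y a b).card : ℝ)).trans
      (card_FF hT2 p M Y a b hb hab)
  refine hfin.trans ?_
  have k1 : 2 * (Y : ℝ) + 1 ≤ 6 * M / q := by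
    have : 6 * (M : ℝ) / q = 3 * X := by rw [hX]; ring
    rw [this]
    linarith
  have hq2M : q ≤ 2 * M := by
    rw [hX, le_div_iff₀ hq0] at hX1
    linarith
  have k2 : 2 * (M : ℝ) / |(b : ℝ)| + 1 ≤ 4 * M / |(b : ℝ)| := by
    have g : (1 : ℝ) ≤ 2 * M / |(b : ℝ)| := by
      rw [le_div_iff₀ hb0]
      linarith
    have e : 4 * (M : ℝ) / |(b : ℝ)| = 2 * M / |(b : ℝ)| + 2 * M / |(b : ℝ)| := by ring
    rw [e]
    linarith
  have k3 : (2 * (Y : ℝ) + 1) ^ 3 ≤ (6 * M / q) ^ 3 := pow_le_pow_left₀ (by positivity) k1 3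
  have k4 : (2 * (M : ℝ) / |(b : ℝ)| + 1) ^ 3 ≤ (4 * M / |(b : ℝ)|) ^ 3 :=
    pow_le_pow_left₀ (by positivity) k2 3
  refine (mul_le_mul k3 k4 (by positivity) (by positivity)).trans (le_of_eq ?_)
  rw [← hqq]
  field_simp
  ring

end Pool.Agent.Work.MP_b25393_ag.HF
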