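import Pool.Agent.Work.MP_b25393_ag.HF.StmtsC

/-!
Item T5 of the block HF: the tail of the sum over the primes.
-/

set_option autoImplicit false

open scoped LinearAlgebra.Projectivization Pointwise Matrix RealInnerProductSpace ENNReal
open MeasureTheory Filter Topology Matrix

namespace Pool.Agent.Work.MP_b25393_ag.HF

open Pool.Agent.Work.MP_b25393_ag

namespace IT5

lemma step (N : ℕ) (hN : 1 ≤ N) : 1 / (((N + 1 : ℕ) : ℝ) * Real.sqrt ((N + 1 : ℕ) : ℝ)) ≤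
    2 / Real.sqrt N - 2 / Real.sqrt ((N + 1 : ℕ) : ℝ) := by
  have hN0 : (0 : ℝ) < N := by exact_mod_cast hN
  have h1 : ((N + 1 : ℕ) : ℝ) = (N : ℝ) + 1 := by push_cast; ring
  rw [h1]
  set a : ℝ := Real.sqrt N with ha
  set b : ℝ := Real.sqrt ((N : ℝ) + 1) with hb
  have ha0 : 0 < a := Real.sqrt_pos.2 hN0
  have hb0 : 0 < b := Real.sqrt_pos.2 (by linarith)
  have ha2 : a * a = N := Real.mul_self_sqrt hN0.le
  have hb2 : b * b = (N : ℝ) + 1 := Real.mul_self_sqrt (by linarith)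
  have hab : a ≤ b := Real.sqrt_le_sqrt (by linarith)
  rw [← hb2]
  have h2 : 2 / a - 2 / b = 2 * (b - a) / (a * b) := by
    field_simp
  have h3 : (b - a) * (b + a) = 1 := by nlinarith
  rw [h2, div_le_div_iff₀ (by positivity) (by positivity)]
  -- a b ≤ 2 (b - a) b^3
  have h4 : a * (b + a) ≤ 2 * (b * b) := by nlinarith
  have h5 : 0 ≤ b - a := by linarith
  have h6 : a = a * ((b - a) * (b + a)) := by rw [h3, mul_one]
  calc 1 * (a * b) = (a * ((b - a) * (b + a))) * b := by rw [← h6]; ring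
    _ = ((b - a) * b) * (a * (b + a)) := by ring
    _ ≤ ((b - a) * b) * (2 * (b * b)) :=
        mul_le_mul_of_nonneg_left h4 (mul_nonneg h5 hb0.le)
    _ = 2 * (b - a) * (b * b * b) := by ring

lemma sum_le (G : ℕ) (hG : 1 ≤ G) (k : ℕ) :
    ∑ n ∈ Finset.Ioc G (G + k), 1 / ((n : ℝ) * Real.sqrt n) ≤
      2 / Real.sqrt G - 2 / Real.sqrt ((G + k : ℕ) : ℝ) := by
  induction k with
  | zero => simp
  | succ k ih =>
    have h1 : Finset.Ioc G (G + (k + 1)) = insert (G + k + 1) (Finset.Ioc G (G + k)) := by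
      ext x
      simp only [Finset.mem_Ioc, Finset.mem_insert]
      omega
    rw [h1, Finset.sum_insert (by simp)]
    have h2 := step (G + k) (by omega)
    have h3 : G + (k + 1) = G + k + 1 := by omega
    rw [h3]
    linarith

lemma sum_le' (G N : ℕ) (hG : 1 ≤ G) :
    ∑ n ∈ Finset.Ioc G N, 1 / ((n : ℝ) * Real.sqrt n) ≤ 2 / Real.sqrt G := by
  rcases le_total G N with h | h
  · obtain ⟨k, rfl⟩ := Nat.exists_eq_add_of_le h
    refine (sum_le G hG k).trans ?_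
    have : 0 ≤ 2 / Real.sqrt ((G + k : ℕ) : ℝ) := by positivity
    linarith
  · rw [Finset.Ioc_eq_empty_of_le h, Finset.sum_empty]
    positivity

lemma cross_le (M : ℕ) (z : (Fin 3 → ℤ) × (Fin 3 → ℤ)) (hz : z ∈ bx M) (i : Fin 3) :
    |(z.1 ⨯₃ z.2) i| ≤ 2 * (M : ℤ) ^ 2 := by
  have key : ∀ a b c d : Fin 3, |z.1 a * z.2 b - z.1 c * z.2 d| ≤ 2 * (M : ℤ) ^ 2 := by
    intro a b c d
    have h1 : |z.1 a * z.2 b| ≤ (M : ℤ) * M := by
      rw [abs_mul]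
      exact mul_le_mul (hz.1 a) (hz.2 b) (abs_nonneg _) (by positivity)
    have h2 : |z.1 c * z.2 d| ≤ (M : ℤ) * M := by
      rw [abs_mul]
      exact mul_le_mul (hz.1 c) (hz.2 d) (abs_nonneg _) (by positivity)
    have h3 := abs_sub (z.1 a * z.2 b) (z.1 c * z.2 d)
    nlinarith
  rw [cross_apply]
  fin_cases i
  · exact key 1 2 2 1
  · exact key 2 0 0 2
  · exact key 0 1 1 0

lemma bx_finite (M : ℕ) : (bx M).Finite := by
  have h1 : bx M ⊆ (Set.Icc (fun _ => -(M : ℤ)) (fun _ => (M : ℤ))) ×ˢ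
      (Set.Icc (fun _ => -(M : ℤ)) (fun _ => (M : ℤ))) := by
    intro z hz
    refine ⟨⟨fun i => (abs_le.1 (hz.1 i)).1, fun i => (abs_le.1 (hz.1 i)).2⟩,
      ⟨fun i => (abs_le.1 (hz.2 i)).1, fun i => (abs_le.1 (hz.2 i)).2⟩⟩
  exact ((Set.finite_Icc _ _).prod (Set.finite_Icc _ _)).subset h1

end IT5

/-- item T5 -/
theorem pr_T5 (hT4 : St_T4) : St_T5 := by
  classical
  intro G M hG hM
  let A : ℕ → Set ((Fin 3 → ℤ) × (Fin 3 → ℤ)) := fun p => {z | z ∈ bx M ∧ z.1 ⨯₃ z.2 ≠ 0 ∧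
    ∀ i, (p : ℤ) ∣ (z.1 ⨯₃ z.2) i}
  let P : Finset ℕ := (Finset.Ioc G (2 * M ^ 2)).filter Nat.Prime
  have hsub : {z : (Fin 3 → ℤ) × (Fin 3 → ℤ) | z ∈ bx M ∧ z.1 ⨯₃ z.2 ≠ 0 ∧
      ∃ p : ℕ, p.Prime ∧ G < p ∧ ∀ i, (p : ℤ) ∣ (z.1 ⨯₃ z.2) i} ⊆ ⋃ p ∈ P, A p := by
    rintro z ⟨h1, h2, p, hp, hGp, hd⟩
    rw [Set.mem_iUnion₂]
    refine ⟨p, ?_, h1, h2, hd⟩
    obtain ⟨i, hi⟩ := Function.ne_iff.1 h2
    have h3 := Int.le_of_dvd (abs_pos.2 hi) ((dvd_abs _ _).2 (hd i))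
    have h4 := h3.trans (IT5.cross_le M z h1 i)
    rw [Finset.mem_filter, Finset.mem_Ioc]
    exact ⟨⟨hGp, by exact_mod_cast h4⟩, hp⟩
  have hfin : (⋃ p ∈ P, A p).Finite := (IT5.bx_finite M).subset
    (Set.iUnion₂_subset fun p _ => fun z hz => hz.1)
  have h1 := Set.ncard_le_ncard hsub hfin
  have h2 : (⋃ p ∈ P, A p).ncard ≤ ∑ p ∈ P, (A p).ncard := Finset.set_ncard_biUnion_le P A
  have h3 : ((∑ p ∈ P, (A p).ncard : ℕ) : ℝ) ≤
      ∑ p ∈ P, 331776 * (M : ℝ) ^ 6 * (1 / ((p : ℝ) * Real.sqrt p)) := by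
    rw [Nat.cast_sum]
    refine Finset.sum_le_sum fun p hp => ?_
    have h4 := hT4 p (Finset.mem_filter.1 hp).2 M hM
    rw [mul_one_div]
    exact h4
  have h4 : ∑ p ∈ P, 331776 * (M : ℝ) ^ 6 * (1 / ((p : ℝ) * Real.sqrt p)) ≤
      331776 * (M : ℝ) ^ 6 * (2 / Real.sqrt G) := by
    rw [← Finset.mul_sum]
    refine mul_le_mul_of_nonneg_left ?_ (by positivity)
    refine le_trans ?_ (IT5.sum_le' G (2 * M ^ 2) hG)
    exact Finset.sum_le_sum_of_subset_of_nonneg (Finset.filter_subset _ _)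
      fun n _ _ => by positivity
  have h5 : ((({z : (Fin 3 → ℤ) × (Fin 3 → ℤ) | z ∈ bx M ∧ z.1 ⨯₃ z.2 ≠ 0 ∧
      ∃ p : ℕ, p.Prime ∧ G < p ∧ ∀ i, (p : ℤ) ∣ (z.1 ⨯₃ z.2) i}.ncard : ℕ)) : ℝ) ≤
      ((∑ p ∈ P, (A p).ncard : ℕ) : ℝ) := by exact_mod_cast h1.trans h2
  calc _ ≤ ((∑ p ∈ P, (A p).ncard : ℕ) : ℝ) := h5
    _ ≤ _ := h3
    _ ≤ _ := h4
    _ = 663552 * (M : ℝ) ^ 6 / Real.sqrt G := by ring

end Pool.Agent.Work.MP_b25393_ag.HF
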