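import Pool.Agent.Work.MP_b25393_ag.HF.I_F1
import Pool.Agent.Work.MP_b25393_ag.HF.I_F2
import Pool.Agent.Work.MP_b25393_ag.HF.I_F3
import Pool.Agent.Work.MP_b25393_ag.HF.I_F4
import Pool.Agent.Work.MP_b25393_ag.HF.I_L1
import Pool.Agent.Work.MP_b25393_ag.HF.I_L2
import Pool.Agent.Work.MP_b25393_ag.HF.I_L3
import Pool.Agent.Work.MP_b25393_ag.HF.I_L4
import Pool.Agent.Work.MP_b25393_ag.HF.I_A1
import Pool.Agent.Work.MP_b25393_ag.HF.I_A2
import Pool.Agent.Work.MP_b25393_ag.HF.I_A3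
import Pool.Agent.Work.MP_b25393_ag.HF.I_A4
import Pool.Agent.Work.MP_b25393_ag.HF.I_A5
import Pool.Agent.Work.MP_b25393_ag.HF.I_C1
import Pool.Agent.Work.MP_b25393_ag.HF.I_C2
import Pool.Agent.Work.MP_b25393_ag.HF.I_C3
import Pool.Agent.Work.MP_b25393_ag.HF.I_C4
import Pool.Agent.Work.MP_b25393_ag.HF.I_C5
import Pool.Agent.Work.MP_b25393_ag.HF.I_T1
import Pool.Agent.Work.MP_b25393_ag.HF.I_T2
import Pool.Agent.Work.MP_b25393_ag.HF.I_T3
import Pool.Agent.Work.MP_b25393_ag.HF.I_T4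
import Pool.Agent.Work.MP_b25393_ag.HF.I_T5
import Pool.Agent.Work.MP_b25393_ag.HF.I_D1
import Pool.Agent.Work.MP_b25393_ag.HF.I_D2
import Pool.Agent.Work.MP_b25393_ag.HF.I_D3
import Pool.Agent.Work.MP_b25393_ag.HF.I_D4
import Pool.Agent.Work.MP_b25393_ag.HF.I_D5
import Pool.Agent.Work.MP_b25393_ag.HF.I_D6
import Pool.Agent.Work.MP_b25393_ag.HF.I_D7
import Pool.Agent.Work.MP_b25393_ag.HF.I_G1
import Pool.Agent.Work.MP_b25393_ag.HF.I_G2
import Pool.Agent.Work.MP_b25393_ag.HF.I_G3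
import Pool.Agent.Work.MP_b25393_ag.HF.I_G4
import Pool.Agent.Work.MP_b25393_ag.HF.I_G5
import Pool.Agent.Work.MP_b25393_ag.HF.I_G6
import Pool.Agent.Work.MP_b25393_ag.HF.I_G7
import Pool.Agent.Work.MP_b25393_ag.HF.I_E1
import Pool.Agent.Work.MP_b25393_ag.HF.I_E2
import Pool.Agent.Work.MP_b25393_ag.HF.I_E3
import Pool.Agent.Work.MP_b25393_ag.HF.I_E4
import Pool.Agent.Work.MP_b25393_ag.HF.I_E5
import Pool.Agent.Work.MP_b25393_ag.HF.I_E6
import Pool.Agent.Work.MP_b25393_ag.HF.I_H1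
import Pool.Agent.Work.MP_b25393_ag.HF.I_H2
import Pool.Agent.Work.MP_b25393_ag.HF.I_H3
import Pool.Agent.Work.MP_b25393_ag.HF.I_H4
import Pool.Agent.Work.MP_b25393_ag.HF.I_H5
import Pool.Agent.Work.MP_b25393_ag.HF.I_H6
import Pool.Agent.Work.MP_b25393_ag.HF.I_H7
import Pool.Agent.Work.MP_b25393_ag.HF.I_H8
import Pool.Agent.Work.MP_b25393_ag.HF.I_B1
import Pool.Agent.Work.MP_b25393_ag.HF.I_B2
import Pool.Agent.Work.MP_b25393_ag.HF.I_B3
import Pool.Agent.Work.MP_b25393_ag.HF.I_B4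
import Pool.Agent.Work.MP_b25393_ag.HF.I_Q1
import Pool.Agent.Work.MP_b25393_ag.HF.I_Q2
import Pool.Agent.Work.MP_b25393_ag.HF.I_Q3
import Pool.Agent.Work.MP_b25393_ag.HF.I_Q4
import Pool.Agent.Work.MP_b25393_ag.HF.I_Q5
import Pool.Agent.Work.MP_b25393_ag.HF.I_Q6
import Pool.Agent.Work.MP_b25393_ag.HF.I_Q7
import Pool.Agent.Work.MP_b25393_ag.HF.I_Q8
import Pool.Agent.Work.MP_b25393_ag.HF.I_Q9

/-!
# MP_b25393_ag, block HF: all items together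
-/

set_option autoImplicit false

namespace Pool.Agent.Work.MP_b25393_ag.HF

theorem all_F1 : St_F1 := pr_F1
theorem all_F2 : St_F2 := pr_F2
theorem all_F3 : St_F3 := pr_F3 all_F2
theorem all_F4 : St_F4 := pr_F4 all_F2
theorem all_L1 : St_L1 := pr_L1
theorem all_L2 : St_L2 := pr_L2 all_L1
theorem all_L3 : St_L3 := pr_L3 all_L1 all_L2
theorem all_L4 : St_L4 := pr_L4 all_F1 all_F3 all_F4 all_L2 all_L3
theorem all_A1 : St_A1 := pr_A1
theorem all_A2 : St_A2 := pr_A2 all_A1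
theorem all_A3 : St_A3 := pr_A3 all_A1 all_A2 all_L4
theorem all_A4 : St_A4 := pr_A4 all_A1
theorem all_A5 : St_A5 := pr_A5
theorem all_C1 : St_C1 := pr_C1
theorem all_C2 : St_C2 := pr_C2 all_C1
theorem all_C3 : St_C3 := pr_C3 all_C1 all_C2
theorem all_C4 : St_C4 := pr_C4 all_C3
theorem all_C5 : St_C5 := pr_C5 all_C4
theorem all_T1 : St_T1 := pr_T1
theorem all_T2 : St_T2 := pr_T2
theorem all_T3 : St_T3 := pr_T3 all_T2
theorem all_T4 : St_T4 := pr_T4 all_T1 all_T3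
theorem all_T5 : St_T5 := pr_T5 all_T4
theorem all_D1 : St_D1 := pr_D1
theorem all_D2 : St_D2 := pr_D2
theorem all_D3 : St_D3 := pr_D3 all_C5 all_D1 all_D2
theorem all_D4 : St_D4 := pr_D4 all_D3 all_T5
theorem all_D5 : St_D5 := pr_D5 all_C2
theorem all_D6 : St_D6 := pr_D6 all_C1 all_D4
theorem all_D7 : St_D7 := pr_D7 all_A2 all_A3 all_A5 all_D5 all_D6
theorem all_G1 : St_G1 := pr_G1
theorem all_G2 : St_G2 := pr_G2
theorem all_G3 : St_G3 := pr_G3 all_G1 all_G2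
theorem all_G4 : St_G4 := pr_G4
theorem all_G5 : St_G5 := pr_G5 all_G3 all_G4
theorem all_G6 : St_G6 := pr_G6 all_G4
theorem all_G7 : St_G7 := pr_G7 all_G4
theorem all_E1 : St_E1 := pr_E1
theorem all_E2 : St_E2 := pr_E2
theorem all_E3 : St_E3 := pr_E3
theorem all_E4 : St_E4 := pr_E4 all_E1 all_E2 all_E3 all_G5 all_G6 all_G7
theorem all_E5 : St_E5 := pr_E5 all_E1 all_E2 all_E3 all_G6 all_G7
theorem all_E6 : St_E6 := pr_E6
theorem all_H1 : St_H1 := pr_H1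
theorem all_H2 : St_H2 := pr_H2
theorem all_H3 : St_H3 := pr_H3 all_C1
theorem all_H4 : St_H4 := pr_H4
theorem all_H5 : St_H5 := pr_H5 all_H1 all_H3 all_H4
theorem all_H6 : St_H6 := pr_H6 all_H1 all_H2 all_H5
theorem all_H7 : St_H7 := pr_H7 all_E1 all_E4 all_E5 all_E6 all_H5
theorem all_H8 : St_H8 := pr_H8 all_H6 all_H7
theorem all_B1 : St_B1 := pr_B1 all_E2
theorem all_B2 : St_B2 := pr_B2 all_B1
theorem all_B3 : St_B3 := pr_B3 all_B2 all_H8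
theorem all_B4 : St_B4 := pr_B4 all_B3
theorem all_Q1 : St_Q1 := pr_Q1 all_G1
theorem all_Q2 : St_Q2 := pr_Q2 all_G4
theorem all_Q3 : St_Q3 := pr_Q3 all_G3 all_G4 all_Q1
theorem all_Q4 : St_Q4 := pr_Q4
theorem all_Q5 : St_Q5 := pr_Q5 all_Q2 all_Q3 all_Q4
theorem all_Q6 : St_Q6 := pr_Q6 all_E1 all_E2 all_E3 all_E4 all_B3 all_Q5
theorem all_Q7 : St_Q7 := pr_Q7
theorem all_Q8 : St_Q8 := pr_Q8
theorem all_Q9 : St_Q9 := pr_Q9 all_E6 all_B4 all_Q6 all_Q7 all_Q8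

end Pool.Agent.Work.MP_b25393_ag.HF
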