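import Pool.Agent.Work.MP_b25393_ag.Str.Main

/-!
# MP_b25393_ag, block HF (homogeneous families): definitions

Captain helper80.  For a symmetric convex body `K` in `ℝ³` and `R > 0` let `A_R(K)` be the set of the
rational lines with a primitive integral coefficient vector in `R • K`.  The Chern slope of `A_R(K)`
tends to `(6 - 2 q) / (3 - 2 q)`, `q = vol {(u, v) : u, v, u + v ∈ K} / vol(K)²`, and `q ≤ 15/32` with
equality for balls, so the limit is at most `27/11`.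
-/

set_option autoImplicit false

open scoped LinearAlgebra.Projectivization Pointwise Matrix RealInnerProductSpace ENNReal
open MeasureTheory Filter Topology Matrix

namespace Pool.Agent.Work.MP_b25393_ag.HF

open Pool.Agent.Work.MP_b25393_ag

/-! ## integral vectors -/

/-- the real vector with the coordinates of `z` -/
def toR {ι : Type} (z : ι → ℤ) : ι → ℝ := fun i => (z i : ℝ)

/-- the rational vector with the coordinates of `z` -/
def toQ (z : Fin 3 → ℤ) : Fin 3 → ℚ := fun i => (z i : ℚ)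

/-- primitive: the common divisors of the coordinates are units (so `0` is not primitive) -/
def Prm (z : Fin 3 → ℤ) : Prop := ∀ d : ℤ, (∀ i, d ∣ z i) → IsUnit d

/-- a symmetric convex body -/
structure Body {E : Type} [NormedAddCommGroup E] [NormedSpace ℝ E] (K : Set E) : Prop where
  conv : Convex ℝ K
  comp : IsCompact K
  symm : ∀ x ∈ K, -x ∈ K
  inte : (interior K).Nonempty

/-- the pairs `(u, v)` with `u`, `v`, `u + v` in `K` -/
def tri {E : Type} [Add E] (K : Set E) : Set (E × E) := {z | z.1 ∈ K ∧ z.2 ∈ K ∧ z.1 + z.2 ∈ K}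

/-- `q(K)` -/
noncomputable def qq {E : Type} [Add E] [MeasureSpace E] (K : Set E) : ℝ :=
  (volume (tri K)).toReal / (volume K).toReal ^ 2

/-! ## the arrangement -/

/-- the lines with a primitive coefficient vector in `C` -/
def lns (C : Set (Fin 3 → ℝ)) : Set (Str.PP ℚ) :=
  {L | ∃ v : Fin 3 → ℤ, Prm v ∧ toR v ∈ C ∧ ∃ h : toQ v ≠ 0, L = Projectivization.mk ℚ (toQ v) h}

/-- the primitive vectors in `C` -/
def S1 (C : Set (Fin 3 → ℝ)) : Set (Fin 3 → ℤ) := {v | Prm v ∧ toR v ∈ C}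

/-- the pairs in `C` with a primitive cross product -/
def P2 (C : Set (Fin 3 → ℝ)) : Set ((Fin 3 → ℤ) × (Fin 3 → ℤ)) :=
  {z | toR z.1 ∈ C ∧ toR z.2 ∈ C ∧ Prm (z.1 ⨯₃ z.2)}

/-- the pairs in `C` with a primitive cross product and sum in `C` -/
def Q2 (C : Set (Fin 3 → ℝ)) : Set ((Fin 3 → ℤ) × (Fin 3 → ℤ)) :=
  {z | toR z.1 ∈ C ∧ toR z.2 ∈ C ∧ toR (z.1 + z.2) ∈ C ∧ Prm (z.1 ⨯₃ z.2)}

/-- the primitive vectors in `C` orthogonal to `n` -/
def S1n (C : Set (Fin 3 → ℝ)) (n : Fin 3 → ℤ) : Set (Fin 3 → ℤ) :=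
  {v | Prm v ∧ toR v ∈ C ∧ n ⬝ᵥ v = 0}

/-- the elements of `P2 C` orthogonal to `n` -/
def P2n (C : Set (Fin 3 → ℝ)) (n : Fin 3 → ℤ) : Set ((Fin 3 → ℤ) × (Fin 3 → ℤ)) :=
  {z | z ∈ P2 C ∧ n ⬝ᵥ z.1 = 0 ∧ n ⬝ᵥ z.2 = 0}

/-- the elements of `Q2 C` orthogonal to `n` -/
def Q2n (C : Set (Fin 3 → ℝ)) (n : Fin 3 → ℤ) : Set ((Fin 3 → ℤ) × (Fin 3 → ℤ)) :=
  {z | z ∈ Q2 C ∧ n ⬝ᵥ z.1 = 0 ∧ n ⬝ᵥ z.2 = 0}

/-! ## the Farey graph -/

/-- determinant -/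
def dt (u v : ℤ × ℤ) : ℤ := u.1 * v.2 - u.2 * v.1

/-- a finite symmetric set of primitive vectors of `ℤ²` with `(1, 0)`, `(0, 1)` which contains with
every element not on the axes its two Farey parents -/
structure Cl2 (S : Finset (ℤ × ℤ)) : Prop where
  cop : ∀ w ∈ S, IsCoprime w.1 w.2
  neg : ∀ w ∈ S, -w ∈ S
  e1 : (1, 0) ∈ S
  e2 : (0, 1) ∈ S
  par : ∀ w ∈ S, w.1 ≠ 0 → w.2 ≠ 0 → ∃ a ∈ S, ∃ b ∈ S, a + b = w ∧ |dt a b| = 1 ∧
    |a.1| + |b.1| = |w.1| ∧ |a.2| + |b.2| = |w.2|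

/-! ## counting -/

/-- no prime up to `G` divides the cross product -/
def gd (G : ℕ) (z : (Fin 3 → ℤ) × (Fin 3 → ℤ)) : Prop :=
  ∀ p : ℕ, p.Prime → p ≤ G → ¬ ∀ i, (p : ℤ) ∣ (z.1 ⨯₃ z.2) i

/-- the pairs of integral vectors with coordinates at most `M` in absolute value -/
def bx (M : ℕ) : Set ((Fin 3 → ℤ) × (Fin 3 → ℤ)) :=
  {z | (∀ i, |z.1 i| ≤ (M : ℤ)) ∧ ∀ i, |z.2 i| ≤ (M : ℤ)}

/-- the pairs in the `R`-dilate of `D` -/
def dl (D : Set ((Fin 3 → ℝ) × (Fin 3 → ℝ))) (R : ℝ) : Set ((Fin 3 → ℤ) × (Fin 3 → ℤ)) :=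
  {z | (toR z.1, toR z.2) ∈ R • D}

/-! ## rearrangement -/

/-- Euclidean space -/
abbrev E3 : Type := EuclideanSpace ℝ (Fin 3)

/-- coordinates adapted to a direction -/
abbrev F3 : Type := (Fin 2 → ℝ) × ℝ

/-- all fibres over the first factor are made symmetric -/
def sy (A : Set F3) : Set F3 := {z | ∃ s s' : ℝ, (z.1, s) ∈ A ∧ (z.1, s') ∈ A ∧ z.2 = (s' - s) / 2}

/-- the Steiner symmetral in the direction `e` -/
def St (e : E3) (K : Set E3) : Set E3 :=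
  {y | ∃ k ∈ K, ∃ k' ∈ K, k - ⟪e, k⟫ • e = k' - ⟪e, k'⟫ • e ∧
    y = k - ⟪e, k⟫ • e + ((⟪e, k'⟫ - ⟪e, k⟫) / 2) • e}

/-- `Ψ` are orthonormal coordinates with `e` as last basis vector -/
structure Adp (e : E3) (Ψ : E3 ≃L[ℝ] F3) : Prop where
  mp : MeasurePreserving Ψ volume volume
  at_e : Ψ e = (0, 1)
  snd : ∀ x, (Ψ x).2 = ⟪e, x⟫
  nrm : ∀ x, ‖x‖ ^ 2 = (Ψ x).1 0 ^ 2 + (Ψ x).1 1 ^ 2 + (Ψ x).2 ^ 2

/-- the measure with density `ρ² - ‖x‖²` (or `0`) -/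
noncomputable def nu (ρ : ℝ) : Measure E3 :=
  volume.withDensity (fun x => ENNReal.ofReal (ρ ^ 2 - ‖x‖ ^ 2))

open TopologicalSpace in
/-- the symmetric convex sets of volume `V` in the ball of radius `ρ` -/
def XX (ρ : ℝ) (V : ℝ≥0∞) : Set (NonemptyCompacts E3) :=
  {K | Convex ℝ (K : Set E3) ∧ (∀ x ∈ (K : Set E3), -x ∈ (K : Set E3)) ∧
    (K : Set E3) ⊆ Metric.closedBall 0 ρ ∧ volume (K : Set E3) = V}

end Pool.Agent.Work.MP_b25393_ag.HF
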