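import Pool.Agent.Work.MP_b25393_ag.HF.StmtsA

/-!
# MP_b25393_ag, block HF, item A3 (helper5): the number of vertices and of incidences
-/

set_option autoImplicit false

open scoped LinearAlgebra.Projectivization Pointwise Matrix RealInnerProductSpace ENNReal
open MeasureTheory Filter Topology Matrix

namespace Pool.Agent.Work.MP_b25393_ag.HF

open Pool.Agent.Work.MP_b25393_ag

namespace IA3

/-- integral vectors -/
abbrev V3 : Type := Fin 3 → ℤ

theorem cross_i (u v : V3) : u ⨯₃ v = ![u 1 * v 2 - u 2 * v 1, u 2 * v 0 - u 0 * v 2,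
    u 0 * v 1 - u 1 * v 0] := cross_apply u v

theorem toQ_cross (u v : V3) : toQ (u ⨯₃ v) = toQ u ⨯₃ toQ v := by
  rw [cross_apply, cross_apply]
  funext i
  fin_cases i <;> simp [toQ]

/-- a divisor of the coordinates of `u` divides the coordinates of the cross product -/
theorem dvd_cross_left (u v : V3) (d : ℤ) (h : ∀ i, d ∣ u i) (i : Fin 3) : d ∣ (u ⨯₃ v) i := by
  have h0 := h 0
  have h1 := h 1
  have h2 := h 2
  rw [cross_i]
  fin_cases i
  · exact dvd_sub (h1.mul_right _) (h2.mul_right _)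
  · exact dvd_sub (h2.mul_right _) (h0.mul_right _)
  · exact dvd_sub (h0.mul_right _) (h1.mul_right _)

theorem dvd_cross_right (u v : V3) (d : ℤ) (h : ∀ i, d ∣ v i) (i : Fin 3) : d ∣ (u ⨯₃ v) i := by
  have h0 := h 0
  have h1 := h 1
  have h2 := h 2
  rw [cross_i]
  fin_cases i
  · exact dvd_sub (h2.mul_left _) (h1.mul_left _)
  · exact dvd_sub (h0.mul_left _) (h2.mul_left _)
  · exact dvd_sub (h1.mul_left _) (h0.mul_left _)

theorem prm_left {u v : V3} (h : Prm (u ⨯₃ v)) : Prm u :=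
  fun d hd => h d fun i => dvd_cross_left u v d hd i

theorem prm_right {u v : V3} (h : Prm (u ⨯₃ v)) : Prm v :=
  fun d hd => h d fun i => dvd_cross_right u v d hd i

theorem not_prm_zero : ¬ Prm (0 : V3) := fun h => by
  have h1 := h 2 fun i => dvd_zero 2
  rw [Int.isUnit_iff] at h1
  omega

theorem dot_cross_left (u v : V3) : (u ⨯₃ v) ⬝ᵥ u = 0 := by
  rw [dotProduct_comm]
  exact dot_self_cross u v

theorem dot_cross_right (u v : V3) : (u ⨯₃ v) ⬝ᵥ v = 0 := by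
  rw [dotProduct_comm]
  exact dot_cross_self u v

open Classical in
/-- the point of a pair -/
noncomputable def pt (z : V3 × V3) : Str.PP ℚ :=
  if h : toQ (z.1 ⨯₃ z.2) ≠ 0 then Projectivization.mk ℚ (toQ (z.1 ⨯₃ z.2)) h else Str.gn 0

theorem pt_eq (z : V3 × V3) (h : toQ (z.1 ⨯₃ z.2) ≠ 0) :
    pt z = Projectivization.mk ℚ (toQ (z.1 ⨯₃ z.2)) h := by
  unfold pt
  rw [dif_pos h]

/-- the fibres of `pt` -/
theorem pt_iff (hA1 : St_A1) (z : V3 × V3) (hz : Prm (z.1 ⨯₃ z.2)) (n : V3) (hn : Prm n)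
    (h : toQ n ≠ 0) : pt z = Projectivization.mk ℚ (toQ n) h ↔ n ⬝ᵥ z.1 = 0 ∧ n ⬝ᵥ z.2 = 0 := by
  have h0 : toQ (z.1 ⨯₃ z.2) ≠ 0 := hA1.2.2.2 _ hz
  rw [pt_eq z h0]
  constructor
  · intro he
    rcases (hA1.2.1 _ _ hz hn h0 h).1 he with h1 | h1
    · rw [← h1]
      exact ⟨dot_cross_left _ _, dot_cross_right _ _⟩
    · have h2 : n = -(z.1 ⨯₃ z.2) := by rw [h1, neg_neg]
      rw [h2, neg_dotProduct, neg_dotProduct, dot_cross_left, dot_cross_right, neg_zero]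
      exact ⟨rfl, rfl⟩
  · rintro ⟨h1, h2⟩
    apply Str.eq_of_cross_eq_zero
    rw [← toQ_cross]
    have h3 : (z.1 ⨯₃ z.2) ⨯₃ n = 0 := by
      have e1 : n ⬝ᵥ z.1 = n 0 * z.1 0 + n 1 * z.1 1 + n 2 * z.1 2 := by
        simp [dotProduct, Fin.sum_univ_three]
      have e2 : n ⬝ᵥ z.2 = n 0 * z.2 0 + n 1 * z.2 1 + n 2 * z.2 2 := by
        simp [dotProduct, Fin.sum_univ_three]
      rw [e1] at h1
      rw [e2] at h2
      rw [cross_i, cross_i]
      funext i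
      fin_cases i
      · show (z.1 2 * z.2 0 - z.1 0 * z.2 2) * n 2 - (z.1 0 * z.2 1 - z.1 1 * z.2 0) * n 1 = 0
        linear_combination z.2 0 * h1 - z.1 0 * h2
      · show (z.1 0 * z.2 1 - z.1 1 * z.2 0) * n 0 - (z.1 1 * z.2 2 - z.1 2 * z.2 1) * n 2 = 0
        linear_combination z.2 1 * h1 - z.1 1 * h2
      · show (z.1 1 * z.2 2 - z.1 2 * z.2 1) * n 1 - (z.1 2 * z.2 0 - z.1 0 * z.2 2) * n 0 = 0
        linear_combination z.2 2 * h1 - z.1 2 * h2
    rw [h3]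
    funext i
    simp [toQ]

/-- the point of a pair is a vertex -/
theorem pt_mem (hA1 : St_A1) (C : Set (Fin 3 → ℝ)) (A : Finset (Str.PP ℚ))
    (hA : ∀ L, L ∈ A ↔ L ∈ lns C) (z : V3 × V3) (hz : z ∈ P2 C) : pt z ∈ Str.verts A := by
  obtain ⟨h1, h2, h3⟩ := hz
  have p1 := prm_left h3
  have p2 := prm_right h3
  have q1 := hA1.2.2.2 _ p1
  have q2 := hA1.2.2.2 _ p2
  have q3 := hA1.2.2.2 _ h3
  have l1 : Projectivization.mk ℚ (toQ z.1) q1 ∈ A := (hA _).2 ⟨z.1, p1, h1, q1, rfl⟩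
  have l2 : Projectivization.mk ℚ (toQ z.2) q2 ∈ A := (hA _).2 ⟨z.2, p2, h2, q2, rfl⟩
  have hne : Projectivization.mk ℚ (toQ z.1) q1 ≠ Projectivization.mk ℚ (toQ z.2) q2 := by
    intro he
    rcases (hA1.2.1 _ _ p1 p2 q1 q2).1 he with h4 | h4
    · rw [h4, cross_self] at h3
      exact not_prm_zero h3
    · rw [h4, map_neg, LinearMap.neg_apply, cross_self, neg_zero] at h3
      exact not_prm_zero h3
  have i1 : Str.inc (pt z) (Projectivization.mk ℚ (toQ z.1) q1) := by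
    rw [pt_eq z q3]
    exact (hA1.2.2.1 _ _ q3 q1).2 (dot_cross_left _ _)
  have i2 : Str.inc (pt z) (Projectivization.mk ℚ (toQ z.2) q2) := by
    rw [pt_eq z q3]
    exact (hA1.2.2.1 _ _ q3 q2).2 (dot_cross_right _ _)
  classical
  unfold Str.verts
  rw [Finset.mem_image]
  exact ⟨(_, _), Finset.mem_offDiag.2 ⟨l1, l2, hne⟩, Str.meet_eq hne i1 i2⟩

theorem P2_finite (C : Set (Fin 3 → ℝ)) (h : (S1 C).Finite) : (P2 C).Finite :=
  (h.prod h).subset fun _ hz => ⟨⟨prm_left hz.2.2, hz.1⟩, ⟨prm_right hz.2.2, hz.2.1⟩⟩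

/-- counting by fibres -/
theorem count (X : Set (V3 × V3)) (hX : X.Finite) (A : Finset (Str.PP ℚ))
    (hf : ∀ z ∈ X, pt z ∈ Str.verts A) (c : ℕ)
    (hc : ∀ p ∈ Str.verts A, {z | z ∈ X ∧ pt z = p}.ncard + 24 = c * Str.mult A p) :
    c * Str.f1 A = X.ncard + 24 * Str.f0 A := by
  classical
  have h1 : X.ncard = ∑ p ∈ Str.verts A, {z | z ∈ X ∧ pt z = p}.ncard := by
    rw [Set.ncard_eq_toFinset_card X hX, Finset.card_eq_sum_card_fiberwise (f := pt)
      (t := Str.verts A) (fun z hz => hf z ((Set.Finite.mem_toFinset hX).1 hz))]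
    refine Finset.sum_congr rfl fun p _ => ?_
    rw [← Set.ncard_coe_finset]
    congr 1
    ext z
    simp
  have h2 : ∑ p ∈ Str.verts A, ({z | z ∈ X ∧ pt z = p}.ncard + 24) =
      ∑ p ∈ Str.verts A, c * Str.mult A p := Finset.sum_congr rfl hc
  rw [Finset.sum_add_distrib, ← h1, Finset.sum_const, smul_eq_mul, ← Finset.mul_sum] at h2
  unfold Str.f1 Str.f0
  rw [← h2, mul_comm 24]

/-- data at a vertex -/
theorem at_vertex (hA1 : St_A1) (hA2 : St_A2) (hL4 : St_L4) (C : Set (Fin 3 → ℝ))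
    (hcv : Convex ℝ C) (hs : ∀ z ∈ C, -z ∈ C) (hf : (S1 C).Finite) (A : Finset (Str.PP ℚ))
    (hA : ∀ L, L ∈ A ↔ L ∈ lns C) (p : Str.PP ℚ) (hp : p ∈ Str.verts A) :
    ∃ n : V3, Prm n ∧ (∃ h : toQ n ≠ 0, p = Projectivization.mk ℚ (toQ n) h) ∧
      (P2n C n).ncard + 24 = 16 * Str.mult A p ∧ (Q2n C n).ncard + 24 = 12 * Str.mult A p := by
  obtain ⟨n, hn, h0, rfl⟩ := hA1.1 p
  have h1 := (hA2 C hs hf A hA).2 n hn h0
  have h2 := Str.mem_verts.1 hp
  have hfin : (S1n C n).Finite := hf.subset fun v hv => ⟨hv.1, hv.2.1⟩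
  have hex : ∃ u ∈ S1n C n, ∃ v ∈ S1n C n, u ⨯₃ v ≠ 0 := by
    by_contra hcon
    push Not at hcon
    have hne : (S1n C n).Nonempty := by
      rw [← Set.ncard_pos hfin]
      omega
    obtain ⟨u, hu⟩ := hne
    have hsub : S1n C n ⊆ {u, -u} := by
      intro v hv
      have h3 := hcon u hu v hv
      have qu := hA1.2.2.2 _ hu.1
      have qv := hA1.2.2.2 _ hv.1
      have h4 : Projectivization.mk ℚ (toQ v) qv = Projectivization.mk ℚ (toQ u) qu := by
        apply Eq.symm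
        apply Str.eq_of_cross_eq_zero
        rw [← toQ_cross, h3]
        funext i
        simp [toQ]
      exact (hA1.2.1 _ _ hv.1 hu.1 qv qu).1 h4
    have h5 := Set.ncard_le_ncard hsub (Set.toFinite _)
    have h6 : ({u, -u} : Set V3).ncard ≤ 2 := by
      refine (Set.ncard_insert_le _ _).trans ?_
      rw [Set.ncard_singleton]
    omega
  obtain ⟨h3, h4⟩ := hL4 C hcv hs n hn hfin hex
  exact ⟨n, hn, ⟨h0, rfl⟩, by omega, by omega⟩

end IA3

open IA3 in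
theorem pr_A3 (hA1 : St_A1) (hA2 : St_A2) (hL4 : St_L4) : St_A3 := by
  intro C hcv hs hf A hA
  have hP := P2_finite C hf
  have hQP : Q2 C ⊆ P2 C := fun z hz => ⟨hz.1, hz.2.1, hz.2.2.2⟩
  constructor
  · refine count (P2 C) hP A (fun z hz => pt_mem hA1 C A hA z hz) 16 fun p hp => ?_
    obtain ⟨n, hn, ⟨h0, he⟩, h1, -⟩ := at_vertex hA1 hA2 hL4 C hcv hs hf A hA p hp
    rw [← h1]
    congr 2
    ext z
    constructor
    · rintro ⟨hz, hzp⟩
      rw [he] at hzp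
      exact ⟨hz, (pt_iff hA1 z hz.2.2 n hn h0).1 hzp⟩
    · rintro ⟨hz, hz1⟩
      exact ⟨hz, by rw [he]; exact (pt_iff hA1 z hz.2.2 n hn h0).2 hz1⟩
  · refine count (Q2 C) (hP.subset hQP) A (fun z hz => pt_mem hA1 C A hA z (hQP hz)) 12
      fun p hp => ?_
    obtain ⟨n, hn, ⟨h0, he⟩, -, h1⟩ := at_vertex hA1 hA2 hL4 C hcv hs hf A hA p hp
    rw [← h1]
    congr 2
    ext z
    constructor
    · rintro ⟨hz, hzp⟩
      rw [he] at hzp
      exact ⟨hz, (pt_iff hA1 z hz.2.2.2 n hn h0).1 hzp⟩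
    · rintro ⟨hz, hz1⟩
      exact ⟨hz, by rw [he]; exact (pt_iff hA1 z hz.2.2.2 n hn h0).2 hz1⟩

end Pool.Agent.Work.MP_b25393_ag.HF
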