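import Pool.Agent.Work.MP_b25393_ag.HF.StmtsR

/-!
# MP_b25393_ag, block HF, item B4: back to `Fin 3 → ℝ`
-/

set_option autoImplicit false

open scoped LinearAlgebra.Projectivization Pointwise Matrix RealInnerProductSpace ENNReal
open MeasureTheory Filter Topology Matrix TopologicalSpace

namespace Pool.Agent.Work.MP_b25393_ag.HF

open Pool.Agent.Work.MP_b25393_ag

namespace IB4

/-- bodies under linear homeomorphisms -/
theorem body_preimage {E F : Type} [NormedAddCommGroup E] [NormedSpace ℝ E]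
    [NormedAddCommGroup F] [NormedSpace ℝ F] (Φ : E ≃L[ℝ] F) {K : Set F} (h : Body K) :
    Body (Φ ⁻¹' K) where
  conv := h.conv.linear_preimage (Φ.toLinearEquiv : E →ₗ[ℝ] F)
  comp := by
    have h1 : IsCompact (Φ.toHomeomorph ⁻¹' K) := Φ.toHomeomorph.isCompact_preimage.mpr h.comp
    exact h1
  symm := by
    intro x hx
    show Φ (-x) ∈ K
    rw [map_neg]
    exact h.symm _ hx
  inte := by
    obtain ⟨y, hy⟩ := h.inte
    refine ⟨Φ.symm y, ?_⟩
    have h1 : Φ.toHomeomorph ⁻¹' interior K = interior (Φ.toHomeomorph ⁻¹' K) :=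
      Φ.toHomeomorph.preimage_interior K
    have h2 : Φ.symm y ∈ Φ.toHomeomorph ⁻¹' interior K := by
      show Φ (Φ.symm y) ∈ interior K
      rwa [Φ.apply_symm_apply]
    rw [h1] at h2
    exact h2

/-- the identification -/
noncomputable def PH : E3 ≃L[ℝ] (Fin 3 → ℝ) := EuclideanSpace.equiv (Fin 3) ℝ

theorem PH_apply (x : E3) (i : Fin 3) : PH x i = x i := rfl

theorem PH_mp : MeasurePreserving (PH : E3 → (Fin 3 → ℝ)) volume volume :=
  PiLp.volume_preserving_ofLp (Fin 3)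

theorem closed_tri {K : Set (Fin 3 → ℝ)} (h : IsClosed K) : IsClosed (tri K) := by
  have h1 : tri K = (Prod.fst ⁻¹' K) ∩ ((Prod.snd ⁻¹' K) ∩
      ((fun z : (Fin 3 → ℝ) × (Fin 3 → ℝ) => z.1 + z.2) ⁻¹' K)) := by
    ext z
    rfl
  rw [h1]
  exact (h.preimage continuous_fst).inter ((h.preimage continuous_snd).inter
    (h.preimage (continuous_fst.add continuous_snd)))

theorem qq_eq {K : Set (Fin 3 → ℝ)} (h : Body K) :
    qq ((PH : E3 → (Fin 3 → ℝ)) ⁻¹' K) = qq K := by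
  unfold qq
  have h1 : volume ((PH : E3 → (Fin 3 → ℝ)) ⁻¹' K) = volume K :=
    PH_mp.measure_preimage h.comp.isClosed.measurableSet.nullMeasurableSet
  have h2 : volume (tri ((PH : E3 → (Fin 3 → ℝ)) ⁻¹' K)) = volume (tri K) := by
    have h3 : tri ((PH : E3 → (Fin 3 → ℝ)) ⁻¹' K) = Prod.map PH PH ⁻¹' tri K := by
      ext z
      show (PH z.1 ∈ K ∧ PH z.2 ∈ K ∧ PH (z.1 + z.2) ∈ K) ↔
        (PH z.1 ∈ K ∧ PH z.2 ∈ K ∧ PH z.1 + PH z.2 ∈ K)
      rw [map_add]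
    rw [h3]
    exact (PH_mp.prod PH_mp).measure_preimage
      (closed_tri h.comp.isClosed).measurableSet.nullMeasurableSet
  rw [h1, h2]

theorem ball_eq : (PH : E3 → (Fin 3 → ℝ)) ⁻¹' {x : Fin 3 → ℝ | x 0 ^ 2 + x 1 ^ 2 + x 2 ^ 2 ≤ 1} =
    Metric.closedBall (0 : E3) 1 := by
  ext x
  rw [mem_closedBall_zero_iff, EuclideanSpace.norm_eq, Real.sqrt_le_one]
  show PH x 0 ^ 2 + PH x 1 ^ 2 + PH x 2 ^ 2 ≤ 1 ↔ _
  rw [Fin.sum_univ_three]
  simp only [PH_apply, Real.norm_eq_abs, sq_abs]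

theorem body_ball : Body (Metric.closedBall (0 : E3) 1) where
  conv := convex_closedBall _ _
  comp := isCompact_closedBall _ _
  symm := by
    intro x hx
    rw [mem_closedBall_zero_iff] at hx ⊢
    rwa [norm_neg]
  inte := ⟨0, Metric.ball_subset_interior_closedBall (Metric.mem_ball_self one_pos)⟩

theorem body_ball' : Body {x : Fin 3 → ℝ | x 0 ^ 2 + x 1 ^ 2 + x 2 ^ 2 ≤ 1} := by
  have h1 := body_preimage PH.symm body_ball
  rw [← ball_eq] at h1
  have h2 : (PH.symm : (Fin 3 → ℝ) → E3) ⁻¹' ((PH : E3 → (Fin 3 → ℝ)) ⁻¹'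
      {x : Fin 3 → ℝ | x 0 ^ 2 + x 1 ^ 2 + x 2 ^ 2 ≤ 1}) =
      {x : Fin 3 → ℝ | x 0 ^ 2 + x 1 ^ 2 + x 2 ^ 2 ≤ 1} := by
    ext x
    rw [Set.mem_preimage, Set.mem_preimage, PH.apply_symm_apply]
  rwa [h2] at h1

end IB4

open IB4 in
theorem pr_B4 (hB3 : St_B3) : St_B4 := by
  refine ⟨?_, body_ball', ?_⟩
  · intro K hK
    rw [← qq_eq hK]
    exact hB3.1 _ (body_preimage PH hK)
  · rw [← qq_eq body_ball', ball_eq]
    exact hB3.2 1 one_pos

end Pool.Agent.Work.MP_b25393_ag.HF
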