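import Pool.Agent.Work.MP_b25393_ag.HF.StmtsA

set_option autoImplicit false

open scoped LinearAlgebra.Projectivization Pointwise Matrix RealInnerProductSpace ENNReal
open MeasureTheory Filter Topology Matrix

namespace Pool.Agent.Work.MP_b25393_ag.HF

open Pool.Agent.Work.MP_b25393_ag

namespace IF1

lemma conv3 {C : Set (ℝ × ℝ)} (hC : Convex ℝ C) (h0 : (0 : ℝ × ℝ) ∈ C) {p q : ℝ × ℝ}
    (hp : p ∈ C) (hq : q ∈ C) {s t : ℝ} (hs : 0 ≤ s) (ht : 0 ≤ t) (hst : s + t ≤ 1) :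
    s • p + t • q ∈ C := by
  rcases (add_nonneg hs ht).eq_or_lt with h | h
  · have hs0 : s = 0 := by linarith
    have ht0 : t = 0 := by linarith
    rw [hs0, ht0, zero_smul, zero_smul, add_zero]; exact h0
  · have h1 : (s / (s + t)) • p + (t / (s + t)) • q ∈ C :=
      hC hp hq (by positivity) (by positivity) (by field_simp)
    have h2 := hC.smul_mem_of_zero_mem h0 h1 (t := s + t) ⟨h.le, hst⟩
    have e : (s + t) • ((s / (s + t)) • p + (t / (s + t)) • q) = s • p + t • q := by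
      rw [smul_add, smul_smul, smul_smul, mul_div_cancel₀ _ h.ne', mul_div_cancel₀ _ h.ne']
    rwa [e] at h2

lemma pos_case (x y : ℤ) (hxy : IsCoprime x y) (hx : 0 < x) (hy : 0 < y) :
    ∃ a b : ℤ × ℤ, a + b = (x, y) ∧ dt a b = 1 ∧ 0 ≤ a.1 ∧ 0 ≤ a.2 ∧ 0 ≤ b.1 ∧ 0 ≤ b.2 ∧
    ∀ C : Set (ℝ × ℝ), Convex ℝ C → (0 : ℝ × ℝ) ∈ C → ((1 : ℝ), (0 : ℝ)) ∈ C →
      ((0 : ℝ), (1 : ℝ)) ∈ C → ((x : ℝ), (y : ℝ)) ∈ C →
      ((a.1 : ℝ), (a.2 : ℝ)) ∈ C ∧ ((b.1 : ℝ), (b.2 : ℝ)) ∈ C := by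
  obtain ⟨u, v, huv⟩ := hxy
  set q : ℤ := (-u) / y with hq
  set a2 : ℤ := (-u) % y with ha2
  have h1 : y * q + a2 = -u := Int.mul_ediv_add_emod (-u) y
  have h2 : 0 ≤ a2 := Int.emod_nonneg _ hy.ne'
  have h3 : a2 < y := Int.emod_lt_of_pos _ hy
  set a1 : ℤ := v - x * q with ha1
  have h4 : a1 * y = 1 + a2 * x := by
    have : a2 = -u - y * q := by linarith
    rw [ha1, this]; linear_combination huv
  have h5 : 0 < a1 := by
    have : 0 < a1 * y := by rw [h4]; positivity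
    exact (pos_iff_pos_of_mul_pos this).2 hy
  have h6 : a1 ≤ x := by
    have : a1 * y ≤ x * y := by rw [h4]; nlinarith
    exact le_of_mul_le_mul_right this hy
  refine ⟨(a1, a2), (x - a1, y - a2), by ext <;> simp, ?_, h5.le, h2, by simpa using h6,
    by simpa using h3.le, ?_⟩
  · simp only [dt]; linear_combination h4
  · intro C hC h0 h10 h01 hxyC
    have hxr : (0 : ℝ) < x := by exact_mod_cast hx
    have hyr : (0 : ℝ) < y := by exact_mod_cast hy
    have h4r : (a1 : ℝ) * y = 1 + a2 * x := by exact_mod_cast h4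
    have h2r : (0 : ℝ) ≤ a2 := by exact_mod_cast h2
    have h3r : (a2 : ℝ) + 1 ≤ y := by exact_mod_cast h3
    have h5r : (1 : ℝ) ≤ a1 := by exact_mod_cast h5
    have h6r : (a1 : ℝ) ≤ x := by exact_mod_cast h6
    constructor
    · have h7 := conv3 hC h0 h10 hxyC (s := 1 / (y : ℝ)) (t := (a2 : ℝ) / y) (by positivity)
        (by positivity) (by rw [← add_div, div_le_one hyr]; linarith)
      have e : (1 / (y : ℝ)) • ((1 : ℝ), (0 : ℝ)) + ((a2 : ℝ) / y) • ((x : ℝ), (y : ℝ)) =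
          ((((a1, a2) : ℤ × ℤ).1 : ℝ), (((a1, a2) : ℤ × ℤ).2 : ℝ)) := by
        ext
        · simp only [Prod.smul_mk, Prod.mk_add_mk, smul_eq_mul]
          field_simp; linarith
        · simp only [Prod.smul_mk, Prod.mk_add_mk, smul_eq_mul]
          field_simp; ring
      rwa [e] at h7
    · have h7 := conv3 hC h0 h01 hxyC (s := 1 / (x : ℝ)) (t := ((x : ℝ) - a1) / x) (by positivity)
        (div_nonneg (by linarith) hxr.le) (by rw [← add_div, div_le_one hxr]; linarith)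
      have e : (1 / (x : ℝ)) • ((0 : ℝ), (1 : ℝ)) + (((x : ℝ) - a1) / x) • ((x : ℝ), (y : ℝ)) =
          ((((x - a1, y - a2) : ℤ × ℤ).1 : ℝ), (((x - a1, y - a2) : ℤ × ℤ).2 : ℝ)) := by
        ext
        · simp only [Prod.smul_mk, Prod.mk_add_mk, smul_eq_mul]
          push_cast; field_simp; ring
        · simp only [Prod.smul_mk, Prod.mk_add_mk, smul_eq_mul]
          push_cast; field_simp; linarith
      rwa [e] at h7

lemma sgn (x : ℤ) (hx : x ≠ 0) : ∃ e : ℤ, (e = 1 ∨ e = -1) ∧ x = e * |x| := by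
  rcases lt_or_gt_of_ne hx with h | h
  · exact ⟨-1, Or.inr rfl, by rw [abs_of_neg h]; ring⟩
  · exact ⟨1, Or.inl rfl, by rw [abs_of_pos h]; ring⟩

end IF1

open IF1 in
theorem pr_F1 : St_F1 := by
  intro x y hxy hx hy
  obtain ⟨e, he, hxe⟩ := sgn x hx
  obtain ⟨d, hd, hyd⟩ := sgn y hy
  have he1 : |e| = 1 := by rcases he with h | h <;> rw [h] <;> norm_num
  have hd1 : |d| = 1 := by rcases hd with h | h <;> rw [h] <;> norm_num
  have hcop : IsCoprime |x| |y| := by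
    rwa [IsCoprime.abs_abs_iff]
  obtain ⟨a, b, hab, hdt, ha1, ha2, hb1, hb2, hcv⟩ :=
    pos_case |x| |y| hcop (abs_pos.2 hx) (abs_pos.2 hy)
  have hab1 : a.1 + b.1 = |x| := congrArg Prod.fst hab
  have hab2 : a.2 + b.2 = |y| := congrArg Prod.snd hab
  refine ⟨(e * a.1, d * a.2), (e * b.1, d * b.2), ?_, ?_, ?_, ?_, ?_⟩
  · rw [Prod.mk_add_mk, ← mul_add, ← mul_add, hab1, hab2, ← hxe, ← hyd]
  · have : dt (e * a.1, d * a.2) (e * b.1, d * b.2) = e * d * dt a b := by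
      simp only [dt]; ring
    rw [this, abs_mul, abs_mul, he1, hd1, hdt]; norm_num
  · simp only [abs_mul, he1, one_mul, abs_of_nonneg ha1, abs_of_nonneg hb1]; exact hab1
  · simp only [abs_mul, hd1, one_mul, abs_of_nonneg ha2, abs_of_nonneg hb2]; exact hab2
  · intro C hC hsym h10 h01 hxyC
    set C' : Set (ℝ × ℝ) := {z | ((e : ℝ) * z.1, (d : ℝ) * z.2) ∈ C} with hC'
    have hconv : Convex ℝ C' := by
      intro p hp q hq s t hs ht hst
      have h1 := hC hp hq hs ht hst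
      have h2 : s • ((e : ℝ) * p.1, (d : ℝ) * p.2) + t • ((e : ℝ) * q.1, (d : ℝ) * q.2) =
          ((e : ℝ) * (s • p + t • q).1, (d : ℝ) * (s • p + t • q).2) := by
        ext
        · simp only [Prod.smul_mk, Prod.mk_add_mk, smul_eq_mul, Prod.fst_add, Prod.smul_fst]; ring
        · simp only [Prod.smul_mk, Prod.mk_add_mk, smul_eq_mul, Prod.snd_add, Prod.smul_snd]; ring
      rw [h2] at h1
      exact h1
    have h0 : (0 : ℝ × ℝ) ∈ C := by
      have h1 := hC h10 (hsym _ h10) (a := 1 / 2) (b := 1 / 2) (by norm_num) (by norm_num)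
        (by norm_num)
      have h2 : (1 / 2 : ℝ) • ((1 : ℝ), (0 : ℝ)) + (1 / 2 : ℝ) • (-((1 : ℝ), (0 : ℝ))) = 0 := by
        rw [smul_neg, add_neg_cancel]
      rwa [h2] at h1
    have h0' : (0 : ℝ × ℝ) ∈ C' := by
      change ((e : ℝ) * 0, (d : ℝ) * 0) ∈ C
      rw [mul_zero, mul_zero]; exact h0
    have h10' : ((1 : ℝ), (0 : ℝ)) ∈ C' := by
      change ((e : ℝ) * 1, (d : ℝ) * 0) ∈ C
      rcases he with h | h
      · rw [h]; simpa using h10
      · rw [h]; simpa using hsym _ h10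
    have h01' : ((0 : ℝ), (1 : ℝ)) ∈ C' := by
      change ((e : ℝ) * 0, (d : ℝ) * 1) ∈ C
      rcases hd with h | h
      · rw [h]; simpa using h01
      · rw [h]; simpa using hsym _ h01
    have hxy' : (((|x| : ℤ) : ℝ), ((|y| : ℤ) : ℝ)) ∈ C' := by
      change ((e : ℝ) * ((|x| : ℤ) : ℝ), (d : ℝ) * ((|y| : ℤ) : ℝ)) ∈ C
      rw [← Int.cast_mul, ← Int.cast_mul, ← hxe, ← hyd]; exact hxyC
    obtain ⟨h1, h2⟩ := hcv C' hconv h0' h10' h01' hxy'
    constructor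
    · have h3 : ((e : ℝ) * (a.1 : ℝ), (d : ℝ) * (a.2 : ℝ)) ∈ C := h1
      simpa only [Int.cast_mul] using h3
    · have h3 : ((e : ℝ) * (b.1 : ℝ), (d : ℝ) * (b.2 : ℝ)) ∈ C := h2
      simpa only [Int.cast_mul] using h3

end Pool.Agent.Work.MP_b25393_ag.HF
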