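import Pool.Agent.Work.MP_b25393_ag.HF.StmtsR

/-!
Block HF, item G3: the one-dimensional Riesz inequality for three intervals.
-/

set_option autoImplicit false

open MeasureTheory Filter Topology
open scoped ENNReal

namespace Pool.Agent.Work.MP_b25393_ag.HF

namespace IG3

/-- Fubini after the shear -/
theorem fub (I0 I1 I2 : Set ℝ) (h0 : MeasurableSet I0) (h1 : MeasurableSet I1)
    (h2 : MeasurableSet I2) :
    volume {z : ℝ × ℝ | z.1 ∈ I0 ∧ z.2 ∈ I1 ∧ z.1 + z.2 ∈ I2} =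
      ∫⁻ x in I2, volume {s : ℝ | s ∈ I0 ∧ x - s ∈ I1} := by
  set S' : Set (ℝ × ℝ) := {z | z.1 ∈ I0 ∧ z.2 - z.1 ∈ I1 ∧ z.2 ∈ I2} with hS'
  have hm : MeasurableSet S' := by
    have e : S' = Prod.fst ⁻¹' I0 ∩ ((fun z : ℝ × ℝ => z.2 - z.1) ⁻¹' I1 ∩ Prod.snd ⁻¹' I2) := by
      ext z
      simp [hS']
    rw [e]
    exact (measurable_fst h0).inter
      (((measurable_snd.sub measurable_fst) h1).inter (measurable_snd h2))
  have hp : MeasurePreserving (fun z : ℝ × ℝ => (z.1, z.1 + z.2)) (volume : Measure (ℝ × ℝ))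
      (volume : Measure (ℝ × ℝ)) := measurePreserving_prod_add volume volume
  have e1 : {z : ℝ × ℝ | z.1 ∈ I0 ∧ z.2 ∈ I1 ∧ z.1 + z.2 ∈ I2} =
      (fun z : ℝ × ℝ => (z.1, z.1 + z.2)) ⁻¹' S' := by
    ext z
    simp [hS']
  rw [e1, hp.measure_preimage hm.nullMeasurableSet]
  have e2 : (volume : Measure (ℝ × ℝ)) S' = ∫⁻ x, volume ((fun s : ℝ => (s, x)) ⁻¹' S') :=
    Measure.prod_apply_symm hm
  rw [e2, ← lintegral_indicator h2]
  refine lintegral_congr fun x => ?_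
  by_cases hx : x ∈ I2
  · rw [Set.indicator_of_mem hx]
    congr 1
    ext s
    simp [hS', hx]
  · rw [Set.indicator_of_notMem hx]
    have : (fun s : ℝ => (s, x)) ⁻¹' S' = ∅ := by
      ext s
      simp [hS', hx]
    rw [this, measure_empty]

theorem meas_h (l m : ℝ) : Measurable (fun x : ℝ => volume {s : ℝ | |s| ≤ l ∧ |x - s| ≤ m}) := by
  have hT : MeasurableSet {z : ℝ × ℝ | |z.2| ≤ l ∧ |z.1 - z.2| ≤ m} := by
    refine IsClosed.measurableSet ?_
    exact (isClosed_le (continuous_abs.comp continuous_snd) continuous_const).inter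
      (isClosed_le (continuous_abs.comp (continuous_fst.sub continuous_snd)) continuous_const)
  exact measurable_measure_prodMk_left hT

end IG3

open IG3 in
theorem pr_G3 (hG1 : St_G1) (hG2 : St_G2) : St_G3 := by
  intro a b hab
  set l0 : ℝ := (b 0 - a 0) / 2 with hl0
  set l1 : ℝ := (b 1 - a 1) / 2 with hl1
  set l2 : ℝ := (b 2 - a 2) / 2 with hl2
  set m0 : ℝ := (a 0 + b 0) / 2 with hm0
  set m1 : ℝ := (a 1 + b 1) / 2 with hm1
  set m2 : ℝ := (a 2 + b 2) / 2 with hm2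
  have p0 : 0 ≤ l0 := by have := hab 0; rw [hl0]; linarith
  have p1 : 0 ≤ l1 := by have := hab 1; rw [hl1]; linarith
  have p2 : 0 ≤ l2 := by have := hab 2; rw [hl2]; linarith
  set h : ℝ → ℝ≥0∞ := fun x => volume {s : ℝ | |s| ≤ l0 ∧ |x - s| ≤ l1} with hh
  have hmeas : Measurable h := meas_h l0 l1
  have hanti : ∀ x y : ℝ, |x| ≤ |y| → h y ≤ h x := fun x y hxy => hG1 l0 l1 p0 p1 x y hxy
  -- left side
  have L : volume {z : ℝ × ℝ | z.1 ∈ Set.Icc (a 0) (b 0) ∧ z.2 ∈ Set.Icc (a 1) (b 1) ∧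
      z.1 + z.2 ∈ Set.Icc (a 2) (b 2)} =
      ∫⁻ x in Set.Icc (m2 - m0 - m1 - l2) (m2 - m0 - m1 + l2), h x := by
    rw [fub _ _ _ measurableSet_Icc measurableSet_Icc measurableSet_Icc]
    have hg : MeasurePreserving (fun x : ℝ => x - (m0 + m1)) volume volume :=
      measurePreserving_sub_right volume (m0 + m1)
    have e := hg.setLIntegral_comp_preimage
      (s := Set.Icc (m2 - m0 - m1 - l2) (m2 - m0 - m1 + l2)) measurableSet_Icc hmeas
    rw [← e]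
    have e3 : (fun x : ℝ => x - (m0 + m1)) ⁻¹' Set.Icc (m2 - m0 - m1 - l2) (m2 - m0 - m1 + l2) =
        Set.Icc (a 2) (b 2) := by
      ext x
      simp only [Set.mem_preimage, Set.mem_Icc]
      rw [hm2, hl2]
      constructor <;> rintro ⟨h1, h2⟩ <;> constructor <;> linarith
    rw [e3]
    refine lintegral_congr fun x => ?_
    show volume _ = volume _
    rw [← measure_preimage_add_right volume m0
      {s : ℝ | s ∈ Set.Icc (a 0) (b 0) ∧ x - s ∈ Set.Icc (a 1) (b 1)}]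
    congr 1
    ext s
    simp only [Set.mem_preimage, Set.mem_ofPred_eq, Set.mem_Icc, abs_le]
    rw [hm0, hm1, hl0, hl1]
    constructor
    · rintro ⟨⟨h1, h2⟩, h3, h4⟩
      refine ⟨⟨?_, ?_⟩, ?_, ?_⟩ <;> linarith
    · rintro ⟨⟨h1, h2⟩, h3, h4⟩
      refine ⟨⟨?_, ?_⟩, ?_, ?_⟩ <;> linarith
  have R : volume {z : ℝ × ℝ | |z.1| ≤ l0 ∧ |z.2| ≤ l1 ∧ |z.1 + z.2| ≤ l2} =
      ∫⁻ x in Set.Icc (-l2) l2, h x := by
    have e := fub {s : ℝ | |s| ≤ l0} {s : ℝ | |s| ≤ l1} (Set.Icc (-l2) l2)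
      (isClosed_le continuous_abs continuous_const).measurableSet
      (isClosed_le continuous_abs continuous_const).measurableSet measurableSet_Icc
    have e4 : {z : ℝ × ℝ | |z.1| ≤ l0 ∧ |z.2| ≤ l1 ∧ |z.1 + z.2| ≤ l2} =
        {z : ℝ × ℝ | z.1 ∈ {s : ℝ | |s| ≤ l0} ∧ z.2 ∈ {s : ℝ | |s| ≤ l1} ∧
          z.1 + z.2 ∈ Set.Icc (-l2) l2} := by
      ext z
      simp only [Set.mem_ofPred_eq, Set.mem_Icc, abs_le (a := z.1 + z.2)]
    rw [e4, e]
    rfl
  rw [L, R]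
  exact hG2 h hmeas hanti _ _ p2

end Pool.Agent.Work.MP_b25393_ag.HF
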