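import Pool.Agent.Work.MP_b25393_ag.HF.StmtsR

/-!
# MP_b25393_ag, block HF, item H1 (helper37): measures are upper semicontinuous on compact sets
-/

set_option autoImplicit false

open scoped LinearAlgebra.Projectivization Pointwise Matrix RealInnerProductSpace ENNReal
open MeasureTheory Filter Topology Matrix TopologicalSpace

namespace Pool.Agent.Work.MP_b25393_ag.HF

open Pool.Agent.Work.MP_b25393_ag

/-- Item H1. -/
theorem pr_H1 : St_H1 := by
  intro μ hμ K c hc
  obtain ⟨U, hKU, hU, hlt⟩ := (K : Set E3).exists_isOpen_lt_of_lt c hc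
  have hN : {L : NonemptyCompacts E3 | (L : Set E3) ⊆ U} ∈ 𝓝 K :=
    (NonemptyCompacts.isOpen_subsets_of_isOpen hU).mem_nhds hKU
  filter_upwards [hN] with L hL
  exact lt_of_le_of_lt (measure_mono hL) hlt

end Pool.Agent.Work.MP_b25393_ag.HF
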