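import Pool.Agent.Work.MP_b25393_ag.HF.StmtsC

/-!
Item T4: pairs of integral vectors which are dependent modulo `p`.
-/

set_option autoImplicit false

open scoped LinearAlgebra.Projectivization Pointwise Matrix
open MeasureTheory Filter Topology Matrix

namespace Pool.Agent.Work.MP_b25393_ag.HF

namespace IT4

/-- the box is finite -/
theorem bx_finite (M : ℕ) : (bx M).Finite := by
  have h : (Set.univ.pi (fun _ : Fin 3 => Set.Icc (-(M : ℤ)) (M : ℤ))).Finite :=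
    Set.Finite.pi' (fun _ => Set.finite_Icc _ _) |>.subset (by
      intro f hf
      exact fun i => hf i (Set.mem_univ i))
  refine (h.prod h).subset ?_
  rintro z ⟨h1, h2⟩
  exact ⟨fun i _ => abs_le.1 (h1 i), fun i _ => abs_le.1 (h2 i)⟩

/-- the sum of the inverse squares -/
theorem sum_sq (B : ℕ) : ∑ n ∈ Finset.range B, 1 / ((n : ℝ) + 1) ^ 2 ≤ 2 := by
  have h : ∀ B : ℕ, ∑ n ∈ Finset.range (B + 1), 1 / ((n : ℝ) + 1) ^ 2 ≤ 2 - 1 / ((B : ℝ) + 1) := by
    intro B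
    induction B with
    | zero =>
      rw [Finset.sum_range_one]
      norm_num
    | succ B ih =>
      rw [Finset.sum_range_succ]
      have h1 : (0 : ℝ) < (B : ℝ) + 1 := by positivity
      have h2 : (0 : ℝ) < (B : ℝ) + 1 + 1 := by positivity
      have h3 : 1 / ((B : ℝ) + 1 + 1) ^ 2 ≤ 1 / ((B : ℝ) + 1) - 1 / ((B : ℝ) + 1 + 1) := by
        rw [div_sub_div _ _ h1.ne' h2.ne', div_le_div_iff₀ (by positivity) (by positivity)]
        nlinarith
      push_cast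
      linarith
  rcases Nat.eq_zero_or_pos B with hB | hB
  · rw [hB, Finset.sum_range_zero]
    norm_num
  · obtain ⟨C, rfl⟩ : ∃ C, B = C + 1 := ⟨B - 1, by omega⟩
    have h1 := h C
    have h2 : (0 : ℝ) < 1 / ((C : ℝ) + 1) := by positivity
    linarith

/-- a nonzero cross product excludes a relation -/
theorem rel (u v : Fin 3 → ℤ) (a b : ℤ) (hab : IsCoprime a b) (hc : u ⨯₃ v ≠ 0) :
    a • u + b • v ≠ 0 := by
  intro h
  apply hc
  have h0 : a * u 0 + b * v 0 = 0 := by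
    have := congrFun h 0
    simpa using this
  have h1 : a * u 1 + b * v 1 = 0 := by
    have := congrFun h 1
    simpa using this
  have h2 : a * u 2 + b * v 2 = 0 := by
    have := congrFun h 2
    simpa using this
  obtain ⟨x, y, hxy⟩ := hab
  rw [cross_apply]
  ext i
  fin_cases i
  · show u 1 * v 2 - u 2 * v 1 = 0
    linear_combination (-(u 1 * v 2 - u 2 * v 1)) * hxy + x * v 2 * h1 - x * v 1 * h2 +
      y * u 1 * h2 - y * u 2 * h1
  · show u 2 * v 0 - u 0 * v 2 = 0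
    linear_combination (-(u 2 * v 0 - u 0 * v 2)) * hxy + x * v 0 * h2 - x * v 2 * h0 +
      y * u 2 * h0 - y * u 0 * h2
  · show u 0 * v 1 - u 1 * v 0 = 0
    linear_combination (-(u 0 * v 1 - u 1 * v 0)) * hxy + x * v 1 * h0 - x * v 0 * h1 +
      y * u 0 * h1 - y * u 1 * h0

/-- the pairs related by `(a, b)` -/
def Z (p M : ℕ) (a b : ℤ) : Set ((Fin 3 → ℤ) × (Fin 3 → ℤ)) :=
  {z | z ∈ bx M ∧ (∀ i, (p : ℤ) ∣ a * z.1 i + b * z.2 i) ∧ a • z.1 + b • z.2 ≠ 0}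

theorem Z_finite (p M : ℕ) (a b : ℤ) : (Z p M a b).Finite :=
  (bx_finite M).subset fun _ h => h.1

/-- the pairs related by `(a, b)` in one of the two orders, for coprime `a`, `b` -/
def Y (p M : ℕ) (a b : ℤ) : Set ((Fin 3 → ℤ) × (Fin 3 → ℤ)) :=
  {z | IsCoprime a b ∧ (z ∈ Z p M a b ∨ z.swap ∈ Z p M a b)}

theorem Y_finite (p M : ℕ) (a b : ℤ) : (Y p M a b).Finite := by
  refine ((Z_finite p M a b).union ((Z_finite p M a b).image Prod.swap)).subset ?_
  rintro z ⟨_, h | h⟩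
  · exact Or.inl h
  · exact Or.inr ⟨z.swap, h, Prod.swap_swap z⟩

theorem Y_card (hT3 : St_T3) (p : ℕ) (hp : p.Prime) (M : ℕ) (hM : 1 ≤ M) (a b : ℤ)
    (h1 : |a| ≤ |b|) (h2 : b ^ 2 ≤ p) :
    (((Y p M a b).ncard : ℕ) : ℝ) ≤
      2 * (13824 * (M : ℝ) ^ 6 / ((p : ℝ) * Real.sqrt p * |(b : ℝ)| ^ 3)) := by
  by_cases hab : IsCoprime a b
  · have h3 := hT3 p hp M hM a b hab h1 h2
    have h4 : (Y p M a b).ncard ≤ (Z p M a b).ncard + (Z p M a b).ncard := by
      have h5 : (Y p M a b).ncard ≤ (Z p M a b ∪ Prod.swap '' (Z p M a b)).ncard := by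
        refine Set.ncard_le_ncard ?_ ((Z_finite p M a b).union ((Z_finite p M a b).image _))
        rintro z ⟨_, h | h⟩
        · exact Or.inl h
        · exact Or.inr ⟨z.swap, h, Prod.swap_swap z⟩
      have h6 := Set.ncard_union_le (Z p M a b) (Prod.swap '' (Z p M a b))
      have h7 : (Prod.swap '' (Z p M a b)).ncard ≤ (Z p M a b).ncard :=
        Set.ncard_image_le (Z_finite p M a b)
      omega
    have h5 : (((Y p M a b).ncard : ℕ) : ℝ) ≤
        (((Z p M a b).ncard : ℕ) : ℝ) + (((Z p M a b).ncard : ℕ) : ℝ) := by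
      exact_mod_cast h4
    have h6 : (((Z p M a b).ncard : ℕ) : ℝ) ≤
        13824 * (M : ℝ) ^ 6 / ((p : ℝ) * Real.sqrt p * |(b : ℝ)| ^ 3) := h3
    linarith
  · have h3 : Y p M a b = ∅ := by
      ext z
      constructor
      · intro h
        exact absurd h.1 hab
      · intro h
        exact absurd h (Set.notMem_empty z)
    rw [h3, Set.ncard_empty, Nat.cast_zero]
    positivity

/-- the finite set of `Y` -/
noncomputable def Yf (p M : ℕ) (a b : ℤ) : Finset ((Fin 3 → ℤ) × (Fin 3 → ℤ)) :=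
  (Y_finite p M a b).toFinset

theorem mem_Yf (p M : ℕ) (a b : ℤ) (z : (Fin 3 → ℤ) × (Fin 3 → ℤ)) :
    z ∈ Yf p M a b ↔ z ∈ Y p M a b := Set.Finite.mem_toFinset _

theorem Yf_card (p M : ℕ) (a b : ℤ) : (Yf p M a b).card = (Y p M a b).ncard :=
  (Set.ncard_eq_toFinset_card _ _).symm

open Classical in
/-- the union over all relations with second entry `n + 1` or `-(n + 1)` -/
noncomputable def Un (p M n : ℕ) : Finset ((Fin 3 → ℤ) × (Fin 3 → ℤ)) :=
  (Finset.Icc (-((n : ℤ) + 1)) ((n : ℤ) + 1)).biUnion fun a =>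
    Yf p M a ((n : ℤ) + 1) ∪ Yf p M a (-((n : ℤ) + 1))

theorem Un_card (hT3 : St_T3) (p : ℕ) (hp : p.Prime) (M : ℕ) (hM : 1 ≤ M) (n : ℕ)
    (hn : (n + 1) ^ 2 ≤ p) :
    ((Un p M n).card : ℝ) ≤
      12 * (13824 * (M : ℝ) ^ 6 / ((p : ℝ) * Real.sqrt p)) * (1 / ((n : ℝ) + 1) ^ 2) := by
  classical
  set C : ℝ := 13824 * (M : ℝ) ^ 6 / ((p : ℝ) * Real.sqrt p) with hC
  have hC0 : 0 ≤ C := by positivity
  have hn1 : (0 : ℝ) < (n : ℝ) + 1 := by positivity
  have hn2 : (((n : ℤ) + 1) ^ 2 : ℤ) ≤ p := by exact_mod_cast hn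
  have h1 : ∀ a ∈ Finset.Icc (-((n : ℤ) + 1)) ((n : ℤ) + 1),
      ((Yf p M a ((n : ℤ) + 1) ∪ Yf p M a (-((n : ℤ) + 1))).card : ℝ) ≤
        4 * C * (1 / ((n : ℝ) + 1) ^ 3) := by
    intro a ha
    rw [Finset.mem_Icc] at ha
    have hab : |a| ≤ |(n : ℤ) + 1| := by
      rw [abs_of_nonneg (by positivity : (0 : ℤ) ≤ (n : ℤ) + 1)]
      exact abs_le.2 ha
    have h2 := Y_card hT3 p hp M hM a ((n : ℤ) + 1) hab hn2
    have h3 := Y_card hT3 p hp M hM a (-((n : ℤ) + 1)) (by rw [abs_neg]; exact hab)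
      (by rw [neg_sq]; exact hn2)
    have e1 : |(((n : ℤ) + 1 : ℤ) : ℝ)| = (n : ℝ) + 1 := by
      push_cast
      exact abs_of_pos hn1
    have e2 : |((-((n : ℤ) + 1) : ℤ) : ℝ)| = (n : ℝ) + 1 := by
      push_cast
      rw [← abs_neg]
      have h9 : -(-((n : ℝ) + 1)) = (n : ℝ) + 1 := by ring
      rw [h9]
      exact abs_of_pos hn1
    rw [e1] at h2
    rw [e2] at h3
    have e3 : 13824 * (M : ℝ) ^ 6 / ((p : ℝ) * Real.sqrt p * ((n : ℝ) + 1) ^ 3) =
        C * (1 / ((n : ℝ) + 1) ^ 3) := by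
      rw [hC, div_mul_div_comm, mul_one]
    rw [e3] at h2 h3
    have h4 : ((Yf p M a ((n : ℤ) + 1) ∪ Yf p M a (-((n : ℤ) + 1))).card : ℝ) ≤
        ((Yf p M a ((n : ℤ) + 1)).card : ℝ) + ((Yf p M a (-((n : ℤ) + 1))).card : ℝ) := by
      exact_mod_cast Finset.card_union_le _ _
    rw [Yf_card, Yf_card] at h4
    linarith
  have h2 : ((Un p M n).card : ℝ) ≤ ∑ a ∈ Finset.Icc (-((n : ℤ) + 1)) ((n : ℤ) + 1),
      ((Yf p M a ((n : ℤ) + 1) ∪ Yf p M a (-((n : ℤ) + 1))).card : ℝ) := by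
    exact_mod_cast Finset.card_biUnion_le
  have h3 := Finset.sum_le_card_nsmul _ _ _ h1
  have h4 : (Finset.Icc (-((n : ℤ) + 1)) ((n : ℤ) + 1)).card = 2 * n + 3 := by
    rw [Int.card_Icc]
    omega
  rw [h4, nsmul_eq_mul] at h3
  push_cast at h3
  have h5 : (2 * (n : ℝ) + 3) * (4 * C * (1 / ((n : ℝ) + 1) ^ 3)) ≤
      12 * C * (1 / ((n : ℝ) + 1) ^ 2) := by
    have h6 : (2 * (n : ℝ) + 3) ≤ 3 * ((n : ℝ) + 1) := by
      have : (0 : ℝ) ≤ n := Nat.cast_nonneg n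
      linarith
    have h7 : 3 * ((n : ℝ) + 1) * (4 * C * (1 / ((n : ℝ) + 1) ^ 3)) =
        12 * C * (1 / ((n : ℝ) + 1) ^ 2) := by
      field_simp
      ring
    rw [← h7]
    exact mul_le_mul_of_nonneg_right h6 (by positivity)
  exact le_trans h2 (le_trans h3 h5)

theorem mem_Un (p M : ℕ) (a b : ℤ) (z : (Fin 3 → ℤ) × (Fin 3 → ℤ)) (hz : z ∈ Y p M a b)
    (hab : |a| ≤ |b|) (hb : b ≠ 0) (hbp : b ^ 2 ≤ (p : ℤ)) :
    ∃ n ∈ Finset.range (Nat.sqrt p), z ∈ Un p M n := by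
  classical
  have h0 : 0 < b.natAbs := Int.natAbs_pos.2 hb
  have h1 : ((b.natAbs - 1 : ℕ) : ℤ) + 1 = |b| := by
    rw [Int.abs_eq_natAbs]
    omega
  refine ⟨b.natAbs - 1, ?_, ?_⟩
  · rw [Finset.mem_range]
    have h2 : b.natAbs ≤ Nat.sqrt p := by
      rw [Nat.le_sqrt']
      have : ((b.natAbs ^ 2 : ℕ) : ℤ) ≤ (p : ℤ) := by
        push_cast
        rw [sq_abs]
        exact hbp
      exact_mod_cast this
    omega
  · unfold Un
    rw [Finset.mem_biUnion]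
    refine ⟨a, ?_, ?_⟩
    · rw [Finset.mem_Icc, h1]
      exact abs_le.1 hab
    · rw [Finset.mem_union, mem_Yf, mem_Yf, h1]
      rcases abs_choice b with h | h
      · left
        rw [h]
        exact hz
      · right
        rw [h, neg_neg]
        exact hz

end IT4

open IT4 in
theorem pr_T4 (hT1 : St_T1) (hT3 : St_T3) : St_T4 := by
  classical
  intro p hp M hM
  set W : Set ((Fin 3 → ℤ) × (Fin 3 → ℤ)) := {z | z ∈ bx M ∧ z.1 ⨯₃ z.2 ≠ 0 ∧
    ∀ i, (p : ℤ) ∣ (z.1 ⨯₃ z.2) i} with hW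
  have hsub : W ⊆ (((Finset.range (Nat.sqrt p)).biUnion fun n => Un p M n :
      Finset ((Fin 3 → ℤ) × (Fin 3 → ℤ))) : Set ((Fin 3 → ℤ) × (Fin 3 → ℤ))) := by
    rintro z ⟨h1, h2, h3⟩
    obtain ⟨a, b, hab, ha, hb, hd⟩ := hT1 p hp z.1 z.2 h3
    have hne := rel z.1 z.2 a b hab h2
    rw [Finset.mem_coe, Finset.mem_biUnion]
    rcases le_total |a| |b| with h | h
    · refine mem_Un p M a b z ⟨hab, Or.inl ⟨h1, hd, hne⟩⟩ h ?_ hb
      rintro rfl
      have h4 : a = 0 := by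
        rw [abs_zero] at h
        exact abs_nonpos_iff.1 h
      rw [h4] at hab
      exact not_isCoprime_zero_zero hab
    · refine mem_Un p M b a z ⟨hab.symm, Or.inr ⟨⟨h1.2, h1.1⟩, fun i => ?_, ?_⟩⟩ h ?_ ha
      · have := hd i
        rw [add_comm] at this
        exact this
      · show b • z.2 + a • z.1 ≠ 0
        rw [add_comm]
        exact hne
      · rintro rfl
        have h4 : b = 0 := by
          rw [abs_zero] at h
          exact abs_nonpos_iff.1 h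
        rw [h4] at hab
        exact not_isCoprime_zero_zero hab
  have h1 : W.ncard ≤ ((Finset.range (Nat.sqrt p)).biUnion fun n => Un p M n).card := by
    have h2 := Set.ncard_le_ncard hsub (Finset.finite_toSet _)
    rw [Set.ncard_coe_finset] at h2
    exact h2
  have h2 : ((((Finset.range (Nat.sqrt p)).biUnion fun n => Un p M n).card : ℕ) : ℝ) ≤
      ∑ n ∈ Finset.range (Nat.sqrt p), ((Un p M n).card : ℝ) := by
    exact_mod_cast Finset.card_biUnion_le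
  have h3 : ∑ n ∈ Finset.range (Nat.sqrt p), ((Un p M n).card : ℝ) ≤
      ∑ n ∈ Finset.range (Nat.sqrt p),
        12 * (13824 * (M : ℝ) ^ 6 / ((p : ℝ) * Real.sqrt p)) * (1 / ((n : ℝ) + 1) ^ 2) := by
    refine Finset.sum_le_sum fun n hn => Un_card hT3 p hp M hM n ?_
    rw [Finset.mem_range] at hn
    have : n + 1 ≤ Nat.sqrt p := hn
    exact Nat.le_sqrt'.1 this
  rw [← Finset.mul_sum] at h3
  have h4 := sum_sq (Nat.sqrt p)
  have hC0 : (0 : ℝ) ≤ 12 * (13824 * (M : ℝ) ^ 6 / ((p : ℝ) * Real.sqrt p)) := by positivity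
  have h5 := mul_le_mul_of_nonneg_left h4 hC0
  have h6 : (W.ncard : ℝ) ≤
      ((((Finset.range (Nat.sqrt p)).biUnion fun n => Un p M n).card : ℕ) : ℝ) := by
    exact_mod_cast h1
  have h7 : 12 * (13824 * (M : ℝ) ^ 6 / ((p : ℝ) * Real.sqrt p)) * 2 =
      331776 * (M : ℝ) ^ 6 / ((p : ℝ) * Real.sqrt p) := by ring
  rw [← h7]
  exact le_trans h6 (le_trans h2 (le_trans h3 h5))

end Pool.Agent.Work.MP_b25393_ag.HF
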