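import Pool.Agent.Work.MP_b25393_ag.HF.Defs

/-!
# MP_b25393_ag, block HF: statements A (Farey graph, plane lattices, the arrangement)

Every docstring is the complete proof.
-/

set_option autoImplicit false

open scoped LinearAlgebra.Projectivization Pointwise Matrix RealInnerProductSpace ENNReal
open MeasureTheory Filter Topology Matrix

namespace Pool.Agent.Work.MP_b25393_ag.HF

open Pool.Agent.Work.MP_b25393_ag

/-- F1 (MEDIUM), Farey parents.  First `x, y > 0`.  Choose `a₂ ∈ [0, y)` with `y ∣ 1 + a₂ x` and put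
`a₁ = (1 + a₂ x) / y`, `a = (a₁, a₂)`, `b = (x - a₁, y - a₂)`.  Then `a₁ y - a₂ x = 1`, so
`dt a b = dt a (x, y) = 1`; `1 ≤ a₁ ≤ x` because `a₁ y ≤ 1 + (y - 1) x ≤ x y`; so all four numbers
`a₁, a₂, b₁, b₂` are nonnegative, which gives the two equations with absolute values.  Convexity
(`0 ∈ C` because `C` is convex, symmetric, nonempty): `a = (1/y) (1, 0) + (a₂/y) (x, y)` with
`1/y + a₂/y ≤ 1`; `b = (1/x) (0, 1) + (b₁/x) (x, y)` with `1/x + b₁/x ≤ 1` (`b₁ ≤ x - 1`, and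
`x b₂ - y b₁ = 1` from `dt a b = 1`).  General signs: apply the case to `(|x|, |y|)` and to
`C' = {(s, t) | (ε s, δ t) ∈ C}`, `ε`, `δ` the signs of `x`, `y`, which contains `(1, 0)`, `(0, 1)`
by symmetry; the parents are `(ε a₁, δ a₂)`, `(ε b₁, δ b₂)`. -/
def St_F1 : Prop := ∀ x y : ℤ, IsCoprime x y → x ≠ 0 → y ≠ 0 →
  ∃ a b : ℤ × ℤ, a + b = (x, y) ∧ |dt a b| = 1 ∧ |a.1| + |b.1| = |x| ∧ |a.2| + |b.2| = |y| ∧
  ∀ C : Set (ℝ × ℝ), Convex ℝ C → (∀ z ∈ C, -z ∈ C) → ((1 : ℝ), (0 : ℝ)) ∈ C →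
    ((0 : ℝ), (1 : ℝ)) ∈ C → ((x : ℝ), (y : ℝ)) ∈ C →
    ((a.1 : ℝ), (a.2 : ℝ)) ∈ C ∧ ((b.1 : ℝ), (b.2 : ℝ)) ∈ C

/-- F2 (EASY-MEDIUM), the neighbours of `w = a + b` of norm at most that of `w` are `±a`, `±b`.
Replacing `u` by `-u` we may assume `dt u w = dt a w` (`= dt a b = ±1`).  Then `dt (u - a) w = 0` and
`w` is primitive (`dt a w = ±1`), so `u = a + k w` for an integer `k` (explicitly: with `D = dt a w`,
`D = ±1`, the identity `D • z = (dt z w) • a - (dt z a) • w` for all `z` gives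
`u - a = - D (dt (u - a) a) • w`).  Norms: the hypotheses say that `a₁`, `b₁` do not have opposite
signs, and `a₂`, `b₂` neither.  For `k ≥ 1`: `|a₁ + k w₁| = |a₁| + k |w₁|` and the same for the second
coordinate, so `|u.1| + |u.2| = (|a₁| + |a₂|) + k (|w₁| + |w₂|) > |w₁| + |w₂|` as `a ≠ 0`.  For
`k ≤ -2`: `u = -(b + (-k - 1) w)`, the same with `b ≠ 0`.  `k = 0`: `u = a`.  `k = -1`: `u = -b`. -/
def St_F2 : Prop := ∀ a b u : ℤ × ℤ, |dt a b| = 1 → |a.1| + |b.1| = |a.1 + b.1| →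
  |a.2| + |b.2| = |a.2 + b.2| → |dt u (a + b)| = 1 →
  |u.1| + |u.2| ≤ |a.1 + b.1| + |a.2 + b.2| → u = a ∨ u = b ∨ u = -a ∨ u = -b

/-- F3 (MEDIUM), the edges of the Farey graph.  Put `N u = |u.1| + |u.2|`.  For `w ∈ S` with `N w ≥ 2`
both coordinates are nonzero (`w` is primitive), so there are `a, b ∈ S` as in `par`; by F2 the `u ∈ S`
with `|dt u w| = 1`, `N u ≤ N w` are exactly the four DISTINCT elements `a, b, -a, -b`
(`|dt a w| = |dt b w| = |dt a b| = 1`, `a, b ≠ 0`, `a ≠ ±b`), and all have `N < N w`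
(`N a + N b = N w`, `N a, N b ≥ 1`).  Split the pairs `(u, v)` with `|dt u v| = 1` into `N u > N v`:
`∑_(u ∈ S, N u ≥ 2) 4 = 4 (|S| - 4)` pairs, because the elements of `S` with `N ≤ 1` are
`(±1, 0)`, `(0, ±1)` and two of those never satisfy `N u > N v`; `N u < N v`: the same number by
symmetry; `N u = N v`: then `N u = 1` by the above and there are 8 such pairs.
Total `8 (|S| - 4) + 8`.  USES F2. -/
def St_F3 : Prop := ∀ S : Finset (ℤ × ℤ), Cl2 S →
  ((S ×ˢ S).filter (fun z => |dt z.1 z.2| = 1)).card + 24 = 8 * S.card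

/-- F4 (MEDIUM), the triangles of the Farey graph.  Notation of F3.  Let `(u, v)` be a pair with
`u, v, w = u + v ∈ S` and `|dt u v| = 1`; then also `|dt u w| = |dt v w| = 1`.  Two elements of `S`
with `|dt| = 1` and equal `N` have `N = 1` (F3: the neighbours of an element with `N ≥ 2` of norm at
most its own have smaller norm).  So either one of `u, v, w` has strictly larger `N` than the two
others, or all three have `N = 1`, which is impossible (`u, v ∈ {(±1,0), (0,±1)}`, `|dt u v| = 1` give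
`N w = 2`); in the first case the largest has `N ≥ 2`.  Largest is `w`: `u ∈ {a, b, -a, -b}` (parents
of `w`, F2), and `v = w - u`: `u = a, v = b`, `u = b, v = a` are fine, `u = -a` gives `v = w + a` with
`N v > N w` (signs as in F2), `u = -b` the same; so exactly 2 pairs for each `w ∈ S`, `N w ≥ 2`.
Largest is `u`: `v ∈ {a, b, -a, -b}` (parents of `u`), `w = u + v`: `v = -a, w = b` and `v = -b, w = a`
are fine, `v = a, b` give `N w > N u`; 2 pairs for each `u`.  Largest is `v`: the same by symmetry.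
Total `6 (|S| - 4)`.  USES F2. -/
def St_F4 : Prop := ∀ S : Finset (ℤ × ℤ), Cl2 S →
  ((S ×ˢ S).filter (fun z => |dt z.1 z.2| = 1 ∧ z.1 + z.2 ∈ S)).card + 24 = 6 * S.card

/-- L1 (EASY), Bezout for three integers.  If `c ⬝ᵥ v = 1`, a common divisor of the coordinates divides
1.  Conversely the ideal of `ℤ` generated by the three coordinates is generated by some `d`, which
divides all coordinates, so is a unit, and `1` is a combination of the coordinates. -/
def St_L1 : Prop := ∀ v : Fin 3 → ℤ, Prm v ↔ ∃ c : Fin 3 → ℤ, c ⬝ᵥ v = 1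

/-- L2 (EASY-MEDIUM), coordinates in the lattice orthogonal to `n = u ⨯₃ x`.  Let `c ⬝ᵥ n = 1` (L1).
(1) Cramer's rule (an identity in the coordinates, use `Fin.sum_univ_three` and `ring`):
`((u ⨯₃ x) ⬝ᵥ c) • y = ((y ⨯₃ x) ⬝ᵥ c) • u + ((u ⨯₃ y) ⬝ᵥ c) • x + ((u ⨯₃ x) ⬝ᵥ y) • c`; if
`n ⬝ᵥ y = 0` the last term vanishes, so `y = i • u + j • x` with `i = (y ⨯₃ x) ⬝ᵥ c`,
`j = (u ⨯₃ y) ⬝ᵥ c`.  (2) bilinearity.  (3) if `d` divides all coordinates of `y = i • u + j • x` then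
`d` divides `(y ⨯₃ x) ⬝ᵥ c = i` and `(u ⨯₃ y) ⬝ᵥ c = j` (by (2)); conversely a common divisor of
`i, j` divides all coordinates of `y`.  (4) `k` divides all coordinates of `k • n`; if `|k| = 1` then
`k • n = ±n`.  (5) `i = (y ⨯₃ x) ⬝ᵥ c` and `j` are determined by `y`.  (6) `n ⬝ᵥ u = n ⬝ᵥ x = 0`
(`dot_self_cross` etc.).  USES L1. -/
def St_L2 : Prop := ∀ u x n : Fin 3 → ℤ, Prm n → u ⨯₃ x = n →
  (∀ y : Fin 3 → ℤ, n ⬝ᵥ y = 0 → ∃ i j : ℤ, y = i • u + j • x) ∧
  (∀ i j i' j' : ℤ, (i • u + j • x) ⨯₃ (i' • u + j' • x) = (i * j' - j * i') • n) ∧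
  (∀ i j : ℤ, Prm (i • u + j • x) ↔ IsCoprime i j) ∧
  (∀ k : ℤ, Prm (k • n) ↔ |k| = 1) ∧
  (∀ i j i' j' : ℤ, i • u + j • x = i' • u + j' • x → i = i' ∧ j = j') ∧
  (∀ i j : ℤ, n ⬝ᵥ (i • u + j • x) = 0)

/-- L3 (EASY-MEDIUM), a basis in the body.  Let `c ⬝ᵥ u = 1` (L1) and `x₀ = n ⨯₃ c`.  Then
`u ⨯₃ x₀ = u ⨯₃ (n ⨯₃ c) = (u ⬝ᵥ c) • n - (u ⬝ᵥ n) • c = n` (an identity in the coordinates).  By L2
`v = α • u + g • x₀` and `u ⨯₃ v = g • n`, so `g ≠ 0`.  Put `k = α / |g| * sign g` so that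
`α' = α - g k` satisfies `0 ≤ α' < |g|` (`Int.emod`), and `x = x₀ + k • u`.  Then `u ⨯₃ x = n`,
`v = α' • u + g • x`, so `x = (1/g) v - (α'/g) u` in `ℝ³` with `1/|g| + α'/|g| ≤ 1`; as `C` is convex,
symmetric and contains `u`, `v` (so also `0`), `x ∈ C`.  `Prm x` by L2 (3) with `(i, j) = (0, 1)`.
USES L1 L2. -/
def St_L3 : Prop := ∀ C : Set (Fin 3 → ℝ), Convex ℝ C → (∀ z ∈ C, -z ∈ C) →
  ∀ n u v : Fin 3 → ℤ, Prm n → Prm u → n ⬝ᵥ u = 0 → n ⬝ᵥ v = 0 → toR u ∈ C → toR v ∈ C →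
  u ⨯₃ v ≠ 0 → ∃ x : Fin 3 → ℤ, u ⨯₃ x = n ∧ Prm x ∧ n ⬝ᵥ x = 0 ∧ toR x ∈ C

/-- L4 (MEDIUM), the pairs in one plane.  L3 applied to the given non-parallel pair `(u, v)` gives `x`
with `u ⨯₃ x = n`, `x ∈ S1n C n`.  Put `φ (i, j) = i • u + j • x`; by L2 `φ` is a bijection from `ℤ²` to
the vectors orthogonal to `n`.  Let `S` be the finset of the `(i, j)` with `IsCoprime i j` and
`toR (φ (i, j)) ∈ C`: `φ` maps it bijectively to `S1n C n` (L2 (3)), so it is finite and has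
`(S1n C n).ncard` elements.  `Cl2 S`: `(1, 0)` and `(0, 1)` correspond to `u` and `x`; `par` is F1 with
the planar set `C' = {(s, t) | s • toR u + t • toR x ∈ C}`; the parents have coprime coordinates
because `|dt a b| = 1`.  `P2n C n` is the image under `φ × φ` of the pairs in `S × S` with `|dt| = 1`:
elements of `P2n C n` are `(φ z, φ z')` with `φ z ⨯₃ φ z' = (dt z z') • n`, primitive iff
`|dt z z'| = 1` (L2 (4)), and then `z`, `z'` are coprime pairs; `φ (z + z') = φ z + φ z'` and `z + z'`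
is then a coprime pair too.  F3, F4.  USES F1 F3 F4 L2 L3. -/
def St_L4 : Prop := ∀ C : Set (Fin 3 → ℝ), Convex ℝ C → (∀ z ∈ C, -z ∈ C) →
  ∀ n : Fin 3 → ℤ, Prm n → (S1n C n).Finite → (∃ u ∈ S1n C n, ∃ v ∈ S1n C n, u ⨯₃ v ≠ 0) →
  (P2n C n).ncard + 24 = 8 * (S1n C n).ncard ∧ (Q2n C n).ncard + 24 = 6 * (S1n C n).ncard

/-- A1 (EASY-MEDIUM), integral representatives.  (1) `p = mk w`; multiply `w` by a common denominator to
get an integral vector, divide by the gcd of its coordinates: `n` primitive, nonzero, with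
`toQ n = r • w`, `r ≠ 0`.  (2) if `toQ n = r • toQ n'` with `r = s / t` in lowest terms then
`t • n = s • n'`; `t` divides all coordinates of `s • n'`, so of `n'` (coprime), so `t = ±1`, and
symmetrically `s = ±1`.  (3) `Str.inc_mk_mk` and casts. -/
def St_A1 : Prop :=
  (∀ p : Str.PP ℚ, ∃ n : Fin 3 → ℤ, Prm n ∧ ∃ h : toQ n ≠ 0, p = Projectivization.mk ℚ (toQ n) h) ∧
  (∀ n n' : Fin 3 → ℤ, Prm n → Prm n' → ∀ (h : toQ n ≠ 0) (h' : toQ n' ≠ 0),
    Projectivization.mk ℚ (toQ n) h = Projectivization.mk ℚ (toQ n') h' ↔ n = n' ∨ n = -n') ∧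
  (∀ (n v : Fin 3 → ℤ) (h : toQ n ≠ 0) (h' : toQ v ≠ 0),
    Str.inc (Projectivization.mk ℚ (toQ n) h) (Projectivization.mk ℚ (toQ v) h') ↔ n ⬝ᵥ v = 0) ∧
  (∀ n : Fin 3 → ℤ, Prm n → toQ n ≠ 0)

/-- A2 (EASY-MEDIUM), lines through a point.  The map `v ↦ mk (toQ v)` from `S1n C n` (from `S1 C`) onto
the lines of `A` through `mk (toQ n)` (onto `A`) is exactly two-to-one: the fibre of `mk (toQ v)` is
`{v, -v}` by A1 (2) (`-v` belongs to the set because `C` is symmetric; `v ≠ -v`), and incidence is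
A1 (3).  USES A1. -/
def St_A2 : Prop := ∀ C : Set (Fin 3 → ℝ), (∀ z ∈ C, -z ∈ C) → (S1 C).Finite →
  ∀ A : Finset (Str.PP ℚ), (∀ L, L ∈ A ↔ L ∈ lns C) →
  2 * A.card = (S1 C).ncard ∧
  ∀ n : Fin 3 → ℤ, Prm n → ∀ h : toQ n ≠ 0,
    2 * Str.mult A (Projectivization.mk ℚ (toQ n) h) = (S1n C n).ncard

/-- A3 (MEDIUM), the number of vertices and of incidences.  For `p ∈ Str.verts A` write
`p = mk (toQ n)` with `n` primitive (A1), so `(S1n C n).ncard = 2 mult A p ≥ 4` (A2) and `S1n C n`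
contains two non-parallel vectors (parallel primitive vectors are `±` each other; use A1 (2) and
`Str.eq_of_cross_eq_zero`, or L1).  L4: `(P2n C n).ncard = 16 mult A p - 24`,
`(Q2n C n).ncard = 12 mult A p - 24`.  `P2 C` is the disjoint union of the `P2n C n` over the vertices
`p = mk (toQ n)`: for `(u, v) ∈ P2 C` the vector `n = u ⨯₃ v` is primitive and orthogonal to `u`, `v`,
both `u` and `v` are primitive (a common divisor of `u` divides `u ⨯₃ v`), so `mk (toQ n)` lies on two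
different lines of `A` and is a vertex; if `(u, v) ∈ P2n C n'` with `n'` primitive then
`n' = ±(u ⨯₃ v)` (L2 (1)-type argument: `n'` is orthogonal to `u` and `v`, so parallel to `u ⨯₃ v`,
and both are primitive), so the union is disjoint over the points.  The same for `Q2 C`.  Sum.
USES A1 A2 L1 L4. -/
def St_A3 : Prop := ∀ C : Set (Fin 3 → ℝ), Convex ℝ C → (∀ z ∈ C, -z ∈ C) → (S1 C).Finite →
  ∀ A : Finset (Str.PP ℚ), (∀ L, L ∈ A ↔ L ∈ lns C) →
  16 * Str.f1 A = (P2 C).ncard + 24 * Str.f0 A ∧ 12 * Str.f1 A = (Q2 C).ncard + 24 * Str.f0 A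

/-- A4 (EASY-MEDIUM), nondegenerate.  `0` is an interior point of `K` (convex, symmetric, interior
nonempty), so for large `R` the body `R • K` contains all vectors with coordinates in `{-1, 0, 1}`,
in particular the six primitive vectors `e₁, e₂, e₃, e₁ + e₂, e₁ + e₃, e₂ + e₃`, which give six
different lines of `A` (A1 (2)): so `3 ≤ A.card`.  A point `mk (toQ n)` (A1) does not lie on at least
two of these six lines: if `n` is orthogonal to at most one of `e₁, e₂, e₃` the two others will do; if it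
is orthogonal to exactly `e_i` and `e_j` then it is not orthogonal to `e_k` and `e_i + e_k`; it is not
orthogonal to all three (`n ≠ 0`).  USES A1. -/
def St_A4 : Prop := ∀ K : Set (Fin 3 → ℝ), Body K → ∀ᶠ R : ℝ in atTop,
  ∀ A : Finset (Str.PP ℚ), (∀ L, L ∈ A ↔ L ∈ lns (R • K)) → Str.nondeg A

/-- A5 (EASY), algebra of the slope.  `f₁ = (P - Q)/4`, `f₀ = (3 P - 4 Q)/24` from A3, so the numerator
of `Str.slope` is `9 - 5 d + (3 P - Q)/12` and the denominator `3 - 2 d + (3 P - 2 Q)/24`.  Divide both by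
`R⁶`: they tend to `(3 p - p q)/12` and `(3 p - 2 p q)/24`, and the second limit is not zero because
`p > 0`, `q ≤ 1`; the quotient of the limits is `(6 - 2 q)/(3 - 2 q)`. -/
def St_A5 : Prop := ∀ (A : ℝ → Finset (Str.PP ℚ)) (P Q : ℝ → ℕ) (p q : ℝ), 0 < p → q ≤ 1 →
  (∀ R, 16 * Str.f1 (A R) = P R + 24 * Str.f0 (A R) ∧
    12 * Str.f1 (A R) = Q R + 24 * Str.f0 (A R)) →
  Tendsto (fun R => (P R : ℝ) / R ^ 6) atTop (𝓝 p) →
  Tendsto (fun R => (Q R : ℝ) / R ^ 6) atTop (𝓝 (p * q)) →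
  Tendsto (fun R => ((A R).card : ℝ) / R ^ 6) atTop (𝓝 0) →
  Tendsto (fun R => Str.slope (A R)) atTop (𝓝 ((6 - 2 * q) / (3 - 2 * q)))

end Pool.Agent.Work.MP_b25393_ag.HF
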