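import Pool.Agent.Work.MP_b25393_ag.HF.StmtsA

/-!
# MP_b25393_ag, block HF: statements C (lattice points, the tail, densities, the limit of the slope)

Every docstring is the complete proof.
-/

set_option autoImplicit false

open scoped LinearAlgebra.Projectivization Pointwise Matrix RealInnerProductSpace ENNReal
open MeasureTheory Filter Topology Matrix

namespace Pool.Agent.Work.MP_b25393_ag.HF

open Pool.Agent.Work.MP_b25393_ag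

/-- C1 (EASY), facts on bodies.  (1) if `x` is an interior point then so is `-x` (symmetry) and the
midpoint `0` (the interior of a convex set is convex).  (2) `s • d = t • ((s/t) • d)` and
`(s/t) • d ∈ D` by convexity with `0 ∈ D` (`t = 0`: trivial).  (3) `Convex.add_smul`.  (4) `B` lies in a
ball of radius `M`, `D` contains a ball of radius `r > 0` around `0`; `C = (|M| + 1)/r + 1`. -/
def St_C1 : Prop := ∀ (E : Type) [NormedAddCommGroup E] [NormedSpace ℝ E] (D : Set E), Body D →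
  (0 : E) ∈ interior D ∧ (∀ s t : ℝ, 0 ≤ s → s ≤ t → s • D ⊆ t • D) ∧
  (∀ s t : ℝ, 0 ≤ s → 0 ≤ t → ∀ x ∈ s • D, ∀ y ∈ t • D, x + y ∈ (s + t) • D) ∧
  (∀ B : Set E, Bornology.IsBounded B → ∃ C : ℝ, 0 ≤ C ∧ B ⊆ C • D)

/-- C2 (EASY-MEDIUM), lattice points in dilates.  This is Mathlib's
`tendsto_card_div_pow_atTop_volume'` (Analysis/BoxIntegral/UnitPartition; there `L` is the span over
`ℤ` of the standard basis, that is the vectors with integral coordinates): `D` is bounded, measurable,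
its frontier has measure zero (`Convex.addHaar_frontier`), the monotonicity is C1 (2), and
`z ↦ R⁻¹ • toR z` is a bijection from `{z | toR z ∈ R • D}` to `D ∩ R⁻¹ • L` for `R > 0`.
USES C1. -/
def St_C2 : Prop := ∀ (ι : Type) [Fintype ι] (D : Set (ι → ℝ)), Body D →
  Tendsto (fun R : ℝ => (({z : ι → ℤ | toR z ∈ R • D}.ncard : ℕ) : ℝ) / R ^ Fintype.card ι) atTop
    (𝓝 (volume D).toReal)

/-- C3 (MEDIUM), lattice points in a residue class.  Let `r' i = r i % N ∈ [0, N)`.  The map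
`z' ↦ r' + N z'` is a bijection from `{z' | toR z' + (1/N) toR r' ∈ (R/N) • D}` to the set.  The vectors
`(1/N) toR r'` and `-(1/N) toR r'` lie in the unit cube (sup norm at most 1), so in `C • D` for some
`C ≥ 0` (C1 (4)); by C1 (3), for `R ≥ N C`,
`{z' | toR z' ∈ (R/N - C) • D} ⊆ {z' | toR z' + (1/N) toR r' ∈ (R/N) • D} ⊆
{z' | toR z' ∈ (R/N + C) • D}` (all finite: bounded).  With `a(R) = #{z' | toR z' ∈ R • D}` and
`n = card ι`: `a(R/N ± C)/R^n = (a(R/N ± C)/(R/N ± C)^n) ((R/N ± C)/R)^n → vol D / N^n` (C2);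
squeeze.  USES C1 C2. -/
def St_C3 : Prop := ∀ (ι : Type) [Fintype ι] (D : Set (ι → ℝ)), Body D → ∀ N : ℕ, 1 ≤ N →
  ∀ r : ι → ℤ,
  Tendsto (fun R : ℝ => (({z : ι → ℤ | toR z ∈ R • D ∧ ∀ i, (N : ℤ) ∣ z i - r i}.ncard : ℕ) : ℝ) /
    R ^ Fintype.card ι) atTop (𝓝 ((volume D).toReal / (N : ℝ) ^ Fintype.card ι))

/-- C4 (EASY-MEDIUM), pairs of vectors.  Apply C3 with `ι = Fin 3 ⊕ Fin 3` to
`D' = {x | (x ∘ Sum.inl, x ∘ Sum.inr) ∈ D}`: this is the preimage of `D` under a linear homeomorphism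
(`LinearEquiv.sumPiEquivProdPi`, or `Homeomorph`), so a `Body`, and it has the same volume
(`volume_measurePreserving_sumPiEquivProdPi`).  The integral vectors correspond
(`z ↦ Sum.elim z.1 z.2`).  USES C3. -/
def St_C4 : Prop := ∀ D : Set ((Fin 3 → ℝ) × (Fin 3 → ℝ)), Body D → ∀ N : ℕ, 1 ≤ N →
  ∀ r : (Fin 3 → ℤ) × (Fin 3 → ℤ),
  Tendsto (fun R : ℝ => (({z | z ∈ dl D R ∧ (∀ i, (N : ℤ) ∣ z.1 i - r.1 i) ∧
    ∀ i, (N : ℤ) ∣ z.2 i - r.2 i}.ncard : ℕ) : ℝ) / R ^ 6) atTop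
    (𝓝 ((volume D).toReal / (N : ℝ) ^ 6))

/-- C5 (EASY-MEDIUM), periodic sets.  `{z ∈ dl D R | z ∈ W}` is the disjoint union, over the finitely
many `r ∈ W` with all coordinates in `[0, N)`, of the sets of C4 (every `z` is congruent mod `N` to
exactly one `r` with coordinates in `[0, N)`, and `z ∈ W` iff `r ∈ W`).  All sets are finite
(`dl D R` is bounded).  Sum of the limits (`tendsto_finset_sum`).  USES C4. -/
def St_C5 : Prop := ∀ D : Set ((Fin 3 → ℝ) × (Fin 3 → ℝ)), Body D → ∀ N : ℕ, 1 ≤ N →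
  ∀ W : Set ((Fin 3 → ℤ) × (Fin 3 → ℤ)),
  (∀ z z' : (Fin 3 → ℤ) × (Fin 3 → ℤ), (∀ i, (N : ℤ) ∣ z.1 i - z'.1 i) →
    (∀ i, (N : ℤ) ∣ z.2 i - z'.2 i) → (z ∈ W ↔ z' ∈ W)) →
  Tendsto (fun R : ℝ => (({z | z ∈ dl D R ∧ z ∈ W}.ncard : ℕ) : ℝ) / R ^ 6) atTop
    (𝓝 ((({z | z ∈ W ∧ (∀ i, 0 ≤ z.1 i ∧ z.1 i < (N : ℤ)) ∧
      ∀ i, 0 ≤ z.2 i ∧ z.2 i < (N : ℤ)}.ncard : ℕ) : ℝ) / (N : ℝ) ^ 6 * (volume D).toReal))

/-- T1 (EASY-MEDIUM), Thue's lemma for two vectors.  If `p` divides `u`: `(a, b) = (1, 0)`.  Otherwise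
`p ∤ u j` for some `j`; choose `l` with `l * u j ≡ v j` mod `p`.  As `u j v i ≡ u i v j` for all `i`
(cross product), `v i ≡ l u i` for all `i`.  Let `k = Nat.sqrt p`, `(k + 1)² > p`: two different pairs
`(s, t), (s', t') ∈ {0..k}²` have `s + t l ≡ s' + t' l` (pigeonhole); `(a, b)` = difference, not
`(0, 0)`, `|a|, |b| ≤ k`, `p ∣ a + b l`.  Divide by `g = gcd(a, b)`; `0 < g ≤ k < p`, so `p` does not
divide `g` and still `p ∣ a + b l`.  Then `a u i + b v i ≡ (a + b l) u i ≡ 0`. -/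
def St_T1 : Prop := ∀ p : ℕ, p.Prime → ∀ u v : Fin 3 → ℤ, (∀ i, (p : ℤ) ∣ (u ⨯₃ v) i) →
  ∃ a b : ℤ, IsCoprime a b ∧ a ^ 2 ≤ p ∧ b ^ 2 ≤ p ∧ ∀ i, (p : ℤ) ∣ a * u i + b * v i

/-- T2 (EASY), a residue class in an interval.  Two elements `x`, `x'` satisfy `b ∣ a (x - x')`, so
`b ∣ x - x'`.  If the set is nonempty let `x₀` be its smallest element; `x ↦ (x - x₀)/|b|` is injective
on the set with values in the integers of `[0, 2 M/|b|]`. -/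
def St_T2 : Prop := ∀ (M : ℕ) (a b c : ℤ), b ≠ 0 → IsCoprime a b →
  (({x : ℤ | |x| ≤ (M : ℤ) ∧ b ∣ c - a * x}.ncard : ℕ) : ℝ) ≤ 2 * (M : ℝ) / |(b : ℝ)| + 1

/-- T3 (MEDIUM).  `b ≠ 0` (coprime and `|a| ≤ |b|`).  For `z = (u, v)` in the set let
`p w = a u + b v`, `w ≠ 0`.  Then `p |w i| ≤ 2 |b| M`, so `|w i| ≤ 2 |b| M / p ≤ 2 M / √p =: X`
(`|b| ≤ √p`) and `X ≥ 1` (if the set is nonempty).  The number of `w` with all `|w i| ≤ X` is at most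
`(2 X + 1)³ ≤ (3 X)³ = 216 M³/(p √p)`.  For given `w` every coordinate `u i` lies in
`{x | |x| ≤ M, b ∣ p w i - a x}`, which has at most `2 M/|b| + 1 ≤ 4 M/|b|` elements (T2 and
`|b| ≤ √p ≤ 2 M`), and `v = (p w - a u)/b` is determined: at most `64 M³/|b|³` pairs.
`216 * 64 = 13824`.  USES T2. -/
def St_T3 : Prop := ∀ p : ℕ, p.Prime → ∀ M : ℕ, 1 ≤ M → ∀ a b : ℤ, IsCoprime a b → |a| ≤ |b| →
  b ^ 2 ≤ p →
  (({z : (Fin 3 → ℤ) × (Fin 3 → ℤ) | z ∈ bx M ∧ (∀ i, (p : ℤ) ∣ a * z.1 i + b * z.2 i) ∧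
    a • z.1 + b • z.2 ≠ 0}.ncard : ℕ) : ℝ) ≤
    13824 * (M : ℝ) ^ 6 / ((p : ℝ) * Real.sqrt p * |(b : ℝ)| ^ 3)

/-- T4 (MEDIUM), pairs dependent modulo `p`.  For `z = (u, v)` in the set take `(a, b)` from T1; then
`a u + b v ≠ 0`, because otherwise (say `b ≠ 0`) `b • (u ⨯₃ v) = u ⨯₃ (b v) = -a • (u ⨯₃ u) = 0`.  If
`|a| ≤ |b|` then `z` is in the set of T3 for `(a, b)`, otherwise `(v, u)` is in the set of T3 for
`(b, a)`.  So the number is at most `2 ∑_(b ≠ 0, b² ≤ p) ∑_(|a| ≤ |b|) 13824 M⁶/(p √p |b|³)`, and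
`∑_(b ≠ 0) (2 |b| + 1)/|b|³ ≤ 2 ∑_(b ≥ 1) 3/b² ≤ 12` (`∑_(b = 1)^B 1/b² ≤ 2`);
`2 * 12 * 13824 = 331776`.  (All sets are subsets of the finite set `bx M`.)  USES T1 T3. -/
def St_T4 : Prop := ∀ p : ℕ, p.Prime → ∀ M : ℕ, 1 ≤ M →
  (({z : (Fin 3 → ℤ) × (Fin 3 → ℤ) | z ∈ bx M ∧ z.1 ⨯₃ z.2 ≠ 0 ∧
    ∀ i, (p : ℤ) ∣ (z.1 ⨯₃ z.2) i}.ncard : ℕ) : ℝ) ≤
    331776 * (M : ℝ) ^ 6 / ((p : ℝ) * Real.sqrt p)

/-- T5 (EASY-MEDIUM), the tail.  The coordinates of `z.1 ⨯₃ z.2 ≠ 0` are at most `2 M²` in absolute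
value, so `p ≤ 2 M²`; the set is contained in the union over the primes `p ∈ (G, 2 M²]` of the sets of
T4.  `1/(n √n) ≤ 2 (1/√(n-1) - 1/√n)` for `n ≥ 2` (`1/√(n-1) - 1/√n = 1/((√n + √(n-1)) √n √(n-1))` and
`(√n + √(n-1)) √(n-1) ≤ 2 n`), so `∑_(n > G) 1/(n √n) ≤ 2/√G` (telescoping).  `2 * 331776 = 663552`.
USES T4. -/
def St_T5 : Prop := ∀ G M : ℕ, 1 ≤ G → 1 ≤ M →
  (({z : (Fin 3 → ℤ) × (Fin 3 → ℤ) | z ∈ bx M ∧ z.1 ⨯₃ z.2 ≠ 0 ∧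
    ∃ p : ℕ, p.Prime ∧ G < p ∧ ∀ i, (p : ℤ) ∣ (z.1 ⨯₃ z.2) i}.ncard : ℕ) : ℝ) ≤
    663552 * (M : ℝ) ^ 6 / Real.sqrt G

/-- D1 (EASY-MEDIUM), dependent pairs modulo `p`.  Reduction mod `p` is a bijection from the pairs with
coordinates in `[0, p)` to the pairs `(u, v)` of vectors over `ZMod p`; count those with
`u ⨯₃ v = 0`: for `u = 0` there are `p³`; for `u ≠ 0`, say `u j ≠ 0`, `u j v i = u i v j` for all `i`,
so `v = (v j/u j) • u` is one of `p` multiples of `u`: at most `(p³ - 1) p`. -/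
def St_D1 : Prop := ∀ p : ℕ, p.Prime →
  ({z : (Fin 3 → ℤ) × (Fin 3 → ℤ) | (∀ i, (p : ℤ) ∣ (z.1 ⨯₃ z.2) i) ∧
    (∀ i, 0 ≤ z.1 i ∧ z.1 i < (p : ℤ)) ∧ ∀ i, 0 ≤ z.2 i ∧ z.2 i < (p : ℤ)}.ncard) ≤ p ^ 4 + p ^ 3

/-- D2 (EASY).  `p = 2` gives `3/8`, `p = 3` gives `4/27`; the other primes are odd `n ≥ 5`, where
`1/n² + 1/n³ ≤ (6/5)/n² ≤ (3/5) (1/(n-1) - 1/(n+1))`, and the sum of this over the odd `n ≥ 5` is at
most `(3/5) (1/4) = 3/20` (telescoping, `n = 2 k + 5`).  Total at most `3/8 + 4/27 + 3/20 < 3/4`. -/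
def St_D2 : Prop := ∀ G : ℕ, ∑ p ∈ (Finset.range (G + 1)).filter Nat.Prime,
  (1 / (p : ℝ) ^ 2 + 1 / (p : ℝ) ^ 3) ≤ 3 / 4

/-- D3 (MEDIUM), the densities.  Let `N` be the product of the primes up to `G`; the set of `z` with
`gd G z` is `N`-periodic.  `d G` = the number of its elements with coordinates in `[0, N)` divided by
`N⁶`; C5 is the limit.  Antitone: for a fixed body `D` of positive finite volume (the unit ball) the
counts for `G + 1` are at most those for `G`; compare the limits.  Lower bound: for the same `D`,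
`#{z ∈ dl D R, gd G z} ≥ #dl D R - ∑_(p ≤ G prime) #{z ∈ dl D R, p ∣ z.1 ⨯₃ z.2}`; divide by `R⁶`: C5 with
`N = 1`, `W = univ` and C5 with `N = p`, D1 give `d G ≥ 1 - ∑ (p⁴ + p³)/p⁶ ≥ 1/4` (D2).
USES C5 D1 D2. -/
def St_D3 : Prop := ∃ d : ℕ → ℝ, Antitone d ∧ (∀ G, 1 / 4 ≤ d G) ∧
  ∀ G : ℕ, ∀ D : Set ((Fin 3 → ℝ) × (Fin 3 → ℝ)), Body D →
  Tendsto (fun R : ℝ => (({z | z ∈ dl D R ∧ gd G z}.ncard : ℕ) : ℝ) / R ^ 6) atTop
    (𝓝 (d G * (volume D).toReal))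

/-- D4 (MEDIUM), the main count.  `c = ⨅ G, d G = lim d G ≥ 1/4`.  Let `D` be a body in the ball of
radius `κ ≥ 1`; for `R ≥ 1` all `z ∈ dl D R` are in `bx M`, `M = ⌈κ R⌉ ≤ 2 κ R`.  For `G ≥ 2`:
`{z ∈ dl D R | Prm (z.1 ⨯₃ z.2)} ⊆ {z ∈ dl D R | gd G z}`, and a `z` in the difference has
`z.1 ⨯₃ z.2 ≠ 0` (2 does not divide it) and a common non-unit divisor, so a common prime divisor, which
is `> G` as `gd G z`; T5 bounds the number of these by `C₀ R⁶/√G`, `C₀ = 663552 (2 κ)⁶`.  Hence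
`|#{..Prm..}/R⁶ - c vol D| ≤ |#{.. gd G ..}/R⁶ - d G vol D| + (d G - c) vol D + C₀/√G`.  Given `ε`
choose `G`, then `R` large.  USES D3 T5. -/
def St_D4 : Prop := ∃ c : ℝ, 0 < c ∧ ∀ D : Set ((Fin 3 → ℝ) × (Fin 3 → ℝ)), Body D →
  Tendsto (fun R : ℝ => (({z | z ∈ dl D R ∧ Prm (z.1 ⨯₃ z.2)}.ncard : ℕ) : ℝ) / R ^ 6) atTop
    (𝓝 (c * (volume D).toReal))

/-- D5 (EASY), few lines.  `S1 (R • K) ⊆ {z | toR z ∈ R • K}`, which is finite (bounded) and has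
`O(R³)` elements by C2 (`ι = Fin 3`): `#/R⁶ = (#/R³) (1/R³) → 0`.  USES C2. -/
def St_D5 : Prop := ∀ K : Set (Fin 3 → ℝ), Body K → (∀ R : ℝ, (S1 (R • K)).Finite) ∧
  Tendsto (fun R : ℝ => (((S1 (R • K)).ncard : ℕ) : ℝ) / R ^ 6) atTop (𝓝 0)

/-- D6 (EASY-MEDIUM), the two counts.  D4 for the bodies `K ×ˢ K` (volume `(vol K)²`,
`Measure.prod_prod`) and `tri K` (compact; convex; symmetric; contains a neighbourhood of `0`, as
`0 ∈ interior K`).  For `R > 0`: `P2 (R • K) = {z ∈ dl (K ×ˢ K) R | Prm ..}` and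
`Q2 (R • K) = {z ∈ dl (tri K) R | Prm ..}` (`x ∈ R • K ↔ R⁻¹ • x ∈ K`; `toR` is additive).
USES C1 D4. -/
def St_D6 : Prop := ∃ c : ℝ, 0 < c ∧ ∀ K : Set (Fin 3 → ℝ), Body K →
  Tendsto (fun R : ℝ => (((P2 (R • K)).ncard : ℕ) : ℝ) / R ^ 6) atTop
    (𝓝 (c * (volume K).toReal ^ 2)) ∧
  Tendsto (fun R : ℝ => (((Q2 (R • K)).ncard : ℕ) : ℝ) / R ^ 6) atTop
    (𝓝 (c * (volume (tri K)).toReal))

/-- D7 (EASY-MEDIUM), the limit of the slope.  `R • K` is convex and symmetric, `S1 (R • K)` finite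
(D5), so A3 applies for every `R`; `2 (A R).card = (S1 (R • K)).ncard` (A2), so the number of lines is
`o(R⁶)` (D5).  A5 with `P R = (P2 (R • K)).ncard`, `Q R = (Q2 (R • K)).ncard`, `p = c (vol K)²` (positive:
`K` has interior, compact) and `q = qq K ≤ 1` (`tri K ⊆ K ×ˢ K`), by D6.  USES A2 A3 A5 D5 D6. -/
def St_D7 : Prop := ∀ K : Set (Fin 3 → ℝ), Body K → ∀ A : ℝ → Finset (Str.PP ℚ),
  (∀ R L, L ∈ A R ↔ L ∈ lns (R • K)) →
  Tendsto (fun R => Str.slope (A R)) atTop (𝓝 ((6 - 2 * qq K) / (3 - 2 * qq K)))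

end Pool.Agent.Work.MP_b25393_ag.HF
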