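import Pool.Agent.Work.MP_b25393_ag.HF.StmtsR

/-!
# MP_b25393_ag, block HF: statements Q (equality only for ellipsoids)

Every docstring is the complete proof.
-/

set_option autoImplicit false

open scoped LinearAlgebra.Projectivization Pointwise Matrix RealInnerProductSpace ENNReal
open MeasureTheory Filter Topology Matrix TopologicalSpace

namespace Pool.Agent.Work.MP_b25393_ag.HF

open Pool.Agent.Work.MP_b25393_ag

/-- the fibres of `A` over the open set `O` are the intervals with centre `cc` and half length `ll` -/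
structure Fib (A : Set F3) (O : Set (Fin 2 → ℝ)) (cc ll : (Fin 2 → ℝ) → ℝ) : Prop where
  op : IsOpen O
  conv : Convex ℝ O
  zero : (0 : Fin 2 → ℝ) ∈ O
  cont_c : ContinuousOn cc O
  cont_l : ContinuousOn ll O
  pos : ∀ y ∈ O, 0 < ll y
  mem : ∀ y ∈ O, ∀ s : ℝ, (y, s) ∈ A ↔ |s - cc y| ≤ ll y
  conc : ∀ y ∈ O, ∀ y' ∈ O, (ll y + ll y') / 2 ≤ ll ((1 / 2 : ℝ) • (y + y'))
  out : ∀ z ∈ A, z ∈ closure {z' | z' ∈ A ∧ z'.1 ∈ O}
  null : volume {z | z ∈ A ∧ z.1 ∉ O} = 0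

/-- different directions are uncorrelated on `K` -/
def iso (K : Set E3) : Prop := ∀ u v : E3, ⟪u, v⟫ = 0 → ∫ x in K, ⟪u, x⟫ * ⟪v, x⟫ = 0

/-- Q1 (MEDIUM), strict inequality in G3.  Notation: `l i = (b i - a i)/2`, `m i = (a i + b i)/2`,
`c = m 2 - m 0 - m 1 ≠ 0`, `h x = volume {s | |s| ≤ l 0 ∧ |x - s| ≤ l 1}` (even, nonincreasing in `|x|`:
G1, values `≤ 2 l 0 < ∞`).  As in G3 the left side is `∫⁻ x in Icc (c - l 2) (c + l 2), h x`, the right
side `∫⁻ x in Icc (-l 2) (l 2), h x`; we may assume `c > 0` (`h` is even).  By the strict triangle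
inequalities `|l 0 - l 1| < l 2 < l 0 + l 1` there is `0 < δ < min c (l 2)` with `h x = l 0 + l 1 - |x|`
for `l 2 - δ ≤ |x| ≤ l 2 + δ`.  If `c < 2 l 2` then (G2) right minus left is
`∫_(Ioc (-l 2) (c - l 2)) (h x - h (x + 2 l 2))`, whose integrand is `≥ 0` and `= 2 s` at `x = -l 2 + s`,
`0 < s < δ`.  If `c ≥ 2 l 2` it is `∫_(Icc (-l 2) (l 2)) (h x - h (x + c))`, integrand `≥ 0` and at
`x = -l 2 + s`, `0 < s < δ`: `h (x + c) ≤ h (l 2 + s) < h x`.  So the difference is positive (all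
integrals are finite).  USES G1. -/
def St_Q1 : Prop := ∀ a b : Fin 3 → ℝ, (∀ i, a i < b i) →
  b 0 - a 0 < (b 1 - a 1) + (b 2 - a 2) → b 1 - a 1 < (b 0 - a 0) + (b 2 - a 2) →
  b 2 - a 2 < (b 0 - a 0) + (b 1 - a 1) → a 2 + b 2 ≠ (a 0 + b 0) + (a 1 + b 1) →
  volume {z : ℝ × ℝ | z.1 ∈ Set.Icc (a 0) (b 0) ∧ z.2 ∈ Set.Icc (a 1) (b 1) ∧
    z.1 + z.2 ∈ Set.Icc (a 2) (b 2)} <
  volume {z : ℝ × ℝ | |z.1| ≤ (b 0 - a 0) / 2 ∧ |z.2| ≤ (b 1 - a 1) / 2 ∧
    |z.1 + z.2| ≤ (b 2 - a 2) / 2}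

/-- Q2 (MEDIUM).  `P = Prod.fst '' A` is compact and convex, `O = interior P`.  `fst` is an open map, so
`fst '' interior A` is a nonempty open subset of `P`: `O` is nonempty, and symmetric and convex, so
`0 ∈ O`.  On `P` let `a y ≤ b y` be the endpoints of the fibre (G4).  `A` convex: `b` is concave and `a`
convex on `P`, so both are continuous on `O` (`ConcaveOn.continuousOn_interior`,
`ConvexOn.continuousOn_interior`).  `cc = (a + b)/2`, `ll = (b - a)/2`; `ll` is concave (`conc`).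
`pos`: `ll y₀ > 0` for some `y₀ ∈ P` (interior point of `A`), and every `y ∈ O` is
`(1 - θ) y₀ + θ y₁` with `y₁ ∈ P`, `θ < 1`, so `ll y ≥ (1 - θ) ll y₀ > 0`.  `out`: `A` is the closure of
its interior (convex, closed, nonempty interior), and `fst` maps the interior of `A` into `O`.
`null`: the set is contained in `(P \ O) × ℝ`, and `P \ O ⊆ frontier P` has measure zero
(`Convex.addHaar_frontier`).  USES G4. -/
def St_Q2 : Prop := ∀ A : Set F3, Body A → ∃ (O : Set (Fin 2 → ℝ)) (cc ll : (Fin 2 → ℝ) → ℝ),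
  Fib A O cc ll

/-- Q3 (MEDIUM).  As in G5, `volume (tri A) = ∫⁻ y, v y` and `volume (tri (sy A)) = ∫⁻ y, v' y` over
`y : (Fin 2 → ℝ) × (Fin 2 → ℝ)`, where `v y = volume {z : ℝ × ℝ | (y.1, z.1) ∈ A ∧ (y.2, z.2) ∈ A ∧
(y.1 + y.2, z.1 + z.2) ∈ A}`, `v'` the same for `sy A`, and `v ≤ v'` (G3, G4).  The integrals are equal
and finite (`A` is bounded), so `v = v'` almost everywhere.  Let `Bad` be the set of the `(y₁, y₂)` with
`y₁, y₂, y₁ + y₂ ∈ O`, the three strict inequalities, and `cc (y₁ + y₂) ≠ cc y₁ + cc y₂`; it is open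
(`O` is open and `cc`, `ll` are continuous on it), and `v < v'` on it by Q1 (intervals
`[cc - ll, cc + ll]`).  An open set of measure zero is empty.  USES G3 G4 Q1. -/
def St_Q3 : Prop := ∀ A : Set F3, Body A → volume (tri A) = volume (tri (sy A)) →
  ∀ (O : Set (Fin 2 → ℝ)) (cc ll : (Fin 2 → ℝ) → ℝ), Fib A O cc ll →
  ∀ y₁ ∈ O, ∀ y₂ ∈ O, y₁ + y₂ ∈ O → ll y₁ < ll y₂ + ll (y₁ + y₂) → ll y₂ < ll y₁ + ll (y₁ + y₂) →
  ll (y₁ + y₂) < ll y₁ + ll y₂ → cc (y₁ + y₂) = cc y₁ + cc y₂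

/-- Q4 (EASY-MEDIUM), locally additive functions.  `O` contains a ball around `0`; we may take `δ` so
small that the ball of radius `2 δ` is in `O`.  For `y` arbitrary let
`f y = 2^k cc (2^(-k) y)` for any `k` with `2^(-k) ‖y‖ < δ`: independent of `k` because
`cc y = 2 cc (y/2)` on `O`.  `f` is additive (take `k` large for `y`, `y'`, `y + y'`), and continuous
because it is continuous at `0` (`f = cc` near `0`), so real linear (`AddMonoidHom.toRealLinearMap`).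
For `y ∈ O` all `2^(-k) y ∈ O` (convex, `0 ∈ O`), so `cc y = 2^k cc (2^(-k) y) = f y`. -/
def St_Q4 : Prop := ∀ (O : Set (Fin 2 → ℝ)) (cc : (Fin 2 → ℝ) → ℝ), IsOpen O → Convex ℝ O →
  (0 : Fin 2 → ℝ) ∈ O → ContinuousOn cc O → (∀ y ∈ O, cc y = 2 * cc ((1 / 2 : ℝ) • y)) →
  (∃ δ : ℝ, 0 < δ ∧ ∀ y₁ y₂ : Fin 2 → ℝ, ‖y₁‖ < δ → ‖y₂‖ < δ → cc (y₁ + y₂) = cc y₁ + cc y₂) →
  ∃ f : (Fin 2 → ℝ) →ₗ[ℝ] ℝ, ∀ y ∈ O, cc y = f y

/-- Q5 (MEDIUM).  Take `O, cc, ll` from Q2.  For `y ∈ O` the point `y/2` is in `O`, and `conc` with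
`y' = 0` gives `2 ll (y/2) ≥ ll 0 + ll y > ll y`; so Q3 applies to `y₁ = y₂ = y/2` and
`cc y = 2 cc (y/2)`.  By continuity of `ll` at `0` all values of `ll` near `0` are in
`((2/3) ll 0, (4/3) ll 0)`, so Q3 applies to all small `y₁`, `y₂`.  Q4: `cc = f` on `O`, `f` linear,
`f y = ∑ i, f_i y i`.  Then (`null`, Fubini; everything bounded)
`0 = ∑ i, f_i ∫ z in A, z.1 i * z.2 = ∫ z in A, f z.1 * z.2 = ∫ y in O, f y * (2 ll y * f y)`
(`∫_(|s - c| ≤ l) s ds = 2 l c`); the integrand is nonnegative and continuous on the open set `O` and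
`ll > 0`, so `f = 0` on `O`.  So `(y, s) ∈ A ↔ (y, -s) ∈ A` for `y ∈ O` (`mem`), and `out` and
closedness of `A` give it everywhere.  USES Q2 Q3 Q4. -/
def St_Q5 : Prop := ∀ A : Set F3, Body A → volume (tri A) = volume (tri (sy A)) →
  (∀ i : Fin 2, ∫ z in A, z.1 i * z.2 = 0) → ∀ z ∈ A, (z.1, -z.2) ∈ A

/-- Q6 (EASY-MEDIUM).  Take `Ψ` from E2 and `A = Ψ '' K`, a body.  `volume (tri K) ≤
volume (tri (St e K))` and the volumes of `K` and `St e K` agree (E4); `St e K` is a body (E1; it is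
compact, convex, of positive volume, so it has interior), so by B3 `qq (St e K) ≤ 15/32 = qq K`: hence
`volume (tri K) = volume (tri (St e K))`, and E3 gives `volume (tri A) = volume (tri (sy A))`.  For
`i : Fin 2` let `b i = Ψ.symm (Pi.single i 1, 0)`; by the formula for the norm (polarised) `Ψ` preserves
the inner product, so `⟪b i, x⟫ = (Ψ x).1 i` and `⟪b i, e⟫ = 0`; so
`∫ z in A, z.1 i * z.2 = ∫ x in K, ⟪b i, x⟫ * ⟪e, x⟫ = 0` (`Ψ` is measure preserving; `iso`).  Q5 and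
`Ψ (x - (2 ⟪e, x⟫) • e) = ((Ψ x).1, -(Ψ x).2)`.  USES E1 E2 E3 E4 B3 Q5. -/
def St_Q6 : Prop := ∀ K : Set E3, Body K → qq K = 15 / 32 → iso K →
  ∀ e : E3, ‖e‖ = 1 → ∀ x ∈ K, x - (2 * ⟪e, x⟫) • e ∈ K

/-- Q7 (MEDIUM), isotropic position.  The bilinear form `B u v = ∫ x in K, ⟪u, x⟫ * ⟪v, x⟫` on `E3` is
symmetric and positive definite (if `B u u = 0` the continuous function `⟪u, x⟫²` vanishes on the
interior of `K`, so `u = 0`).  It has an orthogonal basis (`LinearMap.BilinForm.exists_orthogonal_basis`),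
after scaling `B (f i) (f j) = δ_ij`, `i j : Fin 3`.  `T x = (⟪f 0, x⟫, ⟪f 1, x⟫, ⟪f 2, x⟫)` is a linear
automorphism of `E3` (the `f i` are a basis), and by the change of variables
`∫ z in T '' K, z i * z j = |det T| ∫ x in K, ⟪f i, x⟫ ⟪f j, x⟫ = |det T| δ_ij`; so
`∫ z in T '' K, ⟪u, z⟫ ⟪v, z⟫ = |det T| ⟪u, v⟫`. -/
def St_Q7 : Prop := ∀ K : Set E3, Body K → ∃ T : E3 ≃L[ℝ] E3, iso (T '' K)

/-- Q8 (EASY-MEDIUM), linear invariance.  The image of a body under a linear homeomorphism is a body.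
`Measure.addHaar_image_continuousLinearEquiv` (or `..._linearMap`): `volume (T '' K) = |det T| volume K`;
`tri (T '' K)` is the image of `tri K` under `T × T`, of determinant `(det T)²` on `E × E` (or: by
Fubini; or use `Measure.prod` of the scaled measures: `map T volume = |det T|⁻¹ volume` and
`Measure.map_prod_map`). -/
def St_Q8 : Prop := ∀ (E : Type) [NormedAddCommGroup E] [NormedSpace ℝ E] [FiniteDimensional ℝ E]
  [MeasureSpace E] [BorelSpace E] [(volume : Measure E).IsAddHaarMeasure] (T : E ≃L[ℝ] E)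
  (K : Set E), Body K → Body (T '' K) ∧ qq (T '' K) = qq K

/-- Q9 (EASY-MEDIUM), the ellipsoids.  If: Q8 and B4.  Only if: identify `Fin 3 → ℝ` with `E3` (as in B4);
Q7 gives `T` with `iso (T '' K)`, `qq (T '' K) = 15/32` (Q8), Q6 and E6 show
`T '' K = closedBall 0 r`, `r > 0` (it has interior), so `K` is the image of the unit ball under
`T⁻¹ ∘ (r • ·)`.  USES E6 B3 B4 Q6 Q7 Q8. -/
def St_Q9 : Prop := ∀ K : Set (Fin 3 → ℝ), Body K →
  (qq K = 15 / 32 ↔ ∃ T : (Fin 3 → ℝ) ≃ₗ[ℝ] (Fin 3 → ℝ),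
    K = T '' {x : Fin 3 → ℝ | x 0 ^ 2 + x 1 ^ 2 + x 2 ^ 2 ≤ 1})

end Pool.Agent.Work.MP_b25393_ag.HF
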