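import Pool.Agent.Work.MP_b25393_ag.HF.StmtsC

/-!
# MP_b25393_ag, block HF: statements R (Riesz rearrangement for symmetric convex bodies in `ℝ³`)

Every docstring is the complete proof.
-/

set_option autoImplicit false

open scoped LinearAlgebra.Projectivization Pointwise Matrix RealInnerProductSpace ENNReal
open MeasureTheory Filter Topology Matrix TopologicalSpace

namespace Pool.Agent.Work.MP_b25393_ag.HF

open Pool.Agent.Work.MP_b25393_ag

/-! ## one variable -/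

/-- G1 (EASY).  The set is `Set.Icc (max (-l) (y - m)) (min l (y + m))`, of volume
`ofReal (min l (y + m) - max (-l) (y - m))`, and
`min l (y + m) - max (-l) (y - m) = min (min (2 l) (2 m)) (l + m - |y|)`, which is nonincreasing in
`|y|` (split the cases of `min`, `max`, `abs`; `linarith`). -/
def St_G1 : Prop := ∀ l m : ℝ, 0 ≤ l → 0 ≤ m → ∀ x y : ℝ, |x| ≤ |y| →
  volume {s : ℝ | |s| ≤ l ∧ |y - s| ≤ m} ≤ volume {s : ℝ | |s| ≤ l ∧ |x - s| ≤ m}

/-- G2 (EASY-MEDIUM).  `h` is even, so we may assume `0 ≤ c` (replace `x` by `-x`).  If `2 l ≤ c`: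
`∫_(Icc (c - l) (c + l)) h = ∫_(Icc (-l) l) h (x + c)` (translation) and `|x| ≤ l ≤ c - l ≤ x + c`, so
`h (x + c) ≤ h x`.  If `c < 2 l`: `Icc (c - l) (c + l) = Icc (c - l) l ∪ Ioc l (c + l)` and
`Icc (-l) l = Ico (-l) (c - l) ∪ Icc (c - l) l`; `∫_(Ioc l (c + l)) h = ∫_(Ioc (-l) (c - l)) h (x + 2 l)`
and `|x| ≤ |x + 2 l|` for `x ≥ -l`. -/
def St_G2 : Prop := ∀ h : ℝ → ℝ≥0∞, Measurable h → (∀ x y : ℝ, |x| ≤ |y| → h y ≤ h x) →
  ∀ c l : ℝ, 0 ≤ l → ∫⁻ x in Set.Icc (c - l) (c + l), h x ≤ ∫⁻ x in Set.Icc (-l) l, h x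

/-- G3 (MEDIUM), the one-dimensional Riesz inequality for three intervals.  Let `m i`, `l i` be the
midpoint and half the length of `[a i, b i]`.  The shear `(s, t) ↦ (s, s + t)` preserves the volume
(`measurePreserving_prod_add`, or translation in each fibre) and Fubini gives: the left side is
`∫⁻ x in Icc (a 2) (b 2), volume {s | s ∈ Icc (a 0) (b 0) ∧ x - s ∈ Icc (a 1) (b 1)}`, the right side
`∫⁻ x in Icc (-l 2) (l 2), h x` with `h x = volume {s | |s| ≤ l 0 ∧ |x - s| ≤ l 1}`.  The inner set on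
the left is the translate by `m 0` of `{s | |s| ≤ l 0 ∧ |(x - m 0 - m 1) - s| ≤ l 1}`, so the left side
is `∫⁻ x in Icc (c - l 2) (c + l 2), h x` with `c = m 2 - m 0 - m 1` (translation).  G2, whose hypothesis
is G1 (`h` is measurable: antitone in `|x|`, or `Measure.measurable_measure_prodMk_left`).
USES G1 G2. -/
def St_G3 : Prop := ∀ a b : Fin 3 → ℝ, (∀ i, a i ≤ b i) →
  volume {z : ℝ × ℝ | z.1 ∈ Set.Icc (a 0) (b 0) ∧ z.2 ∈ Set.Icc (a 1) (b 1) ∧
    z.1 + z.2 ∈ Set.Icc (a 2) (b 2)} ≤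
  volume {z : ℝ × ℝ | |z.1| ≤ (b 0 - a 0) / 2 ∧ |z.2| ≤ (b 1 - a 1) / 2 ∧
    |z.1 + z.2| ≤ (b 2 - a 2) / 2}

/-! ## symmetrisation of the fibres in `(Fin 2 → ℝ) × ℝ` -/

/-- G4 (EASY-MEDIUM), the fibres.  `{s | (y, s) ∈ A}` is compact and convex, so empty or
`Icc a b` (`a = sInf`, `b = sSup`); `(y, t) ∈ sy A` iff `t = (s' - s)/2` with `s, s' ∈ Icc a b`, iff
`|t| ≤ (b - a)/2`.  `sy A` is the image of the compact convex set
`{(z, z') ∈ A ×ˢ A | z.1 = z'.1}` under the continuous linear map `(z, z') ↦ (z.1, (z'.2 - z.2)/2)`. -/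
def St_G4 : Prop := ∀ A : Set F3, IsCompact A → Convex ℝ A →
  IsCompact (sy A) ∧ Convex ℝ (sy A) ∧
  ∀ y : Fin 2 → ℝ, ((∀ s : ℝ, (y, s) ∉ A) ∧ ∀ s : ℝ, (y, s) ∉ sy A) ∨
    ∃ a b : ℝ, a ≤ b ∧ (∀ s : ℝ, (y, s) ∈ A ↔ s ∈ Set.Icc a b) ∧
      ∀ t : ℝ, (y, t) ∈ sy A ↔ |t| ≤ (b - a) / 2

/-- G5 (MEDIUM), Riesz step.  `F3 × F3 = ((Fin 2 → ℝ) × ℝ) × ((Fin 2 → ℝ) × ℝ)`.  Rearranging the
coordinates (a measure preserving map, e.g. built from `prodProdProdComm`) and Fubini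
(`Measure.prod_apply`): `volume (tri A) = ∫⁻ y : (Fin 2 → ℝ) × (Fin 2 → ℝ),
volume {z : ℝ × ℝ | (y.1, z.1) ∈ A ∧ (y.2, z.2) ∈ A ∧ (y.1 + y.2, z.1 + z.2) ∈ A}` and the same for `sy A`
(both compact, so measurable).  For each `y`, if one of the three fibres of `A` (over `y.1`, `y.2`,
`y.1 + y.2`) is empty then both inner volumes are 0 (G4), otherwise G3 with the three intervals of G4.
USES G3 G4. -/
def St_G5 : Prop := ∀ A : Set F3, IsCompact A → Convex ℝ A →
  volume (tri A) ≤ volume (tri (sy A))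

/-- G6 (EASY-MEDIUM).  Fubini: `∫⁻ z in A, g z.1 = ∫⁻ y, g y * volume {s | (y, s) ∈ A}` and the same for
`sy A`; the fibres have the same length `b - a` (or are both empty) by G4.  (`A`, `sy A` are
compact, so measurable; `lintegral_prod` for the function `A.indicator (fun z => g z.1)`.)
USES G4. -/
def St_G6 : Prop := ∀ A : Set F3, IsCompact A → Convex ℝ A →
  ∀ g : (Fin 2 → ℝ) → ℝ≥0∞, Measurable g →
  ∫⁻ z in sy A, g z.1 = ∫⁻ z in A, g z.1

/-- G7 (MEDIUM), the second moment.  Fubini: `∫⁻ z in A, ofReal (z.2 ^ 2) = ∫⁻ y, M y` with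
`M y = ∫⁻ s in {s | (y, s) ∈ A}, ofReal (s ^ 2)`, and `M' y` for `sy A`.  For a fibre `[c - l, c + l]`
(G4): `M y = ofReal (2 l³/3 + 2 l c²)`, `M' y = ofReal (2 l³/3)`; so `M' ≤ M`, which is the
inequality.  Equality: the integrals are finite (`A` is bounded), so `M = M'` almost everywhere, so for
almost every `y` with nonempty fibre `l c² = 0`.  The fibre over `y` of
`A \ {z | (z.1, -z.2) ∈ A}` is `[c - l, c + l] \ [-c - l, -c + l]`: empty if `c = 0`, of measure 0 if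
`l = 0`.  So the volume of this set is 0 by Fubini.  USES G4. -/
def St_G7 : Prop := ∀ A : Set F3, IsCompact A → Convex ℝ A →
  (∫⁻ z in sy A, ENNReal.ofReal (z.2 ^ 2) ≤ ∫⁻ z in A, ENNReal.ofReal (z.2 ^ 2)) ∧
  (∫⁻ z in sy A, ENNReal.ofReal (z.2 ^ 2) = ∫⁻ z in A, ENNReal.ofReal (z.2 ^ 2) →
    volume (A \ {z | (z.1, -z.2) ∈ A}) = 0)

/-! ## Steiner symmetrisation -/

/-- E1 (EASY-MEDIUM).  `St e K` is the image of `{(k, k') ∈ K ×ˢ K | π k = π k'}`,
`π x = x - ⟪e, x⟫ • e`, under the continuous linear map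
`(k, k') ↦ π k + ((⟪e, k'⟫ - ⟪e, k⟫)/2) • e`: compact, convex, nonempty (`k = k'`).  Symmetric: use
`(-k, -k')`.  In the ball: `π k` is orthogonal to `e`, so with `s = ⟪e, k⟫`, `s' = ⟪e, k'⟫`:
`‖y‖² = ‖π k‖² + ((s' - s)/2)² ≤ ‖π k‖² + max (s²) (s'²) = max (‖k‖²) (‖k'‖²) ≤ ρ²`. -/
def St_E1 : Prop := ∀ e : E3, ‖e‖ = 1 → ∀ K : Set E3, IsCompact K → Convex ℝ K → K.Nonempty →
  IsCompact (St e K) ∧ Convex ℝ (St e K) ∧ (St e K).Nonempty ∧
  ((∀ x ∈ K, -x ∈ K) → ∀ x ∈ St e K, -x ∈ St e K) ∧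
  (∀ ρ : ℝ, 0 ≤ ρ → K ⊆ Metric.closedBall 0 ρ → St e K ⊆ Metric.closedBall 0 ρ)

/-- E2 (EASY-MEDIUM), adapted coordinates.  Extend `e` to an orthonormal basis `b` of `E3` indexed by
`Fin 3` with `b 2 = e` (`Orthonormal.exists_orthonormalBasis_extension_of_card_eq` or similar).
`Ψ x = (![⟪b 0, x⟫, ⟪b 1, x⟫], ⟪b 2, x⟫)`.  It is the composition of `b.repr` (a linear isometry
equivalence, measure preserving), of the identification of `EuclideanSpace ℝ (Fin 3)` with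
`Fin 3 → ℝ` (`EuclideanSpace.volume_preserving_symm_measurableEquiv_toLp`) and of the measure
preserving splitting off of the last coordinate (`volume_preserving_piFinSuccAbove` with `Fin.last 2`,
and swap).  `Ψ e = (0, 1)` and the formula for the norm by orthonormality
(`OrthonormalBasis.sum_sq_norm_inner_right` or `EuclideanSpace.norm_sq_eq`). -/
def St_E2 : Prop := ∀ e : E3, ‖e‖ = 1 → ∃ Ψ : E3 ≃L[ℝ] F3, Adp e Ψ

/-- E3 (EASY-MEDIUM), transport.  (1) `Ψ (k - ⟪e, k⟫ • e) = ((Ψ k).1, 0)` and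
`⟪e, k⟫ = (Ψ k).2`; so `k - ⟪e, k⟫ • e = k' - ⟪e, k'⟫ • e` iff `(Ψ k).1 = (Ψ k').1`, and
`Ψ y = ((Ψ k).1, ((Ψ k').2 - (Ψ k).2)/2)`.  (2) and (4): measure preserving (`K` compact; `Ψ` is a
measurable equivalence).  (3) the map `(x, y) ↦ (Ψ x, Ψ y)` is measure preserving and
`tri (Ψ '' K)` is the image of `tri K` (`Ψ` is linear and injective). -/
def St_E3 : Prop := ∀ (e : E3) (Ψ : E3 ≃L[ℝ] F3), Adp e Ψ → ∀ K : Set E3, IsCompact K →
  Ψ '' St e K = sy (Ψ '' K) ∧ volume (Ψ '' K) = volume K ∧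
  volume (tri (Ψ '' K)) = volume (tri K) ∧
  ∀ f : F3 → ℝ≥0∞, Measurable f → ∫⁻ z in Ψ '' K, f z = ∫⁻ x in K, f (Ψ x)

/-- E4 (EASY-MEDIUM), Steiner symmetrisation.  Take `Ψ` from E2 and transport by E3 (for `K` and for
`St e K`, which is compact by E1).  Volume: G6 with `g = 1`.  `tri`: G5.  Moment:
`‖x‖² = (y₀² + y₁²) + t²` for `Ψ x = (y, t)`; the integral of the first part does not change (G6 with
`g y = ofReal (y 0 ^ 2 + y 1 ^ 2)`), that of the second does not increase (G7).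
USES E1 E2 E3 G5 G6 G7. -/
def St_E4 : Prop := ∀ e : E3, ‖e‖ = 1 → ∀ K : Set E3, IsCompact K → Convex ℝ K → K.Nonempty →
  volume (St e K) = volume K ∧ volume (tri K) ≤ volume (tri (St e K)) ∧
  ∫⁻ x in St e K, ENNReal.ofReal (‖x‖ ^ 2) ≤ ∫⁻ x in K, ENNReal.ofReal (‖x‖ ^ 2)

/-- E5 (MEDIUM), equality.  As in E4 the equality of the moments (all finite, the first parts are equal
and finite) gives equality in G7 for `A = Ψ '' K`, so `A \ A'` has volume 0, where
`A' = {z | (z.1, -z.2) ∈ A}` is compact.  Then `A ⊆ A'`: if `x ∈ A \ A'`, a ball `B` around `x` misses the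
closed set `A'`; `x` is in the closure of the interior of the convex set `A` with nonempty interior, so
`B ∩ interior A` is nonempty and open, of positive volume, and contained in `A \ A'`.  Finally
`Ψ (x - (2 ⟪e, x⟫) • e) = ((Ψ x).1, -(Ψ x).2)`.  USES E1 E2 E3 G6 G7. -/
def St_E5 : Prop := ∀ e : E3, ‖e‖ = 1 → ∀ K : Set E3, IsCompact K → Convex ℝ K →
  (interior K).Nonempty →
  ∫⁻ x in St e K, ENNReal.ofReal (‖x‖ ^ 2) = ∫⁻ x in K, ENNReal.ofReal (‖x‖ ^ 2) →
  ∀ x ∈ K, x - (2 * ⟪e, x⟫) • e ∈ K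

/-- E6 (EASY), all reflections.  Let `x₀ ∈ K` have maximal norm `r`.  Every `y` with `‖y‖ = r` is in `K`:
`y = x₀`, or `y = x₀ - (2 ⟪e, x₀⟫) • e` with `e = (x₀ - y)/‖x₀ - y‖`
(`2 ⟪x₀, x₀ - y⟫ = ‖x₀ - y‖²` because `‖x₀‖ = ‖y‖`).  If `‖y‖ < r`: for `y ≠ 0` it is a convex combination
of `±(r/‖y‖) • y`, for `y = 0` the midpoint of `x₀` and `-x₀`.  So `K = closedBall 0 r`. -/
def St_E6 : Prop := ∀ K : Set E3, IsCompact K → Convex ℝ K → K.Nonempty →
  (∀ e : E3, ‖e‖ = 1 → ∀ x ∈ K, x - (2 * ⟪e, x⟫) • e ∈ K) →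
  ∃ r : ℝ, 0 ≤ r ∧ K = Metric.closedBall 0 r

/-! ## the space of compact sets -/

/-- H1 (EASY).  Given `μ K < c` choose an open `U ⊇ K` with `μ U < c` (`Set.exists_isOpen_lt_of_lt`,
`IsCompact.exists_isOpen_lt_of_lt`: `μ` is outer regular); `{L | L ⊆ U}` is a neighbourhood of `K`
(`NonemptyCompacts.isOpen_subsets_of_isOpen`) and `μ L ≤ μ U < c` there. -/
def St_H1 : Prop := ∀ μ : Measure E3, IsFiniteMeasureOnCompacts μ →
  UpperSemicontinuous (fun K : NonemptyCompacts E3 => μ (K : Set E3))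

/-- H2 (EASY-MEDIUM).  Given `volume (tri K) < c` choose an open `W ⊇ tri K` with `volume W < c`
(`tri K` is compact).  The sets `T_δ = tri (Metric.cthickening δ K)`, `δ > 0`, are compact, decrease with
`δ` and their intersection is `tri K` (`K` is closed); so `T_δ ⊆ W` for some `δ > 0` (compactness).
`{L | L ⊆ Metric.thickening δ K}` is a neighbourhood of `K` and there
`volume (tri L) ≤ volume W < c`. -/
def St_H2 : Prop := UpperSemicontinuous (fun K : NonemptyCompacts E3 => volume (tri (K : Set E3)))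

/-- H3 (MEDIUM), the sandwich.  Let `closedBall 0 r ⊆ K`, `r > 0` (C1 (1)), and let
`ε = η r`.  For `L` near `K` (`dist L K < ε`, Hausdorff distance) every `y ∈ K` has a point of `L` at
distance `< ε`.  Suppose `L` is convex and `x ∈ K`, `(1 - η) • x ∉ L`.  Separation (`L` closed, convex):
a continuous linear `f` and `u` with `f z < u < f ((1 - η) • x)` for all `z ∈ L`.  Let
`S = sup_K f` (attained).  `S ≥ r ‖f‖` as the ball is in `K`, and `S ≤ u + ε ‖f‖ = u + η r ‖f‖ ≤ u + η S`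
(approximate the maximum point by a point of `L`), so `(1 - η) S ≤ u < (1 - η) f x ≤ (1 - η) S`, a
contradiction.  USES C1. -/
def St_H3 : Prop := ∀ K : NonemptyCompacts E3, Body (K : Set E3) → ∀ η : ℝ, 0 < η → η < 1 →
  ∀ᶠ L : NonemptyCompacts E3 in 𝓝 K, Convex ℝ (L : Set E3) →
    (1 - η) • (K : Set E3) ⊆ (L : Set E3)

/-- H4 (EASY-MEDIUM).  Convex: let `K` be not convex: `x, y ∈ K`, `a, b ≥ 0`, `a + b = 1`,
`z = a • x + b • y ∉ K`.  Choose disjoint open `U ⊇ K`, `W ∋ z`, and open `U₁ ∋ x`, `U₂ ∋ y` with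
`a • x' + b • y' ∈ W` for `x' ∈ U₁`, `y' ∈ U₂`.  The set of the `L` with `L ⊆ U`, `L ∩ U₁` and `L ∩ U₂`
nonempty is an open neighbourhood of `K` (`NonemptyCompacts.isOpen_subsets_of_isOpen`,
`isOpen_inter_nonempty_of_isOpen`) and contains no convex set.  Symmetric: the same with `x ∈ K`,
`-x ∉ K`.  (Or use that limits in the Hausdorff distance of such sets are such sets.) -/
def St_H4 : Prop := IsClosed {K : NonemptyCompacts E3 | Convex ℝ (K : Set E3)} ∧
  IsClosed {K : NonemptyCompacts E3 | ∀ x ∈ (K : Set E3), -x ∈ (K : Set E3)}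

/-- H5 (EASY-MEDIUM).  A convex set with empty interior is contained in its frontier
(it is closed), which has measure zero (`Convex.addHaar_frontier`).  So if the volume of `K` is positive
then `K` is a body.  `Z` = the set of the `K` that are convex, symmetric, in the ball, with
`V ≤ volume K` is compact: `{K | K ⊆ closedBall 0 ρ}` is compact
(`NonemptyCompacts.isCompact_subsets_of_isCompact`), the others are closed (H4, H1).  If `K ∈ Z` and
`V < volume K` then for small `η` also `V < (1 - η)³ volume K ≤ volume L` for all `L ∈ Z` near `K` (H3,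
`Measure.addHaar_smul`): so `XX ρ V` is closed in `Z`, and compact.  USES H1 H3 H4. -/
def St_H5 : Prop := ∀ (ρ : ℝ) (V : ℝ≥0∞), 0 < V → V ≠ ⊤ →
  IsCompact (XX ρ V) ∧ ∀ K ∈ XX ρ V, Body (K : Set E3)

/-- H6 (EASY), a maximiser.  The function `K ↦ volume (tri K) + ε * nu ρ K` is upper semicontinuous
(H2; H1 for the measure `ε • nu ρ`, which is finite on compact sets: its density is at most
`ε ρ²`); `UpperSemicontinuousOn.exists_isMaxOn` on the compact set `XX ρ V`.  USES H1 H2 H5. -/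
def St_H6 : Prop := ∀ (ρ : ℝ) (V ε : ℝ≥0∞), 0 < V → V ≠ ⊤ → ε ≠ ⊤ → (XX ρ V).Nonempty →
  ∃ K ∈ XX ρ V, ∀ L ∈ XX ρ V,
    volume (tri (L : Set E3)) + ε * nu ρ (L : Set E3) ≤
      volume (tri (K : Set E3)) + ε * nu ρ (K : Set E3)

/-- H7 (MEDIUM), the maximiser is a ball.  Let `e` be a unit vector and `L = St e K`, an element of
`XX ρ V` (E1, E4; `0 ≤ ρ` because `K` is nonempty in the ball).  For every compact `M` in the ball
`nu ρ M + ∫⁻ x in M, ofReal (‖x‖²) = ofReal (ρ²) * volume M` (add the densities); as the volumes of `K`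
and `L` agree and the moment of `L` is at most that of `K` (E4), `nu ρ K ≤ nu ρ L`.  Also
`volume (tri K) ≤ volume (tri L)`.  Everything is finite and `K` is a maximiser, `0 < ε < ∞`, so
`nu ρ K = nu ρ L`, so the moments are equal, so `K` is invariant under the reflection (E5; `K` is a body
by H5).  E6.  USES E1 E4 E5 E6 H5. -/
def St_H7 : Prop := ∀ (ρ : ℝ) (V ε : ℝ≥0∞), 0 < V → V ≠ ⊤ → 0 < ε → ε ≠ ⊤ → ∀ K ∈ XX ρ V,
  (∀ L ∈ XX ρ V, volume (tri (L : Set E3)) + ε * nu ρ (L : Set E3) ≤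
      volume (tri (K : Set E3)) + ε * nu ρ (K : Set E3)) →
  ∃ r : ℝ, 0 ≤ r ∧ (K : Set E3) = Metric.closedBall 0 r

/-- H8 (EASY-MEDIUM), Riesz's inequality for a symmetric convex body.  Let `V = volume K`
(positive, finite) and `ρ ≥ 0` with `K ⊆ closedBall 0 ρ`; `XX ρ V` contains `K`.  For every
`0 < ε < ∞` H6 and H7 give a ball of volume `V` that maximises; as the volume of balls determines the
radius (`Measure.addHaar_closedBall`), it is `closedBall 0 r`.  So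
`volume (tri K) ≤ volume (tri (closedBall 0 r)) + ε * nu ρ (closedBall 0 r)` for all `ε > 0`, and
`nu ρ (closedBall 0 r) < ∞`; let `ε → 0`.  USES H6 H7. -/
def St_H8 : Prop := ∀ K : Set E3, Body K → ∀ r : ℝ, 0 ≤ r →
  volume K = volume (Metric.closedBall (0 : E3) r) →
  volume (tri K) ≤ volume (tri (Metric.closedBall (0 : E3) r))

/-! ## the ball -/

/-- B1 (MEDIUM), the volume of a lens.  Let `d = ‖w‖`.  For `d > 0` take `e = w/d` and `Ψ` from E2: the
set corresponds to `{(y, t) | |y|² + t² ≤ 1 ∧ |y|² + (t - d)² ≤ 1}` (`|y|² = y 0 ^ 2 + y 1 ^ 2`); for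
`d = 0` use any unit vector `e`.  Fubini over `t`: the section is the disc `|y|² ≤ 1 - t²` for
`t ≥ d/2` and `|y|² ≤ 1 - (t - d)²` for `t ≤ d/2`, of area `π (1 - t²)` for `t ∈ [d/2, 1]` and
`π (1 - (t - d)²)` for `t ∈ [d - 1, d/2]` and empty or a point otherwise.  (Area of the disc
`{y : Fin 2 → ℝ | y 0 ^ 2 + y 1 ^ 2 ≤ a}` = `π a` for `a ≥ 0`: Mathlib `EuclideanSpace.volume_closedBall_fin_two`
or `Complex.volume_closedBall` or `volume_regionBetween`.)  Both halves give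
`π ∫_(d/2)^1 (1 - t²) dt = π (2/3 - d/2 + d³/24)`, total `(4 π/3) (1 - 3 d/4 + d³/16)`.  USES E2. -/
def St_B1 : Prop := ∀ w : E3, ‖w‖ ≤ 2 → volume {u : E3 | ‖u‖ ≤ 1 ∧ ‖w - u‖ ≤ 1} =
  ENNReal.ofReal (4 * Real.pi / 3 * (1 - 3 * ‖w‖ / 4 + ‖w‖ ^ 3 / 16))

/-- B2 (MEDIUM), `tri` of the unit ball.  The shear `(u, v) ↦ (u, u + v)` preserves the volume and Fubini:
`volume (tri B) = ∫⁻ w in B, volume {u | ‖u‖ ≤ 1 ∧ ‖w - u‖ ≤ 1}`, `B = closedBall 0 1`, and by B1 this is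
`∫ w in B, φ ‖w‖`, `φ s = (4 π/3) (1 - 3 s/4 + s³/16)`.  Radial integration
(`integral_fun_norm_addHaar` with `f s = if s ≤ 1 then φ s else 0`, `dim = 3`, volume of the unit ball
`4 π/3`: `InnerProductSpace.volume_ball_of_dim_odd` or `EuclideanSpace.volume_ball_fin_three`):
`3 (4 π/3) ∫_0^1 s² φ(s) ds = 3 (4 π/3)² (1/3 - 3/16 + 1/96) = (4 π/3)² (15/32)`.  USES B1. -/
def St_B2 : Prop := volume (tri (Metric.closedBall (0 : E3) 1)) =
  ENNReal.ofReal (15 / 32 * (4 * Real.pi / 3) ^ 2)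

/-- B3 (EASY-MEDIUM), the constant.  `volume (closedBall 0 r) = ofReal (r³ * 4 π/3)`; choose `r > 0` with
this equal to `volume K`.  `tri (closedBall 0 r) = r • tri (closedBall 0 1)` in `E3 × E3`, of real
dimension 6, so its volume is `r⁶` times that of B2 (`Measure.addHaar_smul`): the ratio
`volume (tri) / volume²` is `15/32` for every ball of radius `r > 0`.  H8.  USES B2 H8. -/
def St_B3 : Prop := (∀ K : Set E3, Body K → qq K ≤ 15 / 32) ∧
  ∀ r : ℝ, 0 < r → qq (Metric.closedBall (0 : E3) r) = 15 / 32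

/-- B4 (EASY-MEDIUM), back to `Fin 3 → ℝ`.  The identification of `E3` with `Fin 3 → ℝ` is a linear
homeomorphism and preserves the volume (`EuclideanSpace.volume_preserving_symm_measurableEquiv_toLp`),
and its square preserves the volume on pairs; so `Body` and `qq` are preserved; the second set
corresponds to the closed unit ball (`EuclideanSpace.norm_eq`).  USES B3. -/
def St_B4 : Prop := (∀ K : Set (Fin 3 → ℝ), Body K → qq K ≤ 15 / 32) ∧
  Body {x : Fin 3 → ℝ | x 0 ^ 2 + x 1 ^ 2 + x 2 ^ 2 ≤ 1} ∧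
  qq {x : Fin 3 → ℝ | x 0 ^ 2 + x 1 ^ 2 + x 2 ^ 2 ≤ 1} = 15 / 32

end Pool.Agent.Work.MP_b25393_ag.HF
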